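import Pool.Agent.Lib.MP_c17912_pr.Defs

set_option autoImplicit false

open MeasureTheory ProbabilityTheory Filter
open scoped NNReal ENNReal Topology

namespace Pool.Agent.SLE

noncomputable section

variable {Ω : Type*} [MeasurableSpace Ω] {μ : Measure Ω} {a b c K : ℝ} {W : ℝ → Ω → ℂ}

namespace DrvSubAux

/-- The time change in `subP`. -/
def tm (s r t : ℝ) : ℝ := s + r ^ 2 * max t 0

omit [MeasurableSpace Ω] in
theorem subP_sub (s r t t' : ℝ) (ω : Ω) :
    subP W s r t ω - subP W s r t' ω = r⁻¹ • (W (tm s r t) ω - W (tm s r t') ω) := by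
  simp only [subP, psub, tm, ← smul_sub]
  congr 1
  ring

theorem tm_zero (s r : ℝ) : tm s r 0 = s := by simp [tm]

theorem tm_mono (s r : ℝ) : Monotone (tm s r) := fun x y hxy => by
  unfold tm
  have := max_le_max hxy (le_refl (0 : ℝ))
  nlinarith [sq_nonneg r]

theorem le_tm (s r t : ℝ) : s ≤ tm s r t := by
  unfold tm
  have : 0 ≤ r ^ 2 * max t 0 := by positivity
  linarith

theorem tm_sub {s r t t' : ℝ} (ht : 0 ≤ t) (ht' : 0 ≤ t') :
    tm s r t - tm s r t' = r ^ 2 * (t - t') := by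
  simp only [tm, max_eq_left ht, max_eq_left ht']
  ring

omit [MeasurableSpace Ω] in
theorem meas_Blk {s t u : ℝ} (hu : u ∈ Set.Icc s t) :
    Measurable[Blk W s t] (fun ω => W u ω - W s ω) := by
  rw [measurable_iff_comap_le]
  exact le_iSup (fun r : Set.Icc s t =>
    MeasurableSpace.comap (fun ω => W r ω - W s ω) inferInstance) ⟨u, hu⟩

omit [MeasurableSpace Ω] in
theorem meas_Fut {s u : ℝ} (hu : s ≤ u) :
    Measurable[Fut W s] (fun ω => W u ω - W s ω) := by
  rw [measurable_iff_comap_le]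
  exact le_iSup (fun r : Set.Ici s =>
    MeasurableSpace.comap (fun ω => W r ω - W s ω) inferInstance) ⟨u, hu⟩

end DrvSubAux

open DrvSubAux

/-- B1 DRV. -/
theorem Drv.sub (hW : Drv a b c K W μ) {s r : ℝ} (hs : 0 ≤ s) (hr : 0 < r) :
    Drv a b c K (subP W s r) μ where
  a_nonneg := hW.a_nonneg
  b_nonneg := hW.b_nonneg
  c_sq := hW.c_sq
  K_nonneg := hW.K_nonneg
  meas t := by
    show Measurable fun ω => r⁻¹ • (W (s + r ^ 2 * max t 0) ω - W s ω)
    exact ((hW.meas _).sub (hW.meas _)).const_smul r⁻¹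
  zero t ht ω := by simp [subP, psub, max_eq_right ht]
  cont ω := by
    unfold subP psub
    have h := hW.cont ω
    fun_prop
  indep := by
    intro n t ht
    have h := (hW.indep n (fun i => tm s r (t i)) ((tm_mono s r).comp ht)).comp
      (fun _ z => r⁻¹ • z) (fun _ => measurable_const_smul _)
    have e : (fun (i : Fin n) ω => subP W s r (t i.succ) ω - subP W s r (t i.castSucc) ω)
        = fun i => (fun z : ℂ => r⁻¹ • z) ∘
          (fun ω => W (tm s r (t i.succ)) ω - W (tm s r (t i.castSucc)) ω) := by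
      funext i ω
      rw [subP_sub]
      rfl
    rw [e]
    exact h
  int4 t' t ht' htt := by
    have h := (hW.int4 (tm s r t') (tm s r t) (hs.trans (le_tm s r t'))
      (tm_mono s r htt)).const_mul (r⁻¹ ^ 4)
    refine h.congr (Eventually.of_forall fun ω => ?_)
    simp only [subP_sub, norm_smul, mul_pow, norm_inv, Real.norm_eq_abs, abs_of_pos hr]
  m1x t' t ht' htt := by
    have h := hW.m1x (tm s r t') (tm s r t) (hs.trans (le_tm s r t')) (tm_mono s r htt)
    simp only [subP_sub, Complex.smul_re, smul_eq_mul]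
    rw [integral_const_mul, h, mul_zero]
  m1y t' t ht' htt := by
    have h := hW.m1y (tm s r t') (tm s r t) (hs.trans (le_tm s r t')) (tm_mono s r htt)
    simp only [subP_sub, Complex.smul_im, smul_eq_mul]
    rw [integral_const_mul, h, mul_zero]
  m2x t' t ht' htt := by
    have h := hW.m2x (tm s r t') (tm s r t) (hs.trans (le_tm s r t')) (tm_mono s r htt)
    simp only [subP_sub, Complex.smul_re, smul_eq_mul, mul_pow]
    rw [integral_const_mul, h, tm_sub (ht'.trans htt) ht']
    field_simp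
  m2y t' t ht' htt := by
    have h := hW.m2y (tm s r t') (tm s r t) (hs.trans (le_tm s r t')) (tm_mono s r htt)
    simp only [subP_sub, Complex.smul_im, smul_eq_mul, mul_pow]
    rw [integral_const_mul, h, tm_sub (ht'.trans htt) ht']
    field_simp
  m2c t' t ht' htt := by
    have h := hW.m2c (tm s r t') (tm s r t) (hs.trans (le_tm s r t')) (tm_mono s r htt)
    simp only [subP_sub, Complex.smul_im, Complex.smul_re, smul_eq_mul]
    have e : ∀ ω, r⁻¹ * (W (tm s r t) ω - W (tm s r t') ω).re *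
        (r⁻¹ * (W (tm s r t) ω - W (tm s r t') ω).im)
        = r⁻¹ ^ 2 * ((W (tm s r t) ω - W (tm s r t') ω).re
          * (W (tm s r t) ω - W (tm s r t') ω).im) := fun ω => by ring
    simp only [e]
    rw [integral_const_mul, h, tm_sub (ht'.trans htt) ht']
    field_simp
  m4 t' t ht' htt := by
    have h := hW.m4 (tm s r t') (tm s r t) (hs.trans (le_tm s r t')) (tm_mono s r htt)
    simp only [subP_sub, norm_smul, mul_pow, norm_inv, Real.norm_eq_abs, abs_of_pos hr]
    rw [integral_const_mul]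
    rw [tm_sub (ht'.trans htt) ht'] at h
    calc r⁻¹ ^ 4 * ∫ ω, ‖W (tm s r t) ω - W (tm s r t') ω‖ ^ 4 ∂μ
        ≤ r⁻¹ ^ 4 * (K * (r ^ 2 * (t - t')) ^ 2) :=
          mul_le_mul_of_nonneg_left h (by positivity)
      _ = K * (t - t') ^ 2 := by field_simp

set_option linter.unusedVariables false in
omit [MeasurableSpace Ω] in
theorem Blk_sub_le {s r : ℝ} (hs : 0 ≤ s) (hr : 0 < r) (t : ℝ) :
    Blk (subP W s r) 0 t ≤ Blk W s (s + r ^ 2 * t) := by
  refine iSup_le fun ⟨u, hu⟩ => ?_
  rw [← measurable_iff_comap_le]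
  have e : (fun ω => subP W s r u ω - subP W s r 0 ω)
      = fun ω => r⁻¹ • (W (tm s r u) ω - W s ω) := by
    funext ω
    rw [subP_sub, tm_zero]
  show Measurable[Blk W s (s + r ^ 2 * t)] (fun ω => subP W s r u ω - subP W s r 0 ω)
  rw [e]
  refine (meas_Blk ⟨le_tm s r u, ?_⟩).const_smul (r⁻¹ : ℝ)
  have h1 : u ≤ t := hu.2
  have h2 : 0 ≤ u := hu.1
  simp only [tm, max_eq_left h2]
  nlinarith [sq_nonneg r]

set_option linter.unusedVariables false in
omit [MeasurableSpace Ω] in
theorem Fut_sub_le {s r : ℝ} (hs : 0 ≤ s) (hr : 0 < r) :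
    Fut (subP W s r) 0 ≤ Fut W s := by
  refine iSup_le fun ⟨u, hu⟩ => ?_
  rw [← measurable_iff_comap_le]
  have e : (fun ω => subP W s r u ω - subP W s r 0 ω)
      = fun ω => r⁻¹ • (W (tm s r u) ω - W s ω) := by
    funext ω
    rw [subP_sub, tm_zero]
  show Measurable[Fut W s] (fun ω => subP W s r u ω - subP W s r 0 ω)
  rw [e]
  exact (meas_Fut (le_tm s r u)).const_smul (r⁻¹ : ℝ)

theorem Blk_le (hW : Drv a b c K W μ) (s t : ℝ) :
    Blk W s t ≤ (inferInstance : MeasurableSpace Ω) := by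
  refine iSup_le fun u => ?_
  rw [← measurable_iff_comap_le]
  exact (hW.meas _).sub (hW.meas _)

theorem Fut_le (hW : Drv a b c K W μ) (s : ℝ) :
    Fut W s ≤ (inferInstance : MeasurableSpace Ω) := by
  refine iSup_le fun u => ?_
  rw [← measurable_iff_comap_le]
  exact (hW.meas _).sub (hW.meas _)

omit [MeasurableSpace Ω] in
theorem Blk_le_Fut (s t : ℝ) : Blk W s t ≤ Fut W s := by
  refine iSup_le fun ⟨u, hu⟩ => ?_
  rw [← measurable_iff_comap_le]
  exact meas_Fut hu.1

omit [MeasurableSpace Ω] in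
theorem Blk_le_Blk {s t u : ℝ} (hs : 0 ≤ s) (htu : t ≤ u) : Blk W s t ≤ Blk W 0 u := by
  refine iSup_le fun ⟨v, hv⟩ => ?_
  rw [← measurable_iff_comap_le]
  have h1 := meas_Blk (W := W) (s := 0) (t := u) (u := v) ⟨hs.trans hv.1, hv.2.trans htu⟩
  have h2 := meas_Blk (W := W) (s := 0) (t := u) (u := s) ⟨hs, (hv.1.trans hv.2).trans htu⟩
  have h3 := h1.sub h2
  have e : (fun ω => W v ω - W s ω) = (fun ω => W v ω - W 0 ω) - fun ω => W s ω - W 0 ω := by
    funext ω
    simp
  show Measurable[Blk W 0 u] (fun ω => W v ω - W s ω)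
  rw [e]
  exact h3

omit [MeasurableSpace Ω] in
theorem Fut_anti {s t : ℝ} (hst : s ≤ t) : Fut W t ≤ Fut W s := by
  refine iSup_le fun ⟨v, hv⟩ => ?_
  rw [← measurable_iff_comap_le]
  have h1 := meas_Fut (W := W) (s := s) (u := v) (hst.trans hv)
  have h2 := meas_Fut (W := W) (s := s) (u := t) hst
  have h3 := h1.sub h2
  have e : (fun ω => W v ω - W t ω) = (fun ω => W v ω - W s ω) - fun ω => W t ω - W s ω := by
    funext ω
    simp
  show Measurable[Fut W s] (fun ω => W v ω - W t ω)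
  rw [e]
  exact h3

omit [MeasurableSpace Ω] in
theorem Fut_le_iSup : Fut W 0 ≤ ⨆ n : ℕ, Blk W 0 n := by
  refine iSup_le fun ⟨v, hv⟩ => ?_
  obtain ⟨n, hn⟩ := exists_nat_ge v
  refine le_trans ?_ (le_iSup (fun n : ℕ => Blk W 0 n) n)
  rw [← measurable_iff_comap_le]
  exact meas_Blk ⟨hv, hn⟩

end

end Pool.Agent.SLE
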