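import Pool.Agent.Lib.MP_c17912_pr.Defs

/-!
# A2 REACH: an absorbed point comes to every small distance of the tip before
-/

set_option autoImplicit false

open MeasureTheory ProbabilityTheory Filter
open scoped NNReal ENNReal Topology

namespace Pool.Agent.SLE

noncomputable section

variable {Ω : Type*} [MeasurableSpace Ω] {μ : Measure Ω} {a b c K : ℝ} {W : ℝ → Ω → ℂ}

namespace ReachAux

/-- The regularised vector field: `2 / w` outside the ball of radius `δ`. -/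
def fld (δ : ℝ) (w : ℂ) : ℂ := ((2 / max ‖w‖ δ ^ 2 : ℝ) : ℂ) * (starRingEnd ℂ) w

theorem fld_eq {δ : ℝ} (hδ : 0 < δ) {w : ℂ} (hw : δ ≤ ‖w‖) : fld δ w = 2 / w := by
  have hw0 : w ≠ 0 := by
    intro h
    rw [h, norm_zero] at hw
    linarith
  rw [fld, max_eq_left hw]
  have h1 : w * (starRingEnd ℂ) w = ((‖w‖ ^ 2 : ℝ) : ℂ) := by
    rw [Complex.mul_conj, Complex.normSq_eq_norm_sq]
  have h2 : ((‖w‖ ^ 2 : ℝ) : ℂ) ≠ 0 := by
    rw [← h1]
    exact mul_ne_zero hw0 (by simpa using hw0)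
  rw [eq_div_iff hw0, Complex.ofReal_div, div_mul_eq_mul_div, div_mul_eq_mul_div,
    div_eq_iff h2, mul_assoc, mul_comm ((starRingEnd ℂ) w) w, h1]
  norm_num

theorem norm_fld_le {δ : ℝ} (hδ : 0 < δ) (w : ℂ) : ‖fld δ w‖ ≤ 2 / δ := by
  have hn : 0 < max ‖w‖ δ := lt_of_lt_of_le hδ (le_max_right _ _)
  rw [fld, norm_mul, Complex.norm_real, Complex.norm_conj, Real.norm_of_nonneg (by positivity),
    div_mul_eq_mul_div, div_le_div_iff₀ (by positivity) hδ, pow_two, mul_assoc]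
  exact mul_le_mul_of_nonneg_left
    (mul_le_mul (le_max_left _ _) (le_max_right _ _) hδ.le hn.le) (by norm_num)

theorem fld_lipschitz {δ : ℝ} (hδ : 0 < δ) (w w' : ℂ) :
    ‖fld δ w - fld δ w'‖ ≤ 6 / δ ^ 2 * ‖w - w'‖ := by
  set n := max ‖w‖ δ with hn
  set n' := max ‖w'‖ δ with hn'
  have h0 : 0 < n := lt_of_lt_of_le hδ (le_max_right _ _)
  have h0' : 0 < n' := lt_of_lt_of_le hδ (le_max_right _ _)
  have hδn : δ ≤ n := le_max_right _ _
  have hδn' : δ ≤ n' := le_max_right _ _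
  have hwn' : ‖w'‖ ≤ n' := le_max_left _ _
  have hnn : |n - n'| ≤ ‖w - w'‖ := by
    calc |n - n'| ≤ |‖w‖ - ‖w'‖| := abs_max_sub_max_le_abs _ _ _
      _ ≤ ‖w - w'‖ := abs_norm_sub_norm_le _ _
  have e : fld δ w - fld δ w' = ((2 / n ^ 2 : ℝ) : ℂ) * (starRingEnd ℂ) (w - w')
      + ((2 / n ^ 2 - 2 / n' ^ 2 : ℝ) : ℂ) * (starRingEnd ℂ) w' := by
    simp only [fld, ← hn, ← hn', map_sub, Complex.ofReal_sub]
    ring
  have e1 : ‖((2 / n ^ 2 : ℝ) : ℂ) * (starRingEnd ℂ) (w - w')‖ ≤ 2 / δ ^ 2 * ‖w - w'‖ := by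
    rw [norm_mul, Complex.norm_real, Complex.norm_conj, Real.norm_of_nonneg (by positivity)]
    gcongr
  have e2 : ‖((2 / n ^ 2 - 2 / n' ^ 2 : ℝ) : ℂ) * (starRingEnd ℂ) w'‖
      ≤ 4 / δ ^ 2 * ‖w - w'‖ := by
    rw [norm_mul, Complex.norm_real, Complex.norm_conj, Real.norm_eq_abs]
    have e3 : 2 / n ^ 2 - 2 / n' ^ 2 = 2 * (n + n') / (n ^ 2 * n' ^ 2) * (n' - n) := by
      field_simp
      ring
    rw [e3, abs_mul, abs_of_nonneg (by positivity : 0 ≤ 2 * (n + n') / (n ^ 2 * n' ^ 2)),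
      abs_sub_comm]
    have e4 : 2 * (n + n') / (n ^ 2 * n' ^ 2) * ‖w'‖ ≤ 4 / δ ^ 2 := by
      have e5 : 2 * (n + n') / (n ^ 2 * n' ^ 2) * ‖w'‖
          ≤ 2 * (n + n') / (n ^ 2 * n' ^ 2) * n' :=
        mul_le_mul_of_nonneg_left hwn' (by positivity)
      have e6 : 2 * (n + n') / (n ^ 2 * n' ^ 2) * n' = 2 / (n * n') + 2 / (n * n) := by
        field_simp
      have e7 : 2 / (n * n') ≤ 2 / (δ * δ) := by gcongr
      have e8 : 2 / (n * n) ≤ 2 / (δ * δ) := by gcongr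
      have e9 : 4 / δ ^ 2 = 2 / (δ * δ) + 2 / (δ * δ) := by
        field_simp
        ring
      linarith
    calc 2 * (n + n') / (n ^ 2 * n' ^ 2) * |n - n'| * ‖w'‖
        = (2 * (n + n') / (n ^ 2 * n' ^ 2) * ‖w'‖) * |n - n'| := by ring
      _ ≤ 4 / δ ^ 2 * ‖w - w'‖ := by gcongr
  calc ‖fld δ w - fld δ w'‖ ≤ _ := by rw [e]; exact norm_add_le _ _
    _ ≤ 2 / δ ^ 2 * ‖w - w'‖ + 4 / δ ^ 2 * ‖w - w'‖ := add_le_add e1 e2
    _ = 6 / δ ^ 2 * ‖w - w'‖ := by ring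

theorem fld_continuous {δ : ℝ} (hδ : 0 < δ) : Continuous (fld δ) := by
  have : LipschitzWith (Real.toNNReal (6 / δ ^ 2)) (fld δ) := by
    apply LipschitzWith.of_dist_le_mul
    intro w w'
    rw [dist_eq_norm, dist_eq_norm, Real.coe_toNNReal _ (by positivity)]
    exact fld_lipschitz hδ w w'
  exact this.continuous

/-- The solution of the regularised equation. -/
theorem exists_sol {U : ℝ → ℂ} (hU : Continuous U) {z : ℂ} {t δ : ℝ} (ht : 0 ≤ t)
    (hδ : 0 < δ) : ∃ G : ℝ → ℂ, G 0 = z ∧ ∀ s ∈ Set.Icc 0 t,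
      HasDerivWithinAt G (fld δ (G s - U s)) (Set.Icc 0 t) s := by
  have hpl : IsPicardLindelof (fun s x => fld δ (x - U s)) (tmin := 0) (tmax := t)
      ⟨0, Set.left_mem_Icc.mpr ht⟩ z (Real.toNNReal (2 / δ * t)) 0 (Real.toNNReal (2 / δ))
      (Real.toNNReal (6 / δ ^ 2)) := by
    constructor
    · intro s _
      apply LipschitzWith.lipschitzOnWith
      apply LipschitzWith.of_dist_le_mul
      intro w w'
      rw [dist_eq_norm, dist_eq_norm, Real.coe_toNNReal _ (by positivity)]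
      have := fld_lipschitz hδ (w - U s) (w' - U s)
      rwa [sub_sub_sub_cancel_right] at this
    · intro x _
      exact ((fld_continuous hδ).comp (continuous_const.sub hU)).continuousOn
    · intro s _ x _
      rw [Real.coe_toNNReal _ (by positivity)]
      exact norm_fld_le hδ _
    · rw [Real.coe_toNNReal _ (by positivity), Real.coe_toNNReal _ (by positivity)]
      simp [ht]
  obtain ⟨G, hG0, hG⟩ := hpl.exists_eq_forall_mem_Icc_hasDerivWithinAt₀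
  exact ⟨G, hG0, hG⟩

end ReachAux

open ReachAux in
/-- A2 REACH. An absorbed point comes to every small distance of the tip before. -/
theorem hull_reach {U : ℝ → ℂ} (hU : Continuous U) {z : ℂ} {t δ : ℝ} (ht : 0 ≤ t)
    (hz : z ∈ hull U t) (hδ : 0 < δ) (hδz : δ < ‖z - U 0‖) :
    ∃ s ∈ Set.Icc 0 t, ∃ g, Sol U z s g ∧ ‖g s - U s‖ = δ := by
  obtain ⟨G, hG0, hG⟩ := exists_sol hU (z := z) ht hδ
  have hGc : ContinuousOn G (Set.Icc 0 t) := fun s hs => (hG s hs).continuousWithinAt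
  have hφ : ContinuousOn (fun s => ‖G s - U s‖) (Set.Icc 0 t) :=
    (hGc.sub hU.continuousOn).norm
  -- up to the first time at distance `δ`, `G` solves the equation
  have hsol : ∀ s ∈ Set.Icc 0 t, (∀ r ∈ Set.Icc 0 s, δ ≤ ‖G r - U r‖) → Sol U z s G := by
    intro s hs hr
    refine ⟨hG0, fun r hr' h => ?_, fun r hr' => ?_⟩
    · have h1 := hr r hr'
      rw [h, sub_self, norm_zero] at h1
      linarith
    · have h1 := hG r ⟨hr'.1, hr'.2.trans hs.2⟩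
      rw [fld_eq hδ (hr r hr')] at h1
      exact h1.mono (Set.Icc_subset_Icc_right hs.2)
  obtain ⟨s₁, hs₁, hs₁'⟩ : ∃ s ∈ Set.Icc 0 t, ‖G s - U s‖ < δ := by
    by_contra h
    push Not at h
    exact hz ⟨G, hsol t ⟨ht, le_rfl⟩ h⟩
  -- the first time
  set S : Set ℝ := Set.Icc 0 t ∩ (fun s => ‖G s - U s‖) ⁻¹' (Set.Iic δ) with hS
  have hSc : IsClosed S := hφ.preimage_isClosed_of_isClosed isClosed_Icc isClosed_Iic
  have hSne : S.Nonempty := ⟨s₁, hs₁, hs₁'.le⟩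
  have hSb : BddBelow S := ⟨0, fun s hs => hs.1.1⟩
  have hmem : sInf S ∈ S := hSc.csInf_mem hSne hSb
  set s₀ := sInf S with hs₀
  have hle : ‖G s₀ - U s₀‖ ≤ δ := hmem.2
  have hge : ∀ r ∈ Set.Icc 0 t, ‖G r - U r‖ ≤ δ → s₀ ≤ r := fun r hr hr' =>
    csInf_le hSb ⟨hr, hr'⟩
  have heq : ‖G s₀ - U s₀‖ = δ := by
    have h1 : δ ∈ Set.Icc (‖G s₀ - U s₀‖) (‖G 0 - U 0‖) := ⟨hle, by rw [hG0]; exact hδz.le⟩
    have h2 := intermediate_value_Icc' hmem.1.1
      (hφ.mono (Set.Icc_subset_Icc_right hmem.1.2)) h1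
    obtain ⟨r, hr, hr'⟩ := h2
    have h3 : r = s₀ := le_antisymm hr.2 (hge r ⟨hr.1, hr.2.trans hmem.1.2⟩ (le_of_eq hr'))
    rw [← h3]
    exact hr'
  refine ⟨s₀, hmem.1, G, hsol s₀ hmem.1 (fun r hr => ?_), heq⟩
  rcases lt_or_eq_of_le hr.2 with h | h
  · by_contra hlt
    push Not at hlt
    exact absurd (hge r ⟨hr.1, hr.2.trans hmem.1.2⟩ hlt.le) (not_le.mpr h)
  · rw [h]
    exact heq.ge

end

end Pool.Agent.SLE
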