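import Pool.Agent.Lib.MP_c17912_pr.Defs
import Pool.Agent.Lib.MP_c17912_pr.DrvSub
import Pool.Agent.Lib.MP_c17912_pr.Reach

set_option autoImplicit false

open MeasureTheory ProbabilityTheory Filter
open scoped NNReal ENNReal Topology

namespace Pool.Agent.SLE

noncomputable section

variable {Ω : Type*} [MeasurableSpace Ω] {μ : Measure Ω} {a b c K : ℝ} {W : ℝ → Ω → ℂ}

namespace AzeroAux

/-- If the driving path is imaginary, the real part of a solution moves away from zero. -/
theorem re_mono {U : ℝ → ℂ} (hU0 : ∀ t, (U t).re = 0) {z : ℂ} {t : ℝ} {g : ℝ → ℂ} (ht : 0 ≤ t)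
    (h : Sol U z t g) : |z.re| ≤ ‖g t - U t‖ := by
  have hcont : ContinuousOn (fun s => (g s).re ^ 2) (Set.Icc 0 t) := by
    have : ContinuousOn g (Set.Icc 0 t) := fun s hs => (h.2.2 s hs).continuousWithinAt
    exact (Complex.continuous_re.comp_continuousOn this).pow 2
  have hder : ∀ s ∈ interior (Set.Icc 0 t), HasDerivAt (fun s => (g s).re ^ 2)
      (2 * (g s).re * (2 / (g s - U s)).re) s := fun s hs => by
    have hs' : s ∈ Set.Icc 0 t := interior_subset hs
    have h1 := (h.2.2 s hs').hasDerivAt (mem_interior_iff_mem_nhds.1 hs)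
    have h2 : HasDerivAt (fun s => (g s).re) ((2 / (g s - U s)).re) s :=
      Complex.reCLM.hasFDerivAt.comp_hasDerivAt s h1
    have h3 := h2.pow 2
    refine h3.congr_deriv ?_
    norm_num
  have hmono : MonotoneOn (fun s => (g s).re ^ 2) (Set.Icc 0 t) := by
    refine monotoneOn_of_deriv_nonneg (convex_Icc 0 t) hcont
      (fun s hs => (hder s hs).differentiableAt.differentiableWithinAt) fun s hs => ?_
    rw [(hder s hs).deriv]
    have e : (2 / (g s - U s)).re = 2 * (g s).re / Complex.normSq (g s - U s) := by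
      rw [Complex.div_re]
      simp [hU0]
    rw [e]
    have : 2 * (g s).re * (2 * (g s).re / Complex.normSq (g s - U s))
        = (2 * (g s).re) ^ 2 / Complex.normSq (g s - U s) := by ring
    rw [this]
    exact div_nonneg (sq_nonneg _) (Complex.normSq_nonneg _)
  have h1 := hmono (Set.left_mem_Icc.2 ht) (Set.right_mem_Icc.2 ht) ht
  simp only [h.1] at h1
  have h2 : |z.re| ≤ |(g t).re| := sq_le_sq.1 h1
  have h3 := Complex.abs_re_le_norm (g t - U t)
  rw [Complex.sub_re, hU0, sub_zero] at h3
  exact h2.trans h3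

end AzeroAux

open AzeroAux

/-- D6 AZERO. -/
theorem hit_zero [IsProbabilityMeasure μ] (hW : Drv 0 b c K W μ) :
    ∃ A, MeasurableSet[Fut W 0] A ∧ μ A = 0 ∧
      ∀ ω ∉ A, ∀ w : ℂ, w.re ≠ 0 → ∀ t, 0 ≤ t → ∃ g, Sol (fun t => W t ω) w t g := by
  refine ⟨⋃ q : ℚ, {ω | (W q ω).re ≠ 0}, ?_, ?_, ?_⟩
  · refine MeasurableSet.iUnion fun q => ?_
    rcases le_or_gt (0 : ℝ) (q : ℝ) with hq | hq
    · have h1 := DrvSubAux.meas_Fut (W := W) (s := 0) (u := (q : ℝ)) hq
      have e : (fun ω => W q ω - W 0 ω) = W q := by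
        funext ω
        rw [hW.zero 0 le_rfl, sub_zero]
      rw [e] at h1
      have h2 : Measurable[Fut W 0] (fun ω => (W q ω).re) := Complex.measurable_re.comp h1
      exact h2 (measurableSet_singleton 0).compl
    · have e : {ω | (W q ω).re ≠ 0} = ∅ := by
        ext ω
        simp [hW.zero q hq.le]
      rw [e]
      exact @MeasurableSet.empty Ω (Fut W 0)
  · rw [measure_iUnion_null_iff]
    intro q
    rcases le_or_gt (0 : ℝ) (q : ℝ) with hq | hq
    · have h1 := hW.m2x 0 q le_rfl hq
      rw [zero_mul] at h1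
      have hint : Integrable (fun ω => (W q ω - W 0 ω).re ^ 2) μ := by
        refine ((integrable_const (1 : ℝ)).add (hW.int4 0 q le_rfl hq)).mono' ?_ ?_
        · have := ((hW.meas q).sub (hW.meas 0))
          exact ((Complex.measurable_re.comp this).pow_const 2).aestronglyMeasurable
        · refine Eventually.of_forall fun ω => ?_
          rw [Real.norm_of_nonneg (sq_nonneg _)]
          have h2 : (W q ω - W 0 ω).re ^ 2 ≤ ‖W q ω - W 0 ω‖ ^ 2 :=
            sq_le_sq.2 (by rw [abs_norm]; exact Complex.abs_re_le_norm _)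
          simp only [Pi.add_apply]
          nlinarith [sq_nonneg (‖W q ω - W 0 ω‖ ^ 2 - 1), sq_nonneg ‖W q ω - W 0 ω‖]
      rw [integral_eq_zero_iff_of_nonneg (fun ω => sq_nonneg _) hint] at h1
      have h2 : ∀ᵐ ω ∂μ, (W q ω).re = 0 := by
        filter_upwards [h1] with ω hω
        rw [hW.zero 0 le_rfl, sub_zero] at hω
        simpa using hω
      exact h2
    · have e : {ω | (W q ω).re ≠ 0} = ∅ := by
        ext ω
        simp [hW.zero q hq.le]
      rw [e]
      exact measure_empty
  · intro ω hω w hw t ht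
    have h0 : ∀ q : ℚ, (W q ω).re = 0 := fun q => by
      by_contra hcon
      exact hω (Set.mem_iUnion.2 ⟨q, hcon⟩)
    have h1 : (fun t => (W t ω).re) = fun _ => 0 :=
      Continuous.ext_on Rat.denseRange_cast (Complex.continuous_re.comp (hW.cont ω))
        continuous_const (by rintro _ ⟨q, rfl⟩; exact h0 q)
    have h2 : ∀ t, (W t ω).re = 0 := fun t => congrFun h1 t
    by_contra hcon
    have hz : w ∈ hull (fun t => W t ω) t := hcon
    have hw' : 0 < |w.re| := abs_pos.2 hw
    obtain ⟨s, hs, g, hg, hgs⟩ := hull_reach (hW.cont ω) ht hz (δ := |w.re| / 2) (by positivity)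
      (by
        have h3 := Complex.abs_re_le_norm w
        rw [hW.zero 0 le_rfl, sub_zero]
        linarith)
    have h4 := re_mono h2 hs.1 hg
    rw [hgs] at h4
    linarith

end

end Pool.Agent.SLE
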