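import Pool.Agent.Lib.MP_c17912_pr.Defs

/-!
# The increments before and after a time are independent (module MARKOV)
-/

set_option autoImplicit false

open MeasureTheory ProbabilityTheory Filter
open scoped NNReal ENNReal Topology

namespace Pool.Agent.SLE

noncomputable section

variable {Ω : Type*} [MeasurableSpace Ω] {μ : Measure Ω} {a b c K : ℝ} {W : ℝ → Ω → ℂ}

namespace MarkovAux

/-- a finite set of times is the strictly increasing beginning of a monotone sequence -/
theorem enum (A : Finset ℝ) (hA : A.Nonempty) : ∃ (n : ℕ) (t : ℕ → ℝ), Monotone t ∧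
    (∀ i j, i < j → j < n → t i < t j) ∧ ∀ x ∈ A, ∃ i < n, t i = x := by
  have hn : 0 < A.card := hA.card_pos
  refine ⟨A.card, fun i => A.orderEmbOfFin rfl ⟨min i (A.card - 1), by omega⟩, ?_, ?_, ?_⟩
  · intro i j hij
    refine (A.orderEmbOfFin rfl).monotone ?_
    simp only [Fin.mk_le_mk]
    omega
  · intro i j hij hj
    refine (A.orderEmbOfFin rfl).strictMono ?_
    simp only [Fin.mk_lt_mk]
    omega
  · intro x hx
    have h1 : x ∈ Set.range (A.orderEmbOfFin rfl) := by
      rw [Finset.range_orderEmbOfFin]
      exact hx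
    obtain ⟨i, hi⟩ := h1
    refine ⟨i, i.2, ?_⟩
    rw [← hi]
    refine congrArg (A.orderEmbOfFin rfl) (Fin.ext ?_)
    have := i.2
    simp only
    omega

/-- partial sums of a finite family -/
def part {ι : Type*} (S : Finset ℕ) (f : ι → ℕ) (v : S → ℂ) (r : ι) : ℂ :=
  ∑ i : S, if (i : ℕ) < f r then v i else 0

theorem measurable_part {ι : Type*} (S : Finset ℕ) (f : ι → ℕ) : Measurable (part S f) := by
  refine measurable_pi_lambda _ (fun r => ?_)
  unfold part
  refine Finset.measurable_sum _ (fun i _ => ?_)
  split_ifs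
  · exact measurable_pi_apply i
  · exact measurable_const

theorem part_eq {ι : Type*} (S : Finset ℕ) (f : ι → ℕ) (x : ℕ → ℂ) (r : ι) :
    part S f (fun i => x i) r = ∑ i ∈ S.filter (fun i => i < f r), x i := by
  unfold part
  rw [Finset.sum_coe_sort S (fun i => if i < f r then x i else 0), Finset.sum_filter]

end MarkovAux

open MarkovAux in
/-- B2 MARKOV. -/
theorem indep_Blk_Fut [IsProbabilityMeasure μ] (hW : Drv a b c K W μ) {s : ℝ} (hs : 0 ≤ s) :
    Indep (Blk W 0 s) (Fut W s) μ := by
  have h : IndepFun (fun ω (r : Set.Icc 0 s) => W r ω - W 0 ω)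
      (fun ω (r : Set.Ici s) => W r ω - W s ω) μ := by
    refine IndepFun.process_indepFun_process (fun r => (hW.meas _).sub (hW.meas _))
      (fun r => (hW.meas _).sub (hW.meas _)) ?_
    intro I J
    classical
    let A : Finset ℝ := insert 0 (insert s (Finset.image (fun r : Set.Icc (0 : ℝ) s => r.1) I ∪
      Finset.image (fun r : Set.Ici s => r.1) J))
    obtain ⟨n, t, ht, htlt, hA⟩ := enum A ⟨0, Finset.mem_insert_self _ _⟩
    obtain ⟨z, hzn, hz⟩ := hA 0 (Finset.mem_insert_self _ _)
    obtain ⟨k, hkn, hk⟩ := hA s (Finset.mem_insert_of_mem (Finset.mem_insert_self _ _))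
    have hI : ∀ r : I, ∃ i < n, t i = (r : Set.Icc (0 : ℝ) s) := by
      intro r
      refine hA _ (Finset.mem_insert_of_mem (Finset.mem_insert_of_mem
        (Finset.mem_union_left _ ?_)))
      exact Finset.mem_image_of_mem _ r.2
    have hJ : ∀ r : J, ∃ i < n, t i = (r : Set.Ici s) := by
      intro r
      refine hA _ (Finset.mem_insert_of_mem (Finset.mem_insert_of_mem
        (Finset.mem_union_right _ ?_)))
      exact Finset.mem_image_of_mem _ r.2
    choose f hfn hf using hI
    choose g hgn hg using hJ
    have hle : ∀ i j, i < n → t i ≤ t j → i ≤ j := by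
      intro i j hi hij
      by_contra hcon
      exact absurd (htlt j i (by omega) hi) (not_lt.2 hij)
    have h1 := hW.indep.nat ht
    have h2 := h1.indepFun_finset (Finset.Ico z k) (Finset.Ico k n)
      (Finset.disjoint_left.2 (fun i hi hj => by
        simp only [Finset.mem_Ico] at hi hj
        omega))
      (fun i => (hW.meas _).sub (hW.meas _))
    have h3 := h2.comp (measurable_part (Finset.Ico z k) f) (measurable_part (Finset.Ico k n) g)
    have e1 : (fun ω (i : I) => W ((i : Set.Icc (0 : ℝ) s) : ℝ) ω - W 0 ω) =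
        part (Finset.Ico z k) f ∘
          (fun ω (i : (Finset.Ico z k)) => W (t (i + 1)) ω - W (t i) ω) := by
      funext ω r
      have hr1 := (r : Set.Icc (0 : ℝ) s).2
      have hzr : z ≤ f r := hle z (f r) hzn (by rw [hz, hf]; exact hr1.1)
      have hrk : f r ≤ k := hle (f r) k (hfn r) (by rw [hk, hf]; exact hr1.2)
      have hfil : (Finset.Ico z k).filter (fun i => i < f r) = Finset.Ico z (f r) := by
        ext i
        simp only [Finset.mem_filter, Finset.mem_Ico]
        omega
      simp only [Function.comp_apply]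
      rw [part_eq (Finset.Ico z k) f (fun i => W (t (i + 1)) ω - W (t i) ω) r, hfil,
        Finset.sum_Ico_eq_sub _ hzr, Finset.sum_range_sub (fun i => W (t i) ω),
        Finset.sum_range_sub (fun i => W (t i) ω), hz, hf]
      ring
    have e2 : (fun ω (i : J) => W ((i : Set.Ici s) : ℝ) ω - W s ω) =
        part (Finset.Ico k n) g ∘
          (fun ω (i : (Finset.Ico k n)) => W (t (i + 1)) ω - W (t i) ω) := by
      funext ω r
      have hr1 : s ≤ ((r : Set.Ici s) : ℝ) := (r : Set.Ici s).2
      have hkr : k ≤ g r := hle k (g r) hkn (by rw [hk, hg]; exact hr1)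
      have hrn := hgn r
      have hfil : (Finset.Ico k n).filter (fun i => i < g r) = Finset.Ico k (g r) := by
        ext i
        simp only [Finset.mem_filter, Finset.mem_Ico]
        omega
      simp only [Function.comp_apply]
      rw [part_eq (Finset.Ico k n) g (fun i => W (t (i + 1)) ω - W (t i) ω) r, hfil,
        Finset.sum_Ico_eq_sub _ hkr, Finset.sum_range_sub (fun i => W (t i) ω),
        Finset.sum_range_sub (fun i => W (t i) ω), hk, hg]
      ring
    rw [e1, e2]
    exact h3
  rw [IndepFun_iff_Indep, MeasurableSpace.comap_process_pi, MeasurableSpace.comap_process_pi] at h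
  exact h

end

end Pool.Agent.SLE
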