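import Pool.Agent.Lib.MP_c17912_pr.Defs
import Pool.Agent.Lib.MP_c17912_pr.DrvSub
import Pool.Agent.Lib.MP_c17912_pr.Markov

/-!
# SLE module MAXI: Kolmogorov's maximal inequality for the driving process
-/

set_option autoImplicit false

open MeasureTheory ProbabilityTheory Filter
open scoped NNReal ENNReal Topology

namespace Pool.Agent.SLE

noncomputable section

variable {Ω : Type*} [MeasurableSpace Ω] {μ : Measure Ω} {a b c K : ℝ} {W : ℝ → Ω → ℂ}

namespace MaxiAux

lemma W0 (hW : Drv a b c K W μ) (ω : Ω) : W 0 ω = 0 := hW.zero 0 le_rfl ω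

lemma meas_Blk (hW : Drv a b c K W μ) {t u : ℝ} (ht : 0 ≤ t) (htu : t ≤ u) :
    Measurable[Blk W 0 u] (W t) := by
  have h1 : W t = fun ω => W t ω - W 0 ω := by
    funext ω
    rw [W0 hW, sub_zero]
  rw [h1, measurable_iff_comap_le]
  exact le_iSup (fun r : Set.Icc (0 : ℝ) u =>
    MeasurableSpace.comap (fun ω => W r ω - W 0 ω) inferInstance) ⟨t, ht, htu⟩

omit [MeasurableSpace Ω] in
lemma meas_Fut {s t : ℝ} (hst : s ≤ t) : Measurable[Fut W s] fun ω => W t ω - W s ω := by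
  rw [measurable_iff_comap_le]
  exact le_iSup (fun r : Set.Ici s =>
    MeasurableSpace.comap (fun ω => W r ω - W s ω) inferInstance) ⟨t, hst⟩

lemma int_sq [IsProbabilityMeasure μ] (hW : Drv a b c K W μ) {s t : ℝ} (hs : 0 ≤ s)
    (hst : s ≤ t) : Integrable (fun ω => ‖W t ω - W s ω‖ ^ 2) μ := by
  have hm : Measurable fun ω => ‖W t ω - W s ω‖ ^ 2 :=
    ((hW.meas t).sub (hW.meas s)).norm.pow_const 2
  refine ((integrable_const (1 : ℝ)).add (hW.int4 s t hs hst)).mono' hm.aestronglyMeasurable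
    (ae_of_all _ fun ω => ?_)
  simp only [Pi.add_apply, Real.norm_eq_abs]
  rw [abs_of_nonneg (by positivity)]
  nlinarith [sq_nonneg (‖W t ω - W s ω‖ ^ 2 - 1 / 2)]

lemma int_mul [IsProbabilityMeasure μ] {X Y : Ω → ℂ} (hX : Measurable X) (hY : Measurable Y)
    (hX2 : Integrable (fun ω => ‖X ω‖ ^ 2) μ) (hY2 : Integrable (fun ω => ‖Y ω‖ ^ 2) μ) :
    Integrable (fun ω => (X ω).re * (Y ω).re) μ ∧ Integrable (fun ω => (X ω).im * (Y ω).im) μ := by
  constructor
  · refine (hX2.add hY2).mono'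
      ((Complex.measurable_re.comp hX).mul (Complex.measurable_re.comp hY)).aestronglyMeasurable
      (ae_of_all _ fun ω => ?_)
    simp only [Pi.add_apply, Real.norm_eq_abs, abs_mul]
    have h1 := Complex.abs_re_le_norm (X ω)
    have h2 := Complex.abs_re_le_norm (Y ω)
    have h3 := abs_nonneg (X ω).re
    have h4 := abs_nonneg (Y ω).re
    nlinarith [sq_nonneg (‖X ω‖ - ‖Y ω‖), norm_nonneg (X ω), norm_nonneg (Y ω),
      mul_le_mul h1 h2 h4 (norm_nonneg (X ω))]
  · refine (hX2.add hY2).mono'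
      ((Complex.measurable_im.comp hX).mul (Complex.measurable_im.comp hY)).aestronglyMeasurable
      (ae_of_all _ fun ω => ?_)
    simp only [Pi.add_apply, Real.norm_eq_abs, abs_mul]
    have h1 := Complex.abs_im_le_norm (X ω)
    have h2 := Complex.abs_im_le_norm (Y ω)
    have h3 := abs_nonneg (X ω).im
    have h4 := abs_nonneg (Y ω).im
    nlinarith [sq_nonneg (‖X ω‖ - ‖Y ω‖), norm_nonneg (X ω), norm_nonneg (Y ω),
      mul_le_mul h1 h2 h4 (norm_nonneg (X ω))]

/-- The cross term vanishes. -/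
lemma cross [IsProbabilityMeasure μ] (hW : Drv a b c K W μ) {s : ℝ} (hs : 0 ≤ s) {S : Set Ω}
    (hS : MeasurableSet[Blk W 0 s] S) {X D : Ω → ℝ} (hX : Measurable[Blk W 0 s] X)
    (hD : Measurable[Fut W s] D) (hD0 : ∫ ω, D ω ∂μ = 0) : ∫ ω in S, X ω * D ω ∂μ = 0 := by
  have hS' : MeasurableSet S := Blk_le hW 0 s S hS
  have hind : Measurable[Blk W 0 s] (S.indicator X) := hX.indicator hS
  have h1 : IndepFun (S.indicator X) D μ := by
    rw [IndepFun_iff_Indep]
    refine indep_of_indep_of_le_left (indep_of_indep_of_le_right (indep_Blk_Fut hW hs) ?_) ?_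
    · exact hD.comap_le
    · exact hind.comap_le
  have h2 := h1.integral_fun_mul_eq_mul_integral
    (hind.mono (Blk_le hW 0 s) le_rfl).aestronglyMeasurable
    (hD.mono (Fut_le hW s) le_rfl).aestronglyMeasurable
  rw [hD0, mul_zero] at h2
  rw [← integral_indicator hS', ← h2]
  congr 1
  funext ω
  by_cases hω : ω ∈ S
  · simp [hω]
  · simp [hω]

lemma norm_sq (z : ℂ) : ‖z‖ ^ 2 = z.re ^ 2 + z.im ^ 2 := by
  rw [← Complex.normSq_eq_norm_sq, Complex.normSq_apply]
  ring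

/-- The squared norm is a submartingale. -/
lemma sub_step [IsProbabilityMeasure μ] (hW : Drv a b c K W μ) {s t : ℝ} (hs : 0 ≤ s)
    (hst : s ≤ t) {S : Set Ω} (hS : MeasurableSet[Blk W 0 s] S) :
    ∫ ω in S, ‖W s ω‖ ^ 2 ∂μ ≤ ∫ ω in S, ‖W t ω‖ ^ 2 ∂μ := by
  have e0 : (fun ω => W s ω - W 0 ω) = W s := by
    funext ω
    rw [W0 hW, sub_zero]
  have hXs : Integrable (fun ω => ‖W s ω‖ ^ 2) μ := by
    have := int_sq hW le_rfl hs
    simpa only [W0 hW, sub_zero] using this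
  have hDs := int_sq hW hs hst
  have hDm : Measurable fun ω => W t ω - W s ω := (hW.meas t).sub (hW.meas s)
  obtain ⟨i1, i2⟩ := int_mul (hW.meas s) hDm hXs hDs
  have hB := meas_Blk hW hs (le_refl s)
  have hF : Measurable[Fut W s] fun ω => W t ω - W s ω := meas_Fut hst
  have c1 := cross hW hs hS (X := fun ω => (W s ω).re) (D := fun ω => (W t ω - W s ω).re)
    (Complex.measurable_re.comp hB) (Complex.measurable_re.comp hF) (hW.m1x s t hs hst)
  have c2 := cross hW hs hS (X := fun ω => (W s ω).im) (D := fun ω => (W t ω - W s ω).im)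
    (Complex.measurable_im.comp hB) (Complex.measurable_im.comp hF) (hW.m1y s t hs hst)
  have e1 : ∀ ω, ‖W t ω‖ ^ 2 = ((‖W s ω‖ ^ 2 + 2 * ((W s ω).re * (W t ω - W s ω).re))
      + 2 * ((W s ω).im * (W t ω - W s ω).im)) + ‖W t ω - W s ω‖ ^ 2 := by
    intro ω
    rw [norm_sq, norm_sq, norm_sq, Complex.sub_re, Complex.sub_im]
    ring
  calc ∫ ω in S, ‖W s ω‖ ^ 2 ∂μ
      = ∫ ω in S, (‖W s ω‖ ^ 2 + 2 * ((W s ω).re * (W t ω - W s ω).re))
        + 2 * ((W s ω).im * (W t ω - W s ω).im) ∂μ := by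
        rw [integral_add, integral_add, integral_const_mul, integral_const_mul, c1, c2]
        · ring
        · exact hXs.integrableOn
        · exact (i1.const_mul 2).integrableOn
        · exact (hXs.add (i1.const_mul 2)).integrableOn
        · exact (i2.const_mul 2).integrableOn
    _ ≤ ∫ ω in S, ‖W t ω‖ ^ 2 ∂μ := by
        refine integral_mono ((hXs.add (i1.const_mul 2)).add (i2.const_mul 2)).integrableOn ?_ ?_
        · have : Integrable (fun ω => ‖W t ω‖ ^ 2) μ := by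
            have := int_sq hW le_rfl (hs.trans hst)
            simpa only [W0 hW, sub_zero] using this
          exact this.integrableOn
        · intro ω
          show _ ≤ ‖W t ω‖ ^ 2
          rw [e1]
          have := sq_nonneg ‖W t ω - W s ω‖
          simp only
          linarith

/-- The filtration of the grid with step `h`. -/
def filt (hW : Drv a b c K W μ) {h : ℝ} (hh : 0 ≤ h) :
    Filtration ℕ (inferInstance : MeasurableSpace Ω) where
  seq i := Blk W 0 (i * h)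
  mono' i j hij := Blk_le_Blk le_rfl (by gcongr)
  le' i := Blk_le hW 0 _

lemma submart [IsProbabilityMeasure μ] (hW : Drv a b c K W μ) {h : ℝ} (hh : 0 ≤ h) :
    Submartingale (fun i ω => ‖W ((i : ℕ) * h) ω‖ ^ 2) (filt hW hh) μ := by
  refine submartingale_of_setIntegral_le_succ ?_ ?_ ?_
  · intro i
    have h1 : Measurable[Blk W 0 (i * h)] fun ω => ‖W ((i : ℕ) * h) ω‖ ^ 2 :=
      (measurable_norm.pow_const 2).comp (meas_Blk hW (by positivity) (le_refl _))
    exact h1.stronglyMeasurable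
  · intro i
    have := int_sq hW (le_refl (0 : ℝ)) (t := i * h) (by positivity)
    simpa only [W0 hW, sub_zero] using this
  · intro i s hs
    refine sub_step hW (by positivity) ?_ hs
    push_cast
    nlinarith

lemma int_norm_sq [IsProbabilityMeasure μ] (hW : Drv a b c K W μ) {T : ℝ} (hT : 0 ≤ T) :
    ∫ ω, ‖W T ω‖ ^ 2 ∂μ = (a + b) * T := by
  have h1 := hW.m2x 0 T le_rfl hT
  have h2 := hW.m2y 0 T le_rfl hT
  simp only [W0 hW, sub_zero] at h1 h2
  have hi : Integrable (fun ω => ‖W T ω‖ ^ 2) μ := by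
    have := int_sq hW (le_refl (0 : ℝ)) hT
    simpa only [W0 hW, sub_zero] using this
  have hm := hW.meas T
  have i1 : Integrable (fun ω => (W T ω).re ^ 2) μ := by
    refine hi.mono' ((Complex.measurable_re.comp hm).pow_const 2).aestronglyMeasurable
      (ae_of_all _ fun ω => ?_)
    rw [norm_sq, Real.norm_eq_abs, abs_of_nonneg (by positivity)]
    nlinarith [sq_nonneg (W T ω).im]
  have i2 : Integrable (fun ω => (W T ω).im ^ 2) μ := by
    refine hi.mono' ((Complex.measurable_im.comp hm).pow_const 2).aestronglyMeasurable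
      (ae_of_all _ fun ω => ?_)
    rw [norm_sq, Real.norm_eq_abs, abs_of_nonneg (by positivity)]
    nlinarith [sq_nonneg (W T ω).re]
  simp only [norm_sq]
  rw [integral_add i1 i2, h1, h2]
  ring

/-- The event that the bound fails on the grid. -/
def An (W : ℝ → Ω → ℂ) (T l : ℝ) (n : ℕ) : Set Ω :=
  {ω | ∃ k ≤ 2 ^ n, l < ‖W ((k : ℕ) * (T / 2 ^ n)) ω‖}

lemma An_meas (hW : Drv a b c K W μ) {T l : ℝ} (hT : 0 < T) (n : ℕ) :
    MeasurableSet[Blk W 0 T] (An W T l n) := by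
  have h1 : An W T l n = ⋃ k ∈ Finset.range (2 ^ n + 1),
      {ω | l < ‖W ((k : ℕ) * (T / 2 ^ n)) ω‖} := by
    ext ω
    simp [An]
  rw [h1]
  refine @Finset.measurableSet_biUnion _ _ (Blk W 0 T) _ _ fun k hk => ?_
  have hk' : (k : ℝ) ≤ 2 ^ n := by
    have := Finset.mem_range.1 hk
    exact_mod_cast Nat.lt_succ_iff.1 this
  have hle : (k : ℝ) * (T / 2 ^ n) ≤ T := by
    have : (k : ℝ) * (T / 2 ^ n) ≤ 2 ^ n * (T / 2 ^ n) := by gcongr
    rwa [mul_div_cancel₀ _ (by positivity)] at this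
  have h2 : Measurable[Blk W 0 T] fun ω => ‖W ((k : ℕ) * (T / 2 ^ n)) ω‖ :=
    measurable_norm.comp (meas_Blk hW (by positivity) hle)
  exact h2 measurableSet_Ioi

lemma An_bound [IsProbabilityMeasure μ] (hW : Drv a b c K W μ) {T l : ℝ} (hT : 0 < T)
    (hl : 0 < l) (n : ℕ) : μ (An W T l n) ≤ ENNReal.ofReal ((a + b) * T / l ^ 2) := by
  have hh : 0 ≤ T / 2 ^ n := by positivity
  have h1 := maximal_ineq (submart hW hh) (fun i ω => by positivity) (ε := ⟨l ^ 2, by positivity⟩)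
    (2 ^ n)
  set f : ℕ → Ω → ℝ := fun i ω => ‖W ((i : ℕ) * (T / 2 ^ n)) ω‖ ^ 2 with hf
  have e1 : ((2 ^ n : ℕ) : ℝ) * (T / 2 ^ n) = T := by
    push_cast
    exact mul_div_cancel₀ _ (by positivity)
  have hi : Integrable (fun ω => ‖W T ω‖ ^ 2) μ := by
    have := int_sq hW (le_refl (0 : ℝ)) hT.le
    simpa only [W0 hW, sub_zero] using this
  have h2 : An W T l n ⊆ {ω | ((⟨l ^ 2, by positivity⟩ : ℝ≥0) : ℝ) ≤
      (Finset.range (2 ^ n + 1)).sup' Finset.nonempty_range_add_one fun k => f k ω} := by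
    rintro ω ⟨k, hk, hk'⟩
    show l ^ 2 ≤ _
    refine le_trans ?_ (Finset.le_sup' (fun k => f k ω) (Finset.mem_range.2 (Nat.lt_succ_of_le hk)))
    simp only [hf]
    gcongr
  have h3 : ENNReal.ofReal (l ^ 2) * μ (An W T l n) ≤ ENNReal.ofReal ((a + b) * T) := by
    refine le_trans ?_ (h1.trans ?_)
    · rw [ENNReal.ofReal_eq_coe_nnreal (by positivity : (0 : ℝ) ≤ l ^ 2)]
      exact mul_le_mul_right (measure_mono h2) _
    · apply ENNReal.ofReal_le_ofReal
      rw [← int_norm_sq hW hT.le]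
      simp only [e1]
      exact setIntegral_le_integral hi (ae_of_all _ fun ω => by positivity)
  rw [ENNReal.ofReal_div_of_pos (by positivity)]
  rw [ENNReal.le_div_iff_mul_le (Or.inl (by positivity)) (Or.inl ENNReal.ofReal_ne_top), mul_comm]
  exact h3

omit [MeasurableSpace Ω] in
lemma An_mono (W : ℝ → Ω → ℂ) (T l : ℝ) : Monotone (An W T l) := by
  refine monotone_nat_of_le_succ fun n => ?_
  rintro ω ⟨k, hk, hk'⟩
  refine ⟨2 * k, by rw [pow_succ]; omega, ?_⟩
  have : ((2 * k : ℕ) : ℝ) * (T / 2 ^ (n + 1)) = (k : ℝ) * (T / 2 ^ n) := by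
    push_cast
    rw [pow_succ]
    field_simp
  rw [this]
  exact hk'

end MaxiAux

open MaxiAux

/-- B3 MAXI. Kolmogorov's maximal inequality. -/
theorem maximal [IsProbabilityMeasure μ] (hW : Drv a b c K W μ) {T l : ℝ} (hT : 0 < T)
    (hl : 0 < l) : ∃ A, MeasurableSet[Blk W 0 T] A ∧
      μ A ≤ ENNReal.ofReal ((a + b) * T / l ^ 2) ∧ ∀ ω ∉ A, ∀ t ∈ Set.Icc 0 T, ‖W t ω‖ ≤ l := by
  refine ⟨⋃ n, An W T l n, ?_, ?_, ?_⟩
  · exact @MeasurableSet.iUnion _ _ (Blk W 0 T) _ _ fun n => An_meas hW hT n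
  · rw [(An_mono W T l).measure_iUnion]
    exact iSup_le fun n => An_bound hW hT hl n
  · intro ω hω t ht
    have hω' : ∀ n k : ℕ, k ≤ 2 ^ n → ‖W ((k : ℕ) * (T / 2 ^ n)) ω‖ ≤ l := by
      intro n k hk
      by_contra hc
      exact hω (Set.mem_iUnion.2 ⟨n, k, hk, not_le.1 hc⟩)
    have hseq : Tendsto (fun n : ℕ => ((⌊t * 2 ^ n / T⌋₊ : ℕ) : ℝ) * (T / 2 ^ n)) atTop (𝓝 t) := by
      have h0 : Tendsto (fun n : ℕ => T / 2 ^ n) atTop (𝓝 0) := by
        have := (tendsto_pow_atTop_nhds_zero_of_lt_one (r := (1 / 2 : ℝ)) (by norm_num)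
          (by norm_num)).const_mul T
        simpa [div_eq_mul_inv] using this
      have h1 : Tendsto (fun n : ℕ => t - T / 2 ^ n) atTop (𝓝 t) := by
        simpa using tendsto_const_nhds.sub h0
      refine tendsto_of_tendsto_of_tendsto_of_le_of_le h1 tendsto_const_nhds (fun n => ?_)
        (fun n => ?_)
      · have h2 := Nat.lt_floor_add_one (t * 2 ^ n / T)
        have h3 : t * 2 ^ n / T * (T / 2 ^ n) = t := by field_simp
        have h4 : t * 2 ^ n / T * (T / 2 ^ n) ≤ (((⌊t * 2 ^ n / T⌋₊ : ℕ) : ℝ) + 1) * (T / 2 ^ n) := by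
          gcongr
        simp only
        linarith
      · have h2 := Nat.floor_le (div_nonneg (mul_nonneg ht.1 (by positivity : (0 : ℝ) ≤ 2 ^ n)) hT.le)
        have h3 : t * 2 ^ n / T * (T / 2 ^ n) = t := by field_simp
        have h4 : ((⌊t * 2 ^ n / T⌋₊ : ℕ) : ℝ) * (T / 2 ^ n) ≤ t * 2 ^ n / T * (T / 2 ^ n) := by
          gcongr
        simp only
        linarith
    have hlim : Tendsto (fun n : ℕ => ‖W (((⌊t * 2 ^ n / T⌋₊ : ℕ) : ℝ) * (T / 2 ^ n)) ω‖) atTop
        (𝓝 ‖W t ω‖) := (((hW.cont ω).tendsto t).comp hseq).norm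
    refine le_of_tendsto' hlim fun n => hω' n _ ?_
    have h1 : t * 2 ^ n / T ≤ 2 ^ n := by
      rw [div_le_iff₀ hT, mul_comm]
      gcongr
      exact ht.2
    have h2 : ((⌊t * 2 ^ n / T⌋₊ : ℕ) : ℝ) ≤ 2 ^ n :=
      (Nat.floor_le (div_nonneg (mul_nonneg ht.1 (by positivity)) hT.le)).trans h1
    exact_mod_cast h2

end

end Pool.Agent.SLE
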