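import Pool.Agent.Lib.MP_c17912_pr.Defs

/-!
# SLE, module FLOW: restriction, uniqueness, shift and concatenation of solutions
-/

set_option autoImplicit false

open MeasureTheory ProbabilityTheory Filter
open scoped NNReal ENNReal Topology

namespace Pool.Agent.SLE

noncomputable section

namespace FlowAux

theorem contOn {U : ℝ → ℂ} {z : ℂ} {t : ℝ} {g : ℝ → ℂ} (h : Sol U z t g) :
    ContinuousOn g (Set.Icc 0 t) := fun s hs => (h.2.2 s hs).continuousWithinAt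

/-- the distance to the tip has a positive lower bound -/
theorem exists_lower {U : ℝ → ℂ} (hU : Continuous U) {z : ℂ} {t : ℝ} {g : ℝ → ℂ}
    (h : Sol U z t g) : ∃ d > 0, ∀ s ∈ Set.Icc 0 t, d ≤ ‖g s - U s‖ := by
  rcases (Set.Icc (0 : ℝ) t).eq_empty_or_nonempty with h0 | h0
  · exact ⟨1, one_pos, fun s hs => by rw [h0] at hs; exact absurd hs (Set.notMem_empty s)⟩
  · obtain ⟨x, hx, hmin⟩ := isCompact_Icc.exists_isMinOn h0
      ((contOn h).sub hU.continuousOn).norm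
    refine ⟨‖g x - U x‖, norm_pos_iff.mpr (sub_ne_zero.mpr (h.2.1 x hx)), fun s hs => ?_⟩
    exact hmin hs

end FlowAux

open FlowAux

/-- A1 FLOW. -/
theorem Sol.restrict {U : ℝ → ℂ} {z : ℂ} {t : ℝ} {g : ℝ → ℂ} (h : Sol U z t g) {s : ℝ}
    (hs : s ≤ t) : Sol U z s g := by
  have hsub : Set.Icc 0 s ⊆ Set.Icc 0 t := Set.Icc_subset_Icc_right hs
  exact ⟨h.1, fun r hr => h.2.1 r (hsub hr), fun r hr => (h.2.2 r (hsub hr)).mono hsub⟩

theorem Sol.unique {U : ℝ → ℂ} (hU : Continuous U) {z : ℂ} {t : ℝ} {g g' : ℝ → ℂ}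
    (h : Sol U z t g) (h' : Sol U z t g') : ∀ s ∈ Set.Icc 0 t, g s = g' s := by
  obtain ⟨d, hd, hdg⟩ := exists_lower hU h
  obtain ⟨d', hd', hdg'⟩ := exists_lower hU h'
  have key := norm_le_gronwallBound_of_norm_deriv_right_le (f := fun s => g s - g' s)
    (f' := fun s => 2 / (g s - U s) - 2 / (g' s - U s)) (δ := 0) (K := 2 / (d * d')) (ε := 0)
    (a := 0) (b := t) ((contOn h).sub (contOn h')) ?_ ?_ ?_
  · intro s hs
    have h1 := key s hs
    rw [gronwallBound_ε0, zero_mul] at h1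
    exact sub_eq_zero.mp (norm_le_zero_iff.mp h1)
  · intro s hs
    have hmem : Set.Icc 0 t ∈ 𝓝[Set.Ici s] s := Icc_mem_nhdsGE_of_mem hs
    exact ((h.2.2 s ⟨hs.1, hs.2.le⟩).mono_of_mem_nhdsWithin hmem).sub
      ((h'.2.2 s ⟨hs.1, hs.2.le⟩).mono_of_mem_nhdsWithin hmem)
  · rw [h.1, h'.1, sub_self, norm_zero]
  · intro s hs
    have hs' : s ∈ Set.Icc 0 t := ⟨hs.1, hs.2.le⟩
    have n1 : g s - U s ≠ 0 := sub_ne_zero.mpr (h.2.1 s hs')
    have n2 : g' s - U s ≠ 0 := sub_ne_zero.mpr (h'.2.1 s hs')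
    have e : 2 / (g s - U s) - 2 / (g' s - U s) =
        -(2 / ((g s - U s) * (g' s - U s)) * (g s - g' s)) := by
      field_simp
      ring
    rw [e, norm_neg, norm_mul, norm_div, norm_mul, add_zero]
    have h2 : ‖(2 : ℂ)‖ = 2 := by simp
    rw [h2]
    gcongr
    · exact hdg s hs'
    · exact hdg' s hs'

theorem Sol.shift {U : ℝ → ℂ} {z : ℂ} {t : ℝ} {g : ℝ → ℂ} (h : Sol U z t g) {s r : ℝ}
    (hs : 0 ≤ s) (hst : s ≤ t) (hr : 0 < r) :
    Sol (psub U s r) (r⁻¹ • (g s - U s)) ((t - s) / r ^ 2)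
      (fun τ => r⁻¹ • (g (s + r ^ 2 * τ) - U s)) := by
  have hr2 : 0 < r ^ 2 := by positivity
  have hmap : ∀ τ ∈ Set.Icc 0 ((t - s) / r ^ 2), s + r ^ 2 * τ ∈ Set.Icc 0 t := by
    intro τ hτ
    have h1 : 0 ≤ r ^ 2 * τ := mul_nonneg hr2.le hτ.1
    have h2 : r ^ 2 * τ ≤ t - s := by
      have := (le_div_iff₀ hr2).mp hτ.2
      linarith
    exact ⟨by linarith, by linarith⟩
  have hp : ∀ τ ∈ Set.Icc 0 ((t - s) / r ^ 2), psub U s r τ =
      r⁻¹ • (U (s + r ^ 2 * τ) - U s) := by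
    intro τ hτ
    rw [psub, max_eq_left hτ.1]
  refine ⟨by simp, fun τ hτ => ?_, fun τ hτ => ?_⟩
  · rw [hp τ hτ]
    intro heq
    have h1 := smul_right_injective ℂ (inv_ne_zero hr.ne') heq
    exact h.2.1 _ (hmap τ hτ) (sub_left_injective h1)
  · rw [hp τ hτ, ← smul_sub, sub_sub_sub_cancel_right]
    have h1 := h.2.2 _ (hmap τ hτ)
    have h2 : HasDerivWithinAt (fun τ : ℝ => s + r ^ 2 * τ) (r ^ 2)
        (Set.Icc 0 ((t - s) / r ^ 2)) τ := by
      have := ((hasDerivWithinAt_id τ (Set.Icc 0 ((t - s) / r ^ 2))).const_mul (r ^ 2)).const_add s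
      simpa using this
    have h3 := HasDerivWithinAt.scomp τ h1 h2 hmap
    have h4 := (h3.sub_const (U s)).const_smul r⁻¹
    refine h4.congr_deriv ?_
    have n1 : g (s + r ^ 2 * τ) - U (s + r ^ 2 * τ) ≠ 0 :=
      sub_ne_zero.mpr (h.2.1 _ (hmap τ hτ))
    have n2 : (r : ℂ) ≠ 0 := by exact_mod_cast hr.ne'
    rw [Complex.real_smul, Complex.real_smul, Complex.real_smul]
    push_cast
    field_simp

theorem Sol.concat {U : ℝ → ℂ} {z : ℂ} {s : ℝ} {g : ℝ → ℂ} (h : Sol U z s g) (hs : 0 ≤ s)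
    {r τ : ℝ} (hr : 0 < r) (hτ : 0 ≤ τ) {g' : ℝ → ℂ}
    (h' : Sol (psub U s r) (r⁻¹ • (g s - U s)) τ g') :
    ∃ g'' : ℝ → ℂ, Sol U z (s + r ^ 2 * τ) g'' := by
  have hr2 : 0 < r ^ 2 := by positivity
  have n2 : (r : ℂ) ≠ 0 := by exact_mod_cast hr.ne'
  have hT : s ≤ s + r ^ 2 * τ := by nlinarith
  obtain ⟨k, hk⟩ : ∃ k : ℝ → ℂ, k = fun t => U s + r • g' ((t - s) / r ^ 2) := ⟨_, rfl⟩
  have hks : k s = g s := by
    rw [hk]
    simp only [sub_self, zero_div, h'.1]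
    rw [smul_inv_smul₀ hr.ne']
    ring
  have hmap : ∀ t ∈ Set.Icc s (s + r ^ 2 * τ), (t - s) / r ^ 2 ∈ Set.Icc 0 τ := by
    intro t ht
    refine ⟨div_nonneg (by linarith [ht.1]) hr2.le, ?_⟩
    rw [div_le_iff₀ hr2]
    linarith [ht.2]
  have hp : ∀ t ∈ Set.Icc s (s + r ^ 2 * τ), psub U s r ((t - s) / r ^ 2) =
      r⁻¹ • (U t - U s) := by
    intro t ht
    rw [psub, max_eq_left (hmap t ht).1, mul_div_cancel₀ _ hr2.ne']
    simp
  have hkU : ∀ t ∈ Set.Icc s (s + r ^ 2 * τ), k t ≠ U t := by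
    intro t ht heq
    apply h'.2.1 _ (hmap t ht)
    rw [hp t ht, ← heq, hk]
    simp only [add_sub_cancel_left]
    rw [inv_smul_smul₀ hr.ne']
  have hkd : ∀ t ∈ Set.Icc s (s + r ^ 2 * τ),
      HasDerivWithinAt k (2 / (k t - U t)) (Set.Icc s (s + r ^ 2 * τ)) t := by
    intro t ht
    have h1 := h'.2.2 _ (hmap t ht)
    have h2 : HasDerivWithinAt (fun t : ℝ => (t - s) / r ^ 2) (1 / r ^ 2)
        (Set.Icc s (s + r ^ 2 * τ)) t :=
      ((hasDerivWithinAt_id t (Set.Icc s (s + r ^ 2 * τ))).sub_const s).div_const (r ^ 2)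
    have h3 := HasDerivWithinAt.scomp t h1 h2 hmap
    have h4 := (h3.const_smul r).const_add (U s)
    have h5 : HasDerivWithinAt k (r • ((1 / r ^ 2) • (2 / (g' ((t - s) / r ^ 2) -
        psub U s r ((t - s) / r ^ 2))))) (Set.Icc s (s + r ^ 2 * τ)) t := by
      rw [hk]
      exact h4
    refine h5.congr_deriv ?_
    rw [hp t ht]
    have n1 : k t - U t ≠ 0 := sub_ne_zero.mpr (hkU t ht)
    have e : g' ((t - s) / r ^ 2) - r⁻¹ • (U t - U s) = r⁻¹ • (k t - U t) := by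
      rw [hk]
      simp only [smul_sub, smul_add]
      rw [inv_smul_smul₀ hr.ne']
      ring
    rw [e, Complex.real_smul, Complex.real_smul, Complex.real_smul]
    push_cast
    field_simp
  obtain ⟨G, hG⟩ : ∃ G : ℝ → ℂ, G = fun t => if t ≤ s then g t else k t := ⟨_, rfl⟩
  have G1 : ∀ t ≤ s, G t = g t := fun t ht => by rw [hG]; simp only [if_pos ht]
  have G2 : ∀ t, s ≤ t → G t = k t := by
    intro t ht
    rcases ht.eq_or_lt with h0 | h0
    · rw [← h0, G1 s le_rfl, hks]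
    · rw [hG]; simp only [if_neg (not_le.mpr h0)]
  have A : ∀ t ∈ Set.Icc 0 s, HasDerivWithinAt G (2 / (G t - U t)) (Set.Icc 0 s) t := by
    intro t ht
    rw [G1 t ht.2]
    exact (h.2.2 t ht).congr (fun x hx => G1 x hx.2) (G1 t ht.2)
  have B : ∀ t ∈ Set.Icc s (s + r ^ 2 * τ),
      HasDerivWithinAt G (2 / (G t - U t)) (Set.Icc s (s + r ^ 2 * τ)) t := by
    intro t ht
    rw [G2 t ht.1]
    exact (hkd t ht).congr (fun x hx => G2 x hx.1) (G2 t ht.1)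
  refine ⟨G, ?_, fun t ht => ?_, fun t ht => ?_⟩
  · rw [G1 0 hs, h.1]
  · rcases le_total t s with h1 | h1
    · rw [G1 t h1]
      exact h.2.1 t ⟨ht.1, h1⟩
    · rw [G2 t h1]
      exact hkU t ⟨h1, ht.2⟩
  · rcases lt_trichotomy t s with h1 | h1 | h1
    · refine (A t ⟨ht.1, h1.le⟩).mono_of_mem_nhdsWithin ?_
      exact mem_of_superset (inter_mem_nhdsWithin _ (Iio_mem_nhds h1))
        fun x hx => ⟨hx.1.1, le_of_lt hx.2⟩
    · have hA := A t ⟨ht.1, h1.le⟩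
      have hB := B t ⟨h1.ge, ht.2⟩
      have := hA.union hB
      rwa [Set.Icc_union_Icc_eq_Icc hs hT] at this
    · refine (B t ⟨h1.le, ht.2⟩).mono_of_mem_nhdsWithin ?_
      exact mem_of_superset (inter_mem_nhdsWithin _ (Ioi_mem_nhds h1))
        fun x hx => ⟨le_of_lt hx.2, hx.1.2⟩

end

end Pool.Agent.SLE
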