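import Pool.Agent.Lib.MP_c17912_pr.Sq

/-!
# The tube lemma (module TUBE of MP_c17912_pr)

If the driving path stays in the ball of radius `1/20` on `[0,2]` and a point of the unit disc is
again in the unit disc (seen from the tip) at time `2`, then it is close to the tip on
`[1/2,3/2]`.
-/

set_option autoImplicit false

open MeasureTheory ProbabilityTheory Filter
open scoped NNReal ENNReal Topology

namespace Pool.Agent.SLE

noncomputable section

variable {Ω : Type*} [MeasurableSpace Ω] {μ : Measure Ω} {a b c K : ℝ} {W : ℝ → Ω → ℂ}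

/-- A5 TUBE. -/
theorem tube {U : ℝ → ℂ} (hU : Continuous U) (h0 : U 0 = 0)
    (ht : ∀ t ∈ Set.Icc (0 : ℝ) 2, ‖U t‖ ≤ 1 / 20) {z : ℂ} {g : ℝ → ℂ} (hz : ‖z‖ < 1)
    (h : Sol U z 2 g) (h2 : ‖g 2 - U 2‖ < 1) :
    ∀ t ∈ Set.Icc (1 / 2 : ℝ) (3 / 2), ‖g t - U t‖ < 1 / 2 := by
  intro t htI
  by_contra hcon
  push Not at hcon
  have ht0 : (0 : ℝ) ≤ t := by linarith [htI.1]
  have ht2 : t ≤ 2 := by linarith [htI.2]
  have hUt : ‖U t‖ ≤ 1 / 20 := ht t ⟨ht0, ht2⟩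
  have hgt : 9 / 20 ≤ ‖g t‖ := by
    have := norm_sub_le (g t) (U t)
    linarith
  have hcont : ContinuousOn g (Set.Icc 0 2) := fun s hs => (h.2.2 s hs).continuousWithinAt
  have hcn : ContinuousOn (fun s => ‖g s‖) (Set.Icc 0 2) := hcont.norm
  have hsq : ∀ s : ℝ, ‖g s ^ 2‖ = ‖g s‖ ^ 2 := fun s => norm_pow _ _
  have hphi : 81 / 400 ≤ ‖g t ^ 2‖ := by
    rw [hsq]
    nlinarith
  rcases le_total 0 (g t ^ 2).re with hre | hre
  · -- forward in time
    have hall : ∀ s ∈ Set.Icc t 2, 1 / 10 ≤ ‖g s‖ := by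
      by_contra hc
      push Not at hc
      obtain ⟨s, hs, hs'⟩ := hc
      obtain ⟨s₁, hs₁, he, hb⟩ := SqAux.first_hit (r := 1 / 10)
        (hcn.mono (Set.Icc_subset_Icc ht0 le_rfl)) (by linarith) ⟨s, hs, hs'.le⟩
      obtain ⟨h5, h6⟩ := SqAux.inc h ht0 hs₁.1 hs₁.2
        (fun r hr => ht r ⟨ht0.trans hr.1, hr.2.trans hs₁.2⟩) hb
      have h7 : ‖g s₁ ^ 2‖ = 1 / 100 := by
        rw [hsq, he]
        norm_num
      have h8 := norm_sub_norm_le (g t ^ 2) (g s₁ ^ 2)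
      rw [norm_sub_rev] at h8
      have h9 := Complex.re_le_norm (g s₁ ^ 2)
      linarith
    obtain ⟨h5, h6⟩ := SqAux.inc h ht0 ht2 le_rfl
      (fun r hr => ht r ⟨ht0.trans hr.1, hr.2⟩) hall
    have h7 : ‖g 2‖ < 21 / 20 := by
      have h8 := norm_add_le (g 2 - U 2) (U 2)
      rw [sub_add_cancel] at h8
      have h9 := ht 2 ⟨by norm_num, le_rfl⟩
      linarith
    have h8 := Complex.re_le_norm (g 2 ^ 2)
    rw [hsq] at h8
    have h9 := norm_nonneg (g 2)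
    nlinarith [htI.2]
  · -- backward in time
    have hall : ∀ s ∈ Set.Icc 0 t, 1 / 10 ≤ ‖g s‖ := by
      by_contra hc
      push Not at hc
      obtain ⟨s, hs, hs'⟩ := hc
      obtain ⟨s₁, hs₁, he, hb⟩ := SqAux.last_hit (r := 1 / 10)
        (hcn.mono (Set.Icc_subset_Icc le_rfl ht2)) (by linarith) ⟨s, hs, hs'.le⟩
      obtain ⟨h5, h6⟩ := SqAux.inc h hs₁.1 hs₁.2 ht2
        (fun r hr => ht r ⟨hs₁.1.trans hr.1, hr.2.trans ht2⟩) hb
      have h7 : ‖g s₁ ^ 2‖ = 1 / 100 := by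
        rw [hsq, he]
        norm_num
      have h8 := norm_sub_norm_le (g t ^ 2) (g s₁ ^ 2)
      have h9 := (neg_le_abs _).trans (Complex.abs_re_le_norm (g s₁ ^ 2))
      linarith
    obtain ⟨h5, h6⟩ := SqAux.inc h le_rfl ht0 ht2
      (fun r hr => ht r ⟨hr.1, hr.2.trans ht2⟩) hall
    have h7 : ‖g 0‖ < 1 := by rw [h.1]; exact hz
    have h8 := (neg_le_abs _).trans (Complex.abs_re_le_norm (g 0 ^ 2))
    rw [hsq] at h8
    have h9 := norm_nonneg (g 0)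
    nlinarith [htI.1]

end

end Pool.Agent.SLE
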