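import Pool.Agent.Lib.MP_c17912_pr.Defs
import Pool.Agent.Lib.MP_c17912_pr.Flow
import Pool.Agent.Lib.MP_c17912_pr.Tube

/-!
# MP_c17912_pr, module BREC: a bad point is bad at the times 1/2 and 1 at half the scale
-/

set_option autoImplicit false

open MeasureTheory ProbabilityTheory Filter
open scoped NNReal ENNReal Topology

namespace Pool.Agent.SLE

noncomputable section

namespace BrecAux

theorem bad_at {U : ℝ → ℂ} {ε : ℝ} {z : ℂ} {g : ℝ → ℂ} (h : Sol U z 2 g)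
    (hε : ∀ t ∈ Set.Icc (0 : ℝ) 2, ε < ‖g t - U t‖) {s : ℝ} (hs0 : 0 ≤ s) (hs : s ≤ 1)
    (h1 : ‖g s - U s‖ < 1 / 2) (h2 : ‖g (s + 1 / 2) - U (s + 1 / 2)‖ < 1 / 2) :
    Bad (psub U s (1 / 2)) (2 * ε) := by
  have hdiff : ∀ τ : ℝ, 0 ≤ τ →
      (1 / 2 : ℝ)⁻¹ • (g (s + (1 / 2) ^ 2 * τ) - U s) - psub U s (1 / 2) τ =
        (2 : ℝ) • (g (s + (1 / 2) ^ 2 * τ) - U (s + (1 / 2) ^ 2 * τ)) := by
    intro τ hτ
    unfold psub
    rw [max_eq_left hτ, ← smul_sub, sub_sub_sub_cancel_right]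
    norm_num
  refine ⟨(1 / 2 : ℝ)⁻¹ • (g s - U s), fun τ => (1 / 2 : ℝ)⁻¹ • (g (s + (1 / 2) ^ 2 * τ) - U s),
    ?_, ?_, ?_, ?_⟩
  · rw [norm_smul, Real.norm_eq_abs]
    have : |(1 / 2 : ℝ)⁻¹| = 2 := by norm_num
    rw [this]
    linarith
  · exact (h.shift hs0 (by linarith) (by norm_num : (0 : ℝ) < 1 / 2)).restrict (by
      rw [le_div_iff₀ (by norm_num)]
      norm_num
      linarith)
  · intro t ht
    show 2 * ε < ‖(1 / 2 : ℝ)⁻¹ • (g (s + (1 / 2) ^ 2 * t) - U s) - psub U s (1 / 2) t‖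
    rw [hdiff t ht.1, norm_smul, Real.norm_eq_abs, abs_two]
    have h3 : s + (1 / 2) ^ 2 * t ∈ Set.Icc (0 : ℝ) 2 := by
      constructor
      · have := ht.1
        positivity
      · have := ht.2
        linarith
    have := hε _ h3
    linarith
  · show ‖(1 / 2 : ℝ)⁻¹ • (g (s + (1 / 2) ^ 2 * 2) - U s) - psub U s (1 / 2) 2‖ < 1
    rw [hdiff 2 (by norm_num), norm_smul, Real.norm_eq_abs, abs_two]
    have h3 : s + (1 / 2 : ℝ) ^ 2 * 2 = s + 1 / 2 := by norm_num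
    rw [h3]
    linarith

end BrecAux

/-- A7 BREC. -/
theorem bad_rec {U : ℝ → ℂ} (hU : Continuous U) (h0 : U 0 = 0)
    (ht : ∀ t ∈ Set.Icc (0 : ℝ) 2, ‖U t‖ ≤ 1 / 20) {ε : ℝ} (h : Bad U ε) :
    Bad (psub U (1 / 2) (1 / 2)) (2 * ε) ∧ Bad (psub U 1 (1 / 2)) (2 * ε) := by
  obtain ⟨z, g, hz, hg, hε, h2⟩ := h
  have htube := tube hU h0 ht hz hg h2
  have t1 := htube (1 / 2) (by constructor <;> norm_num)
  have t2 := htube 1 (by constructor <;> norm_num)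
  have t3 := htube (3 / 2) (by constructor <;> norm_num)
  refine ⟨BrecAux.bad_at hg hε (by norm_num) (by norm_num) t1 ?_,
    BrecAux.bad_at hg hε (by norm_num) le_rfl t2 ?_⟩
  · have : (1 / 2 + 1 / 2 : ℝ) = 1 := by norm_num
    rw [this]
    exact t2
  · have : (1 + 1 / 2 : ℝ) = 3 / 2 := by norm_num
    rw [this]
    exact t3

end

end Pool.Agent.SLE
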