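import Pool.Agent.Lib.MP_c17912_pr.Defs2
import Pool.Agent.Lib.MP_c17912_pr.Brec

/-!
# The tube lemma with the wider tube (module TUBE2 of MP_c17912_pr)

`sq_deriv2`: derivative of the square of a solution while it is at least twice as far from the
origin as the driving path. `tube2`, `bad_rec2`: the tube lemma and the recursion of bad points for
driving paths in the ball of radius `1/11`.
-/

set_option autoImplicit false

open MeasureTheory ProbabilityTheory Filter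
open scoped NNReal ENNReal Topology

namespace Pool.Agent.SLE

noncomputable section

/-- F1 TUBE2. -/
theorem sq_deriv2 {U : ℝ → ℂ} {z : ℂ} {t : ℝ} {g : ℝ → ℂ} (h : Sol U z t g) {s : ℝ}
    (hs : s ∈ Set.Icc 0 t) (hg : g s ≠ 0) (hUg : 2 * ‖U s‖ ≤ ‖g s‖) :
    ∃ d : ℂ, HasDerivWithinAt (fun τ => g τ ^ 2) d (Set.Icc 0 t) s ∧ ‖d‖ ≤ 8 ∧ 8 / 3 ≤ d.re ∧
      ‖d - 4‖ ≤ 8 * (‖U s‖ / ‖g s‖) := by
  obtain ⟨_, hne, hd⟩ := h
  have hD : g s - U s ≠ 0 := sub_ne_zero.mpr (hne s hs)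
  have hgpos : 0 < ‖g s‖ := norm_pos_iff.mpr hg
  obtain ⟨w, hw⟩ : ∃ w, w = U s / g s := ⟨_, rfl⟩
  have hUw : U s = w * g s := by rw [hw]; field_simp
  have hwn : ‖w‖ = ‖U s‖ / ‖g s‖ := by rw [hw, norm_div]
  have hw2 : ‖w‖ ≤ 1 / 2 := by
    rw [hwn, div_le_iff₀ hgpos]
    linarith
  have hw1 : (1 : ℂ) - w ≠ 0 := by
    intro h0
    apply hD
    rw [hUw]
    linear_combination g s * h0
  have h1w : 1 / 2 ≤ ‖(1 : ℂ) - w‖ := by
    have := norm_sub_norm_le (1 : ℂ) w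
    rw [norm_one] at this
    linarith
  have h1pos : 0 < ‖(1 : ℂ) - w‖ := by linarith
  refine ⟨4 / (1 - w), ?_, ?_, ?_, ?_⟩
  · have h2 := (hd s hs).pow 2
    refine h2.congr_deriv ?_
    have h3 : g s - U s = g s * (1 - w) := by rw [hUw]; ring
    rw [h3]
    field_simp
    norm_num
    ring
  · rw [norm_div, Complex.norm_ofNat, div_le_iff₀ h1pos]
    linarith
  · have h4 : (4 / (1 - w)).re = 4 * (1 - w.re) / ‖(1 : ℂ) - w‖ ^ 2 := by
      rw [Complex.div_re, Complex.sq_norm]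
      simp
    have h5 : ‖(1 : ℂ) - w‖ ^ 2 = 1 - 2 * w.re + ‖w‖ ^ 2 := by
      rw [Complex.sq_norm, Complex.sq_norm, Complex.normSq_apply, Complex.normSq_apply]
      simp
      ring
    have h6 : |w.re| ≤ ‖w‖ := Complex.abs_re_le_norm w
    have h7 := neg_abs_le w.re
    have h8 : 0 ≤ ‖w‖ := norm_nonneg w
    rw [h4, le_div_iff₀ (by positivity), h5]
    nlinarith
  · have h4 : 4 / (1 - w) - 4 = 4 * w / (1 - w) := by
      field_simp
      ring
    rw [h4, norm_div, norm_mul, Complex.norm_ofNat, ← hwn, div_le_iff₀ h1pos]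
    have h8 : 0 ≤ ‖w‖ := norm_nonneg w
    nlinarith

namespace Tube2Aux

/-- Integrated form of `sq_deriv2` on an interval. -/
theorem inc {U : ℝ → ℂ} {z : ℂ} {t : ℝ} {g : ℝ → ℂ} (h : Sol U z t g) {u v : ℝ} (hu : 0 ≤ u)
    (huv : u ≤ v) (hvt : v ≤ t) (hU : ∀ s ∈ Set.Icc u v, ‖U s‖ ≤ 1 / 11)
    (hg : ∀ s ∈ Set.Icc u v, 2 / 11 ≤ ‖g s‖) :
    ‖g v ^ 2 - g u ^ 2‖ ≤ 8 * (v - u) ∧ 8 / 3 * (v - u) ≤ (g v ^ 2).re - (g u ^ 2).re := by
  have hsub : Set.Icc u v ⊆ Set.Icc 0 t := Set.Icc_subset_Icc hu hvt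
  have key : ∀ s ∈ Set.Icc u v, ∃ d : ℂ,
      HasDerivWithinAt (fun τ => g τ ^ 2) d (Set.Icc u v) s ∧ ‖d‖ ≤ 8 ∧ 8 / 3 ≤ d.re := by
    intro s hs
    have hgs := hg s hs
    obtain ⟨d, h1, h2, h3, _⟩ := sq_deriv2 h (hsub hs)
      (norm_pos_iff.mp (by linarith)) (by linarith [hU s hs])
    exact ⟨d, h1.mono hsub, h2, h3⟩
  choose! d hd1 hd2 hd3 using key
  have hu' : u ∈ Set.Icc u v := ⟨le_rfl, huv⟩
  have hv' : v ∈ Set.Icc u v := ⟨huv, le_rfl⟩
  constructor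
  · have h1 := (convex_Icc u v).norm_image_sub_le_of_norm_hasDerivWithin_le hd1 hd2 hu' hv'
    rwa [Real.norm_of_nonneg (by linarith)] at h1
  · have hre : ∀ s ∈ Set.Icc u v,
        HasDerivWithinAt (fun τ => (g τ ^ 2).re) (d s).re (Set.Icc u v) s := by
      intro s hs
      have := Complex.reCLM.hasFDerivAt.comp_hasDerivWithinAt s (hd1 s hs)
      exact this
    have hint : ∀ s ∈ interior (Set.Icc u v), HasDerivAt (fun τ => (g τ ^ 2).re) (d s).re s := by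
      intro s hs
      exact (hre s (interior_subset hs)).hasDerivAt (mem_interior_iff_mem_nhds.mp hs)
    exact (convex_Icc u v).mul_sub_le_image_sub_of_le_deriv
      (fun s hs => (hre s hs).continuousWithinAt)
      (fun s hs => (hint s hs).differentiableAt.differentiableWithinAt)
      (fun s hs => by rw [(hint s hs).deriv]; exact hd3 s (interior_subset hs)) u hu' v hv' huv

end Tube2Aux

theorem tube2 {U : ℝ → ℂ} (hU : Continuous U) (h0 : U 0 = 0)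
    (ht : ∀ t ∈ Set.Icc (0 : ℝ) 2, ‖U t‖ ≤ 1 / 11) {z : ℂ} {g : ℝ → ℂ} (hz : ‖z‖ < 1)
    (h : Sol U z 2 g) (h2 : ‖g 2 - U 2‖ < 1) :
    ∀ t ∈ Set.Icc (1 / 2 : ℝ) (3 / 2), ‖g t - U t‖ < 1 / 2 := by
  intro t htI
  by_contra hcon
  push Not at hcon
  have ht0 : (0 : ℝ) ≤ t := by linarith [htI.1]
  have ht2 : t ≤ 2 := by linarith [htI.2]
  have hUt : ‖U t‖ ≤ 1 / 11 := ht t ⟨ht0, ht2⟩
  have hgt : 9 / 22 ≤ ‖g t‖ := by
    have := norm_sub_le (g t) (U t)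
    linarith
  have hcont : ContinuousOn g (Set.Icc 0 2) := fun s hs => (h.2.2 s hs).continuousWithinAt
  have hcn : ContinuousOn (fun s => ‖g s‖) (Set.Icc 0 2) := hcont.norm
  have hsq : ∀ s : ℝ, ‖g s ^ 2‖ = ‖g s‖ ^ 2 := fun s => norm_pow _ _
  have hphi : 81 / 484 ≤ ‖g t ^ 2‖ := by
    rw [hsq]
    nlinarith
  rcases le_total 0 (g t ^ 2).re with hre | hre
  · -- forward in time
    have hall : ∀ s ∈ Set.Icc t 2, 2 / 11 ≤ ‖g s‖ := by
      by_contra hc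
      push Not at hc
      obtain ⟨s, hs, hs'⟩ := hc
      obtain ⟨s₁, hs₁, he, hb⟩ := SqAux.first_hit (r := 2 / 11)
        (hcn.mono (Set.Icc_subset_Icc ht0 le_rfl)) (by linarith) ⟨s, hs, hs'.le⟩
      obtain ⟨h5, h6⟩ := Tube2Aux.inc h ht0 hs₁.1 hs₁.2
        (fun r hr => ht r ⟨ht0.trans hr.1, hr.2.trans hs₁.2⟩) hb
      have h7 : ‖g s₁ ^ 2‖ = 4 / 121 := by
        rw [hsq, he]
        norm_num
      have h8 := norm_sub_norm_le (g t ^ 2) (g s₁ ^ 2)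
      rw [norm_sub_rev] at h8
      have h9 := Complex.re_le_norm (g s₁ ^ 2)
      linarith
    obtain ⟨h5, h6⟩ := Tube2Aux.inc h ht0 ht2 le_rfl
      (fun r hr => ht r ⟨ht0.trans hr.1, hr.2⟩) hall
    have h7 : ‖g 2‖ < 12 / 11 := by
      have h8 := norm_add_le (g 2 - U 2) (U 2)
      rw [sub_add_cancel] at h8
      have h9 := ht 2 ⟨by norm_num, le_rfl⟩
      linarith
    have h8 := Complex.re_le_norm (g 2 ^ 2)
    rw [hsq] at h8
    have h9 := norm_nonneg (g 2)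
    nlinarith [htI.2]
  · -- backward in time
    have hall : ∀ s ∈ Set.Icc 0 t, 2 / 11 ≤ ‖g s‖ := by
      by_contra hc
      push Not at hc
      obtain ⟨s, hs, hs'⟩ := hc
      obtain ⟨s₁, hs₁, he, hb⟩ := SqAux.last_hit (r := 2 / 11)
        (hcn.mono (Set.Icc_subset_Icc le_rfl ht2)) (by linarith) ⟨s, hs, hs'.le⟩
      obtain ⟨h5, h6⟩ := Tube2Aux.inc h hs₁.1 hs₁.2 ht2
        (fun r hr => ht r ⟨hs₁.1.trans hr.1, hr.2.trans ht2⟩) hb
      have h7 : ‖g s₁ ^ 2‖ = 4 / 121 := by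
        rw [hsq, he]
        norm_num
      have h8 := norm_sub_norm_le (g t ^ 2) (g s₁ ^ 2)
      have h9 := (neg_le_abs _).trans (Complex.abs_re_le_norm (g s₁ ^ 2))
      linarith
    obtain ⟨h5, h6⟩ := Tube2Aux.inc h le_rfl ht0 ht2
      (fun r hr => ht r ⟨hr.1, hr.2.trans ht2⟩) hall
    have h7 : ‖g 0‖ < 1 := by rw [h.1]; exact hz
    have h8 := (neg_le_abs _).trans (Complex.abs_re_le_norm (g 0 ^ 2))
    rw [hsq] at h8
    have h9 := norm_nonneg (g 0)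
    nlinarith [htI.1]

theorem bad_rec2 {U : ℝ → ℂ} (hU : Continuous U) (h0 : U 0 = 0)
    (ht : ∀ t ∈ Set.Icc (0 : ℝ) 2, ‖U t‖ ≤ 1 / 11) {ε : ℝ} (h : Bad U ε) :
    Bad (psub U (1 / 2) (1 / 2)) (2 * ε) ∧ Bad (psub U 1 (1 / 2)) (2 * ε) := by
  obtain ⟨z, g, hz, hg, hε, h2⟩ := h
  have htube := tube2 hU h0 ht hz hg h2
  have t1 := htube (1 / 2) (by constructor <;> norm_num)
  have t2 := htube 1 (by constructor <;> norm_num)
  have t3 := htube (3 / 2) (by constructor <;> norm_num)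
  refine ⟨BrecAux.bad_at hg hε (by norm_num) (by norm_num) t1 ?_,
    BrecAux.bad_at hg hε (by norm_num) le_rfl t2 ?_⟩
  · have : (1 / 2 + 1 / 2 : ℝ) = 1 := by norm_num
    rw [this]
    exact t2
  · have : (1 + 1 / 2 : ℝ) = 3 / 2 := by norm_num
    rw [this]
    exact t3

end

end Pool.Agent.SLE
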