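import Pool.Agent.Lib.MP_c17912_pr.Defs2
import Pool.Agent.Lib.MP_c17912_pr.DrvSub
import Pool.Agent.Lib.MP_c17912_pr.Markov
import Pool.Agent.Lib.MP_c17912_pr.Maxi
import Pool.Agent.Lib.MP_c17912_pr.Tube2

/-!
# MP_c17912_pr, module BAD2: bad points for trace at most `1/1000`
-/

set_option autoImplicit false

open MeasureTheory ProbabilityTheory Filter
open scoped NNReal ENNReal Topology

namespace Pool.Agent.SLE

noncomputable section

variable {Ω : Type*} [MeasurableSpace Ω] {μ : Measure Ω} {a b c K : ℝ} {W : ℝ → Ω → ℂ}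

namespace Bad2Aux

theorem eps [IsProbabilityMeasure μ] (hab : a + b ≤ 1 / 1000) (n : ℕ) :
    ∀ (W : ℝ → Ω → ℂ), Drv a b c K W μ → ∀ ε : ℝ, (1 / 2) ^ n ≤ ε →
      ∃ A, MeasurableSet[Blk W 0 2] A ∧ μ A ≤ ENNReal.ofReal (9 / 20) ∧
        ∀ ω ∉ A, (∀ t ∈ Set.Icc (0 : ℝ) 2, ‖W t ω‖ ≤ 1 / 11) ∧
          ¬ Bad (fun t => W t ω) ε := by
  induction n with
  | zero =>
    intro W hW ε hε
    obtain ⟨A₀, hA₀, hμ₀, hb₀⟩ := maximal hW (T := 2) (l := 1 / 11) (by norm_num) (by norm_num)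
    refine ⟨A₀, hA₀, hμ₀.trans (ENNReal.ofReal_le_ofReal (by norm_num; linarith)), ?_⟩
    intro ω hω
    refine ⟨hb₀ ω hω, ?_⟩
    rintro ⟨z, g, hz, hg, h1, -⟩
    have h2 := h1 0 (by constructor <;> norm_num)
    rw [hg.1] at h2
    simp only [hW.zero 0 le_rfl ω, sub_zero] at h2
    rw [pow_zero] at hε
    linarith
  | succ n ih =>
    intro W hW ε hε
    have hε2 : (1 / 2 : ℝ) ^ n ≤ 2 * ε := by
      rw [pow_succ] at hε
      linarith
    have hhalf : (0 : ℝ) < 1 / 2 := by norm_num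
    obtain ⟨A₀, hA₀, hμ₀, hb₀⟩ := maximal hW (T := 2) (l := 1 / 11) (by norm_num) (by norm_num)
    obtain ⟨A₁, hA₁, hμ₁, hb₁⟩ := ih _ (hW.sub hhalf.le hhalf) (2 * ε) hε2
    obtain ⟨A₂, hA₂, hμ₂, hb₂⟩ := ih _ (hW.sub zero_le_one hhalf) (2 * ε) hε2
    have hle₁ : Blk (subP W (1 / 2) (1 / 2)) 0 2 ≤ Blk W (1 / 2) 1 := by
      have h := Blk_sub_le (W := W) hhalf.le hhalf 2
      have e : (1 / 2 : ℝ) + (1 / 2) ^ 2 * 2 = 1 := by norm_num
      rwa [e] at h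
    have hle₂ : Blk (subP W 1 (1 / 2)) 0 2 ≤ Blk W 1 (3 / 2) := by
      have h := Blk_sub_le (W := W) zero_le_one hhalf 2
      have e : (1 : ℝ) + (1 / 2) ^ 2 * 2 = 3 / 2 := by norm_num
      rwa [e] at h
    have m₁ : MeasurableSet[Blk W 0 1] A₁ := (hle₁.trans (Blk_le_Blk hhalf.le le_rfl)) A₁ hA₁
    have m₂ : MeasurableSet[Fut W 1] A₂ := (hle₂.trans (Blk_le_Fut 1 (3 / 2))) A₂ hA₂
    have n₁ : MeasurableSet[Blk W 0 2] A₁ :=
      (hle₁.trans (Blk_le_Blk hhalf.le (by norm_num))) A₁ hA₁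
    have n₂ : MeasurableSet[Blk W 0 2] A₂ :=
      (hle₂.trans (Blk_le_Blk zero_le_one (by norm_num))) A₂ hA₂
    have hind : μ (A₁ ∩ A₂) = μ A₁ * μ A₂ :=
      (Indep_iff _ _ _).1 (indep_Blk_Fut hW zero_le_one) A₁ A₂ m₁ m₂
    refine ⟨A₀ ∪ (A₁ ∩ A₂), MeasurableSet.union hA₀ (MeasurableSet.inter n₁ n₂), ?_, ?_⟩
    · have e₀ : μ A₀ ≤ ENNReal.ofReal (242 / 1000) :=
        hμ₀.trans (ENNReal.ofReal_le_ofReal (by norm_num; linarith))
      have e₁ : μ (A₁ ∩ A₂) ≤ ENNReal.ofReal (81 / 400) := by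
        rw [hind]
        calc μ A₁ * μ A₂ ≤ ENNReal.ofReal (9 / 20) * ENNReal.ofReal (9 / 20) :=
              mul_le_mul' hμ₁ hμ₂
          _ = ENNReal.ofReal (81 / 400) := by
              rw [← ENNReal.ofReal_mul (by norm_num)]
              norm_num
      calc μ (A₀ ∪ (A₁ ∩ A₂)) ≤ μ A₀ + μ (A₁ ∩ A₂) := measure_union_le _ _
        _ ≤ ENNReal.ofReal (242 / 1000) + ENNReal.ofReal (81 / 400) := add_le_add e₀ e₁
        _ = ENNReal.ofReal (242 / 1000 + 81 / 400) :=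
            (ENNReal.ofReal_add (by norm_num) (by norm_num)).symm
        _ ≤ ENNReal.ofReal (9 / 20) := ENNReal.ofReal_le_ofReal (by norm_num)
    · intro ω hω
      have hω₀ : ω ∉ A₀ := fun h => hω (Or.inl h)
      refine ⟨hb₀ ω hω₀, fun hbad => ?_⟩
      obtain ⟨r₁, r₂⟩ := bad_rec2 (hW.cont ω) (hW.zero 0 le_rfl ω) (hb₀ ω hω₀) hbad
      have i₁ : ω ∈ A₁ := by
        by_contra h
        exact (hb₁ ω h).2 r₁
      have i₂ : ω ∈ A₂ := by
        by_contra h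
        exact (hb₂ ω h).2 r₂
      exact hω (Or.inr ⟨i₁, i₂⟩)

end Bad2Aux

/-- F3 BAD2. -/
theorem bad_small2 [IsProbabilityMeasure μ] (hab : a + b ≤ 1 / 1000) (hW : Drv a b c K W μ) :
    ∃ A, MeasurableSet[Blk W 0 2] A ∧ μ A ≤ ENNReal.ofReal (9 / 20) ∧
      ∀ ω ∉ A, (∀ t ∈ Set.Icc (0 : ℝ) 2, ‖W t ω‖ ≤ 1 / 11) ∧
        ∀ z g, ‖z‖ < 1 → Sol (fun t => W t ω) z 2 g → 1 ≤ ‖g 2 - W 2 ω‖ := by
  choose A hA hμ hbad using
    fun n : ℕ => Bad2Aux.eps (μ := μ) hab n W hW ((1 / 2) ^ n) le_rfl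
  refine ⟨⋃ m : ℕ, ⋂ n : ℕ, ⋂ _ : m ≤ n, A n, ?_, ?_, ?_⟩
  · exact MeasurableSet.iUnion fun m => MeasurableSet.iInter fun n =>
      MeasurableSet.iInter fun _ => hA n
  · have hmono : Monotone fun m : ℕ => ⋂ n : ℕ, ⋂ _ : m ≤ n, A n := by
      intro m m' hm
      exact Set.iInter_mono fun n => Set.iInter_mono' fun hn => ⟨hm.trans hn, subset_rfl⟩
    rw [hmono.measure_iUnion]
    refine iSup_le fun m => ?_
    refine (measure_mono ?_).trans (hμ m)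
    exact Set.iInter_subset_of_subset m (Set.iInter_subset_of_subset le_rfl subset_rfl)
  · intro ω hω
    have hinf : ∀ m : ℕ, ∃ n, m ≤ n ∧ ω ∉ A n := by
      intro m
      by_contra hcon
      push Not at hcon
      exact hω (Set.mem_iUnion.2 ⟨m, Set.mem_iInter.2 fun n => Set.mem_iInter.2 fun hn => hcon n hn⟩)
    constructor
    · obtain ⟨n, -, hn⟩ := hinf 0
      exact (hbad n ω hn).1
    · intro z g hz hg
      by_contra hlt
      rw [not_le] at hlt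
      -- the minimal distance is positive
      have hgc : ContinuousOn g (Set.Icc 0 2) := fun s hs => (hg.2.2 s hs).continuousWithinAt
      have hc : ContinuousOn (fun t => ‖g t - W t ω‖) (Set.Icc (0 : ℝ) 2) :=
        (hgc.sub (hW.cont ω).continuousOn).norm
      obtain ⟨t₀, ht₀, hmin⟩ := isCompact_Icc.exists_isMinOn (s := Set.Icc (0 : ℝ) 2)
        ⟨0, by norm_num, by norm_num⟩ hc
      have hpos : 0 < ‖g t₀ - W t₀ ω‖ := norm_pos_iff.2 (sub_ne_zero.2 (hg.2.1 t₀ ht₀))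
      obtain ⟨m, hm⟩ := exists_pow_lt_of_lt_one hpos (by norm_num : (1 / 2 : ℝ) < 1)
      obtain ⟨n, hn, hnA⟩ := hinf m
      refine (hbad n ω hnA).2 ⟨z, g, hz, hg, fun t ht => ?_, hlt⟩
      have h1 : (1 / 2 : ℝ) ^ n ≤ (1 / 2) ^ m :=
        pow_le_pow_of_le_one (by norm_num) (by norm_num) hn
      have h2 : ‖g t₀ - W t₀ ω‖ ≤ ‖g t - W t ω‖ := hmin ht
      linarith

end

end Pool.Agent.SLE
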