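import Pool.Agent.Lib.MP_c17912_pr.Bscale

set_option autoImplicit false

open MeasureTheory ProbabilityTheory Filter
open scoped NNReal ENNReal Topology

namespace Pool.Agent.SLE

noncomputable section

variable {Ω : Type*} [MeasurableSpace Ω] {μ : Measure Ω} {a b c K : ℝ} {W : ℝ → Ω → ℂ}

/-- C2 BAD. -/
theorem bad_small [IsProbabilityMeasure μ] (hab : a + b ≤ 1 / 12800) (hW : Drv a b c K W μ) :
    ∃ A, MeasurableSet[Blk W 0 2] A ∧ μ A ≤ ENNReal.ofReal (1 / 8) ∧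
      ∀ ω ∉ A, ∀ z g, ‖z‖ < 1 → Sol (fun t => W t ω) z 2 g → 1 ≤ ‖g 2 - W 2 ω‖ := by
  choose A hA hμ hbad using fun n : ℕ => bad_small_eps (μ := μ) hab n W hW ((1 / 2) ^ n) le_rfl
  refine ⟨⋃ m : ℕ, ⋂ n : ℕ, ⋂ _ : m ≤ n, A n, ?_, ?_, ?_⟩
  · exact MeasurableSet.iUnion fun m => MeasurableSet.iInter fun n =>
      MeasurableSet.iInter fun _ => hA n
  · have hmono : Monotone fun m : ℕ => ⋂ n : ℕ, ⋂ _ : m ≤ n, A n := by
      intro m m' hm
      exact Set.iInter_mono fun n => Set.iInter_mono' fun hn => ⟨hm.trans hn, subset_rfl⟩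
    rw [hmono.measure_iUnion]
    refine iSup_le fun m => ?_
    refine (measure_mono ?_).trans (hμ m)
    exact Set.iInter_subset_of_subset m (Set.iInter_subset_of_subset le_rfl subset_rfl)
  · intro ω hω z g hz hg
    by_contra hlt
    rw [not_le] at hlt
    -- the minimal distance is positive
    have hgc : ContinuousOn g (Set.Icc 0 2) := fun s hs => (hg.2.2 s hs).continuousWithinAt
    have hc : ContinuousOn (fun t => ‖g t - W t ω‖) (Set.Icc (0 : ℝ) 2) :=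
      (hgc.sub (hW.cont ω).continuousOn).norm
    obtain ⟨t₀, ht₀, hmin⟩ := isCompact_Icc.exists_isMinOn (s := Set.Icc (0 : ℝ) 2)
      ⟨0, by norm_num, by norm_num⟩ hc
    have hpos : 0 < ‖g t₀ - W t₀ ω‖ := norm_pos_iff.2 (sub_ne_zero.2 (hg.2.1 t₀ ht₀))
    obtain ⟨m, hm⟩ := exists_pow_lt_of_lt_one hpos (by norm_num : (1 / 2 : ℝ) < 1)
    apply hω
    refine Set.mem_iUnion.2 ⟨m, Set.mem_iInter.2 fun n => Set.mem_iInter.2 fun hn => ?_⟩
    by_contra hnA
    refine hbad n ω hnA ⟨z, g, hz, hg, fun t ht => ?_, hlt⟩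
    have h1 : (1 / 2 : ℝ) ^ n ≤ (1 / 2) ^ m :=
      pow_le_pow_of_le_one (by norm_num) (by norm_num) hn
    have h2 : ‖g t₀ - W t₀ ω‖ ≤ ‖g t - W t ω‖ := hmin ht
    linarith

end

end Pool.Agent.SLE
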