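import Pool.Agent.Lib.MP_c17912_pr.Defs
import Pool.Agent.Lib.MP_c17912_pr.Flow
import Pool.Agent.Lib.MP_c17912_pr.Reach

set_option autoImplicit false

open MeasureTheory ProbabilityTheory Filter
open scoped NNReal ENNReal Topology

namespace Pool.Agent.SLE

noncomputable section

variable {Ω : Type*} [MeasurableSpace Ω] {μ : Measure Ω} {a b c K : ℝ} {W : ℝ → Ω → ℂ}

namespace BallAux

/-- the main estimate: two solutions stay close -/
theorem close {U : ℝ → ℂ} (hU : Continuous U) {z₀ w : ℂ} {M ρ s : ℝ} {g g' : ℝ → ℂ}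
    (hz : z₀ ≠ 0) (hρ : 0 ≤ ρ) (hs : 0 ≤ s) (hM : 8 * ρ * M ≤ 1) (hM0 : 0 ≤ M)
    (hg : Sol U z₀ s g) (hg' : Sol U w s g')
    (hb : ∀ t ∈ Set.Icc 0 s,
      Real.exp (-∫ s in (0 : ℝ)..t, (2 / (g s - U s) ^ 2).re)
        ≤ M / ‖z₀‖ * ‖g t - U t‖ * Real.exp (-2 * ∫ s in (0 : ℝ)..t, 1 / ‖g s - U s‖ ^ 2))
    (hw : ‖w - z₀‖ ≤ ρ * ‖z₀‖) (hne : w ≠ z₀) : ‖g' s - g s‖ ≤ ‖g s - U s‖ / 4 := by
  have hz0 : 0 < ‖z₀‖ := norm_pos_iff.mpr hz
  -- continuous extension of `Z`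
  have hgc : ContinuousOn g (Set.Icc 0 s) := fun x hx => (hg.2.2 x hx).continuousWithinAt
  set Z : ℝ → ℂ := Set.IccExtend hs (fun x : Set.Icc 0 s => g x - U x) with hZ
  have hZc : Continuous Z := by
    refine Continuous.Icc_extend' ?_
    exact (continuousOn_iff_continuous_domRestrict.mp hgc).sub (hU.comp continuous_subtype_val)
  have hZe : ∀ x ∈ Set.Icc 0 s, Z x = g x - U x := fun x hx => Set.IccExtend_of_mem hs _ hx
  have hZ0 : ∀ x, Z x ≠ 0 := by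
    intro x
    have : Z x = g (Set.projIcc 0 s hs x) - U (Set.projIcc 0 s hs x) := rfl
    rw [this]
    exact sub_ne_zero.mpr (hg.2.1 _ (Set.projIcc 0 s hs x).2)
  have hac : Continuous fun x => 2 / Z x ^ 2 :=
    continuous_const.div (hZc.pow 2) fun x => pow_ne_zero 2 (hZ0 x)
  have hbc : Continuous fun x => 1 / ‖Z x‖ ^ 2 :=
    continuous_const.div (hZc.norm.pow 2) fun x => pow_ne_zero 2 (norm_ne_zero_iff.mpr (hZ0 x))
  set J : ℝ → ℂ := fun u => ∫ x in (0 : ℝ)..u, 2 / Z x ^ 2 with hJ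
  set τ : ℝ → ℝ := fun u => ∫ x in (0 : ℝ)..u, 1 / ‖Z x‖ ^ 2 with hτ
  have hJd : ∀ u, HasDerivAt J (2 / Z u ^ 2) u := fun u =>
    intervalIntegral.integral_hasDerivAt_right (hac.intervalIntegrable _ _)
      (hac.stronglyMeasurableAtFilter _ _) hac.continuousAt
  have hτd : ∀ u, HasDerivAt τ (1 / ‖Z u‖ ^ 2) u := fun u =>
    intervalIntegral.integral_hasDerivAt_right (hbc.intervalIntegrable _ _)
      (hbc.stronglyMeasurableAtFilter _ _) hbc.continuousAt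
  -- the bound in terms of `J` and `τ`
  have hb' : ∀ u ∈ Set.Icc 0 s, Real.exp (-(J u).re) ≤
      M / ‖z₀‖ * ‖Z u‖ * Real.exp (-2 * τ u) := by
    intro u hu
    have h1 := hb u hu
    have e0 : ∀ x ∈ Set.uIcc 0 u, Z x = g x - U x := by
      intro x hx
      rw [Set.uIcc_of_le hu.1] at hx
      exact hZe x ⟨hx.1, hx.2.trans hu.2⟩
    have e1 : ∫ x in (0 : ℝ)..u, (2 / (g x - U x) ^ 2).re = (J u).re := by
      have : ∫ x in (0 : ℝ)..u, (2 / (g x - U x) ^ 2).re =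
          ∫ x in (0 : ℝ)..u, Complex.reCLM (2 / Z x ^ 2) :=
        intervalIntegral.integral_congr fun x hx => by
          simp only [Complex.reCLM_apply]
          rw [e0 x hx]
      rw [this, Complex.reCLM.intervalIntegral_comp_comm (hac.intervalIntegrable _ _)]
      rfl
    have e2 : ∫ x in (0 : ℝ)..u, 1 / ‖g x - U x‖ ^ 2 = τ u :=
      intervalIntegral.integral_congr fun x hx => by
        change 1 / ‖g x - U x‖ ^ 2 = 1 / ‖Z x‖ ^ 2
        rw [e0 x hx]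
    rw [e1, e2, ← hZe u hu] at h1
    exact h1
  -- the normalised difference
  set D : ℝ → ℂ := fun u => g' u - g u with hD
  set N : ℝ → ℂ := fun u => D u * Complex.exp (J u) with hN
  have hD0 : D 0 = w - z₀ := by rw [hD]; simp only; rw [hg.1, hg'.1]
  have hD0p : 0 < ‖D 0‖ := by rw [hD0]; exact norm_pos_iff.mpr (sub_ne_zero.mpr hne)
  have hJ0 : J 0 = 0 := by simp [hJ]
  have hτ0 : τ 0 = 0 := by simp [hτ]
  have hN0 : ‖N 0‖ = ‖D 0‖ := by simp [hN, hJ0]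
  have hND : ∀ u, ‖N u‖ = ‖D u‖ * Real.exp (J u).re := by
    intro u
    rw [hN]
    simp only
    rw [norm_mul, Complex.norm_exp]
  have hDd : ∀ u ∈ Set.Ico 0 s, HasDerivWithinAt D (-2 * D u / (Z u * (Z u + D u)))
      (Set.Ici u) u := by
    intro u hu
    have hu' : u ∈ Set.Icc 0 s := ⟨hu.1, hu.2.le⟩
    have hmem : Set.Icc 0 s ∈ 𝓝[≥] u := by
      refine mem_of_superset (Icc_mem_nhdsGE hu.2) ?_
      exact Set.Icc_subset_Icc_left hu.1
    have h1 := (hg'.2.2 u hu').mono_of_mem_nhdsWithin hmem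
    have h2 := (hg.2.2 u hu').mono_of_mem_nhdsWithin hmem
    refine (h1.sub h2).congr_deriv ?_
    have hne1 : g u - U u ≠ 0 := sub_ne_zero.mpr (hg.2.1 u hu')
    have hne2 : g' u - U u ≠ 0 := sub_ne_zero.mpr (hg'.2.1 u hu')
    have e1 : Z u + D u = g' u - U u := by rw [hZe u hu', hD]; simp only; ring
    rw [e1, hZe u hu', hD]
    simp only
    field_simp
    ring
  have hNd : ∀ u ∈ Set.Ico 0 s, HasDerivWithinAt N
      (N u * (2 * D u / (Z u ^ 2 * (Z u + D u)))) (Set.Ici u) u := by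
    intro u hu
    have hu' : u ∈ Set.Icc 0 s := ⟨hu.1, hu.2.le⟩
    have h1 := (hDd u hu).mul ((hJd u).cexp.hasDerivWithinAt (s := Set.Ici u))
    refine h1.congr_deriv ?_
    have hne2 : g' u - U u ≠ 0 := sub_ne_zero.mpr (hg'.2.1 u hu')
    have e1 : Z u + D u = g' u - U u := by rw [hZe u hu', hD]; simp only; ring
    have hne3 : Z u + D u ≠ 0 := by rw [e1]; exact hne2
    have hne4 := hZ0 u
    rw [hN]
    simp only
    field_simp
    ring
  -- consequences of an upper bound for `N`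
  have hcons : ∀ u ∈ Set.Icc 0 s, ‖N u‖ ≤ 2 * ‖D 0‖ →
      ‖D u‖ ≤ 2 * ρ * M * ‖Z u‖ * Real.exp (-2 * τ u) := by
    intro u hu hNu
    rw [hND] at hNu
    have h1 : ‖D u‖ = ‖D u‖ * Real.exp (J u).re * Real.exp (-(J u).re) := by
      rw [mul_assoc, ← Real.exp_add, add_neg_cancel, Real.exp_zero, mul_one]
    have h2 : ‖D 0‖ ≤ ρ * ‖z₀‖ := by rw [hD0]; exact hw
    rw [h1]
    calc ‖D u‖ * Real.exp (J u).re * Real.exp (-(J u).re)
        ≤ (2 * ‖D 0‖) * (M / ‖z₀‖ * ‖Z u‖ * Real.exp (-2 * τ u)) :=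
          mul_le_mul hNu (hb' u hu) (Real.exp_pos _).le (by positivity)
      _ ≤ (2 * (ρ * ‖z₀‖)) * (M / ‖z₀‖ * ‖Z u‖ * Real.exp (-2 * τ u)) := by
          gcongr
      _ = 2 * ρ * M * ‖Z u‖ * Real.exp (-2 * τ u) := by
          field_simp
  have hτn : ∀ u ∈ Set.Icc 0 s, 0 ≤ τ u := by
    intro u hu
    exact intervalIntegral.integral_nonneg hu.1 fun x _ => by positivity
  have hcons2 : ∀ u ∈ Set.Icc 0 s, ‖N u‖ ≤ 2 * ‖D 0‖ → ‖D u‖ ≤ ‖Z u‖ / 4 := by
    intro u hu hNu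
    refine (hcons u hu hNu).trans ?_
    have h1 : Real.exp (-2 * τ u) ≤ 1 := by
      rw [Real.exp_le_one_iff]
      have := hτn u hu
      linarith
    have h2 : 2 * ρ * M ≤ 1 / 4 := by linarith
    have h3 : 0 ≤ ‖Z u‖ := norm_nonneg _
    calc 2 * ρ * M * ‖Z u‖ * Real.exp (-2 * τ u) ≤ 1 / 4 * ‖Z u‖ * 1 := by gcongr
      _ = ‖Z u‖ / 4 := by ring
  -- the boundary function
  set B : ℝ → ℝ := fun u => ‖D 0‖ * Real.exp (1 / 2 * (1 - Real.exp (-2 * τ u))) with hB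
  have hB2 : ∀ u, B u ≤ 2 * ‖D 0‖ := by
    intro u
    have h1 : Real.exp (1 / 2 * (1 - Real.exp (-2 * τ u))) ≤ Real.exp (1 / 2) := by
      apply Real.exp_le_exp.mpr
      have := Real.exp_pos (-2 * τ u)
      linarith
    have h2 : Real.exp (1 / 2) ≤ 2 := by
      have h3 : Real.exp (1 / 2) ^ 2 = Real.exp 1 := by
        rw [← Real.exp_nat_mul]; norm_num
      have h4 := Real.exp_one_lt_d9
      have h5 := Real.exp_pos (1 / 2)
      nlinarith
    rw [hB]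
    simp only
    rw [mul_comm]
    gcongr
    exact h1.trans h2
  have hBpos : ∀ u, 0 < B u := fun u => mul_pos hD0p (Real.exp_pos _)
  have hBd : ∀ u, HasDerivAt B (B u * (Real.exp (-2 * τ u) * (1 / ‖Z u‖ ^ 2))) u := by
    intro u
    have h1 : HasDerivAt (fun u => -2 * τ u) (-2 * (1 / ‖Z u‖ ^ 2)) u := (hτd u).const_mul (-2)
    have h2 := h1.exp
    have h3 : HasDerivAt (fun u => 1 / 2 * (1 - Real.exp (-2 * τ u)))
        (1 / 2 * (-(Real.exp (-2 * τ u) * (-2 * (1 / ‖Z u‖ ^ 2))))) u :=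
      (h2.const_sub 1).const_mul (1 / 2)
    have h4 := (h3.exp).const_mul ‖D 0‖
    refine h4.congr_deriv ?_
    rw [hB]
    simp only
    ring
  have hDc : ContinuousOn D (Set.Icc 0 s) :=
    (fun x hx => ((hg'.2.2 x hx).continuousWithinAt).sub (hg.2.2 x hx).continuousWithinAt)
  have hNc : ContinuousOn N (Set.Icc 0 s) :=
    hDc.mul (Complex.continuous_exp.comp
      (continuous_iff_continuousAt.mpr fun u => (hJd u).continuousAt)).continuousOn
  have main := image_norm_le_of_norm_deriv_right_lt_deriv_boundary (a := 0) (b := s)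
    (f := N) (f' := fun u => N u * (2 * D u / (Z u ^ 2 * (Z u + D u)))) (B := B)
    (B' := fun u => B u * (Real.exp (-2 * τ u) * (1 / ‖Z u‖ ^ 2))) hNc hNd
    (by rw [hN0, hB]; simp [hτ0]) hBd (fun u hu hNB => by
      have hu' : u ∈ Set.Icc 0 s := ⟨hu.1, hu.2.le⟩
      have hN2 : ‖N u‖ ≤ 2 * ‖D 0‖ := by rw [hNB]; exact hB2 u
      have h1 := hcons u hu' hN2
      have h2 := hcons2 u hu' hN2
      have hZp : 0 < ‖Z u‖ := norm_pos_iff.mpr (hZ0 u)
      have h3 : 3 / 4 * ‖Z u‖ ≤ ‖Z u + D u‖ := by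
        have h4 : ‖Z u‖ ≤ ‖Z u + D u‖ + ‖D u‖ := by
          have := norm_sub_le (Z u + D u) (D u)
          rwa [add_sub_cancel_right] at this
        linarith
      have h5 : ‖2 * D u / (Z u ^ 2 * (Z u + D u))‖ < Real.exp (-2 * τ u) * (1 / ‖Z u‖ ^ 2) := by
        rw [norm_div, norm_mul, norm_mul, norm_pow, Complex.norm_ofNat]
        have h9 : 0 < ‖Z u + D u‖ := lt_of_lt_of_le (by positivity) h3
        rw [div_lt_iff₀ (by positivity)]
        have h6 : Real.exp (-2 * τ u) * (1 / ‖Z u‖ ^ 2) * (‖Z u‖ ^ 2 * ‖Z u + D u‖) =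
            Real.exp (-2 * τ u) * ‖Z u + D u‖ := by field_simp
        rw [h6]
        have h7 : 2 * ρ * M ≤ 1 / 4 := by linarith
        have h8 : 0 < Real.exp (-2 * τ u) := Real.exp_pos _
        calc 2 * ‖D u‖ ≤ 2 * (2 * ρ * M * ‖Z u‖ * Real.exp (-2 * τ u)) := by gcongr
          _ ≤ 2 * (1 / 4 * ‖Z u‖ * Real.exp (-2 * τ u)) := by gcongr
          _ < Real.exp (-2 * τ u) * (3 / 4 * ‖Z u‖) := by nlinarith [mul_pos h8 hZp]
          _ ≤ Real.exp (-2 * τ u) * ‖Z u + D u‖ := by gcongr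
      rw [norm_mul, hNB]
      exact mul_lt_mul_of_pos_left h5 (hBpos u))
  have hfin := main (show s ∈ Set.Icc 0 s from ⟨hs, le_rfl⟩)
  have := hcons2 s ⟨hs, le_rfl⟩ (hfin.trans (hB2 s))
  rw [hZe s ⟨hs, le_rfl⟩] at this
  exact this

end BallAux

/-- A8 BALL. If the derivative along the path of `z₀` is small compared with the distance to the
tip, then a whole ball around `z₀` is never absorbed. -/
theorem ball_alive {U : ℝ → ℂ} (hU : Continuous U) (h0 : U 0 = 0) {z₀ : ℂ} {M ρ : ℝ}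
    (hz : z₀ ≠ 0) (hρ : 0 ≤ ρ) (hM : 8 * ρ * M ≤ 1) (hal : ∀ t, 0 ≤ t → ∃ g, Sol U z₀ t g)
    (hb : ∀ t g, 0 ≤ t → Sol U z₀ t g →
      Real.exp (-∫ s in (0 : ℝ)..t, (2 / (g s - U s) ^ 2).re)
        ≤ M / ‖z₀‖ * ‖g t - U t‖ * Real.exp (-2 * ∫ s in (0 : ℝ)..t, 1 / ‖g s - U s‖ ^ 2))
    {w : ℂ} (hw : ‖w - z₀‖ ≤ ρ * ‖z₀‖) : ∀ t, 0 ≤ t → ∃ g, Sol U w t g := by
  intro t ht
  by_contra hcon
  have hz0 : 0 < ‖z₀‖ := norm_pos_iff.mpr hz
  obtain ⟨g, hg⟩ := hal t ht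
  -- `M ≥ 1`
  have hM1 : 1 ≤ M := by
    have h1 := hb 0 g le_rfl (hg.restrict ht)
    rw [intervalIntegral.integral_same, intervalIntegral.integral_same, neg_zero, mul_zero,
      Real.exp_zero, mul_one, hg.1, h0, sub_zero, div_mul_cancel₀ _ hz0.ne'] at h1
    exact h1
  have hρ8 : ρ ≤ 1 / 8 := by nlinarith
  have hw0 : 0 < ‖w‖ := by
    have h1 : ‖z₀‖ ≤ ‖w‖ + ‖w - z₀‖ := by
      have := norm_sub_le w (w - z₀)
      rwa [sub_sub_cancel] at this
    nlinarith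
  -- lower bound for the distance
  obtain ⟨c, hc0, hc⟩ : ∃ c : ℝ, 0 < c ∧ ∀ x ∈ Set.Icc 0 t, c ≤ ‖g x - U x‖ := by
    have hgc : ContinuousOn (fun x => ‖g x - U x‖) (Set.Icc 0 t) := fun x hx =>
      ((hg.2.2 x hx).continuousWithinAt.sub hU.continuousAt.continuousWithinAt).norm
    obtain ⟨x, hx, hmin⟩ := isCompact_Icc.exists_isMinOn ⟨0, ⟨le_rfl, ht⟩⟩ hgc
    exact ⟨‖g x - U x‖, norm_pos_iff.mpr (sub_ne_zero.mpr (hg.2.1 x hx)), fun y hy => hmin hy⟩
  set δ : ℝ := min (c / 2) (‖w‖ / 2) with hδ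
  have hδ0 : 0 < δ := lt_min (by linarith) (by linarith)
  obtain ⟨s, hs, g', hg', hgs⟩ := hull_reach hU ht (z := w) (δ := δ) hcon hδ0 (by
    rw [h0, sub_zero]
    exact lt_of_le_of_lt (min_le_right _ _) (by linarith))
  have hgr : Sol U z₀ s g := hg.restrict hs.2
  have hcs := hc s hs
  by_cases hne : w = z₀
  · subst hne
    have := Sol.unique hU hg' hgr s ⟨hs.1, le_rfl⟩
    rw [this] at hgs
    rw [hgs] at hcs
    have := min_le_left (c / 2) (‖w‖ / 2)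
    linarith
  · have h1 := BallAux.close hU hz hρ hs.1 hM (by linarith) hgr hg'
      (fun u hu => hb u g hu.1 (hgr.restrict hu.2)) hw hne
    have h2 : ‖g s - U s‖ ≤ ‖g' s - U s‖ + ‖g' s - g s‖ := by
      have := norm_sub_le (g' s - U s) (g' s - g s)
      have e : g' s - U s - (g' s - g s) = g s - U s := by ring
      rwa [e] at this
    rw [hgs] at h2
    have := min_le_left (c / 2) (‖w‖ / 2)
    linarith

end

end Pool.Agent.SLE
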