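import Pool.Agent.Lib.MP_c17912_pr.Defs
import Pool.Agent.Lib.MP_c17912_pr.DrvSub
import Pool.Agent.Lib.MP_c17912_pr.Markov
import Pool.Agent.Lib.MP_c17912_pr.Maxi
import Pool.Agent.Lib.MP_c17912_pr.Brec

/-!
# MP_c17912_pr, module BSCALE: bad points at scale `2 ^ (-n)`
-/

set_option autoImplicit false

open MeasureTheory ProbabilityTheory Filter
open scoped NNReal ENNReal Topology

namespace Pool.Agent.SLE

noncomputable section

variable {Ω : Type*} [MeasurableSpace Ω] {μ : Measure Ω} {a b c K : ℝ} {W : ℝ → Ω → ℂ}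

/-- C1 BSCALE. -/
theorem bad_small_eps [IsProbabilityMeasure μ] (hab : a + b ≤ 1 / 12800) (n : ℕ) :
    ∀ (W : ℝ → Ω → ℂ), Drv a b c K W μ → ∀ ε : ℝ, (1 / 2) ^ n ≤ ε →
      ∃ A, MeasurableSet[Blk W 0 2] A ∧ μ A ≤ ENNReal.ofReal (1 / 8) ∧
        ∀ ω ∉ A, ¬ Bad (fun t => W t ω) ε := by
  induction n with
  | zero =>
    intro W hW ε hε
    refine ⟨∅, @MeasurableSet.empty _ (Blk W 0 2), by simp, ?_⟩
    rintro ω - ⟨z, g, hz, hg, h1, -⟩
    have h2 := h1 0 (by constructor <;> norm_num)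
    rw [hg.1] at h2
    simp only [hW.zero 0 le_rfl ω, sub_zero] at h2
    rw [pow_zero] at hε
    linarith
  | succ n ih =>
    intro W hW ε hε
    have hε2 : (1 / 2 : ℝ) ^ n ≤ 2 * ε := by
      rw [pow_succ] at hε
      linarith
    have hhalf : (0 : ℝ) < 1 / 2 := by norm_num
    obtain ⟨A₀, hA₀, hμ₀, hb₀⟩ := maximal hW (T := 2) (l := 1 / 20) (by norm_num) (by norm_num)
    obtain ⟨A₁, hA₁, hμ₁, hb₁⟩ := ih _ (hW.sub hhalf.le hhalf) (2 * ε) hε2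
    obtain ⟨A₂, hA₂, hμ₂, hb₂⟩ := ih _ (hW.sub zero_le_one hhalf) (2 * ε) hε2
    have hle₁ : Blk (subP W (1 / 2) (1 / 2)) 0 2 ≤ Blk W (1 / 2) 1 := by
      have h := Blk_sub_le (W := W) hhalf.le hhalf 2
      have e : (1 / 2 : ℝ) + (1 / 2) ^ 2 * 2 = 1 := by norm_num
      rwa [e] at h
    have hle₂ : Blk (subP W 1 (1 / 2)) 0 2 ≤ Blk W 1 (3 / 2) := by
      have h := Blk_sub_le (W := W) zero_le_one hhalf 2
      have e : (1 : ℝ) + (1 / 2) ^ 2 * 2 = 3 / 2 := by norm_num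
      rwa [e] at h
    have m₁ : MeasurableSet[Blk W 0 1] A₁ := (hle₁.trans (Blk_le_Blk hhalf.le le_rfl)) A₁ hA₁
    have m₂ : MeasurableSet[Fut W 1] A₂ := (hle₂.trans (Blk_le_Fut 1 (3 / 2))) A₂ hA₂
    have n₁ : MeasurableSet[Blk W 0 2] A₁ :=
      (hle₁.trans (Blk_le_Blk hhalf.le (by norm_num))) A₁ hA₁
    have n₂ : MeasurableSet[Blk W 0 2] A₂ :=
      (hle₂.trans (Blk_le_Blk zero_le_one (by norm_num))) A₂ hA₂
    have hind : μ (A₁ ∩ A₂) = μ A₁ * μ A₂ :=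
      (Indep_iff _ _ _).1 (indep_Blk_Fut hW zero_le_one) A₁ A₂ m₁ m₂
    refine ⟨A₀ ∪ (A₁ ∩ A₂), MeasurableSet.union hA₀ (MeasurableSet.inter n₁ n₂), ?_, ?_⟩
    · have e₀ : μ A₀ ≤ ENNReal.ofReal (1 / 16) :=
        hμ₀.trans (ENNReal.ofReal_le_ofReal (by norm_num; linarith))
      have e₁ : μ (A₁ ∩ A₂) ≤ ENNReal.ofReal (1 / 64) := by
        rw [hind]
        calc μ A₁ * μ A₂ ≤ ENNReal.ofReal (1 / 8) * ENNReal.ofReal (1 / 8) :=
              mul_le_mul' hμ₁ hμ₂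
          _ = ENNReal.ofReal (1 / 64) := by
              rw [← ENNReal.ofReal_mul (by norm_num)]
              norm_num
      calc μ (A₀ ∪ (A₁ ∩ A₂)) ≤ μ A₀ + μ (A₁ ∩ A₂) := measure_union_le _ _
        _ ≤ ENNReal.ofReal (1 / 16) + ENNReal.ofReal (1 / 64) := add_le_add e₀ e₁
        _ = ENNReal.ofReal (1 / 16 + 1 / 64) := (ENNReal.ofReal_add (by norm_num) (by norm_num)).symm
        _ ≤ ENNReal.ofReal (1 / 8) := ENNReal.ofReal_le_ofReal (by norm_num)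
    · intro ω hω hbad
      have hω₀ : ω ∉ A₀ := fun h => hω (Or.inl h)
      obtain ⟨r₁, r₂⟩ := bad_rec (hW.cont ω) (hW.zero 0 le_rfl ω) (hb₀ ω hω₀) hbad
      have i₁ : ω ∈ A₁ := by
        by_contra h
        exact hb₁ ω h r₁
      have i₂ : ω ∈ A₂ := by
        by_contra h
        exact hb₂ ω h r₂
      exact hω (Or.inr ⟨i₁, i₂⟩)

end

end Pool.Agent.SLE
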