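import Pool.Agent.Lib.MP_c17912_pr.Clus2

/-!
# Points which are far from the tip at time `2` (module CLUS of MP_c17912_pr)
-/

set_option autoImplicit false

open MeasureTheory ProbabilityTheory Filter
open scoped NNReal ENNReal Topology

namespace Pool.Agent.SLE

noncomputable section

variable {Ω : Type*} [MeasurableSpace Ω] {μ : Measure Ω} {a b c K : ℝ} {W : ℝ → Ω → ℂ}

/-- A6 CLUS. -/
theorem cluster {U : ℝ → ℂ} (hU : Continuous U) (h0 : U 0 = 0) {T : ℝ} (hT : 2 ≤ T)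
    (ht : ∀ t ∈ Set.Icc 0 T, ‖U t‖ ≤ 1 / 20) {z : ℂ} {g : ℝ → ℂ} (hz : ‖z‖ < 1)
    (h : Sol U z T g) (h2 : 1 ≤ ‖g 2 - U 2‖) :
    ‖g T - U T - (2 * √T : ℝ)‖ ≤ 14 ∨ ‖g T - U T - (-(2 * √T) : ℝ)‖ ≤ 14 :=
  cluster2 hU h0 hT (fun t hs => (ht t ⟨hs.1, hs.2.trans hT⟩).trans (by norm_num))
    (fun t hs => (ht t ⟨by linarith [hs.1], hs.2⟩).trans (by norm_num)) hz h h2

end

end Pool.Agent.SLE
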