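import Pool.Agent.Lib.MP_c17912_pr.Sq

/-!
# Points which are far from the tip at time `2` (module CLUS2 of MP_c17912_pr)

`cluster2`: a point of the unit disc which is at distance at least `1` from the tip at time `2` is
within `14` of `2 √T` or of `- 2 √T` at time `T`.
-/

set_option autoImplicit false

open MeasureTheory ProbabilityTheory Filter
open scoped NNReal ENNReal Topology

namespace Pool.Agent.SLE

noncomputable section

variable {Ω : Type*} [MeasurableSpace Ω] {μ : Measure Ω} {a b c K : ℝ} {W : ℝ → Ω → ℂ}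

namespace Clus2Aux

/-- The basic estimates for `φ = g ^ 2` while `|g|` is at least twice `|U|`. -/
theorem sq_deriv' {U : ℝ → ℂ} {z : ℂ} {t : ℝ} {g : ℝ → ℂ} (h : Sol U z t g) {s : ℝ}
    (hs : s ∈ Set.Icc 0 t) (hg : g s ≠ 0) (hUg : 2 * ‖U s‖ ≤ ‖g s‖) :
    ∃ d : ℂ, HasDerivWithinAt (fun τ => g τ ^ 2) d (Set.Icc 0 t) s ∧ ‖d‖ ≤ 8 ∧ 8 / 3 ≤ d.re ∧
      ‖d - 4‖ ≤ 8 * (‖U s‖ / ‖g s‖) := by
  obtain ⟨_, hne, hd⟩ := h
  have hD : g s - U s ≠ 0 := sub_ne_zero.mpr (hne s hs)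
  have hgpos : 0 < ‖g s‖ := norm_pos_iff.mpr hg
  obtain ⟨w, hw⟩ : ∃ w, w = U s / g s := ⟨_, rfl⟩
  have hUw : U s = w * g s := by rw [hw]; field_simp
  have hwn : ‖w‖ = ‖U s‖ / ‖g s‖ := by rw [hw, norm_div]
  have hw2 : ‖w‖ ≤ 1 / 2 := by
    rw [hwn, div_le_iff₀ hgpos]
    linarith
  have hw1 : (1 : ℂ) - w ≠ 0 := by
    intro h0
    apply hD
    rw [hUw]
    linear_combination g s * h0
  have h1w : 1 / 2 ≤ ‖(1 : ℂ) - w‖ := by
    have := norm_sub_norm_le (1 : ℂ) w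
    rw [norm_one] at this
    linarith
  have h1pos : 0 < ‖(1 : ℂ) - w‖ := by linarith
  refine ⟨4 / (1 - w), ?_, ?_, ?_, ?_⟩
  · have h2 := (hd s hs).pow 2
    refine h2.congr_deriv ?_
    have h3 : g s - U s = g s * (1 - w) := by rw [hUw]; ring
    rw [h3]
    field_simp
    norm_num
    ring
  · rw [norm_div, Complex.norm_ofNat, div_le_iff₀ h1pos]
    linarith
  · have h4 : (4 / (1 - w)).re = 4 * (1 - w.re) / ‖(1 : ℂ) - w‖ ^ 2 := by
      rw [Complex.div_re, Complex.sq_norm]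
      simp
    have h5 : ‖(1 : ℂ) - w‖ ^ 2 = 1 - 2 * w.re + ‖w‖ ^ 2 := by
      rw [Complex.sq_norm, Complex.sq_norm, Complex.normSq_apply, Complex.normSq_apply]
      simp
      ring
    have h6 : |w.re| ≤ ‖w‖ := Complex.abs_re_le_norm w
    have h7 := neg_abs_le w.re
    have h8 : 0 ≤ ‖w‖ := norm_nonneg w
    rw [h4, le_div_iff₀ (by positivity), h5]
    nlinarith
  · have h4 : 4 / (1 - w) - 4 = 4 * w / (1 - w) := by
      field_simp
      ring
    rw [← hwn, h4, norm_div, norm_mul, Complex.norm_ofNat, div_le_iff₀ h1pos]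
    have h8 : 0 ≤ ‖w‖ := norm_nonneg w
    nlinarith

/-- Integrated form of `sq_deriv'` on an interval. -/
theorem inc' {U : ℝ → ℂ} {z : ℂ} {t : ℝ} {g : ℝ → ℂ} (h : Sol U z t g) {u v : ℝ} (hu : 0 ≤ u)
    (huv : u ≤ v) (hvt : v ≤ t) (hg : ∀ s ∈ Set.Icc u v, 0 < ‖g s‖ ∧ 2 * ‖U s‖ ≤ ‖g s‖) :
    ‖g v ^ 2 - g u ^ 2‖ ≤ 8 * (v - u) ∧ 8 / 3 * (v - u) ≤ (g v ^ 2).re - (g u ^ 2).re := by
  have hsub : Set.Icc u v ⊆ Set.Icc 0 t := Set.Icc_subset_Icc hu hvt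
  have key : ∀ s ∈ Set.Icc u v, ∃ d : ℂ,
      HasDerivWithinAt (fun τ => g τ ^ 2) d (Set.Icc u v) s ∧ ‖d‖ ≤ 8 ∧ 8 / 3 ≤ d.re := by
    intro s hs
    obtain ⟨d, h1, h2, h3, _⟩ := sq_deriv' h (hsub hs) (norm_pos_iff.mp (hg s hs).1) (hg s hs).2
    exact ⟨d, h1.mono hsub, h2, h3⟩
  choose! d hd1 hd2 hd3 using key
  have hu' : u ∈ Set.Icc u v := ⟨le_rfl, huv⟩
  have hv' : v ∈ Set.Icc u v := ⟨huv, le_rfl⟩
  constructor
  · have h1 := (convex_Icc u v).norm_image_sub_le_of_norm_hasDerivWithin_le hd1 hd2 hu' hv'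
    rwa [Real.norm_of_nonneg (by linarith)] at h1
  · have hre : ∀ s ∈ Set.Icc u v,
        HasDerivWithinAt (fun τ => (g τ ^ 2).re) (d s).re (Set.Icc u v) s := by
      intro s hs
      have := Complex.reCLM.hasFDerivAt.comp_hasDerivWithinAt s (hd1 s hs)
      exact this
    have hint : ∀ s ∈ interior (Set.Icc u v), HasDerivAt (fun τ => (g τ ^ 2).re) (d s).re s := by
      intro s hs
      exact (hre s (interior_subset hs)).hasDerivAt (mem_interior_iff_mem_nhds.mp hs)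
    exact (convex_Icc u v).mul_sub_le_image_sub_of_le_deriv
      (fun s hs => (hre s hs).continuousWithinAt)
      (fun s hs => (hint s hs).differentiableAt.differentiableWithinAt)
      (fun s hs => by rw [(hint s hs).deriv]; exact hd3 s (interior_subset hs)) u hu' v hv' huv

/-- A point close to the square of `2 s` is close to `2 s` or to `-2 s`. -/
theorem root_close {w : ℂ} {s : ℝ} (hs : 0 < s) (h : ‖w ^ 2 - ((2 * s : ℝ) : ℂ) ^ 2‖ ≤ 26 * s) :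
    ‖w - (2 * s : ℝ)‖ ≤ 13 ∨ ‖w - (-(2 * s) : ℝ)‖ ≤ 13 := by
  by_contra hno
  push Not at hno
  obtain ⟨h1, h2⟩ := hno
  have e1 : w ^ 2 - ((2 * s : ℝ) : ℂ) ^ 2 = (w - (2 * s : ℝ)) * (w - (-(2 * s) : ℝ)) := by
    push_cast
    ring
  rw [e1, norm_mul] at h
  have h3 : 4 * s ≤ ‖w - (2 * s : ℝ)‖ + ‖w - (-(2 * s) : ℝ)‖ := by
    have h4 : ‖(w - (-(2 * s) : ℝ)) - (w - (2 * s : ℝ))‖ ≤
        ‖w - (-(2 * s) : ℝ)‖ + ‖w - (2 * s : ℝ)‖ := norm_sub_le _ _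
    have e2 : (w - (-(2 * s) : ℝ)) - (w - (2 * s : ℝ)) = ((4 * s : ℝ) : ℂ) := by
      push_cast
      ring
    rw [e2, Complex.norm_real, Real.norm_of_nonneg (by positivity)] at h4
    linarith
  rcases le_total ‖w - (2 * s : ℝ)‖ ‖w - (-(2 * s) : ℝ)‖ with h5 | h5
  · have : 2 * s ≤ ‖w - (-(2 * s) : ℝ)‖ := by linarith
    nlinarith
  · have : 2 * s ≤ ‖w - (2 * s : ℝ)‖ := by linarith
    nlinarith

end Clus2Aux

open Clus2Aux in
/-- F2 CLUS2. -/
theorem cluster2 {U : ℝ → ℂ} (hU : Continuous U) (h0 : U 0 = 0) {T : ℝ} (hT : 2 ≤ T)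
    (ht : ∀ t ∈ Set.Icc (0 : ℝ) 2, ‖U t‖ ≤ 1 / 11) (ht2 : ∀ t ∈ Set.Icc 2 T, ‖U t‖ ≤ 2 / 11)
    {z : ℂ} {g : ℝ → ℂ} (hz : ‖z‖ < 1) (h : Sol U z T g) (h2 : 1 ≤ ‖g 2 - U 2‖) :
    ‖g T - U T - (2 * √T : ℝ)‖ ≤ 14 ∨ ‖g T - U T - (-(2 * √T) : ℝ)‖ ≤ 14 := by
  have hcont : ContinuousOn g (Set.Icc 0 T) := fun s hs => (h.2.2 s hs).continuousWithinAt
  have hg0 : g 0 = z := h.1
  have hz2 : ‖z‖ ^ 2 < 1 := by nlinarith [norm_nonneg z]
  -- time 2
  have hg2 : 10 / 11 ≤ ‖g 2‖ := by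
    have h3 := norm_sub_le (g 2) (U 2)
    have h4 := ht 2 ⟨by norm_num, le_rfl⟩
    linarith
  have hφ2 : 100 / 121 ≤ ‖g 2 ^ 2‖ := by
    rw [norm_pow]
    nlinarith
  have hstart : 28 / 121 ≤ (g 2 ^ 2).re ∧ ‖g 2 ^ 2‖ ≤ 17 := by
    by_cases hex : ∃ s ∈ Set.Icc (0 : ℝ) 2, ‖g s‖ ≤ 2 / 11
    · obtain ⟨s₁, hs₁, he, hge⟩ := SqAux.last_hit (f := fun s => ‖g s‖) (u := 0) (v := 2)
        (r := 2 / 11) ((hcont.mono (Set.Icc_subset_Icc le_rfl hT)).norm)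
        (by show (2 / 11 : ℝ) < ‖g 2‖; linarith) hex
      have he' : ‖g s₁‖ = 2 / 11 := he
      obtain ⟨h5, h6⟩ := inc' h hs₁.1 hs₁.2 hT (fun s hs => by
        have h7 : (2 / 11 : ℝ) ≤ ‖g s‖ := hge s hs
        have h8 := ht s ⟨hs₁.1.trans hs.1, hs.2⟩
        exact ⟨by linarith, by linarith⟩)
      have hn : ‖g s₁ ^ 2‖ = 4 / 121 := by rw [norm_pow, he']; norm_num
      have h9 := norm_sub_norm_le (g 2 ^ 2) (g s₁ ^ 2)
      have h10 := Complex.abs_re_le_norm (g s₁ ^ 2)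
      have h11 := neg_abs_le (g s₁ ^ 2).re
      have h12 := hs₁.1
      constructor <;> linarith
    · push Not at hex
      obtain ⟨h5, h6⟩ := inc' h le_rfl (by norm_num : (0 : ℝ) ≤ 2) hT (fun s hs => by
        have h7 := hex s hs
        have h8 := ht s hs
        exact ⟨by linarith, by linarith⟩)
      have hn : ‖g 0 ^ 2‖ < 1 := by rw [norm_pow, hg0]; exact hz2
      have h9 := norm_sub_norm_le (g 2 ^ 2) (g 0 ^ 2)
      have h10 := Complex.abs_re_le_norm (g 0 ^ 2)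
      have h11 := neg_abs_le (g 0 ^ 2).re
      constructor <;> linarith
  -- after time 2
  have hsub : Set.Icc 2 T ⊆ Set.Icc 0 T := Set.Icc_subset_Icc (by norm_num) le_rfl
  have hfar : ∀ s ∈ Set.Icc 2 T, 4 / 11 < ‖g s‖ := by
    by_contra hno
    push Not at hno
    obtain ⟨s₁, hs₁, he, hge⟩ := SqAux.first_hit (f := fun s => ‖g s‖) (u := 2) (v := T)
      (r := 4 / 11) (hcont.mono hsub).norm (by show (4 / 11 : ℝ) < ‖g 2‖; linarith) hno
    have he' : ‖g s₁‖ = 4 / 11 := he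
    obtain ⟨h5, h6⟩ := inc' h (by norm_num : (0 : ℝ) ≤ 2) hs₁.1 hs₁.2 (fun s hs => by
      have h7 : (4 / 11 : ℝ) ≤ ‖g s‖ := hge s hs
      have h8 := ht2 s ⟨hs.1, hs.2.trans hs₁.2⟩
      exact ⟨by linarith, by linarith⟩)
    have hn : ‖g s₁ ^ 2‖ = 16 / 121 := by rw [norm_pow, he']; norm_num
    have h10 := Complex.re_le_norm (g s₁ ^ 2)
    have h11 := hs₁.1
    linarith [hstart.1]
  have hgrow : ∀ s ∈ Set.Icc 2 T, 28 / 121 + 8 / 3 * (s - 2) ≤ ‖g s‖ ^ 2 := by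
    intro s hs
    obtain ⟨h5, h6⟩ := inc' h (by norm_num : (0 : ℝ) ≤ 2) hs.1 hs.2 (fun r hr => by
      have h7 := hfar r ⟨hr.1, hr.2.trans hs.2⟩
      have h8 := ht2 r ⟨hr.1, hr.2.trans hs.2⟩
      exact ⟨by linarith, by linarith⟩)
    have h10 := Complex.re_le_norm (g s ^ 2)
    rw [norm_pow] at h10
    linarith [hstart.1]
  -- the square is close to `4 t`
  have key : ∀ s ∈ Set.Icc 0 T, ∃ d : ℂ, s ∈ Set.Icc 2 T →
      HasDerivWithinAt (fun τ => g τ ^ 2) d (Set.Icc 0 T) s ∧ ‖d - 4‖ ≤ 8 * (‖U s‖ / ‖g s‖) := by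
    intro s hs
    by_cases hs2 : s ∈ Set.Icc 2 T
    · have h7 := hfar s hs2
      have h8 := ht2 s hs2
      obtain ⟨d, h1, _, _, h4⟩ := sq_deriv' h hs (norm_pos_iff.mp (by linarith)) (by linarith)
      exact ⟨d, fun _ => ⟨h1, h4⟩⟩
    · exact ⟨0, fun h => absurd h hs2⟩
  choose! d hd using key
  have hclose := image_norm_le_of_norm_deriv_right_le_deriv_boundary' (a := 2) (b := T)
    (f := fun τ => g τ ^ 2 - 4 * (τ : ℂ)) (f' := fun s => d s - 4)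
    (B := fun s => 25 + 9 * (√s - √2)) (B' := fun s => 9 * (1 / (2 * √s)))
    (by
      apply ContinuousOn.sub
      · exact (hcont.mono hsub).pow 2
      · exact (continuous_const.mul Complex.continuous_ofReal).continuousOn)
    (by
      intro s hs
      have hs' : s ∈ Set.Icc 2 T := ⟨hs.1, hs.2.le⟩
      have h1 := (hd s (hsub hs') hs').1
      have h3 : HasDerivWithinAt (fun τ => g τ ^ 2) (d s) (Set.Ici s) s := by
        apply h1.mono_of_mem_nhdsWithin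
        exact Icc_mem_nhdsGE_of_mem ⟨by linarith [hs.1], hs.2⟩
      have h4 : HasDerivWithinAt (fun τ : ℝ => 4 * (τ : ℂ)) (4 * 1) (Set.Ici s) s :=
        (Complex.ofRealCLM.hasDerivAt (x := s)).hasDerivWithinAt.const_mul 4
      rw [mul_one] at h4
      exact h3.sub h4)
    (by
      show ‖g 2 ^ 2 - 4 * ((2 : ℝ) : ℂ)‖ ≤ 25 + 9 * (√2 - √2)
      have h5 := norm_sub_le (g 2 ^ 2) (4 * ((2 : ℝ) : ℂ))
      have h6 : ‖(4 * ((2 : ℝ) : ℂ))‖ = 8 := by
        rw [norm_mul, Complex.norm_real]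
        norm_num
      rw [h6] at h5
      linarith [hstart.2])
    (by fun_prop)
    (by
      intro s hs
      have hs0 : s ≠ 0 := by have := hs.1; positivity
      have h1 := (Real.hasDerivAt_sqrt hs0).hasDerivWithinAt (s := Set.Ici s)
      exact ((h1.sub_const (√2)).const_mul 9).const_add 25)
    (by
      intro s hs
      have hs' : s ∈ Set.Icc 2 T := ⟨hs.1, hs.2.le⟩
      have h1 := (hd s (hsub hs') hs').2
      have h3 := hgrow s hs'
      have h4 := ht2 s hs'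
      have h5 := hfar s hs'
      have h6 := hs.1
      have hspos : 0 < √s := Real.sqrt_pos.mpr (by linarith)
      have hsq : √s ^ 2 = s := Real.sq_sqrt (by linarith)
      refine h1.trans ?_
      have h7 : 32 / 99 * √s ≤ ‖g s‖ := by
        refine le_of_sq_le_sq ?_ (norm_nonneg _)
        rw [mul_pow, hsq]
        nlinarith
      have h8 : 8 * (‖U s‖ / ‖g s‖) ≤ 16 / 11 / ‖g s‖ := by
        rw [← mul_div_assoc]
        apply div_le_div_of_nonneg_right _ (norm_nonneg _)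
        linarith
      refine h8.trans ?_
      rw [mul_one_div, div_le_div_iff₀ (by linarith) (by positivity)]
      nlinarith)
  have hT' : T ∈ Set.Icc 2 T := ⟨hT, le_rfl⟩
  have h3 := hclose hT'
  have h3' : ‖g T ^ 2 - 4 * (T : ℂ)‖ ≤ 25 + 9 * (√T - √2) := h3
  have hsqT : √T ^ 2 = T := Real.sq_sqrt (by linarith)
  have hsT : 0 < √T := Real.sqrt_pos.mpr (by linarith)
  have hs2 : 1.4 ≤ √2 := Real.le_sqrt_of_sq_le (by norm_num)
  have hs2T : √2 ≤ √T := Real.sqrt_le_sqrt hT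
  have h5 : ‖g T ^ 2 - ((2 * √T : ℝ) : ℂ) ^ 2‖ ≤ 26 * √T := by
    have e1 : ((2 * √T : ℝ) : ℂ) ^ 2 = 4 * (T : ℂ) := by
      have e2 : (T : ℂ) = ((√T : ℝ) : ℂ) ^ 2 := by
        rw [← Complex.ofReal_pow, hsqT]
      rw [e2]
      push_cast
      ring
    rw [e1]
    linarith
  have hUT := ht2 T hT'
  rcases root_close hsT h5 with h6 | h6
  · left
    have e : g T - U T - (2 * √T : ℝ) = (g T - (2 * √T : ℝ)) - U T := by ring
    rw [e]
    have := norm_sub_le (g T - (2 * √T : ℝ)) (U T)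
    linarith
  · right
    have e : g T - U T - (-(2 * √T) : ℝ) = (g T - (-(2 * √T) : ℝ)) - U T := by ring
    rw [e]
    have := norm_sub_le (g T - (-(2 * √T) : ℝ)) (U T)
    linarith

end

end Pool.Agent.SLE
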