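import Mathlib

/-!
# SLE driven by complex Brownian motion (MP_c17912_pr): definitions

* `Sol U z t g`: `g` solves the Loewner equation `g' = 2 / (g - U)`, `g 0 = z`, on `[0,t]`
  (so `z` is not absorbed up to and including time `t`).
* `hull U t`: the left hull, i.e. the points absorbed at or before time `t`.
* `Transient U`: transience of the left hulls of the path `U`.
* `PlanarBM a b c W μ`: `W` is a centred planar Brownian motion with covariance matrix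
  `((a, c), (c, b))`.
* `Drv a b c K W μ`: the (weaker) properties of the driving process used in the proof.
* `psub U s r`, `subP W s r`: the path (process) after time `s`, at scale `r`.
* `Blk W s t`, `Fut W s`: sigma-algebras of the increments in `[s,t]`, `[s,∞)`.
-/

set_option autoImplicit false

open MeasureTheory ProbabilityTheory
open scoped NNReal ENNReal

namespace Pool.Agent.SLE

noncomputable section

/-- `g` solves the Loewner equation driven by the path `U` on `[0,t]`, started from `z`. -/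
def Sol (U : ℝ → ℂ) (z : ℂ) (t : ℝ) (g : ℝ → ℂ) : Prop :=
  g 0 = z ∧ (∀ s ∈ Set.Icc 0 t, g s ≠ U s) ∧
    ∀ s ∈ Set.Icc 0 t, HasDerivWithinAt g (2 / (g s - U s)) (Set.Icc 0 t) s

/-- The left hull at time `t`: the set of the points whose absorbing time is at most `t`. -/
def hull (U : ℝ → ℂ) (t : ℝ) : Set ℂ := {z | ¬ ∃ g : ℝ → ℂ, Sol U z t g}

/-- The left hulls of the path `U` are transient. -/
def Transient (U : ℝ → ℂ) : Prop :=
  ∀ R > 0, ∃ T > 0, ∀ t ≥ T, hull U t ∩ Metric.ball 0 R = hull U T ∩ Metric.ball 0 R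

/-- Centred planar Brownian motion started at `0` with covariance matrix `((a, c), (c, b))`. -/
structure PlanarBM {Ω : Type*} [MeasurableSpace Ω] (a b c : ℝ) (W : ℝ≥0 → Ω → ℂ)
    (μ : Measure Ω) : Prop where
  meas : ∀ t, Measurable (W t)
  zero : ∀ᵐ ω ∂μ, W 0 ω = 0
  cont : ∀ᵐ ω ∂μ, Continuous (W · ω)
  indep : HasIndepIncrements W μ
  gauss : ∀ s t : ℝ≥0, s ≤ t → ∀ u v : ℝ,
    HasLaw (fun ω => u * (W t ω - W s ω).re + v * (W t ω - W s ω).im)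
      (gaussianReal 0 (Real.toNNReal ((t - s) * (a * u ^ 2 + 2 * c * u * v + b * v ^ 2)))) μ

/-- The properties of the driving process which are used. Time is `ℝ`, the process vanishes for
`t ≤ 0`. -/
structure Drv {Ω : Type*} [MeasurableSpace Ω] (a b c K : ℝ) (W : ℝ → Ω → ℂ)
    (μ : Measure Ω) : Prop where
  a_nonneg : 0 ≤ a
  b_nonneg : 0 ≤ b
  c_sq : c ^ 2 ≤ a * b
  K_nonneg : 0 ≤ K
  meas : ∀ t, Measurable (W t)
  zero : ∀ t ≤ 0, ∀ ω, W t ω = 0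
  cont : ∀ ω, Continuous fun t => W t ω
  indep : HasIndepIncrements W μ
  int4 : ∀ s t, 0 ≤ s → s ≤ t → Integrable (fun ω => ‖W t ω - W s ω‖ ^ 4) μ
  m1x : ∀ s t, 0 ≤ s → s ≤ t → ∫ ω, (W t ω - W s ω).re ∂μ = 0
  m1y : ∀ s t, 0 ≤ s → s ≤ t → ∫ ω, (W t ω - W s ω).im ∂μ = 0
  m2x : ∀ s t, 0 ≤ s → s ≤ t → ∫ ω, (W t ω - W s ω).re ^ 2 ∂μ = a * (t - s)
  m2y : ∀ s t, 0 ≤ s → s ≤ t → ∫ ω, (W t ω - W s ω).im ^ 2 ∂μ = b * (t - s)
  m2c : ∀ s t, 0 ≤ s → s ≤ t → ∫ ω, (W t ω - W s ω).re * (W t ω - W s ω).im ∂μ = c * (t - s)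
  m4 : ∀ s t, 0 ≤ s → s ≤ t → ∫ ω, ‖W t ω - W s ω‖ ^ 4 ∂μ ≤ K * (t - s) ^ 2

/-- The path after time `s`, seen at scale `r` (constant `0` for negative times). -/
def psub (U : ℝ → ℂ) (s r : ℝ) : ℝ → ℂ := fun t => r⁻¹ • (U (s + r ^ 2 * max t 0) - U s)

/-- The process after time `s`, seen at scale `r`. -/
def subP {Ω : Type*} (W : ℝ → Ω → ℂ) (s r : ℝ) : ℝ → Ω → ℂ :=
  fun t ω => psub (fun τ => W τ ω) s r t

/-- The sigma-algebra of the increments in `[s,t]`. -/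
@[reducible] def Blk {Ω : Type*} (W : ℝ → Ω → ℂ) (s t : ℝ) : MeasurableSpace Ω :=
  ⨆ r : Set.Icc s t, MeasurableSpace.comap (fun ω => W r ω - W s ω) inferInstance

/-- The sigma-algebra of the increments after time `s`. -/
@[reducible] def Fut {Ω : Type*} (W : ℝ → Ω → ℂ) (s : ℝ) : MeasurableSpace Ω :=
  ⨆ r : Set.Ici s, MeasurableSpace.comap (fun ω => W r ω - W s ω) inferInstance

/-- Some point of the unit disc is again in the unit disc at time `2`, and its distance to the tip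
is larger than `ε` in between. -/
def Bad (U : ℝ → ℂ) (ε : ℝ) : Prop :=
  ∃ z g, ‖z‖ < 1 ∧ Sol U z 2 g ∧ (∀ t ∈ Set.Icc (0 : ℝ) 2, ε < ‖g t - U t‖) ∧ ‖g 2 - U 2‖ < 1

/-- The Euler scheme for `Z = g - U`. -/
def eul (U : ℝ → ℂ) (z : ℂ) (h : ℝ) : ℕ → ℂ
  | 0 => z
  | j + 1 => eul U z h j + 2 * h / eul U z h j - (U ((j + 1 : ℕ) * h) - U ((j : ℕ) * h))

/-- The potential in the exponent of the supermartingale. -/
def kk (lam c₀ : ℝ) (z : ℂ) : ℝ := -2 * lam * (1 / z ^ 2).re + c₀ / ‖z‖ ^ 2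

/-- The space part of the supermartingale. -/
def VV (a s : ℝ) (z : ℂ) : ℝ := (‖z‖ ^ 2) ^ s / (z.re ^ 2 + a * ‖z‖ ^ 2)

/-- First order part of the expansion of `VV` in the random increment. -/
def linT (a s : ℝ) (z ζ : ℂ) : ℝ :=
  -(2 * s * (z.re * ζ.re + z.im * ζ.im) / ‖z‖ ^ 2)
    + 2 * ((1 + a) * z.re * ζ.re + a * z.im * ζ.im) / (z.re ^ 2 + a * ‖z‖ ^ 2)

/-- Second order part of the expansion of `VV` in the random increment. -/
def quadT (a s : ℝ) (z ζ : ℂ) : ℝ :=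
  s * ‖ζ‖ ^ 2 / ‖z‖ ^ 2 - (ζ.re ^ 2 + a * ‖ζ‖ ^ 2) / (z.re ^ 2 + a * ‖z‖ ^ 2)
    + 4 * ((1 + a) * z.re * ζ.re + a * z.im * ζ.im) ^ 2 / (z.re ^ 2 + a * ‖z‖ ^ 2) ^ 2
    - 4 * s * ((z.re * ζ.re + z.im * ζ.im) * ((1 + a) * z.re * ζ.re + a * z.im * ζ.im))
        / (‖z‖ ^ 2 * (z.re ^ 2 + a * ‖z‖ ^ 2))

/-- Drift part of the expansion of `VV`. -/
def driftT (a s : ℝ) (z : ℂ) : ℝ :=
  4 * s * (z.re ^ 2 - z.im ^ 2) / (‖z‖ ^ 2) ^ 2
    - (4 * z.re ^ 2 + 4 * a * (z.re ^ 2 - z.im ^ 2)) / (‖z‖ ^ 2 * (z.re ^ 2 + a * ‖z‖ ^ 2))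

/-- The truncated space part. -/
def FF (a s δ : ℝ) (z : ℂ) : ℝ := min (VV a s z) ((δ / 2) ^ (2 * s - 2) / a)

end

end Pool.Agent.SLE
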