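import Pool.Agent.Lib.MP_c17912_pr.Defs

/-!
# SLE driven by complex Brownian motion (MP_c17912_pr): Gaussian driving processes
-/

set_option autoImplicit false

open MeasureTheory ProbabilityTheory
open scoped NNReal ENNReal

namespace Pool.Agent.SLE

noncomputable section

/-- `Drv` together with the Gaussian laws of the increments. -/
structure Gau {Ω : Type*} [MeasurableSpace Ω] (a b c K : ℝ) (W : ℝ → Ω → ℂ)
    (μ : Measure Ω) : Prop extends Drv a b c K W μ where
  gauss : ∀ s t, 0 ≤ s → s ≤ t → ∀ u v : ℝ,
    HasLaw (fun ω => u * (W t ω - W s ω).re + v * (W t ω - W s ω).im)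
      (gaussianReal 0 (Real.toNNReal ((t - s) * (a * u ^ 2 + 2 * c * u * v + b * v ^ 2)))) μ

end

end Pool.Agent.SLE
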