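import Pool.Agent.Lib.MP_c17912_pr.Markov
import Pool.Agent.Lib.MP_c17912_pr.DrvSub

set_option autoImplicit false

open MeasureTheory ProbabilityTheory Filter
open scoped NNReal ENNReal Topology

namespace Pool.Agent.SLE

noncomputable section

variable {Ω : Type*} [MeasurableSpace Ω] {μ : Measure Ω} {a b c K : ℝ} {W : ℝ → Ω → ℂ}

namespace DiscAux

/-- The Euler scheme along the process. -/
def Z (W : ℝ → Ω → ℂ) (z₀ : ℂ) (h : ℝ) (j : ℕ) (ω : Ω) : ℂ := eul (fun t => W t ω) z₀ h j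

/-- The exponent. -/
def A (W : ℝ → Ω → ℂ) (z₀ : ℂ) (h : ℝ) (k : ℂ → ℝ) (j : ℕ) (ω : Ω) : ℝ :=
  ∑ i ∈ Finset.range j, h * k (Z W z₀ h i ω)

/-- The discrete process. -/
def V (W : ℝ → Ω → ℂ) (z₀ : ℂ) (h : ℝ) (k F : ℂ → ℝ) (j : ℕ) (ω : Ω) : ℝ :=
  Real.exp (A W z₀ h k j ω) * F (Z W z₀ h j ω)

/-- In the annulus at time `j`. -/
def Ann (W : ℝ → Ω → ℂ) (z₀ : ℂ) (h δ R : ℝ) (j : ℕ) : Set Ω :=
  {ω | δ ≤ ‖Z W z₀ h j ω‖ ∧ ‖Z W z₀ h j ω‖ ≤ R}

/-- Not stopped before time `j`. -/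
def G (W : ℝ → Ω → ℂ) (z₀ : ℂ) (h δ R m : ℝ) (k F : ℂ → ℝ) (j : ℕ) : Set Ω :=
  {ω | ∀ i < j, ω ∈ Ann W z₀ h δ R i ∧ V W z₀ h k F i ω < m}

/-- Stopped exactly at time `j`. -/
def H (W : ℝ → Ω → ℂ) (z₀ : ℂ) (h δ R m : ℝ) (k F : ℂ → ℝ) (j : ℕ) : Set Ω :=
  {ω | ω ∈ G W z₀ h δ R m k F j ∧ ω ∈ Ann W z₀ h δ R j ∧ m ≤ V W z₀ h k F j ω}

omit [MeasurableSpace Ω] in
lemma incr_meas {s t u : ℝ} (hs : 0 ≤ s) (hsu : s ≤ u) (ht : 0 ≤ t) (htu : t ≤ u) :
    Measurable[Blk W 0 u] (fun ω => W t ω - W s ω) := by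
  have h1 : ∀ r ∈ Set.Icc (0 : ℝ) u, Measurable[Blk W 0 u] (fun ω => W r ω - W 0 ω) := by
    intro r hr
    rw [measurable_iff_comap_le]
    exact le_iSup (fun r : Set.Icc (0 : ℝ) u =>
      MeasurableSpace.comap (fun ω => W r ω - W 0 ω) inferInstance) ⟨r, hr⟩
  have h2 := (h1 t ⟨ht, htu⟩).sub (h1 s ⟨hs, hsu⟩)
  have h3 : (fun ω => W t ω - W s ω) = (fun ω => W t ω - W 0 ω) - (fun ω => W s ω - W 0 ω) := by
    funext ω; simp
  rw [h3]; exact h2

omit [MeasurableSpace Ω] in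
lemma Z_meas {h : ℝ} (hh : 0 < h) (z₀ : ℂ) (j : ℕ) :
    ∀ u : ℝ, j * h ≤ u → Measurable[Blk W 0 u] (Z W z₀ h j) := by
  induction j with
  | zero => intro u _; exact @measurable_const ℂ Ω _ (Blk W 0 u) z₀
  | succ j ih =>
    intro u hu
    push_cast at hu
    have h0 : (0 : ℝ) ≤ (j : ℝ) * h := by positivity
    have h1 : (j : ℝ) * h ≤ u := by nlinarith
    have hz := ih u h1
    have hi : Measurable[Blk W 0 u]
        (fun ω => W (((j + 1 : ℕ) : ℝ) * h) ω - W ((j : ℝ) * h) ω) := by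
      apply incr_meas h0 h1 (by positivity)
      push_cast; exact hu
    have hd : Measurable[Blk W 0 u] (fun ω => 2 * (h : ℂ) / Z W z₀ h j ω) := by
      have hc : Measurable (fun z : ℂ => 2 * (h : ℂ) / z) := measurable_const.div measurable_id
      exact hc.comp hz
    have h4 : Z W z₀ h (j + 1) = (Z W z₀ h j + fun ω => 2 * (h : ℂ) / Z W z₀ h j ω) -
        (fun ω => W (((j + 1 : ℕ) : ℝ) * h) ω - W ((j : ℝ) * h) ω) := by
      funext ω; rfl
    rw [h4]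
    exact (hz.add hd).sub hi

variable {h q δ R m : ℝ} {k F : ℂ → ℝ}

lemma A_meas (hh : 0 < h) (hk : Measurable k) (z₀ : ℂ) (j : ℕ) {u : ℝ} (hu : j * h ≤ u) :
    Measurable[Blk W 0 u] (A W z₀ h k j) := by
  unfold A
  refine Finset.measurable_sum _ fun i hi => ?_
  have hi' : i < j := Finset.mem_range.1 hi
  have h1 : (i : ℝ) * h ≤ u := by
    have : (i : ℝ) ≤ j := by exact_mod_cast hi'.le
    nlinarith
  exact (hk.comp (Z_meas hh z₀ i u h1)).const_mul h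

lemma V_meas (hh : 0 < h) (hk : Measurable k) (hF : Measurable F) (z₀ : ℂ) (j : ℕ) {u : ℝ}
    (hu : j * h ≤ u) : Measurable[Blk W 0 u] (V W z₀ h k F j) := by
  unfold V
  exact (Real.measurable_exp.comp (A_meas hh hk z₀ j hu)).mul (hF.comp (Z_meas hh z₀ j u hu))

lemma Ann_meas (hh : 0 < h) (z₀ : ℂ) (j : ℕ) {u : ℝ} (hu : j * h ≤ u) :
    MeasurableSet[Blk W 0 u] (Ann W z₀ h δ R j) := by
  have h1 : Measurable[Blk W 0 u] (fun ω => ‖Z W z₀ h j ω‖) :=
    measurable_norm.comp (Z_meas hh z₀ j u hu)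
  have h2 : Ann W z₀ h δ R j = (fun ω => ‖Z W z₀ h j ω‖) ⁻¹' Set.Icc δ R := by
    ext ω; rfl
  rw [h2]
  exact h1 measurableSet_Icc

lemma G_meas (hh : 0 < h) (hk : Measurable k) (hF : Measurable F) (z₀ : ℂ) (j : ℕ) {u : ℝ}
    (hu : ∀ i < j, (i : ℝ) * h ≤ u) : MeasurableSet[Blk W 0 u] (G W z₀ h δ R m k F j) := by
  have h1 : G W z₀ h δ R m k F j = ⋂ i ∈ Finset.range j,
      (Ann W z₀ h δ R i ∩ V W z₀ h k F i ⁻¹' Set.Iio m) := by
    ext ω
    simp [G]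
  rw [h1]
  refine MeasurableSet.biInter (Finset.range j).countable_toSet fun i hi => ?_
  have hi' : i < j := by simpa using hi
  exact (Ann_meas hh z₀ i (hu i hi')).inter (V_meas hh hk hF z₀ i (hu i hi') measurableSet_Iio)

lemma H_meas (hh : 0 < h) (hk : Measurable k) (hF : Measurable F) (z₀ : ℂ) (j : ℕ) {u : ℝ}
    (hu : j * h ≤ u) : MeasurableSet[Blk W 0 u] (H W z₀ h δ R m k F j) := by
  have h0 : ∀ i < j, (i : ℝ) * h ≤ u := by
    intro i hi
    have : (i : ℝ) ≤ j := by exact_mod_cast hi.le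
    nlinarith
  have h1 : H W z₀ h δ R m k F j = G W z₀ h δ R m k F j ∩ (Ann W z₀ h δ R j ∩
      V W z₀ h k F j ⁻¹' Set.Ici m) := Set.ext fun ω => Iff.rfl
  rw [h1]
  exact (G_meas hh hk hF z₀ j h0).inter
    ((Ann_meas hh z₀ j hu).inter (V_meas hh hk hF z₀ j hu measurableSet_Ici))

omit [MeasurableSpace Ω] in
lemma V_nonneg (hF0 : ∀ z, 0 ≤ F z) (z₀ : ℂ) (j : ℕ) (ω : Ω) : 0 ≤ V W z₀ h k F j ω :=
  mul_nonneg (Real.exp_pos _).le (hF0 _)

/-- The one step inequality for the stopped integrals. -/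
lemma step [IsProbabilityMeasure μ] (hW : Drv a b c K W μ) (hh : 0 < h) (hq : 0 ≤ q)
    (hk : Measurable k) (hF : Measurable F)
    (hone : ∀ z s, δ ≤ ‖z‖ → ‖z‖ ≤ R → 0 ≤ s →
      ∫⁻ ω, ENNReal.ofReal (F (z + 2 * h / z - (W (s + h) ω - W s ω))) ∂μ
        ≤ ENNReal.ofReal (q * Real.exp (-(h * k z)) * F z)) (z₀ : ℂ) (j : ℕ) :
    ∫⁻ ω in G W z₀ h δ R m k F (j + 1), ENNReal.ofReal (V W z₀ h k F (j + 1) ω) ∂μ ≤
      ENNReal.ofReal q *
        ∫⁻ ω in G W z₀ h δ R m k F (j + 1), ENNReal.ofReal (V W z₀ h k F j ω) ∂μ := by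
  have hjh : (0 : ℝ) ≤ j * h := by positivity
  have hle : Blk W 0 (j * h) ≤ (inferInstance : MeasurableSpace Ω) := Blk_le hW _ _
  have hG1 : MeasurableSet[Blk W 0 (j * h)] (G W z₀ h δ R m k F (j + 1)) := by
    apply G_meas hh hk hF z₀
    intro i hi
    have : (i : ℝ) ≤ j := by exact_mod_cast (Nat.lt_succ_iff.1 hi)
    nlinarith
  have hGm : MeasurableSet (G W z₀ h δ R m k F (j + 1)) := hle _ hG1
  -- the increment
  obtain ⟨X, hX⟩ : ∃ X : Ω → ℂ, X = fun ω => W (j * h + h) ω - W (j * h) ω := ⟨_, rfl⟩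
  have hXF : Measurable[Fut W (j * h)] X := by
    rw [hX, measurable_iff_comap_le]
    exact le_iSup (fun r : Set.Ici ((j : ℝ) * h) =>
      MeasurableSpace.comap (fun ω => W r ω - W (j * h) ω) inferInstance)
      ⟨j * h + h, by simp only [Set.mem_Ici]; linarith⟩
  have hXm : Measurable X := by
    rw [hX]; exact (hW.meas _).sub (hW.meas _)
  -- the past
  obtain ⟨c0, hc0⟩ : ∃ c0 : Ω → ℝ≥0∞, c0 = (G W z₀ h δ R m k F (j + 1)).indicator
      (fun ω => ENNReal.ofReal (Real.exp (A W z₀ h k (j + 1) ω))) := ⟨_, rfl⟩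
  have hA1 : Measurable[Blk W 0 (j * h)] (A W z₀ h k (j + 1)) := by
    unfold A
    refine Finset.measurable_sum _ fun i hi => ?_
    have hi' : i < j + 1 := Finset.mem_range.1 hi
    have h1 : (i : ℝ) * h ≤ j * h := by
      have : (i : ℝ) ≤ j := by exact_mod_cast (Nat.lt_succ_iff.1 hi')
      nlinarith
    exact (hk.comp (Z_meas hh z₀ i _ h1)).const_mul h
  have hc0m : Measurable[Blk W 0 (j * h)] c0 := by
    rw [hc0]
    exact (ENNReal.measurable_ofReal.comp (Real.measurable_exp.comp hA1)).indicator hG1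
  obtain ⟨Y, hY⟩ : ∃ Y : Ω → ℂ × ℝ≥0∞, Y = fun ω => (Z W z₀ h j ω, c0 ω) := ⟨_, rfl⟩
  have hYB : Measurable[Blk W 0 (j * h)] Y := by
    rw [hY]; exact (Z_meas hh z₀ j _ le_rfl).prodMk hc0m
  have hYm : Measurable Y := hYB.mono hle le_rfl
  have hind : IndepFun Y X μ := by
    have h1 := indep_Blk_Fut hW hjh
    rw [IndepFun_iff_Indep]
    exact indep_of_indep_of_le_left (indep_of_indep_of_le_right h1
      (measurable_iff_comap_le.1 hXF)) (measurable_iff_comap_le.1 hYB)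
  have hprod := (indepFun_iff_map_prod_eq_prod_map_map hYm.aemeasurable hXm.aemeasurable).1 hind
  -- the integrand
  obtain ⟨f, hf⟩ : ∃ f : (ℂ × ℝ≥0∞) × ℂ → ℝ≥0∞, f = fun p =>
      p.1.2 * ENNReal.ofReal (F (p.1.1 + 2 * h / p.1.1 - p.2)) := ⟨_, rfl⟩
  have hfm : Measurable f := by
    rw [hf]
    have h1 : Measurable (fun p : (ℂ × ℝ≥0∞) × ℂ => p.1.1) := measurable_fst.comp measurable_fst
    have h2 : Measurable (fun p : (ℂ × ℝ≥0∞) × ℂ => p.1.2) := measurable_snd.comp measurable_fst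
    have h3 : Measurable (fun p : (ℂ × ℝ≥0∞) × ℂ => p.2) := measurable_snd
    exact h2.mul (ENNReal.measurable_ofReal.comp (hF.comp ((h1.add
      (measurable_const.div h1)).sub h3)))
  have e1 : ∫⁻ ω in G W z₀ h δ R m k F (j + 1), ENNReal.ofReal (V W z₀ h k F (j + 1) ω) ∂μ =
      ∫⁻ ω, f (Y ω, X ω) ∂μ := by
    rw [← lintegral_indicator hGm]
    apply lintegral_congr
    intro ω
    rw [hf, hY, hX, hc0]
    by_cases hω : ω ∈ G W z₀ h δ R m k F (j + 1)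
    · simp only [Set.indicator_of_mem hω]
      rw [V, ENNReal.ofReal_mul (Real.exp_pos _).le]
      congr 3
      simp only [Z, eul]
      push_cast
      ring_nf
    · simp only [Set.indicator_of_notMem hω, zero_mul]
  have e2 : ∫⁻ ω, f (Y ω, X ω) ∂μ = ∫⁻ ω, ∫⁻ ω', f (Y ω, X ω') ∂μ ∂μ := by
    have h1 : ∫⁻ ω, f (Y ω, X ω) ∂μ = ∫⁻ p, f p ∂(μ.map (fun ω => (Y ω, X ω))) :=
      (lintegral_map hfm (hYm.prodMk hXm)).symm
    have : IsProbabilityMeasure (μ.map X) := Measure.isProbabilityMeasure_map hXm.aemeasurable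
    have : IsProbabilityMeasure (μ.map Y) := Measure.isProbabilityMeasure_map hYm.aemeasurable
    rw [h1, hprod, lintegral_prod _ hfm.aemeasurable]
    rw [lintegral_map (by exact hfm.lintegral_prod_right') hYm]
    apply lintegral_congr
    intro ω
    exact lintegral_map (hfm.comp measurable_prodMk_left) hXm
  rw [e1, e2, ← lintegral_indicator hGm, ← lintegral_const_mul]
  · apply lintegral_mono
    intro ω
    simp only [hf]
    by_cases hω : ω ∈ G W z₀ h δ R m k F (j + 1)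
    · rw [Set.indicator_of_mem hω]
      have hann := (hω j (Nat.lt_succ_self j)).1
      have h1 := hone (Z W z₀ h j ω) (j * h) hann.1 hann.2 hjh
      have h2 : (Y ω).1 = Z W z₀ h j ω := by rw [hY]
      have h3 : (Y ω).2 = ENNReal.ofReal (Real.exp (A W z₀ h k (j + 1) ω)) := by
        rw [hY, hc0]; simp only [Set.indicator_of_mem hω]
      rw [h2, h3, lintegral_const_mul']
      · rw [hX]
        refine (mul_le_mul_right h1 _).trans (le_of_eq ?_)
        rw [← ENNReal.ofReal_mul (Real.exp_pos _).le, ← ENNReal.ofReal_mul hq]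
        congr 1
        have h4 : A W z₀ h k (j + 1) ω = A W z₀ h k j ω + h * k (Z W z₀ h j ω) := by
          simp only [A, Finset.sum_range_succ]
        rw [h4, V, Real.exp_add, Real.exp_neg]
        have := Real.exp_ne_zero (h * k (Z W z₀ h j ω))
        field_simp
      · exact ENNReal.ofReal_ne_top
    · rw [Set.indicator_of_notMem hω, mul_zero]
      have h3 : (Y ω).2 = 0 := by
        rw [hY, hc0]; simp only [Set.indicator_of_notMem hω]
      rw [h3]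
      simp
  · exact ((ENNReal.measurable_ofReal.comp
      ((V_meas hh hk hF z₀ j le_rfl).mono hle le_rfl)).indicator hGm)

/-- The stopped integral dominates the next one plus the mass of the stopping event. -/
lemma recur [IsProbabilityMeasure μ] (hW : Drv a b c K W μ) (hh : 0 < h) (hq : 0 ≤ q)
    (hm : 0 < m) (hk : Measurable k) (hF : Measurable F)
    (hone : ∀ z s, δ ≤ ‖z‖ → ‖z‖ ≤ R → 0 ≤ s →
      ∫⁻ ω, ENNReal.ofReal (F (z + 2 * h / z - (W (s + h) ω - W s ω))) ∂μ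
        ≤ ENNReal.ofReal (q * Real.exp (-(h * k z)) * F z)) (z₀ : ℂ) (j : ℕ) :
    ∫⁻ ω in G W z₀ h δ R m k F (j + 1), ENNReal.ofReal (V W z₀ h k F (j + 1) ω) ∂μ +
      ENNReal.ofReal q * (ENNReal.ofReal m * μ (H W z₀ h δ R m k F j)) ≤
      ENNReal.ofReal q * ∫⁻ ω in G W z₀ h δ R m k F j, ENNReal.ofReal (V W z₀ h k F j ω) ∂μ := by
  have hle : Blk W 0 (j * h) ≤ (inferInstance : MeasurableSpace Ω) := Blk_le hW _ _
  have hHm : MeasurableSet (H W z₀ h δ R m k F j) := hle _ (H_meas hh hk hF z₀ j le_rfl)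
  refine (add_le_add (step hW hh hq hk hF hone z₀ j) le_rfl).trans ?_
  rw [← mul_add]
  gcongr
  have h1 : ENNReal.ofReal m * μ (H W z₀ h δ R m k F j) ≤
      ∫⁻ ω in H W z₀ h δ R m k F j, ENNReal.ofReal (V W z₀ h k F j ω) ∂μ := by
    rw [← setLIntegral_const]
    exact setLIntegral_mono' hHm fun ω hω => ENNReal.ofReal_le_ofReal hω.2.2
  have hdisj : Disjoint (G W z₀ h δ R m k F (j + 1)) (H W z₀ h δ R m k F j) := by
    rw [Set.disjoint_left]
    intro ω h1 h2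
    exact absurd h2.2.2 (not_le.2 (h1 j (Nat.lt_succ_self j)).2)
  calc ∫⁻ ω in G W z₀ h δ R m k F (j + 1), ENNReal.ofReal (V W z₀ h k F j ω) ∂μ +
        ENNReal.ofReal m * μ (H W z₀ h δ R m k F j)
      ≤ ∫⁻ ω in G W z₀ h δ R m k F (j + 1), ENNReal.ofReal (V W z₀ h k F j ω) ∂μ +
        ∫⁻ ω in H W z₀ h δ R m k F j, ENNReal.ofReal (V W z₀ h k F j ω) ∂μ := by gcongr
    _ = ∫⁻ ω in G W z₀ h δ R m k F (j + 1) ∪ H W z₀ h δ R m k F j,
        ENNReal.ofReal (V W z₀ h k F j ω) ∂μ := (lintegral_union hHm hdisj).symm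
    _ ≤ ∫⁻ ω in G W z₀ h δ R m k F j, ENNReal.ofReal (V W z₀ h k F j ω) ∂μ := by
        apply lintegral_mono_set
        rintro ω (h2 | h2)
        · intro i hi
          exact h2 i (by omega)
        · exact h2.1

lemma total [IsProbabilityMeasure μ] (hW : Drv a b c K W μ) (hh : 0 < h) (hq : 1 ≤ q)
    (hm : 0 < m) (hk : Measurable k) (hF : Measurable F)
    (hone : ∀ z s, δ ≤ ‖z‖ → ‖z‖ ≤ R → 0 ≤ s →
      ∫⁻ ω, ENNReal.ofReal (F (z + 2 * h / z - (W (s + h) ω - W s ω))) ∂μ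
        ≤ ENNReal.ofReal (q * Real.exp (-(h * k z)) * F z)) (z₀ : ℂ) (j : ℕ) :
    ∫⁻ ω in G W z₀ h δ R m k F j, ENNReal.ofReal (V W z₀ h k F j ω) ∂μ +
      ∑ i ∈ Finset.range j, ENNReal.ofReal m * μ (H W z₀ h δ R m k F i) ≤
      ENNReal.ofReal q ^ j * ENNReal.ofReal (F z₀) := by
  have hq1 : (1 : ℝ≥0∞) ≤ ENNReal.ofReal q := by
    rw [← ENNReal.ofReal_one]; exact ENNReal.ofReal_le_ofReal hq
  induction j with
  | zero =>
    have h1 : G W z₀ h δ R m k F 0 = Set.univ := by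
      ext ω; simp [G]
    have h2 : ∀ ω, V W z₀ h k F 0 ω = F z₀ := by
      intro ω; simp [V, A, Z, eul]
    rw [h1]
    simp [h2]
  | succ j ih =>
    have h1 := recur hW hh (by linarith) hm hk hF hone z₀ j
    obtain ⟨b1, hb1⟩ : ∃ b1, b1 = ∫⁻ ω in G W z₀ h δ R m k F (j + 1),
      ENNReal.ofReal (V W z₀ h k F (j + 1) ω) ∂μ := ⟨_, rfl⟩
    obtain ⟨b0, hb0⟩ : ∃ b0, b0 = ∫⁻ ω in G W z₀ h δ R m k F j,
      ENNReal.ofReal (V W z₀ h k F j ω) ∂μ := ⟨_, rfl⟩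
    obtain ⟨x, hx⟩ : ∃ x, x = ENNReal.ofReal m * μ (H W z₀ h δ R m k F j) := ⟨_, rfl⟩
    obtain ⟨S, hS⟩ : ∃ S, S = ∑ i ∈ Finset.range j, ENNReal.ofReal m *
      μ (H W z₀ h δ R m k F i) := ⟨_, rfl⟩
    rw [← hb1, ← hb0, ← hx] at h1
    rw [← hb0, ← hS] at ih
    rw [← hb1, Finset.sum_range_succ, ← hS, ← hx]
    have hxq : x ≤ ENNReal.ofReal q * x := by
      calc x = 1 * x := (one_mul x).symm
        _ ≤ ENNReal.ofReal q * x := by gcongr
    have hSq : S ≤ ENNReal.ofReal q * S := by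
      calc S = 1 * S := (one_mul S).symm
        _ ≤ ENNReal.ofReal q * S := by gcongr
    calc b1 + (S + x) = (b1 + x) + S := by ring
      _ ≤ (b1 + ENNReal.ofReal q * x) + ENNReal.ofReal q * S := by gcongr
      _ ≤ ENNReal.ofReal q * b0 + ENNReal.ofReal q * S := by gcongr
      _ = ENNReal.ofReal q * (b0 + S) := by ring
      _ ≤ ENNReal.ofReal q * (ENNReal.ofReal q ^ j * ENNReal.ofReal (F z₀)) := by gcongr
      _ = ENNReal.ofReal q ^ (j + 1) * ENNReal.ofReal (F z₀) := by ring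

end DiscAux

open DiscAux in
/-- D3 DISC. The discrete maximal inequality. -/
theorem disc_max [IsProbabilityMeasure μ] (hW : Drv a b c K W μ) {h q δ R m : ℝ} (hh : 0 < h)
    (hq : 1 ≤ q) (hδ : 0 < δ) (hm : 0 < m) {k F : ℂ → ℝ} (hk : Measurable k)
    (hF : Measurable F) (hF0 : ∀ z, 0 ≤ F z)
    (hone : ∀ z s, δ ≤ ‖z‖ → ‖z‖ ≤ R → 0 ≤ s →
      ∫⁻ ω, ENNReal.ofReal (F (z + 2 * h / z - (W (s + h) ω - W s ω))) ∂μ
        ≤ ENNReal.ofReal (q * Real.exp (-(h * k z)) * F z)) (z₀ : ℂ) (N : ℕ) :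
    ∃ A, MeasurableSet[Blk W 0 (N * h)] A ∧ μ A ≤ ENNReal.ofReal (q ^ N * F z₀ / m) ∧
      ∀ ω, ∀ j ≤ N,
        (∀ i ≤ j, δ ≤ ‖eul (fun t => W t ω) z₀ h i‖ ∧ ‖eul (fun t => W t ω) z₀ h i‖ ≤ R) →
        m ≤ Real.exp (∑ i ∈ Finset.range j, h * k (eul (fun t => W t ω) z₀ h i))
          * F (eul (fun t => W t ω) z₀ h j) → ω ∈ A := by
  refine ⟨⋃ j ∈ Finset.range (N + 1), H W z₀ h δ R m k F j, ?_, ?_, ?_⟩
  · refine MeasurableSet.biUnion (Finset.range (N + 1)).countable_toSet fun i hi => ?_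
    have hi' : i < N + 1 := by simpa using hi
    apply H_meas hh hk hF z₀ i
    have : (i : ℝ) ≤ N := by exact_mod_cast (Nat.lt_succ_iff.1 hi')
    nlinarith
  · have h1 := total hW hh hq hm hk hF hone z₀ (N + 1)
    have h1' : ∫⁻ ω in G W z₀ h δ R m k F N, ENNReal.ofReal (V W z₀ h k F N ω) ∂μ +
      ∑ i ∈ Finset.range N, ENNReal.ofReal m * μ (H W z₀ h δ R m k F i) ≤
      ENNReal.ofReal q ^ N * ENNReal.ofReal (F z₀) := total hW hh hq hm hk hF hone z₀ N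
    have h2 : ENNReal.ofReal m * μ (H W z₀ h δ R m k F N) ≤
        ∫⁻ ω in G W z₀ h δ R m k F N, ENNReal.ofReal (V W z₀ h k F N ω) ∂μ := by
      have hle : Blk W 0 (N * h) ≤ (inferInstance : MeasurableSpace Ω) := Blk_le hW _ _
      have hHm : MeasurableSet (H W z₀ h δ R m k F N) := hle _ (H_meas hh hk hF z₀ N le_rfl)
      rw [← setLIntegral_const]
      exact (setLIntegral_mono' hHm fun ω hω => ENNReal.ofReal_le_ofReal hω.2.2).trans
        (lintegral_mono_set fun ω hω => hω.1)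
    have h3 : ENNReal.ofReal m * μ (⋃ j ∈ Finset.range (N + 1), H W z₀ h δ R m k F j) ≤
        ENNReal.ofReal q ^ N * ENNReal.ofReal (F z₀) := by
      calc ENNReal.ofReal m * μ (⋃ j ∈ Finset.range (N + 1), H W z₀ h δ R m k F j)
          ≤ ENNReal.ofReal m * ∑ j ∈ Finset.range (N + 1), μ (H W z₀ h δ R m k F j) := by
            gcongr
            exact measure_biUnion_finset_le _ _
        _ = ENNReal.ofReal m * μ (H W z₀ h δ R m k F N) +
            ∑ i ∈ Finset.range N, ENNReal.ofReal m * μ (H W z₀ h δ R m k F i) := by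
            rw [Finset.sum_range_succ, mul_add, Finset.mul_sum, add_comm]
        _ ≤ ENNReal.ofReal q ^ N * ENNReal.ofReal (F z₀) := (add_le_add h2 le_rfl).trans h1'
    have hm0 : ENNReal.ofReal m ≠ 0 := by
      rw [Ne, ENNReal.ofReal_eq_zero]; linarith
    rw [ENNReal.ofReal_div_of_pos hm, ENNReal.le_div_iff_mul_le (Or.inl hm0)
      (Or.inl ENNReal.ofReal_ne_top), mul_comm]
    refine h3.trans (le_of_eq ?_)
    rw [ENNReal.ofReal_mul (by positivity), ENNReal.ofReal_pow (by linarith)]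
  · intro ω j hj hann hmV
    classical
    have hex : ∃ i, i ≤ j ∧ m ≤ V W z₀ h k F i ω := ⟨j, le_rfl, hmV⟩
    have hs := Nat.find_spec hex
    have hmin : ∀ i < Nat.find hex, ¬ (i ≤ j ∧ m ≤ V W z₀ h k F i ω) :=
      fun i hi => Nat.find_min hex hi
    obtain ⟨i₀, hi₀⟩ : ∃ i₀, i₀ = Nat.find hex := ⟨_, rfl⟩
    rw [← hi₀] at hs hmin
    simp only [Set.mem_iUnion]
    refine ⟨i₀, Finset.mem_range.2 (by omega), ?_, hann i₀ hs.1, hs.2⟩
    intro i hi
    refine ⟨hann i (by omega), ?_⟩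
    by_contra hcon
    push Not at hcon
    exact hmin i hi ⟨by omega, hcon⟩

end

end Pool.Agent.SLE
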