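import Pool.Agent.Lib.MP_c17912_pr.Defs

/-!
# Module EULER: the Euler scheme follows the flow
-/

set_option autoImplicit false

open MeasureTheory ProbabilityTheory Filter
open scoped NNReal ENNReal Topology

namespace Pool.Agent.SLE

noncomputable section

variable {Ω : Type*} [MeasurableSpace Ω] {μ : Measure Ω} {a b c K : ℝ} {W : ℝ → Ω → ℂ}

namespace EulerAux

/-- One step of the flow against its tangent. -/
theorem tangent {U : ℝ → ℂ} {z : ℂ} {g : ℝ → ℂ} {t ω x y : ℝ} (hs : Sol U z t g)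
    (hx : 0 ≤ x) (hxy : x ≤ y) (hy : y ≤ t)
    (hosc : ∀ s ∈ Set.Icc x y, ‖2 / (g s - U s) - 2 / (g x - U x)‖ ≤ ω) :
    ‖g y - g x - ((y - x : ℝ) : ℂ) * (2 / (g x - U x))‖ ≤ ω * (y - x) := by
  have h1 : ∀ s ∈ Set.Icc x y, HasDerivWithinAt
      (fun s : ℝ => g s - (s : ℂ) * (2 / (g x - U x)))
      (2 / (g s - U s) - 2 / (g x - U x)) (Set.Icc x y) s := by
    intro s hs'
    have h2 : HasDerivWithinAt g (2 / (g s - U s)) (Set.Icc x y) s :=
      (hs.2.2 s ⟨hx.trans hs'.1, hs'.2.trans hy⟩).mono (Set.Icc_subset_Icc hx hy)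
    have h3 : HasDerivWithinAt (fun s : ℝ => (s : ℂ) * (2 / (g x - U x)))
        (1 * (2 / (g x - U x))) (Set.Icc x y) s := by
      have h4 : HasDerivWithinAt (fun s : ℝ => (s : ℂ)) 1 (Set.Icc x y) s :=
        (Complex.ofRealCLM.hasDerivAt (x := s)).hasDerivWithinAt
      exact h4.mul_const _
    rw [one_mul] at h3
    exact h2.sub h3
  have h2 := Convex.norm_image_sub_le_of_norm_hasDerivWithin_le h1 hosc (convex_Icc x y)
    (Set.left_mem_Icc.2 hxy) (Set.right_mem_Icc.2 hxy)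
  rw [Real.norm_of_nonneg (sub_nonneg.2 hxy)] at h2
  refine le_trans (le_of_eq ?_) h2
  congr 1
  push_cast
  ring

/-- Discrete Gronwall for the Euler scheme. -/
theorem err_bound {U : ℝ → ℂ} {z : ℂ} {g : ℝ → ℂ} {t δ c ω h : ℝ} (h0 : U 0 = 0) (hδ : 0 < δ)
    (hs : Sol U z t g) (hc : ∀ s ∈ Set.Icc 0 t, c ≤ ‖g s - U s‖) (hδc : δ ≤ c) (hh : 0 < h)
    (hω : 0 ≤ ω)
    (hosc : ∀ s ∈ Set.Icc 0 t, ∀ s' ∈ Set.Icc 0 t, |s - s'| ≤ h →
      ‖2 / (g s - U s) - 2 / (g s' - U s')‖ ≤ ω)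
    (hsmall : ω * t * Real.exp (2 * t / δ ^ 2) ≤ c - δ) (j : ℕ) (hj : (j : ℝ) * h ≤ t) :
    ∀ i ≤ j, ‖eul U z h i - (g ((i : ℝ) * h) - U ((i : ℝ) * h))‖
      ≤ ω * ((i : ℝ) * h) * Real.exp (2 * ((i : ℝ) * h) / δ ^ 2) := by
  intro i
  induction i with
  | zero =>
    intro _
    have h1 : eul U z h 0 = z := rfl
    rw [h1, Nat.cast_zero, zero_mul, hs.1, h0]
    simp
  | succ i ih =>
    intro hij
    have hi := ih (by omega)
    have hxt : ((i : ℝ) + 1) * h ≤ t := by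
      have : ((i + 1 : ℕ) : ℝ) * h ≤ (j : ℝ) * h :=
        mul_le_mul_of_nonneg_right (by exact_mod_cast hij) hh.le
      push_cast at this
      linarith
    set x : ℝ := (i : ℝ) * h with hx
    have hx0 : 0 ≤ x := by positivity
    set y : ℝ := ((i + 1 : ℕ) : ℝ) * h with hy
    have hyx : y = x + h := by rw [hy, hx]; push_cast; ring
    have hyt : y ≤ t := by rw [hy]; push_cast; linarith
    have hxy : x ≤ y := by rw [hyx]; linarith
    have hxt' : x ≤ t := hxy.trans hyt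
    have hxm : x ∈ Set.Icc 0 t := ⟨hx0, hxt'⟩
    have hZx := hc x hxm
    -- size of the scheme
    have hi2 : ω * x * Real.exp (2 * x / δ ^ 2) ≤ c - δ := by
      refine le_trans ?_ hsmall
      have e1 : Real.exp (2 * x / δ ^ 2) ≤ Real.exp (2 * t / δ ^ 2) := by
        apply Real.exp_le_exp.2
        gcongr
      have e2 : ω * x ≤ ω * t := mul_le_mul_of_nonneg_left hxt' hω
      exact mul_le_mul e2 e1 (Real.exp_pos _).le (mul_nonneg hω (hx0.trans hxt'))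
    have hE : δ ≤ ‖eul U z h i‖ := by
      have h2 : ‖g x - U x‖ ≤ ‖eul U z h i‖ + ‖eul U z h i - (g x - U x)‖ := by
        have h3 : g x - U x = eul U z h i - (eul U z h i - (g x - U x)) := by ring
        calc ‖g x - U x‖ = ‖eul U z h i - (eul U z h i - (g x - U x))‖ := by rw [← h3]
          _ ≤ _ := norm_sub_le _ _
      linarith
    have hE0 : eul U z h i ≠ 0 := by
      intro h2
      rw [h2, norm_zero] at hE
      linarith
    have hZ0 : g x - U x ≠ 0 := by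
      intro h2
      rw [h2, norm_zero] at hZx
      linarith
    have htan := tangent hs hx0 hxy hyt (ω := ω) (fun s hs' => hosc s
      ⟨hx0.trans hs'.1, hs'.2.trans hyt⟩ x hxm (by
        rw [abs_of_nonneg (sub_nonneg.2 hs'.1)]
        linarith [hs'.2]))
    have hstep : eul U z h (i + 1) = eul U z h i + 2 * h / eul U z h i - (U y - U x) := rfl
    have hdecomp : eul U z h (i + 1) - (g y - U y)
        = (eul U z h i - (g x - U x)) + (h : ℂ) * (2 / eul U z h i - 2 / (g x - U x))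
          - (g y - g x - ((y - x : ℝ) : ℂ) * (2 / (g x - U x))) := by
      rw [hstep, hyx]
      push_cast
      ring
    have hdiff : ‖2 / eul U z h i - 2 / (g x - U x)‖
        ≤ 2 / δ ^ 2 * ‖eul U z h i - (g x - U x)‖ := by
      have h3 : 2 / eul U z h i - 2 / (g x - U x)
          = 2 * ((g x - U x) - eul U z h i) / (eul U z h i * (g x - U x)) := by
        field_simp
      rw [h3, norm_div, norm_mul, norm_mul, Complex.norm_ofNat, norm_sub_rev]
      rw [div_le_iff₀ (mul_pos (norm_pos_iff.2 hE0) (norm_pos_iff.2 hZ0))]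
      have h4 : δ ^ 2 ≤ ‖eul U z h i‖ * ‖g x - U x‖ := by
        rw [sq]
        exact mul_le_mul hE (hδc.trans hZx) hδ.le (norm_nonneg _)
      have h5 : 2 * ‖eul U z h i - (g x - U x)‖
          = 2 / δ ^ 2 * ‖eul U z h i - (g x - U x)‖ * δ ^ 2 := by
        field_simp
      rw [h5]
      exact mul_le_mul_of_nonneg_left h4 (by positivity)
    set e : ℝ := ‖eul U z h i - (g x - U x)‖ with he
    have he0 : 0 ≤ e := norm_nonneg _
    have hmain : ‖eul U z h (i + 1) - (g y - U y)‖ ≤ e + h * (2 / δ ^ 2 * e) + ω * h := by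
      rw [hdecomp]
      refine (norm_sub_le _ _).trans ?_
      have h3 : ‖(h : ℂ) * (2 / eul U z h i - 2 / (g x - U x))‖ ≤ h * (2 / δ ^ 2 * e) := by
        rw [norm_mul, Complex.norm_real, Real.norm_of_nonneg hh.le]
        exact mul_le_mul_of_nonneg_left hdiff hh.le
      have h4 : y - x = h := by rw [hyx]; ring
      rw [h4] at htan ⊢
      have h5 := norm_add_le (eul U z h i - (g x - U x))
        ((h : ℂ) * (2 / eul U z h i - 2 / (g x - U x)))
      linarith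
    refine hmain.trans ?_
    have hexp1 : 1 + 2 * h / δ ^ 2 ≤ Real.exp (2 * h / δ ^ 2) := by
      have := Real.add_one_le_exp (2 * h / δ ^ 2)
      linarith
    have hexp2 : Real.exp (2 * y / δ ^ 2) = Real.exp (2 * h / δ ^ 2) * Real.exp (2 * x / δ ^ 2) := by
      rw [← Real.exp_add]
      congr 1
      rw [hyx]
      ring
    have hexp3 : 1 ≤ Real.exp (2 * y / δ ^ 2) := by
      apply Real.one_le_exp
      have : 0 ≤ y := hx0.trans hxy
      positivity
    have hω2 : ω * h ≤ ω * h * Real.exp (2 * y / δ ^ 2) := by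
      have : 0 ≤ ω * h := mul_nonneg hω hh.le
      nlinarith
    have hfirst : e + h * (2 / δ ^ 2 * e) ≤ ω * x * Real.exp (2 * y / δ ^ 2) := by
      have h3 : e + h * (2 / δ ^ 2 * e) = (1 + 2 * h / δ ^ 2) * e := by ring
      rw [h3, hexp2]
      calc (1 + 2 * h / δ ^ 2) * e ≤ Real.exp (2 * h / δ ^ 2) * e :=
            mul_le_mul_of_nonneg_right hexp1 he0
        _ ≤ Real.exp (2 * h / δ ^ 2) * (ω * x * Real.exp (2 * x / δ ^ 2)) :=
            mul_le_mul_of_nonneg_left hi (Real.exp_pos _).le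
        _ = _ := by ring
    calc e + h * (2 / δ ^ 2 * e) + ω * h
        ≤ ω * x * Real.exp (2 * y / δ ^ 2) + ω * h * Real.exp (2 * y / δ ^ 2) :=
          add_le_add hfirst hω2
      _ = ω * y * Real.exp (2 * y / δ ^ 2) := by rw [hyx]; ring

/-- The number of steps of size `2 ^ (-n)` before time `t`. -/
def jn (t : ℝ) (n : ℕ) : ℕ := ⌊t * 2 ^ n⌋₊

theorem jn_le {t : ℝ} (ht : 0 ≤ t) (n : ℕ) : (jn t n : ℝ) * (1 / 2) ^ n ≤ t := by
  have h1 : (jn t n : ℝ) ≤ t * 2 ^ n := Nat.floor_le (by positivity)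
  have h2 : (2 : ℝ) ^ n * (1 / 2) ^ n = 1 := by rw [← mul_pow]; norm_num
  calc (jn t n : ℝ) * (1 / 2) ^ n ≤ t * 2 ^ n * (1 / 2) ^ n :=
        mul_le_mul_of_nonneg_right h1 (by positivity)
    _ = t := by rw [mul_assoc, h2, mul_one]

theorem lt_jn {t : ℝ} (n : ℕ) : t - (jn t n : ℝ) * (1 / 2) ^ n < (1 / 2) ^ n := by
  have h1 : t * 2 ^ n < (jn t n : ℝ) + 1 := Nat.lt_floor_add_one _
  have h2 : (2 : ℝ) ^ n * (1 / 2) ^ n = 1 := by rw [← mul_pow]; norm_num
  have h3 : t * 2 ^ n * (1 / 2) ^ n < ((jn t n : ℝ) + 1) * (1 / 2) ^ n :=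
    mul_lt_mul_of_pos_right h1 (by positivity)
  rw [mul_assoc, h2, mul_one] at h3
  linarith

theorem tendsto_h : Tendsto (fun n : ℕ => ((1 : ℝ) / 2) ^ n) atTop (𝓝 0) :=
  tendsto_pow_atTop_nhds_zero_of_lt_one (by norm_num) (by norm_num)

theorem contZ {U : ℝ → ℂ} (hU : Continuous U) {z : ℂ} {g : ℝ → ℂ} {t : ℝ} (hs : Sol U z t g) :
    ContinuousOn (fun s => g s - U s) (Set.Icc 0 t) := by
  refine ContinuousOn.sub (fun s hs' => (hs.2.2 s hs').continuousWithinAt) hU.continuousOn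

/-- Uniform convergence of the Euler scheme. -/
theorem eul_close {U : ℝ → ℂ} (hU : Continuous U) (h0 : U 0 = 0) {z : ℂ} {g : ℝ → ℂ}
    {t δ c : ℝ} (ht : 0 ≤ t) (hδ : 0 < δ) (hs : Sol U z t g)
    (hc : ∀ s ∈ Set.Icc 0 t, c ≤ ‖g s - U s‖) (hδc : δ < c) {η : ℝ} (hη : 0 < η) :
    ∀ᶠ n : ℕ in atTop, ∀ i ≤ jn t n, ‖eul U z ((1 / 2) ^ n) i
      - (g ((i : ℝ) * (1 / 2) ^ n) - U ((i : ℝ) * (1 / 2) ^ n))‖ ≤ η := by
  have hX : 0 < t * Real.exp (2 * t / δ ^ 2) + 1 := by positivity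
  set X : ℝ := t * Real.exp (2 * t / δ ^ 2) + 1 with hXdef
  set m : ℝ := min η (c - δ) with hm
  have hm0 : 0 < m := lt_min hη (by linarith)
  set ω : ℝ := m / X with hω
  have hω0 : 0 < ω := div_pos hm0 hX
  have hωX : ω * t * Real.exp (2 * t / δ ^ 2) ≤ m := by
    have h1 : ω * t * Real.exp (2 * t / δ ^ 2) = ω * (X - 1) := by rw [hXdef]; ring
    have h2 : ω * X = m := by rw [hω]; field_simp
    rw [h1]
    nlinarith
  have hD : ContinuousOn (fun s => 2 / (g s - U s)) (Set.Icc 0 t) :=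
    continuousOn_const.div (contZ hU hs) (fun s hs' => sub_ne_zero.2 (hs.2.1 s hs'))
  have huc := isCompact_Icc.uniformContinuousOn_of_continuous hD
  rw [Metric.uniformContinuousOn_iff] at huc
  obtain ⟨ρ, hρ, hρ'⟩ := huc ω hω0
  filter_upwards [(tendsto_order.1 tendsto_h).2 ρ hρ] with n hn
  have hh : (0 : ℝ) < (1 / 2) ^ n := by positivity
  have hb := err_bound h0 hδ hs hc hδc.le hh hω0.le (fun s hs1 s' hs2 hss => by
    have h1 := hρ' s hs1 s' hs2 (by rw [Real.dist_eq]; exact lt_of_le_of_lt hss hn)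
    rw [dist_eq_norm] at h1
    exact h1.le) (hωX.trans (min_le_right _ _)) (jn t n) (jn_le ht n)
  intro i hi
  refine (hb i hi).trans ?_
  have hit : (i : ℝ) * (1 / 2) ^ n ≤ t := by
    refine le_trans ?_ (jn_le ht n)
    exact mul_le_mul_of_nonneg_right (by exact_mod_cast hi) hh.le
  have hi0 : 0 ≤ (i : ℝ) * (1 / 2) ^ n := by positivity
  refine le_trans ?_ (hωX.trans (min_le_left _ _))
  have e1 : Real.exp (2 * ((i : ℝ) * (1 / 2) ^ n) / δ ^ 2) ≤ Real.exp (2 * t / δ ^ 2) := by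
    apply Real.exp_le_exp.2
    gcongr
  exact mul_le_mul (mul_le_mul_of_nonneg_left hit hω0.le) e1 (Real.exp_pos _).le
    (mul_nonneg hω0.le ht)

/-- Convergence of the Riemann sums. -/
theorem sum_close {U : ℝ → ℂ} (hU : Continuous U) (h0 : U 0 = 0) {k : ℂ → ℝ}
    (hk : ContinuousOn k {0}ᶜ) {z : ℂ} {g : ℝ → ℂ} {t δ R c C : ℝ} (ht : 0 ≤ t) (hδ : 0 < δ)
    (hs : Sol U z t g) (hc : ∀ s ∈ Set.Icc 0 t, c ≤ ‖g s - U s‖) (hδc : δ < c)
    (hC : ∀ s ∈ Set.Icc 0 t, ‖g s - U s‖ ≤ C) (hCR : C < R) {ε : ℝ} (hε : 0 < ε) :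
    ∀ᶠ n : ℕ in atTop, |∑ i ∈ Finset.range (jn t n), (1 / 2) ^ n * k (eul U z ((1 / 2) ^ n) i)
      - ∫ s in (0 : ℝ)..t, k (g s - U s)| ≤ ε := by
  set A : Set ℂ := {w | δ ≤ ‖w‖ ∧ ‖w‖ ≤ R} with hA
  have hAc : IsCompact A := by
    have h1 : A = Metric.closedBall (0 : ℂ) R ∩ {w | δ ≤ ‖w‖} := by
      ext w
      simp [hA, and_comm]
    rw [h1]
    exact (isCompact_closedBall 0 R).inter_right (isClosed_le continuous_const continuous_norm)
  have hA0 : A ⊆ {0}ᶜ := by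
    intro w hw h1
    have h2 : w = 0 := h1
    have h3 : δ ≤ ‖w‖ := hw.1
    rw [h2, norm_zero] at h3
    linarith
  have hkA : ContinuousOn k A := hk.mono hA0
  have hZA : ∀ s ∈ Set.Icc 0 t, g s - U s ∈ A := fun s hs' =>
    ⟨hδc.le.trans (hc s hs'), (hC s hs').trans hCR.le⟩
  have hZc := contZ hU hs
  have hkZ : ContinuousOn (fun s => k (g s - U s)) (Set.Icc 0 t) :=
    hkA.comp hZc (fun s hs' => hZA s hs')
  obtain ⟨M, hM⟩ := hAc.exists_bound_of_continuousOn hkA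
  have hM0 : 0 ≤ |M| := abs_nonneg M
  set ε₁ : ℝ := ε / (2 * (t + 1)) with hε₁
  have hε₁0 : 0 < ε₁ := by positivity
  have huk := hAc.uniformContinuousOn_of_continuous hkA
  rw [Metric.uniformContinuousOn_iff] at huk
  obtain ⟨ρ₁, hρ₁, hρ₁'⟩ := huk ε₁ hε₁0
  have huz := isCompact_Icc.uniformContinuousOn_of_continuous hZc
  rw [Metric.uniformContinuousOn_iff] at huz
  obtain ⟨ρ₂, hρ₂, hρ₂'⟩ := huz (ρ₁ / 2) (by positivity)
  have hη : 0 < min (ρ₁ / 3) (min (c - δ) (R - C)) :=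
    lt_min (by positivity) (lt_min (by linarith) (by linarith))
  filter_upwards [eul_close hU h0 ht hδ hs hc hδc hη, (tendsto_order.1 tendsto_h).2 ρ₂ hρ₂,
    (tendsto_order.1 tendsto_h).2 (ε / (2 * (|M| + 1))) (by positivity)] with n h1 h2 h3
  set h : ℝ := (1 / 2) ^ n with hh
  have hh0 : 0 < h := by positivity
  set j : ℕ := jn t n with hj
  have hjt : (j : ℝ) * h ≤ t := jn_le ht n
  have hjt' : t - (j : ℝ) * h < h := lt_jn n
  have hit : ∀ i ≤ j, (i : ℝ) * h ∈ Set.Icc 0 t := fun i hi =>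
    ⟨by positivity, (mul_le_mul_of_nonneg_right (by exact_mod_cast hi) hh0.le).trans hjt⟩
  have hEA : ∀ i ≤ j, eul U z h i ∈ A := by
    intro i hi
    have h4 := h1 i hi
    have h5 := h4.trans ((min_le_right _ _).trans (min_le_left _ _))
    have h6 := h4.trans ((min_le_right _ _).trans (min_le_right _ _))
    have h7 := hc _ (hit i hi)
    have h8 := hC _ (hit i hi)
    have h9 : ‖g ((i : ℝ) * h) - U ((i : ℝ) * h)‖ ≤ ‖eul U z h i‖
        + ‖eul U z h i - (g ((i : ℝ) * h) - U ((i : ℝ) * h))‖ := by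
      calc ‖g ((i : ℝ) * h) - U ((i : ℝ) * h)‖
          = ‖eul U z h i - (eul U z h i - (g ((i : ℝ) * h) - U ((i : ℝ) * h)))‖ := by
            congr 1; ring
        _ ≤ _ := norm_sub_le _ _
    have h10 : ‖eul U z h i‖ ≤ ‖g ((i : ℝ) * h) - U ((i : ℝ) * h)‖
        + ‖eul U z h i - (g ((i : ℝ) * h) - U ((i : ℝ) * h))‖ := by
      calc ‖eul U z h i‖ = ‖(g ((i : ℝ) * h) - U ((i : ℝ) * h))
            + (eul U z h i - (g ((i : ℝ) * h) - U ((i : ℝ) * h)))‖ := by congr 1; ring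
        _ ≤ _ := norm_add_le _ _
    exact ⟨by linarith, by linarith⟩
  -- the integral is a sum of integrals
  have hint : ∀ x y : ℝ, 0 ≤ x → x ≤ y → y ≤ t →
      IntervalIntegrable (fun s => k (g s - U s)) volume x y := by
    intro x y hx hxy hy
    apply ContinuousOn.intervalIntegrable
    rw [Set.uIcc_of_le hxy]
    exact hkZ.mono (Set.Icc_subset_Icc hx hy)
  have hsum : ∑ i ∈ Finset.range j, ∫ s in ((i : ℝ) * h)..(((i + 1 : ℕ) : ℝ) * h), k (g s - U s)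
      = ∫ s in (((0 : ℕ) : ℝ) * h)..((j : ℝ) * h), k (g s - U s) := by
    refine intervalIntegral.sum_integral_adjacent_intervals (a := fun i : ℕ => (i : ℝ) * h) ?_
    intro i hi
    have h4 := hit (i + 1) (by omega)
    refine hint _ _ (by positivity) ?_ h4.2
    push_cast
    nlinarith
  rw [Nat.cast_zero, zero_mul] at hsum
  have hsplit : ∫ s in (0 : ℝ)..t, k (g s - U s)
      = (∫ s in (0 : ℝ)..((j : ℝ) * h), k (g s - U s))
        + ∫ s in ((j : ℝ) * h)..t, k (g s - U s) :=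
    (intervalIntegral.integral_add_adjacent_intervals (hint _ _ le_rfl (by positivity) hjt)
      (hint _ _ (by positivity) hjt le_rfl)).symm
  have hlast : |∫ s in ((j : ℝ) * h)..t, k (g s - U s)| ≤ |M| * h := by
    have h4 : ‖∫ s in ((j : ℝ) * h)..t, k (g s - U s)‖ ≤ |M| * |t - (j : ℝ) * h| := by
      apply intervalIntegral.norm_integral_le_of_norm_le_const
      intro s hs'
      rw [Set.uIoc_of_le hjt] at hs'
      have h5 : (0 : ℝ) ≤ (j : ℝ) * h := by positivity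
      exact (hM _ (hZA s ⟨h5.trans hs'.1.le, hs'.2⟩)).trans (le_abs_self M)
    rw [Real.norm_eq_abs, abs_of_nonneg (sub_nonneg.2 hjt)] at h4
    exact h4.trans (mul_le_mul_of_nonneg_left hjt'.le hM0)
  have hterm : ∀ i ∈ Finset.range j, |h * k (eul U z h i)
      - ∫ s in ((i : ℝ) * h)..(((i + 1 : ℕ) : ℝ) * h), k (g s - U s)| ≤ ε₁ * h := by
    intro i hi
    have hij : i < j := Finset.mem_range.1 hi
    have hi1 := hit i hij.le
    have hi2 := hit (i + 1) hij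
    have hle : (i : ℝ) * h ≤ ((i + 1 : ℕ) : ℝ) * h := by push_cast; nlinarith
    have hlen : ((i + 1 : ℕ) : ℝ) * h - (i : ℝ) * h = h := by push_cast; ring
    have h4 : h * k (eul U z h i) - ∫ s in ((i : ℝ) * h)..(((i + 1 : ℕ) : ℝ) * h), k (g s - U s)
        = ∫ s in ((i : ℝ) * h)..(((i + 1 : ℕ) : ℝ) * h), (k (eul U z h i) - k (g s - U s)) := by
      rw [intervalIntegral.integral_sub intervalIntegrable_const
        (hint _ _ hi1.1 hle hi2.2), intervalIntegral.integral_const, hlen, smul_eq_mul]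
    rw [h4, ← Real.norm_eq_abs]
    have h5 : ‖∫ s in ((i : ℝ) * h)..(((i + 1 : ℕ) : ℝ) * h), (k (eul U z h i) - k (g s - U s))‖
        ≤ ε₁ * |((i + 1 : ℕ) : ℝ) * h - (i : ℝ) * h| := by
      apply intervalIntegral.norm_integral_le_of_norm_le_const
      intro s hs'
      rw [Set.uIoc_of_le hle] at hs'
      have hs1 : s ∈ Set.Icc 0 t := ⟨hi1.1.trans hs'.1.le, hs'.2.trans hi2.2⟩
      have h6 := h1 i hij.le
      have h7 : ‖eul U z h i - (g ((i : ℝ) * h) - U ((i : ℝ) * h))‖ ≤ ρ₁ / 3 :=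
        h6.trans (min_le_left _ _)
      have h8 : dist ((i : ℝ) * h) s < ρ₂ := by
        rw [Real.dist_eq, abs_sub_comm, abs_of_nonneg (sub_nonneg.2 hs'.1.le)]
        linarith [hs'.2]
      have h9 := hρ₂' _ hi1 _ hs1 h8
      rw [dist_eq_norm] at h9
      have h10 : dist (eul U z h i) (g s - U s) < ρ₁ := by
        rw [dist_eq_norm]
        have h11 := norm_add_le (eul U z h i - (g ((i : ℝ) * h) - U ((i : ℝ) * h)))
          ((g ((i : ℝ) * h) - U ((i : ℝ) * h)) - (g s - U s))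
        rw [sub_add_sub_cancel] at h11
        linarith
      have h12 := hρ₁' _ (hEA i hij.le) _ (hZA s hs1) h10
      rw [dist_eq_norm] at h12
      exact h12.le
    rw [hlen, abs_of_pos hh0] at h5
    exact h5
  rw [hsplit, ← hsum, ← sub_sub, ← Finset.sum_sub_distrib]
  have h4 : |∑ i ∈ Finset.range j, (h * k (eul U z h i)
      - ∫ s in ((i : ℝ) * h)..(((i + 1 : ℕ) : ℝ) * h), k (g s - U s))| ≤ ε₁ * t := by
    refine (Finset.abs_sum_le_sum_abs _ _).trans ((Finset.sum_le_sum hterm).trans ?_)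
    rw [Finset.sum_const, Finset.card_range, nsmul_eq_mul]
    calc (j : ℝ) * (ε₁ * h) = ε₁ * ((j : ℝ) * h) := by ring
      _ ≤ ε₁ * t := mul_le_mul_of_nonneg_left hjt hε₁0.le
  have h5 : ε₁ * t ≤ ε / 2 := by
    rw [hε₁, div_mul_eq_mul_div, div_le_div_iff₀ (by positivity) (by norm_num)]
    nlinarith
  have h6 : |M| * h ≤ ε / 2 := by
    have h7 : |M| * h ≤ (|M| + 1) * (ε / (2 * (|M| + 1))) :=
      mul_le_mul (by linarith) h3.le hh0.le (by positivity)
    have h8 : (|M| + 1) * (ε / (2 * (|M| + 1))) = ε / 2 := by field_simp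
    linarith
  have h7 := abs_sub (∑ i ∈ Finset.range j, (h * k (eul U z h i)
      - ∫ s in ((i : ℝ) * h)..(((i + 1 : ℕ) : ℝ) * h), k (g s - U s)))
      (∫ s in ((j : ℝ) * h)..t, k (g s - U s))
  linarith

end EulerAux

open EulerAux

/-- A9 EULER. -/
theorem euler_event {U : ℝ → ℂ} (hU : Continuous U) (h0 : U 0 = 0) {k F : ℂ → ℝ}
    (hk : ContinuousOn k {0}ᶜ) (hF : ContinuousOn F {0}ᶜ) {z : ℂ} {g : ℝ → ℂ}
    {t T δ R m : ℝ} (ht : 0 ≤ t) (htT : t ≤ T) (hδ : 0 < δ) (hs : Sol U z t g)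
    (hr : ∀ s ∈ Set.Icc 0 t, δ < ‖g s - U s‖ ∧ ‖g s - U s‖ < R)
    (hm : m < Real.exp (∫ s in (0 : ℝ)..t, k (g s - U s)) * F (g t - U t)) :
    ∀ᶠ n : ℕ in atTop, ∃ j : ℕ, (j : ℝ) * (1 / 2) ^ n ≤ T ∧
      (∀ i ≤ j, δ ≤ ‖eul U z ((1 / 2) ^ n) i‖ ∧ ‖eul U z ((1 / 2) ^ n) i‖ ≤ R) ∧
      m ≤ Real.exp (∑ i ∈ Finset.range j, (1 / 2) ^ n * k (eul U z ((1 / 2) ^ n) i))
        * F (eul U z ((1 / 2) ^ n) j) := by
  have hZc := contZ hU hs
  have hne : (Set.Icc 0 t).Nonempty := ⟨0, le_rfl, ht⟩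
  obtain ⟨s₀, hs₀, hmin⟩ := isCompact_Icc.exists_isMinOn hne hZc.norm
  obtain ⟨s₁, hs₁, hmax⟩ := isCompact_Icc.exists_isMaxOn hne hZc.norm
  set c : ℝ := ‖g s₀ - U s₀‖ with hcdef
  set C : ℝ := ‖g s₁ - U s₁‖ with hCdef
  have hc : ∀ s ∈ Set.Icc 0 t, c ≤ ‖g s - U s‖ := fun s hs' => hmin hs'
  have hC : ∀ s ∈ Set.Icc 0 t, ‖g s - U s‖ ≤ C := fun s hs' => hmax hs'
  have hδc : δ < c := (hr s₀ hs₀).1
  have hCR : C < R := (hr s₁ hs₁).2
  have htm : t ∈ Set.Icc 0 t := ⟨ht, le_rfl⟩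
  -- convergence of the sums
  have hS : Tendsto (fun n : ℕ => ∑ i ∈ Finset.range (jn t n),
      ((1 : ℝ) / 2) ^ n * k (eul U z ((1 / 2) ^ n) i)) atTop
      (𝓝 (∫ s in (0 : ℝ)..t, k (g s - U s))) := by
    rw [Metric.tendsto_nhds]
    intro ε hε
    filter_upwards [sum_close hU h0 hk ht hδ hs hc hδc hC hCR (half_pos hε)] with n hn
    rw [Real.dist_eq]
    linarith
  -- convergence of the end points
  have hE : Tendsto (fun n : ℕ => eul U z ((1 / 2) ^ n) (jn t n)) atTop (𝓝 (g t - U t)) := by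
    rw [Metric.tendsto_nhds]
    intro ε hε
    have huz := isCompact_Icc.uniformContinuousOn_of_continuous hZc
    rw [Metric.uniformContinuousOn_iff] at huz
    obtain ⟨ρ, hρ, hρ'⟩ := huz (ε / 2) (half_pos hε)
    filter_upwards [eul_close hU h0 ht hδ hs hc hδc (η := ε / 3) (by positivity),
      (tendsto_order.1 tendsto_h).2 ρ hρ] with n h1 h2
    have h3 := h1 (jn t n) le_rfl
    have h4 : (jn t n : ℝ) * (1 / 2) ^ n ∈ Set.Icc 0 t := ⟨by positivity, jn_le ht n⟩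
    have h5 : dist ((jn t n : ℝ) * (1 / 2) ^ n) t < ρ := by
      rw [Real.dist_eq, abs_sub_comm, abs_of_nonneg (sub_nonneg.2 h4.2)]
      exact (lt_jn n).trans h2
    have h6 := hρ' _ h4 _ htm h5
    rw [dist_eq_norm] at h6 ⊢
    have h7 := norm_add_le (eul U z ((1 / 2) ^ n) (jn t n)
        - (g ((jn t n : ℝ) * (1 / 2) ^ n) - U ((jn t n : ℝ) * (1 / 2) ^ n)))
      ((g ((jn t n : ℝ) * (1 / 2) ^ n) - U ((jn t n : ℝ) * (1 / 2) ^ n)) - (g t - U t))
    rw [sub_add_sub_cancel] at h7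
    linarith
  have hZt : g t - U t ∈ ({0}ᶜ : Set ℂ) := by
    intro h1
    have h2 : g t - U t = 0 := h1
    have h3 := (hr t htm).1
    rw [h2, norm_zero] at h3
    linarith
  have hFt : ContinuousAt F (g t - U t) :=
    hF.continuousAt (isOpen_compl_singleton.mem_nhds hZt)
  have hlim := ((Real.continuous_exp.tendsto _).comp hS).mul (hFt.tendsto.comp hE)
  have hη : 0 < min (c - δ) (R - C) := lt_min (by linarith) (by linarith)
  filter_upwards [(tendsto_order.1 hlim).1 m hm, eul_close hU h0 ht hδ hs hc hδc hη] with n h1 h2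
  refine ⟨jn t n, (jn_le ht n).trans htT, ?_, h1.le⟩
  intro i hi
  have hh : (0 : ℝ) < (1 / 2) ^ n := by positivity
  have hit : (i : ℝ) * (1 / 2) ^ n ∈ Set.Icc 0 t :=
    ⟨by positivity, (mul_le_mul_of_nonneg_right (by exact_mod_cast hi) hh.le).trans (jn_le ht n)⟩
  have h3 := h2 i hi
  have h5 := h3.trans (min_le_left _ _)
  have h6 := h3.trans (min_le_right _ _)
  have h7 := hc _ hit
  have h8 := hC _ hit
  have h9 : ‖g ((i : ℝ) * (1 / 2) ^ n) - U ((i : ℝ) * (1 / 2) ^ n)‖ ≤ ‖eul U z ((1 / 2) ^ n) i‖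
      + ‖eul U z ((1 / 2) ^ n) i
        - (g ((i : ℝ) * (1 / 2) ^ n) - U ((i : ℝ) * (1 / 2) ^ n))‖ := by
    calc ‖g ((i : ℝ) * (1 / 2) ^ n) - U ((i : ℝ) * (1 / 2) ^ n)‖
        = ‖eul U z ((1 / 2) ^ n) i - (eul U z ((1 / 2) ^ n) i
          - (g ((i : ℝ) * (1 / 2) ^ n) - U ((i : ℝ) * (1 / 2) ^ n)))‖ := by congr 1; ring
      _ ≤ _ := norm_sub_le _ _
  have h10 : ‖eul U z ((1 / 2) ^ n) i‖ ≤ ‖g ((i : ℝ) * (1 / 2) ^ n) - U ((i : ℝ) * (1 / 2) ^ n)‖
      + ‖eul U z ((1 / 2) ^ n) i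
        - (g ((i : ℝ) * (1 / 2) ^ n) - U ((i : ℝ) * (1 / 2) ^ n))‖ := by
    calc ‖eul U z ((1 / 2) ^ n) i‖
        = ‖(g ((i : ℝ) * (1 / 2) ^ n) - U ((i : ℝ) * (1 / 2) ^ n)) + (eul U z ((1 / 2) ^ n) i
          - (g ((i : ℝ) * (1 / 2) ^ n) - U ((i : ℝ) * (1 / 2) ^ n)))‖ := by congr 1; ring
      _ ≤ _ := norm_add_le _ _
  exact ⟨by linarith, by linarith⟩

end

end Pool.Agent.SLE
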