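import Pool.Agent.Lib.MP_c17912_pr.Defs

set_option autoImplicit false

open MeasureTheory ProbabilityTheory Filter
open scoped NNReal ENNReal Topology

namespace Pool.Agent.SLE

noncomputable section

variable {Ω : Type*} [MeasurableSpace Ω] {μ : Measure Ω} {a b c K : ℝ} {W : ℝ → Ω → ℂ}

namespace Fin1Aux

/-- The fourth moment of the standard Gaussian. -/
def C4 : ℝ := ∫ x, x ^ 4 ∂(gaussianReal 0 1)

theorem C4_nonneg : 0 ≤ C4 := integral_nonneg fun x => by positivity

theorem int_pow (v : ℝ≥0) (n : ℕ) : Integrable (fun x : ℝ => x ^ n) (gaussianReal 0 v) := by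
  have h : (0 : ℝ) ∈ interior (integrableExpSet id (gaussianReal 0 v)) := by simp
  exact integrable_pow_of_mem_interior_integrableExpSet h n

theorem mom2 (v : ℝ≥0) : ∫ x, x ^ 2 ∂(gaussianReal 0 v) = v := by
  have h := variance_fun_id_gaussianReal (μ := 0) (v := v)
  rw [variance_eq_integral measurable_id'.aemeasurable] at h
  simpa [integral_id_gaussianReal] using h

theorem mom4 (v : ℝ≥0) : ∫ x, x ^ 4 ∂(gaussianReal 0 v) = (v : ℝ) ^ 2 * C4 := by
  have h := gaussianReal_map_const_mul (μ := 0) (v := 1) (√(v : ℝ))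
  have hv : NNReal.mk ((√(v : ℝ)) ^ 2) (sq_nonneg _) = v := by
    ext
    simp [Real.sq_sqrt]
  rw [mul_zero, mul_one, hv] at h
  rw [← h, integral_map (by fun_prop) (by fun_prop)]
  simp only [mul_pow]
  rw [integral_const_mul, C4]
  congr 1
  have := Real.sq_sqrt v.coe_nonneg
  calc (√(v : ℝ)) ^ 4 = ((√(v : ℝ)) ^ 2) ^ 2 := by ring
    _ = _ := by rw [this]

section
variable {X : Ω → ℝ} {v : ℝ≥0}

theorem law_int (hX : HasLaw X (gaussianReal 0 v) μ) (n : ℕ) :
    Integrable (fun ω => X ω ^ n) μ := by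
  have h := int_pow v n
  rw [← hX.map_eq] at h
  exact (integrable_map_measure h.aestronglyMeasurable hX.aemeasurable).1 h

theorem law_1 (hX : HasLaw X (gaussianReal 0 v) μ) : ∫ ω, X ω ∂μ = 0 := by
  rw [hX.integral_eq, integral_id_gaussianReal]

theorem law_2 (hX : HasLaw X (gaussianReal 0 v) μ) : ∫ ω, X ω ^ 2 ∂μ = v := by
  have h := hX.integral_comp (f := fun x : ℝ => x ^ 2) (by fun_prop)
  rw [mom2] at h
  exact h

theorem law_4 (hX : HasLaw X (gaussianReal 0 v) μ) : ∫ ω, X ω ^ 4 ∂μ = (v : ℝ) ^ 2 * C4 := by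
  have h := hX.integral_comp (f := fun x : ℝ => x ^ 4) (by fun_prop)
  rw [mom4] at h
  exact h

end

/-- The consequences of the three one dimensional laws. -/
theorem moments (ha : 0 ≤ a) (hb : 0 ≤ b) (hc : c ^ 2 ≤ a * b) {D : Ω → ℂ} (hD : Measurable D)
    {l : ℝ} (hl : 0 ≤ l)
    (h : ∀ u v : ℝ, HasLaw (fun ω => u * (D ω).re + v * (D ω).im)
      (gaussianReal 0 (Real.toNNReal (l * (a * u ^ 2 + 2 * c * u * v + b * v ^ 2)))) μ) :
    Integrable (fun ω => ‖D ω‖ ^ 4) μ ∧ ∫ ω, (D ω).re ∂μ = 0 ∧ ∫ ω, (D ω).im ∂μ = 0 ∧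
      ∫ ω, (D ω).re ^ 2 ∂μ = a * l ∧ ∫ ω, (D ω).im ^ 2 ∂μ = b * l ∧
      ∫ ω, (D ω).re * (D ω).im ∂μ = c * l ∧
      ∫ ω, ‖D ω‖ ^ 4 ∂μ ≤ (2 * C4 * (a ^ 2 + b ^ 2)) * l ^ 2 := by
  have hX : HasLaw (fun ω => (D ω).re) (gaussianReal 0 (Real.toNNReal (l * a))) μ := by
    have := h 1 0
    simpa using this
  have hY : HasLaw (fun ω => (D ω).im) (gaussianReal 0 (Real.toNNReal (l * b))) μ := by
    have := h 0 1
    simpa using this
  have hS : HasLaw (fun ω => (D ω).re + (D ω).im)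
      (gaussianReal 0 (Real.toNNReal (l * (a + 2 * c + b)))) μ := by
    have := h 1 1
    simpa using this
  have hS0 : 0 ≤ l * (a + 2 * c + b) := by
    refine mul_nonneg hl ?_
    nlinarith [sq_nonneg (a - b), sq_nonneg (a + b), abs_le_of_sq_le_sq' (a := 2 * c)
      (b := a + b) (by nlinarith [sq_nonneg (a - b)]) (by linarith)]
  have h2x := law_2 hX
  have h2y := law_2 hY
  have h2s := law_2 hS
  have h4x := law_4 hX
  have h4y := law_4 hY
  rw [Real.coe_toNNReal _ (mul_nonneg hl ha)] at h2x h4x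
  rw [Real.coe_toNNReal _ (mul_nonneg hl hb)] at h2y h4y
  rw [Real.coe_toNNReal _ hS0] at h2s
  have hbound : ∀ ω, ‖D ω‖ ^ 4 ≤ 2 * ((D ω).re ^ 4 + (D ω).im ^ 4) := fun ω => by
    have e : ‖D ω‖ ^ 4 = ((D ω).re ^ 2 + (D ω).im ^ 2) ^ 2 := by
      have : ‖D ω‖ ^ 2 = (D ω).re ^ 2 + (D ω).im ^ 2 := by
        rw [← Complex.normSq_eq_norm_sq, Complex.normSq_apply]
        ring
      rw [← this]
      ring
    rw [e]
    nlinarith [sq_nonneg ((D ω).re ^ 2 - (D ω).im ^ 2)]
  have hdom : Integrable (fun ω => 2 * ((D ω).re ^ 4 + (D ω).im ^ 4)) μ :=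
    ((law_int hX 4).add (law_int hY 4)).const_mul 2
  have hint : Integrable (fun ω => ‖D ω‖ ^ 4) μ := by
    refine hdom.mono' (by fun_prop) (Eventually.of_forall fun ω => ?_)
    rw [Real.norm_of_nonneg (by positivity)]
    exact hbound ω
  refine ⟨hint, law_1 hX, law_1 hY, by rw [h2x]; ring, by rw [h2y]; ring, ?_, ?_⟩
  · have e : ∀ ω, (D ω).re * (D ω).im
        = 2⁻¹ * (((D ω).re + (D ω).im) ^ 2 - (D ω).re ^ 2 - (D ω).im ^ 2) := fun ω => by ring
    simp only [e]
    rw [integral_const_mul, integral_sub, integral_sub, h2x, h2y, h2s]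
    · ring
    · exact law_int hS 2
    · exact law_int hX 2
    · exact (law_int hS 2).sub (law_int hX 2)
    · exact law_int hY 2
  · calc ∫ ω, ‖D ω‖ ^ 4 ∂μ ≤ ∫ ω, 2 * ((D ω).re ^ 4 + (D ω).im ^ 4) ∂μ :=
          integral_mono hint hdom hbound
      _ = 2 * ((l * a) ^ 2 * C4 + (l * b) ^ 2 * C4) := by
          rw [integral_const_mul, integral_add (law_int hX 4) (law_int hY 4), h4x, h4y]
      _ = _ := by ring

end Fin1Aux

open Fin1Aux

/-- B4 FIN1. From planar Brownian motion to `Drv`. -/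
theorem PlanarBM.exists_drv [IsProbabilityMeasure μ] {B : ℝ≥0 → Ω → ℂ}
    (ha : 0 ≤ a) (hb : 0 ≤ b) (hc : c ^ 2 ≤ a * b) (hB : PlanarBM a b c B μ) :
    ∃ K, ∃ W : ℝ → Ω → ℂ, Drv a b c K W μ ∧
      ∀ᵐ ω ∂μ, ∀ t : ℝ, 0 ≤ t → W t ω = B t.toNNReal ω := by
  set N : Set Ω := toMeasurable μ {ω | ¬ (B 0 ω = 0 ∧ Continuous (B · ω))} with hN
  have hN0 : μ N = 0 := by
    rw [hN, measure_toMeasurable]
    exact (hB.zero.and hB.cont)
  have hNm : MeasurableSet N := measurableSet_toMeasurable _ _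
  have hNc : ∀ ω ∉ N, B 0 ω = 0 ∧ Continuous (B · ω) := fun ω hω => by
    by_contra hcon
    exact hω (subset_toMeasurable _ _ hcon)
  have hae : ∀ᵐ ω ∂μ, ω ∉ N := measure_eq_zero_iff_ae_notMem.1 hN0
  set W : ℝ → Ω → ℂ := fun t => Nᶜ.indicator (B t.toNNReal) with hW
  have hWin : ∀ t, ∀ ω ∈ N, W t ω = 0 := fun t ω hω => by
    simp only [hW]
    exact Set.indicator_of_notMem (by simpa using hω) _
  have hWout : ∀ t, ∀ ω ∉ N, W t ω = B t.toNNReal ω := fun t ω hω => by
    simp only [hW]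
    exact Set.indicator_of_mem (by simpa using hω) _
  have hWmeas : ∀ t, Measurable (W t) := fun t => (hB.meas _).indicator hNm.compl
  have key : ∀ s t : ℝ, 0 ≤ s → s ≤ t → _ := fun s t hs hst =>
    moments ha hb hc (D := fun ω => W t ω - W s ω) ((hWmeas t).sub (hWmeas s))
      (sub_nonneg.2 hst) (fun u v => by
        have h := hB.gauss s.toNNReal t.toNNReal (Real.toNNReal_le_toNNReal hst) u v
        rw [Real.coe_toNNReal s hs, Real.coe_toNNReal t (hs.trans hst)] at h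
        refine h.congr ?_
        filter_upwards [hae] with ω hω
        simp only [hWout _ ω hω])
  refine ⟨2 * C4 * (a ^ 2 + b ^ 2), W, ⟨ha, hb, hc, ?_, hWmeas, ?_, ?_, ?_, ?_, ?_, ?_, ?_, ?_,
    ?_, ?_⟩, ?_⟩
  · have := C4_nonneg
    positivity
  · intro t ht ω
    by_cases hω : ω ∈ N
    · exact hWin t ω hω
    · rw [hWout t ω hω, Real.toNNReal_of_nonpos ht]
      exact (hNc ω hω).1
  · intro ω
    by_cases hω : ω ∈ N
    · simp only [hWin _ ω hω]
      exact continuous_const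
    · simp only [hWout _ ω hω]
      exact (hNc ω hω).2.comp continuous_real_toNNReal
  · intro n t ht
    have h := hB.indep n (fun i => (t i).toNNReal) (fun i j hij => Real.toNNReal_le_toNNReal (ht hij))
    refine h.congr fun i => ?_
    filter_upwards [hae] with ω hω
    simp only [hWout _ ω hω]
  · exact fun s t hs hst => (key s t hs hst).1
  · exact fun s t hs hst => (key s t hs hst).2.1
  · exact fun s t hs hst => (key s t hs hst).2.2.1
  · exact fun s t hs hst => (key s t hs hst).2.2.2.1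
  · exact fun s t hs hst => (key s t hs hst).2.2.2.2.1
  · exact fun s t hs hst => (key s t hs hst).2.2.2.2.2.1
  · exact fun s t hs hst => (key s t hs hst).2.2.2.2.2.2
  · filter_upwards [hae] with ω hω t _
    exact hWout t ω hω

end

end Pool.Agent.SLE
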