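import Pool.Agent.Lib.MP_c17912_pr.Defs2
import Pool.Agent.Lib.MP_c17912_pr.DrvSub
import Pool.Agent.Lib.MP_c17912_pr.Fin1

set_option autoImplicit false

open MeasureTheory ProbabilityTheory Filter
open scoped NNReal ENNReal Topology

namespace Pool.Agent.SLE

noncomputable section

variable {Ω : Type*} [MeasurableSpace Ω] {μ : Measure Ω} {a b c K : ℝ} {W : ℝ → Ω → ℂ}

open DrvSubAux

/-- G1 GAU. -/
theorem Gau.subP (hW : Gau a b c K W μ) {s r : ℝ} (hs : 0 ≤ s) (hr : 0 < r) :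
    Gau a b c K (subP W s r) μ where
  toDrv := hW.toDrv.sub hs hr
  gauss t' t ht' htt u v := by
    have h := gaussianReal_const_mul (hW.gauss (tm s r t') (tm s r t)
      (hs.trans (le_tm s r t')) (tm_mono s r htt) u v) r⁻¹
    rw [mul_zero, tm_sub (ht'.trans htt) ht'] at h
    have e1 : (fun ω => r⁻¹ * (u * (W (tm s r t) ω - W (tm s r t') ω).re +
        v * (W (tm s r t) ω - W (tm s r t') ω).im)) =
        fun ω => u * (SLE.subP W s r t ω - SLE.subP W s r t' ω).re +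
          v * (SLE.subP W s r t ω - SLE.subP W s r t' ω).im := by
      funext ω
      rw [subP_sub, Complex.smul_re, Complex.smul_im, smul_eq_mul, smul_eq_mul]
      ring
    rw [← e1]
    have hr2 : (0 : ℝ) ≤ r⁻¹ ^ 2 := by positivity
    have e2 : Real.toNNReal ((t - t') * (a * u ^ 2 + 2 * c * u * v + b * v ^ 2)) =
        ⟨r⁻¹ ^ 2, sq_nonneg _⟩ *
          Real.toNNReal (r ^ 2 * (t - t') * (a * u ^ 2 + 2 * c * u * v + b * v ^ 2)) := by
      have h3 : (⟨r⁻¹ ^ 2, sq_nonneg _⟩ : ℝ≥0) = Real.toNNReal (r⁻¹ ^ 2) :=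
        (Real.toNNReal_of_nonneg hr2).symm
      rw [h3, ← Real.toNNReal_mul hr2]
      congr 1
      field_simp
    rw [e2]
    exact h

theorem PlanarBM.exists_gau [IsProbabilityMeasure μ] {B : ℝ≥0 → Ω → ℂ}
    (ha : 0 ≤ a) (hb : 0 ≤ b) (hc : c ^ 2 ≤ a * b) (hB : PlanarBM a b c B μ) :
    ∃ K, ∃ W : ℝ → Ω → ℂ, Gau a b c K W μ ∧
      ∀ᵐ ω ∂μ, ∀ t : ℝ, 0 ≤ t → W t ω = B t.toNNReal ω := by
  obtain ⟨K, W, hW, hae⟩ := hB.exists_drv ha hb hc
  refine ⟨K, W, ⟨hW, ?_⟩, hae⟩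
  intro s t hs hst u v
  have h := hB.gauss s.toNNReal t.toNNReal (Real.toNNReal_le_toNNReal hst) u v
  rw [Real.coe_toNNReal s hs, Real.coe_toNNReal t (hs.trans hst)] at h
  refine h.congr ?_
  filter_upwards [hae] with ω hω
  rw [hω s hs, hω t (hs.trans hst)]

end

end Pool.Agent.SLE
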