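import Pool.Agent.Lib.MP_c17912_pr.Defs

/-!
# D1 GEN: the generator inequality
-/

set_option autoImplicit false

open MeasureTheory ProbabilityTheory Filter
open scoped NNReal ENNReal Topology

namespace Pool.Agent.SLE

noncomputable section

variable {Ω : Type*} [MeasurableSpace Ω] {μ : Measure Ω} {a b c K : ℝ} {W : ℝ → Ω → ℂ}

namespace GenAux

/-- The main part of the inequality. -/
theorem main_part {a x τ p : ℝ} (ha : 0 < a) (hx0 : 0 ≤ x) (hx1 : x ≤ 1) (hp : p = x + a)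
    (hτ : τ * p = x) : x * (8 * τ - 1) ≤ 3 * τ + 4 * τ ^ 2 + 6 * a := by
  have hp0 : 0 < p := by rw [hp]; linarith
  have hτ0 : 0 ≤ τ := by
    by_contra h
    push Not at h
    nlinarith
  have hτ1 : τ ≤ 1 := by
    by_contra h
    push Not at h
    nlinarith
  rcases le_total (8 * τ) 1 with h8 | h8
  · nlinarith [mul_nonneg hx0 (by linarith : (0 : ℝ) ≤ 1 - 8 * τ), sq_nonneg τ]
  rcases le_total x (1 / 2) with h2 | h2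
  · nlinarith [mul_nonneg (by linarith : (0 : ℝ) ≤ 1 / 2 - x)
      (by linarith : (0 : ℝ) ≤ 8 * τ - 1), sq_nonneg (8 * τ - 1)]
  · have h1 : x * (8 * τ - 1) ≤ 8 * τ - 1 := by
      nlinarith [mul_nonneg (by linarith : (0 : ℝ) ≤ 1 - x) (by linarith : (0 : ℝ) ≤ 8 * τ - 1)]
    have h3 : (1 - τ) * p = a := by rw [sub_mul, hτ, hp]; ring
    have h4 : (1 - τ) ≤ 2 * a := by
      nlinarith [mul_nonneg (by linarith : (0 : ℝ) ≤ 1 - τ) (by linarith : (0 : ℝ) ≤ p - 1 / 2)]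
    nlinarith [mul_nonneg (by linarith : (0 : ℝ) ≤ 1 - τ) (by linarith : (0 : ℝ) ≤ 1 - τ)]

theorem bd1 {X2 a : ℝ} : 4 * (X2 * a) ≤ (X2 + a) ^ 2 := by nlinarith [sq_nonneg (X2 - a)]

theorem bdM {x τ a : ℝ} (h : x * (8 * τ - 1) ≤ 3 * τ + 4 * τ ^ 2 + 6 * a) :
    (7 / 2) * (2 * x - 1) - 4 * τ - (1 - τ) * (1 + 4 * (2 * x - 1))
      + 4 * (τ * (1 - τ)) ≤ - 1 / 2 + 6 * a := by nlinarith

theorem r1 {s t : ℝ} (hs1 : s ≤ 1) (ht : 0 ≤ t) : s * t ≤ t := by nlinarith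

theorem r3 {τ a : ℝ} (ha : 0 < a) :
    4 * ((1 + a) ^ 2 - 1) * (τ * (1 - τ)) ≤ 2 * a + a ^ 2 := by
  have h1 : τ * (1 - τ) ≤ 1 / 4 := by nlinarith [sq_nonneg (τ - 1 / 2)]
  have h0 : 0 ≤ (1 + a) ^ 2 - 1 := by nlinarith
  nlinarith

theorem sm {w v k : ℝ} (hw0 : 0 ≤ w) (hw1 : w ≤ 1) (hk : 0 ≤ k) (hv1 : -k ≤ v) (hv2 : v ≤ k) :
    -k ≤ w * v ∧ w * v ≤ k := by constructor <;> nlinarith

theorem r4 {w v a : ℝ} (ha : 0 < a) (ha4 : a ≤ 1 / 1000) (hw0 : 0 ≤ w) (hw1 : w ≤ 1)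
    (hv1 : -(1 / 63) ≤ v) (hv2 : v ≤ 1 / 63) :
    8 * (1 + a) * (w * v) ≤ 8 * (1 + 1 / 1000) * (1 / 63) := by
  obtain ⟨h1, h2⟩ := sm hw0 hw1 (by norm_num) hv1 hv2
  nlinarith

theorem r5 {w y b : ℝ} (hb : 0 ≤ b) (hw0 : 0 ≤ w) (hw1 : w ≤ 1) (hy0 : 0 ≤ y) (hy1 : y ≤ 1) :
    4 * (w ^ 2 * (y * b)) ≤ 4 * b := by
  have h1 : w ^ 2 ≤ 1 := by nlinarith
  have h2 : y * b ≤ b := by nlinarith
  have h3 : 0 ≤ y * b := by positivity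
  have h5 : w ^ 2 * (y * b) ≤ 1 * (y * b) := mul_le_mul_of_nonneg_right h1 h3
  linarith

theorem r7 {s v a : ℝ} (ha : 0 < a) (ha4 : a ≤ 1 / 1000) (hs0 : 0 ≤ s) (hs1 : s ≤ 1)
    (hv1 : -(1 / 63) ≤ v) (hv2 : v ≤ 1 / 63) :
    - (s * ((1 + 2 * a) * v)) ≤ (1 + 2 / 1000) * (1 / 63) := by
  have h1 : - ((1 + 2 * a) * v) ≤ (1 + 2 / 1000) * (1 / 63) := by nlinarith
  have h2 : -((1 + 2 / 1000) * (1 / 63)) ≤ - ((1 + 2 * a) * v) := by nlinarith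
  have h3 := (sm hs0 hs1 (by norm_num) h2 h1).2
  linarith

end GenAux

/-- D1 GEN. The generator inequality. -/
theorem gen_ineq {s lam c₀ X Y : ℝ} (ha : 0 < a) (hb : 0 ≤ b) (hc : c ^ 2 ≤ a * b)
    (hab : a + b ≤ 1 / 1000) (hs : 3 / 4 ≤ s) (hs1 : s ≤ 1) (hl : 4 * s - 2 * lam = 7 / 2)
    (hc0 : c₀ ≤ 1 / 4) (hXY : X ^ 2 + Y ^ 2 = 1) :
    s * (4 * (X ^ 2 - Y ^ 2) + (a + b))
      - (4 * X ^ 2 + a + 4 * a * (X ^ 2 - Y ^ 2) + a * (a + b)) / (X ^ 2 + a)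
      + 4 * ((1 + a) ^ 2 * X ^ 2 * a + 2 * (1 + a) * a * X * Y * c + a ^ 2 * Y ^ 2 * b)
          / (X ^ 2 + a) ^ 2
      - 4 * s * ((1 + a) * X ^ 2 * a + (1 + 2 * a) * X * Y * c + a * Y ^ 2 * b) / (X ^ 2 + a)
      - 2 * lam * (X ^ 2 - Y ^ 2) + c₀ ≤ 0 := by
  have hx0 : 0 ≤ X ^ 2 := sq_nonneg X
  have hy0 : 0 ≤ Y ^ 2 := sq_nonneg Y
  have hx1 : X ^ 2 ≤ 1 := by linarith
  have hy1 : Y ^ 2 ≤ 1 := by linarith
  have hp : 0 < X ^ 2 + a := by linarith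
  have hYe : Y ^ 2 = 1 - X ^ 2 := by linarith
  obtain ⟨τ, hτ⟩ : ∃ τ, τ = X ^ 2 / (X ^ 2 + a) := ⟨_, rfl⟩
  obtain ⟨v, hv⟩ : ∃ v, v = X * Y * c / (X ^ 2 + a) := ⟨_, rfl⟩
  have hτp : τ * (X ^ 2 + a) = X ^ 2 := by rw [hτ]; field_simp
  have hvp : v * (X ^ 2 + a) = X * Y * c := by rw [hv]; field_simp
  have h1τ : 1 - τ = a / (X ^ 2 + a) := by rw [hτ]; field_simp; ring
  have hτ0 : 0 ≤ τ := by rw [hτ]; positivity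
  have hτ1 : 0 ≤ 1 - τ := by rw [h1τ]; positivity
  have hmain := GenAux.main_part ha hx0 hx1 rfl hτp
  -- the four fractions
  have e1 : (4 * X ^ 2 + a + 4 * a * (X ^ 2 - Y ^ 2) + a * (a + b)) / (X ^ 2 + a)
      = 4 * τ + (1 - τ) * (1 + 4 * (X ^ 2 - Y ^ 2) + (a + b)) := by
    rw [h1τ, hτ]; field_simp; ring
  have e2 : 4 * ((1 + a) ^ 2 * X ^ 2 * a + 2 * (1 + a) * a * X * Y * c + a ^ 2 * Y ^ 2 * b)
      / (X ^ 2 + a) ^ 2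
      = 4 * (1 + a) ^ 2 * (τ * (1 - τ)) + 8 * (1 + a) * ((1 - τ) * v)
        + 4 * ((1 - τ) ^ 2 * (Y ^ 2 * b)) := by
    rw [h1τ, hτ, hv]; field_simp; ring
  have e3 : 4 * s * ((1 + a) * X ^ 2 * a + (1 + 2 * a) * X * Y * c + a * Y ^ 2 * b) / (X ^ 2 + a)
      = 4 * s * ((1 + a) * (τ * a) + (1 + 2 * a) * v + (1 - τ) * (Y ^ 2 * b)) := by
    rw [h1τ, hτ, hv]; field_simp
  rw [e1, e2, e3]
  -- the bound for v
  have hv2 : v ^ 2 ≤ (1 / 63) ^ 2 := by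
    have h4 : 4 * (X ^ 2 * a) ≤ (X ^ 2 + a) ^ 2 := GenAux.bd1
    have h5 : (X * Y * c) ^ 2 ≤ X ^ 2 * (a * b) := by
      have : (X * Y * c) ^ 2 = X ^ 2 * (Y ^ 2 * c ^ 2) := by ring
      rw [this]
      apply mul_le_mul_of_nonneg_left _ hx0
      calc Y ^ 2 * c ^ 2 ≤ 1 * c ^ 2 := by
            apply mul_le_mul_of_nonneg_right hy1 (sq_nonneg c)
        _ ≤ a * b := by linarith
    have h6 : 4 * (X * Y * c) ^ 2 ≤ (X ^ 2 + a) ^ 2 * b := by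
      calc 4 * (X * Y * c) ^ 2 ≤ 4 * (X ^ 2 * (a * b)) := by linarith
        _ = 4 * (X ^ 2 * a) * b := by ring
        _ ≤ (X ^ 2 + a) ^ 2 * b := mul_le_mul_of_nonneg_right h4 hb
    have h7 : v ^ 2 * (X ^ 2 + a) ^ 2 = (X * Y * c) ^ 2 := by rw [← hvp]; ring
    have hp2 : 0 < (X ^ 2 + a) ^ 2 := by positivity
    have h8 : 4 * v ^ 2 ≤ b := by
      have h9 : (4 * v ^ 2) * (X ^ 2 + a) ^ 2 ≤ b * (X ^ 2 + a) ^ 2 := by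
        calc (4 * v ^ 2) * (X ^ 2 + a) ^ 2 = 4 * (X * Y * c) ^ 2 := by rw [← h7]; ring
          _ ≤ (X ^ 2 + a) ^ 2 * b := h6
          _ = b * (X ^ 2 + a) ^ 2 := by ring
      exact le_of_mul_le_mul_right h9 hp2
    linarith
  have hvle : |v| ≤ 1 / 63 := abs_le_of_sq_le_sq hv2 (by norm_num)
  obtain ⟨hv1, hv3⟩ := abs_le.mp hvle
  have ha4 : a ≤ 1 / 1000 := by linarith
  have hb4 : b ≤ 1 / 1000 := by linarith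
  -- main part
  have hM : (7 / 2) * (2 * X ^ 2 - 1) - 4 * τ - (1 - τ) * (1 + 4 * (2 * X ^ 2 - 1))
      + 4 * (τ * (1 - τ)) ≤ - 1 / 2 + 6 * a := GenAux.bdM hmain
  have hlam : s * (4 * (X ^ 2 - Y ^ 2)) - 2 * lam * (X ^ 2 - Y ^ 2)
      = (7 / 2) * (2 * X ^ 2 - 1) := by
    rw [← hl, hYe]; ring
  have r1 : s * (a + b) ≤ a + b := GenAux.r1 hs1 (by linarith)
  have r2 : 0 ≤ (1 - τ) * (a + b) := mul_nonneg hτ1 (by linarith)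
  have r3 : 4 * ((1 + a) ^ 2 - 1) * (τ * (1 - τ)) ≤ 2 * a + a ^ 2 := GenAux.r3 ha
  have r4 : 8 * (1 + a) * ((1 - τ) * v) ≤ 8 * (1 + 1 / 1000) * (1 / 63) :=
    GenAux.r4 ha ha4 hτ1 (by linarith) hv1 hv3
  have r5 : 4 * ((1 - τ) ^ 2 * (Y ^ 2 * b)) ≤ 4 * b :=
    GenAux.r5 hb hτ1 (by linarith) hy0 hy1
  have r6 : 0 ≤ s * ((1 + a) * (τ * a)) := by positivity
  have r7 : - (s * ((1 + 2 * a) * v)) ≤ (1 + 2 / 1000) * (1 / 63) :=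
    GenAux.r7 ha ha4 (by linarith) hs1 hv1 hv3
  have r8 : 0 ≤ s * ((1 - τ) * (Y ^ 2 * b)) :=
    mul_nonneg (by linarith) (mul_nonneg hτ1 (mul_nonneg hy0 hb))
  have ha2 : a ^ 2 ≤ a := by
    rw [pow_two]
    exact GenAux.r1 (by linarith) ha.le
  have hYX : X ^ 2 - Y ^ 2 = 2 * X ^ 2 - 1 := by rw [hYe]; ring
  rw [hYX] at hlam ⊢
  have key : s * (4 * (2 * X ^ 2 - 1) + (a + b))
      - (4 * τ + (1 - τ) * (1 + 4 * (2 * X ^ 2 - 1) + (a + b)))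
      + (4 * (1 + a) ^ 2 * (τ * (1 - τ)) + 8 * (1 + a) * ((1 - τ) * v)
        + 4 * ((1 - τ) ^ 2 * (Y ^ 2 * b)))
      - 4 * s * ((1 + a) * (τ * a) + (1 + 2 * a) * v + (1 - τ) * (Y ^ 2 * b))
      - 2 * lam * (2 * X ^ 2 - 1) + c₀
      = ((7 / 2) * (2 * X ^ 2 - 1) - 4 * τ - (1 - τ) * (1 + 4 * (2 * X ^ 2 - 1))
      + 4 * (τ * (1 - τ))) + s * (a + b) - (1 - τ) * (a + b)
      + 4 * ((1 + a) ^ 2 - 1) * (τ * (1 - τ)) + 8 * (1 + a) * ((1 - τ) * v)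
      + 4 * ((1 - τ) ^ 2 * (Y ^ 2 * b)) - 4 * (s * ((1 + a) * (τ * a)))
      + 4 * (- (s * ((1 + 2 * a) * v))) - 4 * (s * ((1 - τ) * (Y ^ 2 * b))) + c₀ := by
    rw [← hlam]; ring
  rw [key]
  linarith

end

end Pool.Agent.SLE
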