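import Pool.Agent.Lib.MP_c17912_pr.Defs

set_option autoImplicit false

open MeasureTheory ProbabilityTheory Filter
open scoped NNReal ENNReal Topology

namespace Pool.Agent.SLE

noncomputable section

/-- A3 GROW. -/
theorem growth {U : ℝ → ℂ} (hU : Continuous U) {z : ℂ} {t m : ℝ} {g : ℝ → ℂ} (ht : 0 ≤ t)
    (h : Sol U z t g) (hm : ∀ s ∈ Set.Icc 0 t, ‖U s‖ ≤ m) :
    ‖g t - U t‖ ≤ ‖z‖ + 2 * m + 3 * √t := by
  have _ := hU
  have hm0 : 0 ≤ m := (norm_nonneg _).trans (hm 0 ⟨le_rfl, ht⟩)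
  obtain ⟨h0, hne, hd⟩ := h
  have hUt := hm t ⟨ht, le_rfl⟩
  rcases ht.eq_or_lt with rfl | htpos
  · rw [h0]
    have h1 : ‖z - U 0‖ ≤ ‖z‖ + ‖U 0‖ := norm_sub_le _ _
    simp only [Real.sqrt_zero, mul_zero, add_zero]
    linarith
  set r := √t with hr
  have hr0 : 0 < r := Real.sqrt_pos.2 htpos
  have hrr : r * r = t := Real.mul_self_sqrt ht
  have key : ∀ ε : ℝ, 0 < ε → ‖g t‖ ≤ ‖z‖ + m + 3 * r + ε := by
    intro ε hε
    have hcont : ContinuousOn g (Set.Icc 0 t) := fun s hs => (hd s hs).continuousWithinAt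
    have hB : ∀ s : ℝ, HasDerivAt (fun s => ‖z‖ + m + r + ε + 2 / r * s) (2 / r) s := by
      intro s
      have h1 := (hasDerivAt_id s).const_mul (2 / r)
      have h2 := h1.const_add (‖z‖ + m + r + ε)
      simpa using h2
    have hle := image_norm_le_of_norm_deriv_right_lt_deriv_boundary' (f := g)
      (f' := fun s => 2 / (g s - U s)) (a := 0) (b := t)
      (B := fun s => ‖z‖ + m + r + ε + 2 / r * s) (B' := fun _ => 2 / r) hcont
      (fun s hs => (hd s ⟨hs.1, hs.2.le⟩).mono_of_mem_nhdsWithin (Icc_mem_nhdsGE_of_mem hs))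
      (by rw [h0]; simp only [mul_zero, add_zero]; linarith)
      (fun s _ => (hB s).continuousAt.continuousWithinAt)
      (fun s _ => (hB s).hasDerivWithinAt)
      (by
        intro s hs hs2
        have hs' : s ∈ Set.Icc 0 t := ⟨hs.1, hs.2.le⟩
        have h1 : ‖g s‖ - ‖U s‖ ≤ ‖g s - U s‖ := norm_sub_norm_le _ _
        have h2 := hm s hs'
        have h3 : 0 ≤ 2 / r * s := mul_nonneg (by positivity) hs.1
        have h4 : r + ε ≤ ‖g s - U s‖ := by
          have := norm_nonneg z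
          linarith
        rw [norm_div]
        have h5 : ‖(2 : ℂ)‖ = 2 := by simp
        rw [h5]
        exact div_lt_div_of_pos_left (by norm_num) hr0 (by linarith))
      (Set.right_mem_Icc.2 ht)
    have h6 : 2 / r * t = 2 * r := by
      rw [← hrr]
      field_simp
    simp only [h6] at hle
    linarith
  have h7 : ‖g t‖ ≤ ‖z‖ + m + 3 * r := le_of_forall_pos_le_add key
  have h8 : ‖g t - U t‖ ≤ ‖g t‖ + ‖U t‖ := norm_sub_le _ _
  linarith

end

end Pool.Agent.SLE
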