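import Pool.Agent.Lib.MP_c17912_pr.Defs

/-!
# Module ONEA (MP_c17912_pr): the pointwise expansion of the space part
-/

set_option autoImplicit false

open MeasureTheory ProbabilityTheory Filter
open scoped NNReal ENNReal Topology

namespace Pool.Agent.SLE

noncomputable section

variable {Ω : Type*} [MeasurableSpace Ω] {μ : Measure Ω} {a b c K : ℝ} {W : ℝ → Ω → ℂ}

namespace OneAAux

/-- The error term. -/
def EE (h t : ℝ) : ℝ := h * t + h ^ 2 + h * t ^ 2 + t ^ 3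

/-- The expansion in scaled coordinates. -/
def TT (a s D X Y p q h : ℝ) : ℝ :=
  -2 * s * (X * p + Y * q) + 2 * (D * ((1 + a) * X * p + a * Y * q))
    + s * (p ^ 2 + q ^ 2) - D * (p ^ 2 + a * (p ^ 2 + q ^ 2))
    + 4 * (D * ((1 + a) * X * p + a * Y * q)) ^ 2
    - 4 * s * (X * p + Y * q) * (D * ((1 + a) * X * p + a * Y * q))
    + h * (4 * s * (X ^ 2 - Y ^ 2) - 4 * D * (X ^ 2 + a * (X ^ 2 - Y ^ 2)))

/-- Abstract bound. -/
theorem abstract {s u v A B ur vr u2 v2 M t h T : ℝ} (hs : 0 < s) (hs1 : s ≤ 1)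
    (hM : 1 ≤ M) (ht : 0 ≤ t) (hh : 0 ≤ h) (ht1 : t ≤ 1) (hh1 : h ≤ 1)
    (hA : |2 * A| ≤ M * t) (hB : |2 * B| ≤ M * t)
    (hu : u = -2 * A + u2) (hv : v = -2 * B + v2)
    (hu2 : |u2| ≤ M * (t ^ 2 + h)) (hv2 : |v2| ≤ M * (t ^ 2 + h))
    (hur : |ur| ≤ M * (h * t + h ^ 2)) (hvr : |vr| ≤ M * (h * t + h ^ 2))
    (hu12 : |u| ≤ 1 / 2) (hT : T = s * (u - ur) - (v - vr) + 4 * B ^ 2 - 4 * s * A * B) :
    (1 + s * u) * (1 - v + v ^ 2 + 2 * |v| ^ 3) ≤ 1 + T + 168 * M ^ 3 * EE h t := by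
  have hth : 0 ≤ t + h := by positivity
  have hq : t ^ 2 + h ≤ t + h := by nlinarith
  have hE0 : 0 ≤ EE h t := by unfold EE; positivity
  have hE1 : (t ^ 2 + h) * (t + h) = EE h t := by unfold EE; ring
  have hE2 : (t + h) ^ 3 ≤ 4 * EE h t := by
    unfold EE
    have h1 : (t + h) ^ 3 ≤ 4 * (t ^ 3 + h ^ 3) := by
      have : 4 * (t ^ 3 + h ^ 3) - (t + h) ^ 3 = 3 * (t + h) * (t - h) ^ 2 := by ring
      have h2 : 0 ≤ 3 * (t + h) * (t - h) ^ 2 := by positivity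
      linarith
    have h3 : h ^ 3 ≤ h ^ 2 := by nlinarith [sq_nonneg h]
    have h4 : 0 ≤ h * t := by positivity
    have h5 : 0 ≤ h * t ^ 2 := by positivity
    linarith
  have hE3 : h * t + h ^ 2 ≤ EE h t := by
    unfold EE
    have h5 : 0 ≤ h * t ^ 2 := by positivity
    have h6 : 0 ≤ t ^ 3 := by positivity
    linarith
  have hM0 : 0 < M := by linarith
  have hMt : M * t ≤ M * (t + h) := by nlinarith
  have hMq : M * (t ^ 2 + h) ≤ M * (t + h) := by nlinarith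
  have hub : |u| ≤ 2 * M * (t + h) := by
    rw [hu]
    calc |-2 * A + u2| ≤ |-2 * A| + |u2| := abs_add_le _ _
      _ = |2 * A| + |u2| := by rw [show -2 * A = -(2 * A) by ring, abs_neg]
      _ ≤ 2 * M * (t + h) := by linarith
  have hvb : |v| ≤ 2 * M * (t + h) := by
    rw [hv]
    calc |-2 * B + v2| ≤ |-2 * B| + |v2| := abs_add_le _ _
      _ = |2 * B| + |v2| := by rw [show -2 * B = -(2 * B) by ring, abs_neg]
      _ ≤ 2 * M * (t + h) := by linarith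
  -- the four pieces
  have e1 : s * ur - vr ≤ 2 * M * EE h t := by
    have h1 : s * ur ≤ M * (h * t + h ^ 2) := by
      calc s * ur ≤ s * |ur| := by nlinarith [le_abs_self ur]
        _ ≤ 1 * |ur| := by nlinarith [abs_nonneg ur]
        _ ≤ M * (h * t + h ^ 2) := by linarith
    have h2 : -vr ≤ M * (h * t + h ^ 2) := by linarith [neg_abs_le vr]
    nlinarith
  have e2 : v ^ 2 - 4 * B ^ 2 ≤ 3 * M ^ 2 * EE h t := by
    have h1 : v ^ 2 - 4 * B ^ 2 = v2 * (v - 2 * B) := by rw [hv]; ring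
    have h2 : |v - 2 * B| ≤ 3 * M * (t + h) := by
      calc |v - 2 * B| ≤ |v| + |2 * B| := abs_sub _ _
        _ ≤ 3 * M * (t + h) := by linarith
    calc v ^ 2 - 4 * B ^ 2 = v2 * (v - 2 * B) := h1
      _ ≤ |v2 * (v - 2 * B)| := le_abs_self _
      _ = |v2| * |v - 2 * B| := abs_mul _ _
      _ ≤ (M * (t ^ 2 + h)) * (3 * M * (t + h)) := by
          apply mul_le_mul hv2 h2 (abs_nonneg _)
          positivity
      _ = 3 * M ^ 2 * ((t ^ 2 + h) * (t + h)) := by ring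
      _ = 3 * M ^ 2 * EE h t := by rw [hE1]
  have e3 : -(s * (u * v - 4 * A * B)) ≤ 3 * M ^ 2 * EE h t := by
    have h1 : u * v - 4 * A * B = u * v2 - 2 * B * u2 := by
      rw [hv]
      have : u2 = u + 2 * A := by rw [hu]; ring
      rw [this]; ring
    have h2 : |u * v - 4 * A * B| ≤ 3 * M ^ 2 * EE h t := by
      rw [h1]
      calc |u * v2 - 2 * B * u2| ≤ |u * v2| + |2 * B * u2| := abs_sub _ _
        _ = |u| * |v2| + |2 * B| * |u2| := by rw [abs_mul, abs_mul (2 * B)]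
        _ ≤ (2 * M * (t + h)) * (M * (t ^ 2 + h)) + (M * (t + h)) * (M * (t ^ 2 + h)) := by
            apply add_le_add
            · apply mul_le_mul hub hv2 (abs_nonneg _); positivity
            · apply mul_le_mul (by linarith) hu2 (abs_nonneg _); positivity
        _ = 3 * M ^ 2 * ((t ^ 2 + h) * (t + h)) := by ring
        _ = 3 * M ^ 2 * EE h t := by rw [hE1]
    calc -(s * (u * v - 4 * A * B)) ≤ s * |u * v - 4 * A * B| := by
          nlinarith [neg_abs_le (u * v - 4 * A * B)]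
      _ ≤ 1 * |u * v - 4 * A * B| := by nlinarith [abs_nonneg (u * v - 4 * A * B)]
      _ ≤ 3 * M ^ 2 * EE h t := by linarith
  have hv3 : |v| ^ 3 ≤ 32 * M ^ 3 * EE h t := by
    calc |v| ^ 3 ≤ (2 * M * (t + h)) ^ 3 := pow_le_pow_left₀ (abs_nonneg _) hvb 3
      _ = 8 * M ^ 3 * (t + h) ^ 3 := by ring
      _ ≤ 8 * M ^ 3 * (4 * EE h t) := by
          apply mul_le_mul_of_nonneg_left hE2; positivity
      _ = 32 * M ^ 3 * EE h t := by ring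
  have e4 : s * u * v ^ 2 ≤ 32 * M ^ 3 * EE h t := by
    calc s * u * v ^ 2 ≤ |s * u * v ^ 2| := le_abs_self _
      _ = s * (|u| * |v| ^ 2) := by
          rw [abs_mul, abs_mul, abs_of_pos hs, abs_pow]; ring
      _ ≤ 1 * (|u| * |v| ^ 2) := by
          apply mul_le_mul_of_nonneg_right hs1; positivity
      _ = |u| * |v| ^ 2 := by ring
      _ ≤ (2 * M * (t + h)) * (2 * M * (t + h)) ^ 2 := by
          apply mul_le_mul hub (pow_le_pow_left₀ (abs_nonneg _) hvb 2) (by positivity)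
          positivity
      _ = 8 * M ^ 3 * (t + h) ^ 3 := by ring
      _ ≤ 8 * M ^ 3 * (4 * EE h t) := by
          apply mul_le_mul_of_nonneg_left hE2; positivity
      _ = 32 * M ^ 3 * EE h t := by ring
  have e5 : (1 + s * u) * (2 * |v| ^ 3) ≤ 128 * M ^ 3 * EE h t := by
    have h1 : 1 + s * u ≤ 2 := by
      have : s * u ≤ 1 * |u| := by
        calc s * u ≤ s * |u| := by nlinarith [le_abs_self u]
          _ ≤ 1 * |u| := by nlinarith [abs_nonneg u]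
      linarith
    have h2 : 0 ≤ 2 * |v| ^ 3 := by positivity
    calc (1 + s * u) * (2 * |v| ^ 3) ≤ 2 * (2 * |v| ^ 3) := mul_le_mul_of_nonneg_right h1 h2
      _ ≤ 128 * M ^ 3 * EE h t := by linarith
  have hM2 : M ^ 2 ≤ M ^ 3 := by nlinarith [sq_nonneg M]
  have hM1 : M ≤ M ^ 3 := by nlinarith [sq_nonneg M]
  have key : (1 + s * u) * (1 - v + v ^ 2 + 2 * |v| ^ 3)
      = 1 + T + (s * ur - vr) + (v ^ 2 - 4 * B ^ 2) + (-(s * (u * v - 4 * A * B)))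
        + s * u * v ^ 2 + (1 + s * u) * (2 * |v| ^ 3) := by
    rw [hT]; ring
  rw [key]
  have f1 : 2 * M * EE h t ≤ 2 * M ^ 3 * EE h t := by
    apply mul_le_mul_of_nonneg_right _ hE0; linarith
  have f2 : 3 * M ^ 2 * EE h t ≤ 3 * M ^ 3 * EE h t := by
    apply mul_le_mul_of_nonneg_right _ hE0; linarith
  linarith

theorem bd_ur {h t x y : ℝ} (hh : 0 ≤ h) (hx : |x| ≤ t) (hy : |y| ≤ t) :
    |-4 * h * (x - y) + 4 * h ^ 2| ≤ 8 * (h * t + h ^ 2) := by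
  have hx' := abs_le.1 hx
  have hy' := abs_le.1 hy
  have h1 : h * x ≤ h * t := mul_le_mul_of_nonneg_left hx'.2 hh
  have h2 : h * (-t) ≤ h * x := mul_le_mul_of_nonneg_left hx'.1 hh
  have h3 : h * y ≤ h * t := mul_le_mul_of_nonneg_left hy'.2 hh
  have h4 : h * (-t) ≤ h * y := mul_le_mul_of_nonneg_left hy'.1 hh
  have h5 := sq_nonneg h
  rw [abs_le]; constructor <;> linarith

theorem bd_vr {a h t x y Z : ℝ} (ha : 0 < a) (ha1 : a ≤ 1) (hh : 0 ≤ h) (hx : |x| ≤ t)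
    (hy : |y| ≤ t) (hZ : 0 ≤ Z) (hZ1 : Z ≤ 1) (ht : 0 ≤ t) :
    |-4 * h * x - 4 * a * h * (x - y) + 4 * h ^ 2 * Z + 4 * a * h ^ 2|
      ≤ 12 * (h * t + h ^ 2) := by
  have hx' := abs_le.1 hx
  have hy' := abs_le.1 hy
  have h1 : h * x ≤ h * t := mul_le_mul_of_nonneg_left hx'.2 hh
  have h2 : h * (-t) ≤ h * x := mul_le_mul_of_nonneg_left hx'.1 hh
  have h3 : h * y ≤ h * t := mul_le_mul_of_nonneg_left hy'.2 hh
  have h4 : h * (-t) ≤ h * y := mul_le_mul_of_nonneg_left hy'.1 hh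
  have hht : 0 ≤ h * t := by positivity
  have h8 : a * (2 * (h * t)) ≤ 1 * (2 * (h * t)) :=
    mul_le_mul_of_nonneg_right ha1 (by positivity)
  have h5 : a * (h * (x - y)) ≤ a * (2 * (h * t)) :=
    mul_le_mul_of_nonneg_left (by linarith) ha.le
  have h5' : a * (-(2 * (h * t))) ≤ a * (h * (x - y)) :=
    mul_le_mul_of_nonneg_left (by linarith) ha.le
  have h9 : h ^ 2 * Z ≤ h ^ 2 * 1 := mul_le_mul_of_nonneg_left hZ1 (sq_nonneg h)
  have h9' : 0 ≤ h ^ 2 * Z := by positivity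
  have h10 : a * h ^ 2 ≤ 1 * h ^ 2 := mul_le_mul_of_nonneg_right ha1 (sq_nonneg h)
  have h10' : 0 ≤ a * h ^ 2 := by positivity
  rw [abs_le]; constructor <;> linarith

theorem bd_u2 {h t r ur Z Z' : ℝ} (hh : 0 ≤ h) (hh1 : h ≤ 1) (ht : 0 ≤ t) (ht1 : t ≤ 1)
    (hr : r = t ^ 2)
    (hZ : 0 ≤ Z) (hZ1 : Z ≤ 1) (hZ' : 0 ≤ Z') (hZ1' : Z' ≤ 1)
    (hur : |ur| ≤ 8 * (h * t + h ^ 2)) :
    |r + 4 * h * (Z - Z') + ur| ≤ 20 * (t ^ 2 + h) := by
  have h1 := abs_le.1 hur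
  have h3 : h * (Z - Z') ≤ h * 1 := mul_le_mul_of_nonneg_left (by linarith) hh
  have h4 : h * (-1) ≤ h * (Z - Z') := mul_le_mul_of_nonneg_left (by linarith) hh
  have h5 : h * t ≤ h * 1 := mul_le_mul_of_nonneg_left ht1 hh
  have h6 : h * h ≤ h * 1 := mul_le_mul_of_nonneg_left hh1 hh
  have h7 := sq_nonneg t
  rw [hr, abs_le]; constructor <;> nlinarith

theorem bd_v2 {a h t P r vr Z Z' : ℝ} (ha : 0 < a) (ha1 : a ≤ 1) (hh : 0 ≤ h) (hh1 : h ≤ 1)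
    (ht : 0 ≤ t) (ht1 : t ≤ 1) (hP : 0 ≤ P) (hP1 : P ≤ t ^ 2) (hr : r = t ^ 2)
    (hZ : 0 ≤ Z) (hZ1 : Z ≤ 1) (hZ' : 0 ≤ Z') (hZ1' : Z' ≤ 1)
    (hvr : |vr| ≤ 12 * (h * t + h ^ 2)) :
    |(P + a * r) + 4 * (h * (Z + a * (Z - Z'))) + vr| ≤ 32 * (t ^ 2 + h) := by
  have h1 := abs_le.1 hvr
  have h5 : h * t ≤ h * 1 := mul_le_mul_of_nonneg_left ht1 hh
  have h6 : h * h ≤ h * 1 := mul_le_mul_of_nonneg_left hh1 hh
  have h7 := sq_nonneg t
  have h8 : a * (Z - Z') ≤ a * 1 := mul_le_mul_of_nonneg_left (by linarith) ha.le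
  have h9 : a * (-1) ≤ a * (Z - Z') := mul_le_mul_of_nonneg_left (by linarith) ha.le
  have h10 : h * (Z + a * (Z - Z')) ≤ h * 2 := mul_le_mul_of_nonneg_left (by linarith) hh
  have h11 : h * (-1) ≤ h * (Z + a * (Z - Z')) := mul_le_mul_of_nonneg_left (by linarith) hh
  have h12 : a * t ^ 2 ≤ 1 * t ^ 2 := mul_le_mul_of_nonneg_right ha1 h7
  have h13 : 0 ≤ a * t ^ 2 := by positivity
  rw [hr, abs_le]; constructor <;> nlinarith

theorem bd_G {a t x y : ℝ} (ha : 0 < a) (ha1 : a ≤ 1) (hx : |x| ≤ t)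
    (hy : |y| ≤ t) (ht : 0 ≤ t) : |(1 + a) * x + a * y| ≤ 3 * t := by
  have h1 : |(1 + a) * x| ≤ 2 * t := by
    rw [abs_mul, abs_of_pos (by linarith : 0 < 1 + a)]
    exact mul_le_mul (by linarith) hx (abs_nonneg _) (by norm_num)
  have h2 : |a * y| ≤ 1 * t := by
    rw [abs_mul, abs_of_pos ha]
    exact mul_le_mul ha1 hy (abs_nonneg _) (by norm_num)
  calc |(1 + a) * x + a * y| ≤ |(1 + a) * x| + |a * y| := abs_add_le _ _
    _ ≤ 3 * t := by linarith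

theorem expU {X Y p q h : ℝ} (hXY : X ^ 2 + Y ^ 2 = 1) :
    (X + 2 * h * X - p) ^ 2 + (Y - 2 * h * Y - q) ^ 2 - 1
      = -2 * (X * p + Y * q) + ((p ^ 2 + q ^ 2) + 4 * h * (X ^ 2 - Y ^ 2)
        + (-4 * h * (X * p - Y * q) + 4 * h ^ 2)) := by
  linear_combination (1 + 4 * h ^ 2) * hXY

theorem expV {a D X Y p q h : ℝ} (hXY : X ^ 2 + Y ^ 2 = 1) (hD : D * (X ^ 2 + a) = 1) :
    D * ((X + 2 * h * X - p) ^ 2
      + a * ((X + 2 * h * X - p) ^ 2 + (Y - 2 * h * Y - q) ^ 2)) - 1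
      = -2 * (D * ((1 + a) * (X * p) + a * (Y * q)))
        + D * ((p ^ 2 + a * (p ^ 2 + q ^ 2)) + 4 * (h * (X ^ 2 + a * (X ^ 2 - Y ^ 2)))
        + (-4 * h * (X * p) - 4 * a * h * (X * p - Y * q) + 4 * h ^ 2 * X ^ 2
          + 4 * a * h ^ 2)) := by
  linear_combination hD + (D * a * (1 + 4 * h ^ 2)) * hXY

/-- The expansion in scaled coordinates. -/
theorem core {a s D X Y p q h t : ℝ} (ha : 0 < a) (ha1 : a ≤ 1) (hs : 0 < s) (hs1 : s ≤ 1)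
    (hXY : X ^ 2 + Y ^ 2 = 1) (hD : D * (X ^ 2 + a) = 1) (hpq : p ^ 2 + q ^ 2 = t ^ 2)
    (ht : 0 ≤ t) (hh : 0 ≤ h) (hth : t + h ≤ a / 128) :
    0 < D * ((X + 2 * h * X - p) ^ 2
      + a * ((X + 2 * h * X - p) ^ 2 + (Y - 2 * h * Y - q) ^ 2)) ∧
    ((X + 2 * h * X - p) ^ 2 + (Y - 2 * h * Y - q) ^ 2) ^ s
      / (D * ((X + 2 * h * X - p) ^ 2
      + a * ((X + 2 * h * X - p) ^ 2 + (Y - 2 * h * Y - q) ^ 2)))
      ≤ 1 + TT a s D X Y p q h + 168 * (32 / a) ^ 3 * EE h t := by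
  have hM32 : 32 ≤ 32 / a := by rw [le_div_iff₀ ha]; linarith
  have hMth : 32 / a * (t + h) ≤ 1 / 4 := by
    calc 32 / a * (t + h) ≤ 32 / a * (a / 128) := by
          apply mul_le_mul_of_nonneg_left hth; positivity
      _ = 1 / 4 := by field_simp; norm_num
  have ht1 : t ≤ 1 := by linarith
  have hh1 : h ≤ 1 := by linarith
  have hX20 : 0 ≤ X ^ 2 := sq_nonneg X
  have hY20 : 0 ≤ Y ^ 2 := sq_nonneg Y
  have hX2 : X ^ 2 ≤ 1 := by linarith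
  have hY2 : Y ^ 2 ≤ 1 := by linarith
  have hp20 : 0 ≤ p ^ 2 := sq_nonneg p
  have hq20 : 0 ≤ q ^ 2 := sq_nonneg q
  have hp2 : p ^ 2 ≤ t ^ 2 := by linarith
  have hq2 : q ^ 2 ≤ t ^ 2 := by linarith
  have hX1 : |X| ≤ 1 := abs_le_of_sq_le_sq (by linarith) zero_le_one
  have hY1 : |Y| ≤ 1 := abs_le_of_sq_le_sq (by linarith) zero_le_one
  have hpt : |p| ≤ t := abs_le_of_sq_le_sq hp2 ht
  have hqt : |q| ≤ t := abs_le_of_sq_le_sq hq2 ht
  have hPa : a ≤ X ^ 2 + a := by linarith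
  have hP0 : 0 < X ^ 2 + a := by positivity
  have hDe : D = 1 / (X ^ 2 + a) := by field_simp; linarith
  have hD0 : 0 < D := by rw [hDe]; positivity
  have hDM : 32 * D ≤ 32 / a := by
    rw [hDe]
    have : 1 / (X ^ 2 + a) ≤ 1 / a := one_div_le_one_div_of_le ha hPa
    calc 32 * (1 / (X ^ 2 + a)) ≤ 32 * (1 / a) := by linarith
      _ = 32 / a := by ring
  have hXp : |X * p| ≤ t := by
    rw [abs_mul]
    calc |X| * |p| ≤ 1 * t := mul_le_mul hX1 hpt (abs_nonneg _) zero_le_one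
      _ = t := one_mul t
  have hYq : |Y * q| ≤ t := by
    rw [abs_mul]
    calc |Y| * |q| ≤ 1 * t := mul_le_mul hY1 hqt (abs_nonneg _) zero_le_one
      _ = t := one_mul t
  have hE0 : 0 ≤ h * t + h ^ 2 := by positivity
  have hE1 : 0 ≤ t ^ 2 + h := by positivity
  -- bounds for the pieces
  have bA : |2 * (X * p + Y * q)| ≤ 32 / a * t := by
    calc |2 * (X * p + Y * q)| = 2 * |X * p + Y * q| := by rw [abs_mul, abs_two]
      _ ≤ 2 * (|X * p| + |Y * q|) := by linarith [abs_add_le (X * p) (Y * q)]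
      _ ≤ 4 * t := by linarith
      _ ≤ 32 / a * t := mul_le_mul_of_nonneg_right (by linarith) ht
  have bB : |2 * (D * ((1 + a) * (X * p) + a * (Y * q)))| ≤ 32 / a * t := by
    have bG := bd_G ha ha1 hXp hYq ht
    rw [abs_mul, abs_mul, abs_of_pos hD0, abs_two]
    calc 2 * (D * |(1 + a) * (X * p) + a * (Y * q)|) ≤ 2 * (D * (3 * t)) := by
          apply mul_le_mul_of_nonneg_left _ (by norm_num)
          apply mul_le_mul_of_nonneg_left bG hD0.le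
      _ = (6 * D) * t := by ring
      _ ≤ 32 / a * t := by apply mul_le_mul_of_nonneg_right _ ht; linarith
  have bur8 := bd_ur hh hXp hYq
  have bur : |-4 * h * (X * p - Y * q) + 4 * h ^ 2| ≤ 32 / a * (h * t + h ^ 2) :=
    bur8.trans (mul_le_mul_of_nonneg_right (by linarith) hE0)
  have bvr12 := bd_vr ha ha1 hh hXp hYq hX20 hX2 ht
  have bvr : |D * (-4 * h * (X * p) - 4 * a * h * (X * p - Y * q) + 4 * h ^ 2 * X ^ 2
    + 4 * a * h ^ 2)| ≤ 32 / a * (h * t + h ^ 2) := by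
    rw [abs_mul, abs_of_pos hD0]
    calc D * _ ≤ D * (12 * (h * t + h ^ 2)) := mul_le_mul_of_nonneg_left bvr12 hD0.le
      _ = (12 * D) * (h * t + h ^ 2) := by ring
      _ ≤ 32 / a * (h * t + h ^ 2) := by
          apply mul_le_mul_of_nonneg_right _ hE0; linarith
  have bu2 := (bd_u2 hh hh1 ht ht1 hpq hX20 hX2 hY20 hY2 bur8).trans
    (mul_le_mul_of_nonneg_right (by linarith : (20 : ℝ) ≤ 32 / a) hE1)
  have bv2 : |D * ((p ^ 2 + a * (p ^ 2 + q ^ 2)) + 4 * (h * (X ^ 2 + a * (X ^ 2 - Y ^ 2)))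
        + (-4 * h * (X * p) - 4 * a * h * (X * p - Y * q) + 4 * h ^ 2 * X ^ 2
          + 4 * a * h ^ 2))| ≤ 32 / a * (t ^ 2 + h) := by
    have h2 := bd_v2 ha ha1 hh hh1 ht ht1 hp20 hp2 hpq hX20 hX2 hY20 hY2 bvr12
    rw [abs_mul, abs_of_pos hD0]
    calc D * _ ≤ D * (32 * (t ^ 2 + h)) := mul_le_mul_of_nonneg_left h2 hD0.le
      _ = (32 * D) * (t ^ 2 + h) := by ring
      _ ≤ 32 / a * (t ^ 2 + h) := by
          apply mul_le_mul_of_nonneg_right _ hE1; linarith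
  have eU := expU (p := p) (q := q) (h := h) hXY
  have eV := expV (p := p) (q := q) (h := h) hXY hD
  have hU0 : 0 ≤ (X + 2 * h * X - p) ^ 2 + (Y - 2 * h * Y - q) ^ 2 := by positivity
  generalize hUd : (X + 2 * h * X - p) ^ 2 + (Y - 2 * h * Y - q) ^ 2 = U at eU eV hU0 ⊢
  generalize hVd : D * ((X + 2 * h * X - p) ^ 2 + a * U) = V at eV ⊢
  have hTh : t ^ 2 + h ≤ t + h := by nlinarith
  have hu12 : |U - 1| ≤ 1 / 2 := by
    rw [eU]
    calc _ ≤ |-2 * (X * p + Y * q)| + |(p ^ 2 + q ^ 2) + 4 * h * (X ^ 2 - Y ^ 2)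
        + (-4 * h * (X * p - Y * q) + 4 * h ^ 2)| := abs_add_le _ _
      _ = |2 * (X * p + Y * q)| + |(p ^ 2 + q ^ 2) + 4 * h * (X ^ 2 - Y ^ 2)
        + (-4 * h * (X * p - Y * q) + 4 * h ^ 2)| := by
          rw [show -2 * (X * p + Y * q) = -(2 * (X * p + Y * q)) by ring, abs_neg]
      _ ≤ 32 / a * t + 32 / a * (t ^ 2 + h) := add_le_add bA bu2
      _ ≤ 32 / a * (t + h) + 32 / a * (t + h) := by
          apply add_le_add
          · apply mul_le_mul_of_nonneg_left (by linarith); positivity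
          · apply mul_le_mul_of_nonneg_left hTh; positivity
      _ ≤ 1 / 2 := by linarith
  have hv12 : |V - 1| ≤ 1 / 2 := by
    rw [eV]
    calc _ ≤ |-2 * (D * ((1 + a) * (X * p) + a * (Y * q)))|
        + |D * ((p ^ 2 + a * (p ^ 2 + q ^ 2)) + 4 * (h * (X ^ 2 + a * (X ^ 2 - Y ^ 2)))
        + (-4 * h * (X * p) - 4 * a * h * (X * p - Y * q) + 4 * h ^ 2 * X ^ 2
          + 4 * a * h ^ 2))| := abs_add_le _ _
      _ = |2 * (D * ((1 + a) * (X * p) + a * (Y * q)))|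
        + |D * ((p ^ 2 + a * (p ^ 2 + q ^ 2)) + 4 * (h * (X ^ 2 + a * (X ^ 2 - Y ^ 2)))
        + (-4 * h * (X * p) - 4 * a * h * (X * p - Y * q) + 4 * h ^ 2 * X ^ 2
          + 4 * a * h ^ 2))| := by
          rw [show -2 * (D * ((1 + a) * (X * p) + a * (Y * q)))
            = -(2 * (D * ((1 + a) * (X * p) + a * (Y * q)))) by ring, abs_neg]
      _ ≤ 32 / a * t + 32 / a * (t ^ 2 + h) := add_le_add bB bv2
      _ ≤ 32 / a * (t + h) + 32 / a * (t + h) := by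
          apply add_le_add
          · apply mul_le_mul_of_nonneg_left (by linarith); positivity
          · apply mul_le_mul_of_nonneg_left hTh; positivity
      _ ≤ 1 / 2 := by linarith
  have hV0 : 1 / 2 ≤ V := by linarith [(abs_le.1 hv12).1]
  have hVpos : 0 < V := by linarith
  refine ⟨hVpos, ?_⟩
  have hab := abstract (s := s) (u := U - 1) (v := V - 1) (A := X * p + Y * q)
    (B := D * ((1 + a) * (X * p) + a * (Y * q)))
    (T := TT a s D X Y p q h) hs hs1 (by linarith : 1 ≤ 32 / a) ht hh ht1 hh1 bA bB eU eV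
    bu2 bv2 bur bvr hu12 (by rw [eU, eV]; unfold TT; ring)
  refine le_trans ?_ hab
  -- Bernoulli and the expansion of the inverse
  have hber : U ^ s ≤ 1 + s * (U - 1) := by
    have := _root_.rpow_one_add_le_one_add_mul_self (s := U - 1) (by linarith) (p := s) hs.le hs1
    rwa [add_sub_cancel] at this
  have hber0 : 0 ≤ 1 + s * (U - 1) := le_trans (Real.rpow_nonneg hU0 s) hber
  rw [div_le_iff₀ hVpos]
  have hinv : 1 ≤ (1 - (V - 1) + (V - 1) ^ 2 + 2 * |V - 1| ^ 3) * V := by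
    have e : V = 1 + (V - 1) := by ring
    generalize V - 1 = v at e hv12 ⊢
    rw [e]
    have h1 : (1 - v + v ^ 2 + 2 * |v| ^ 3) * (1 + v) = 1 + v ^ 3 + 2 * |v| ^ 3 * (1 + v) := by
      ring
    rw [h1]
    have h2 : -|v| ^ 3 ≤ v ^ 3 := by
      rw [← abs_pow]; exact neg_abs_le _
    have h3 : |v| ^ 3 ≤ 2 * |v| ^ 3 * (1 + v) := by
      have h4 := abs_le.1 hv12
      have h5 : 0 ≤ |v| ^ 3 := by positivity
      nlinarith
    linarith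
  calc U ^ s ≤ (1 + s * (U - 1)) * 1 := by linarith
    _ ≤ (1 + s * (U - 1)) * ((1 - (V - 1) + (V - 1) ^ 2 + 2 * |V - 1| ^ 3) * V) :=
        mul_le_mul_of_nonneg_left hinv hber0
    _ = (1 + s * (U - 1)) * (1 - (V - 1) + (V - 1) ^ 2 + 2 * |V - 1| ^ 3) * V := by ring

/-- Crude lower bound for the expansion. -/
theorem TT_lower {a s D X Y p q h t : ℝ} (ha : 0 < a) (ha1 : a ≤ 1) (hs : 0 < s) (hs1 : s ≤ 1)
    (hXY : X ^ 2 + Y ^ 2 = 1) (hD : D * (X ^ 2 + a) = 1) (hpq : p ^ 2 + q ^ 2 = t ^ 2)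
    (ht : 0 ≤ t) (hh : 0 ≤ h) :
    -(2 * (32 / a) * t + 3 * (32 / a) ^ 2 * t ^ 2 + 32 / a * h) ≤ TT a s D X Y p q h := by
  have hM32 : 32 ≤ 32 / a := by rw [le_div_iff₀ ha]; linarith
  have hX20 : 0 ≤ X ^ 2 := sq_nonneg X
  have hY20 : 0 ≤ Y ^ 2 := sq_nonneg Y
  have hX2 : X ^ 2 ≤ 1 := by linarith
  have hY2 : Y ^ 2 ≤ 1 := by linarith
  have hp20 : 0 ≤ p ^ 2 := sq_nonneg p
  have hq20 : 0 ≤ q ^ 2 := sq_nonneg q
  have hp2 : p ^ 2 ≤ t ^ 2 := by linarith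
  have hq2 : q ^ 2 ≤ t ^ 2 := by linarith
  have hX1 : |X| ≤ 1 := abs_le_of_sq_le_sq (by linarith) zero_le_one
  have hY1 : |Y| ≤ 1 := abs_le_of_sq_le_sq (by linarith) zero_le_one
  have hpt : |p| ≤ t := abs_le_of_sq_le_sq hp2 ht
  have hqt : |q| ≤ t := abs_le_of_sq_le_sq hq2 ht
  have hPa : a ≤ X ^ 2 + a := by linarith
  have hP0 : 0 < X ^ 2 + a := by positivity
  have hDe : D = 1 / (X ^ 2 + a) := by field_simp; linarith
  have hD0 : 0 < D := by rw [hDe]; positivity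
  have hDM : 32 * D ≤ 32 / a := by
    rw [hDe]
    have : 1 / (X ^ 2 + a) ≤ 1 / a := one_div_le_one_div_of_le ha hPa
    calc 32 * (1 / (X ^ 2 + a)) ≤ 32 * (1 / a) := by linarith
      _ = 32 / a := by ring
  have hXp : |X * p| ≤ t := by
    rw [abs_mul]
    calc |X| * |p| ≤ 1 * t := mul_le_mul hX1 hpt (abs_nonneg _) zero_le_one
      _ = t := one_mul t
  have hYq : |Y * q| ≤ t := by
    rw [abs_mul]
    calc |Y| * |q| ≤ 1 * t := mul_le_mul hY1 hqt (abs_nonneg _) zero_le_one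
      _ = t := one_mul t
  have bA : |2 * (X * p + Y * q)| ≤ 32 / a * t := by
    calc |2 * (X * p + Y * q)| = 2 * |X * p + Y * q| := by rw [abs_mul, abs_two]
      _ ≤ 2 * (|X * p| + |Y * q|) := by linarith [abs_add_le (X * p) (Y * q)]
      _ ≤ 4 * t := by linarith
      _ ≤ 32 / a * t := mul_le_mul_of_nonneg_right (by linarith) ht
  have bB : |2 * (D * ((1 + a) * (X * p) + a * (Y * q)))| ≤ 32 / a * t := by
    have bG := bd_G ha ha1 hXp hYq ht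
    rw [abs_mul, abs_mul, abs_of_pos hD0, abs_two]
    calc 2 * (D * |(1 + a) * (X * p) + a * (Y * q)|) ≤ 2 * (D * (3 * t)) := by
          apply mul_le_mul_of_nonneg_left _ (by norm_num)
          apply mul_le_mul_of_nonneg_left bG hD0.le
      _ = (6 * D) * t := by ring
      _ ≤ 32 / a * t := by apply mul_le_mul_of_nonneg_right _ ht; linarith
  generalize hMd : 32 / a = M at hM32 hDM bA bB ⊢
  have eT : TT a s D X Y p q h = -(s * (2 * (X * p + Y * q)))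
    + 2 * (D * ((1 + a) * (X * p) + a * (Y * q)))
    + s * (p ^ 2 + q ^ 2) - D * (p ^ 2 + a * (p ^ 2 + q ^ 2))
    + (2 * (D * ((1 + a) * (X * p) + a * (Y * q)))) ^ 2
    - s * ((2 * (X * p + Y * q)) * (2 * (D * ((1 + a) * (X * p) + a * (Y * q)))))
    + (h * (4 * s * (X ^ 2 - Y ^ 2)) - h * (4 * D * (X ^ 2 + a * (X ^ 2 - Y ^ 2)))) := by
    unfold TT; ring
  generalize 2 * (X * p + Y * q) = A at eT bA
  generalize 2 * (D * ((1 + a) * (X * p) + a * (Y * q))) = B at eT bB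
  have hA' := abs_le.1 bA
  have hB' := abs_le.1 bB
  have hMt : 0 ≤ M * t := by positivity
  have g1 : s * A ≤ M * t := by
    calc s * A ≤ s * (M * t) := mul_le_mul_of_nonneg_left hA'.2 hs.le
      _ ≤ 1 * (M * t) := mul_le_mul_of_nonneg_right hs1 hMt
      _ = M * t := one_mul _
  have g2 : 0 ≤ s * (p ^ 2 + q ^ 2) := by positivity
  have g3 : D * (p ^ 2 + a * (p ^ 2 + q ^ 2)) ≤ M ^ 2 * t ^ 2 := by
    have h1 : a * (p ^ 2 + q ^ 2) ≤ t ^ 2 := by rw [hpq]; nlinarith [sq_nonneg t]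
    calc D * (p ^ 2 + a * (p ^ 2 + q ^ 2)) ≤ D * (2 * t ^ 2) :=
          mul_le_mul_of_nonneg_left (by linarith) hD0.le
      _ = (2 * D) * t ^ 2 := by ring
      _ ≤ M ^ 2 * t ^ 2 := by
          apply mul_le_mul_of_nonneg_right _ (sq_nonneg t); nlinarith
  have g4 : 0 ≤ B ^ 2 := sq_nonneg B
  have g5 : s * (A * B) ≤ M ^ 2 * t ^ 2 := by
    have h1 : A * B ≤ (M * t) * (M * t) := by
      calc A * B ≤ |A * B| := le_abs_self _
        _ = |A| * |B| := abs_mul _ _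
        _ ≤ (M * t) * (M * t) := mul_le_mul bA bB (abs_nonneg _) hMt
    calc s * (A * B) ≤ s * ((M * t) * (M * t)) := mul_le_mul_of_nonneg_left h1 hs.le
      _ ≤ 1 * ((M * t) * (M * t)) := mul_le_mul_of_nonneg_right hs1 (by positivity)
      _ = M ^ 2 * t ^ 2 := by ring
  have g6 : -(4 * h) ≤ h * (4 * s * (X ^ 2 - Y ^ 2)) := by
    have h1 : -1 ≤ s * (X ^ 2 - Y ^ 2) := by nlinarith
    nlinarith
  have g7 : h * (4 * D * (X ^ 2 + a * (X ^ 2 - Y ^ 2))) ≤ h * (8 * D) := by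
    apply mul_le_mul_of_nonneg_left _ hh
    have h1 : X ^ 2 + a * (X ^ 2 - Y ^ 2) ≤ 2 := by nlinarith
    nlinarith
  have g8 : 4 * h + h * (8 * D) ≤ M * h := by nlinarith
  have g9 : 0 ≤ M ^ 2 * t ^ 2 := by positivity
  rw [eT]
  linarith

end OneAAux

/-- D2 ONEA. The pointwise expansion. -/
theorem one_point {s δ R : ℝ} (ha : 0 < a) (ha1 : a ≤ 1) (hs : 0 < s) (hs1 : s ≤ 1)
    (hδ : 0 < δ) (hδR : δ ≤ R) : ∃ C > 0, ∃ h₀ > 0, ∀ h : ℝ, 0 < h → h ≤ h₀ → ∀ z : ℂ, δ ≤ ‖z‖ →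
      ‖z‖ ≤ R → ∀ ζ : ℂ, FF a s δ (z + 2 * h / z - ζ)
        ≤ FF a s δ z * (1 + linT a s z ζ + quadT a s z ζ + h * driftT a s z)
          + C * (h * ‖ζ‖ + h ^ 2 + h * ‖ζ‖ ^ 2 + ‖ζ‖ ^ 3 + ‖ζ‖ ^ 4) := by
  have hR : 0 < R := lt_of_lt_of_le hδ hδR
  obtain ⟨V0, hV0⟩ : ∃ V0, V0 = (R ^ 2) ^ s / (a * δ ^ 2) := ⟨_, rfl⟩
  obtain ⟨cap, hcap⟩ : ∃ c, c = (δ / 2) ^ (2 * s - 2) / a := ⟨_, rfl⟩
  obtain ⟨M, hM⟩ : ∃ M, M = 32 / a := ⟨_, rfl⟩
  obtain ⟨r₀, hr₀⟩ : ∃ r, r = a * δ / 256 := ⟨_, rfl⟩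
  have hV0p : 0 < V0 := by rw [hV0]; positivity
  have hcapp : 0 < cap := by rw [hcap]; positivity
  have hMp : 0 < M := by rw [hM]; positivity
  have hr₀p : 0 < r₀ := by rw [hr₀]; positivity
  refine ⟨V0 * (168 * M ^ 3) * (1 / δ ^ 3 + 1 / δ ^ 4) + cap / r₀ ^ 4
    + V0 * (2 * M / (δ * r₀ ^ 3) + 3 * M ^ 2 / (δ ^ 2 * r₀ ^ 2) + M / r₀ ^ 4), by positivity,
    min 1 (a * δ ^ 2 / 256), by positivity, ?_⟩
  intro h hh hh₀ z hz hzR ζ
  have hh1 : h ≤ 1 := hh₀.trans (min_le_left _ _)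
  have hh2 : h ≤ a * δ ^ 2 / 256 := hh₀.trans (min_le_right _ _)
  -- scaled coordinates
  obtain ⟨n, hn⟩ : ∃ n, n = ‖z‖ := ⟨_, rfl⟩
  have hnp : 0 < n := by rw [hn]; linarith
  have hnδ : δ ≤ n := by rw [hn]; exact hz
  have hnR : n ≤ R := by rw [hn]; exact hzR
  have hnz : n ^ 2 = z.re ^ 2 + z.im ^ 2 := by
    rw [hn, ← Complex.normSq_eq_norm_sq, Complex.normSq_apply]; ring
  obtain ⟨X, hX⟩ : ∃ X, X = z.re / n := ⟨_, rfl⟩
  obtain ⟨Y, hY⟩ : ∃ Y, Y = z.im / n := ⟨_, rfl⟩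
  obtain ⟨p, hp⟩ : ∃ p, p = ζ.re / n := ⟨_, rfl⟩
  obtain ⟨q, hq⟩ : ∃ q, q = ζ.im / n := ⟨_, rfl⟩
  obtain ⟨t, ht⟩ : ∃ t, t = ‖ζ‖ / n := ⟨_, rfl⟩
  obtain ⟨k, hk⟩ : ∃ k, k = h / n ^ 2 := ⟨_, rfl⟩
  have eX : z.re = n * X := by rw [hX]; field_simp
  have eY : z.im = n * Y := by rw [hY]; field_simp
  have ep : ζ.re = n * p := by rw [hp]; field_simp
  have eq' : ζ.im = n * q := by rw [hq]; field_simp
  have et : ‖ζ‖ = n * t := by rw [ht]; field_simp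
  have ek : h = n ^ 2 * k := by rw [hk]; field_simp
  have hXY : X ^ 2 + Y ^ 2 = 1 := by
    rw [hX, hY, div_pow, div_pow, ← add_div, ← hnz]; field_simp
  have hζ2 : ‖ζ‖ ^ 2 = ζ.re ^ 2 + ζ.im ^ 2 := by
    rw [← Complex.normSq_eq_norm_sq, Complex.normSq_apply]; ring
  have hpq : p ^ 2 + q ^ 2 = t ^ 2 := by
    rw [hp, hq, ht, div_pow, div_pow, div_pow, ← add_div, ← hζ2]
  have ht0 : 0 ≤ t := by rw [ht]; positivity
  have hk0 : 0 ≤ k := by rw [hk]; positivity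
  have hPp : 0 < X ^ 2 + a := by positivity
  obtain ⟨D, hDd⟩ : ∃ D, D = 1 / (X ^ 2 + a) := ⟨_, rfl⟩
  have hD : D * (X ^ 2 + a) = 1 := by rw [hDd]; field_simp
  have htδ : t ≤ ‖ζ‖ / δ := by
    rw [ht]; exact div_le_div_of_nonneg_left (norm_nonneg _) hδ hnδ
  have hkδ : k ≤ h / δ ^ 2 := by
    rw [hk]; exact div_le_div_of_nonneg_left hh.le (by positivity)
      (pow_le_pow_left₀ hδ.le hnδ 2)
  have hk256 : k ≤ a / 256 := by
    refine hkδ.trans ?_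
    rw [div_le_iff₀ (by positivity)]
    calc h ≤ a * δ ^ 2 / 256 := hh2
      _ = a / 256 * δ ^ 2 := by ring
  -- VV z
  have hVz : VV a s z = (n ^ 2) ^ s / (n ^ 2 * (X ^ 2 + a)) := by
    unfold VV
    rw [← hn, eX]; congr 1; ring
  have hVz0 : 0 < VV a s z := by rw [hVz]; positivity
  have hVzV0 : VV a s z ≤ V0 := by
    rw [hVz, hV0]
    apply div_le_div₀ (by positivity)
    · exact Real.rpow_le_rpow (by positivity) (pow_le_pow_left₀ hnp.le hnR 2) hs.le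
    · positivity
    · have h1 : δ ^ 2 ≤ n ^ 2 := pow_le_pow_left₀ hδ.le hnδ 2
      have h2 : a ≤ X ^ 2 + a := by nlinarith [sq_nonneg X]
      calc a * δ ^ 2 ≤ (X ^ 2 + a) * n ^ 2 := mul_le_mul h2 h1 (by positivity) hPp.le
        _ = n ^ 2 * (X ^ 2 + a) := by ring
  have hFz : FF a s δ z = VV a s z := by
    unfold FF
    apply min_eq_left
    rw [hVz, ← hcap, hcap]
    have e1 : (n ^ 2) ^ s / (n ^ 2 * (X ^ 2 + a)) = n ^ (2 * s - 2) / (X ^ 2 + a) := by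
      have : (n ^ 2) ^ s = n ^ (2 * s - 2) * n ^ 2 := by
        rw [← Real.rpow_natCast n 2, ← Real.rpow_mul hnp.le, ← Real.rpow_add hnp]
        congr 1; push_cast; ring
      rw [this]; field_simp
    rw [e1]
    apply div_le_div₀ (by positivity)
    · apply Real.rpow_le_rpow_of_nonpos (by positivity) (by linarith) (by linarith)
    · exact ha
    · nlinarith [sq_nonneg X]
  -- the expansion in scaled coordinates
  have hTT : 1 + linT a s z ζ + quadT a s z ζ + h * driftT a s z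
      = 1 + OneAAux.TT a s D X Y p q k := by
    unfold linT quadT driftT OneAAux.TT
    have e0 : z.re ^ 2 + a * ‖z‖ ^ 2 = n ^ 2 * (X ^ 2 + a) := by rw [← hn, eX]; ring
    rw [e0, ← hn, et, eX, eY, ep, eq', ek, hDd]
    have hpq' : t ^ 2 = p ^ 2 + q ^ 2 := hpq.symm
    have ht2 : (n * t) ^ 2 = n ^ 2 * (p ^ 2 + q ^ 2) := by rw [mul_pow, hpq']
    rw [ht2]
    field_simp
    ring
  -- the scaled point
  have hN : Complex.normSq z = n ^ 2 := by rw [Complex.normSq_apply, hnz]; ring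
  have h2re : (2 * (h : ℂ)).re = 2 * h := by simp
  have h2im : (2 * (h : ℂ)).im = 0 := by simp
  have hre : (z + 2 * h / z - ζ).re = n * (X + 2 * k * X - p) := by
    rw [Complex.sub_re, Complex.add_re, Complex.div_re, hN, h2re, h2im, eX, ep, ek]
    field_simp
    ring
  have him : (z + 2 * h / z - ζ).im = n * (Y - 2 * k * Y - q) := by
    rw [Complex.sub_im, Complex.add_im, Complex.div_im, hN, h2re, h2im, eY, eq', ek]
    field_simp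
    ring
  have hnorm : ‖z + 2 * h / z - ζ‖ ^ 2
      = n ^ 2 * ((X + 2 * k * X - p) ^ 2 + (Y - 2 * k * Y - q) ^ 2) := by
    rw [← Complex.normSq_eq_norm_sq, Complex.normSq_apply, hre, him]; ring
  have hζ0 : 0 ≤ ‖ζ‖ := norm_nonneg _
  rw [hFz, hTT]
  by_cases hcase : ‖ζ‖ ≤ r₀
  · -- small increments
    have hth : t + k ≤ a / 128 := by
      have h1 : t ≤ a / 256 := by
        refine htδ.trans ?_
        rw [div_le_iff₀ hδ]
        calc ‖ζ‖ ≤ r₀ := hcase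
          _ = a / 256 * δ := by rw [hr₀]; ring
      linarith
    obtain ⟨c1, c2⟩ := OneAAux.core (s := s) (D := D) ha ha1 hs hs1 hXY hD hpq ht0 hk0 hth
    have hVV : VV a s (z + 2 * h / z - ζ)
        = VV a s z * (((X + 2 * k * X - p) ^ 2 + (Y - 2 * k * Y - q) ^ 2) ^ s
          / (D * ((X + 2 * k * X - p) ^ 2
          + a * ((X + 2 * k * X - p) ^ 2 + (Y - 2 * k * Y - q) ^ 2)))) := by
      rw [hVz]
      unfold VV
      rw [hnorm, hre, Real.mul_rpow (by positivity) (by positivity)]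
      have hQ : (X + 2 * k * X - p) ^ 2
          + a * ((X + 2 * k * X - p) ^ 2 + (Y - 2 * k * Y - q) ^ 2) ≠ 0 := by
        intro h0; rw [h0, mul_zero] at c1; exact lt_irrefl _ c1
      rw [hDd]
      have e1 : (n * (X + 2 * k * X - p)) ^ 2
          + a * (n ^ 2 * ((X + 2 * k * X - p) ^ 2 + (Y - 2 * k * Y - q) ^ 2))
          = n ^ 2 * ((X + 2 * k * X - p) ^ 2
          + a * ((X + 2 * k * X - p) ^ 2 + (Y - 2 * k * Y - q) ^ 2)) := by ring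
      rw [e1]
      generalize (X + 2 * k * X - p) ^ 2
          + a * ((X + 2 * k * X - p) ^ 2 + (Y - 2 * k * Y - q) ^ 2) = Q at hQ ⊢
      generalize ((X + 2 * k * X - p) ^ 2 + (Y - 2 * k * Y - q) ^ 2) ^ s = US
      generalize (n ^ 2) ^ s = NS
      have hPne : X ^ 2 + a ≠ 0 := hPp.ne'
      field_simp
    have hE : OneAAux.EE k t ≤ (1 / δ ^ 3 + 1 / δ ^ 4)
        * (h * ‖ζ‖ + h ^ 2 + h * ‖ζ‖ ^ 2 + ‖ζ‖ ^ 3 + ‖ζ‖ ^ 4) := by
      have hd1 : k * t ≤ h / δ ^ 2 * (‖ζ‖ / δ) :=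
        mul_le_mul hkδ htδ ht0 (by positivity)
      have hd2 : k ^ 2 ≤ (h / δ ^ 2) ^ 2 := pow_le_pow_left₀ hk0 hkδ 2
      have hd3 : k * t ^ 2 ≤ h / δ ^ 2 * (‖ζ‖ / δ) ^ 2 :=
        mul_le_mul hkδ (pow_le_pow_left₀ ht0 htδ 2) (by positivity) (by positivity)
      have hd4 : t ^ 3 ≤ (‖ζ‖ / δ) ^ 3 := pow_le_pow_left₀ ht0 htδ 3
      have hs1 : h / δ ^ 2 * (‖ζ‖ / δ) = 1 / δ ^ 3 * (h * ‖ζ‖) := by field_simp
      have hs2 : (h / δ ^ 2) ^ 2 = 1 / δ ^ 4 * h ^ 2 := by field_simp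
      have hs3 : h / δ ^ 2 * (‖ζ‖ / δ) ^ 2 = 1 / δ ^ 4 * (h * ‖ζ‖ ^ 2) := by field_simp
      have hs4 : (‖ζ‖ / δ) ^ 3 = 1 / δ ^ 3 * ‖ζ‖ ^ 3 := by field_simp
      rw [hs1] at hd1
      rw [hs2] at hd2
      rw [hs3] at hd3
      rw [hs4] at hd4
      unfold OneAAux.EE
      have p1 : 0 ≤ 1 / δ ^ 3 * h ^ 2 := by positivity
      have p2 : 0 ≤ 1 / δ ^ 3 * (h * ‖ζ‖ ^ 2) := by positivity
      have p3 : 0 ≤ 1 / δ ^ 3 * ‖ζ‖ ^ 4 := by positivity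
      have p4 : 0 ≤ 1 / δ ^ 4 * (h * ‖ζ‖) := by positivity
      have p5 : 0 ≤ 1 / δ ^ 4 * ‖ζ‖ ^ 3 := by positivity
      have p6 : 0 ≤ 1 / δ ^ 4 * ‖ζ‖ ^ 4 := by positivity
      generalize 1 / δ ^ 3 = A3 at *
      generalize 1 / δ ^ 4 = A4 at *
      have e : (A3 + A4) * (h * ‖ζ‖ + h ^ 2 + h * ‖ζ‖ ^ 2 + ‖ζ‖ ^ 3 + ‖ζ‖ ^ 4)
          = A3 * (h * ‖ζ‖) + A3 * h ^ 2 + A3 * (h * ‖ζ‖ ^ 2) + A3 * ‖ζ‖ ^ 3 + A3 * ‖ζ‖ ^ 4
            + A4 * (h * ‖ζ‖) + A4 * h ^ 2 + A4 * (h * ‖ζ‖ ^ 2) + A4 * ‖ζ‖ ^ 3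
            + A4 * ‖ζ‖ ^ 4 := by ring
      rw [e]
      linarith
    have hEE0 : 0 ≤ h * ‖ζ‖ + h ^ 2 + h * ‖ζ‖ ^ 2 + ‖ζ‖ ^ 3 + ‖ζ‖ ^ 4 := by positivity
    have hE0 : 0 ≤ OneAAux.EE k t := by unfold OneAAux.EE; positivity
    calc FF a s δ (z + 2 * h / z - ζ) ≤ VV a s (z + 2 * h / z - ζ) := min_le_left _ _
      _ ≤ VV a s z * (1 + OneAAux.TT a s D X Y p q k + 168 * M ^ 3 * OneAAux.EE k t) := by
          rw [hVV, hM]
          exact mul_le_mul_of_nonneg_left c2 hVz0.le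
      _ = VV a s z * (1 + OneAAux.TT a s D X Y p q k)
          + VV a s z * (168 * M ^ 3 * OneAAux.EE k t) := by ring
      _ ≤ VV a s z * (1 + OneAAux.TT a s D X Y p q k)
          + V0 * (168 * M ^ 3 * ((1 / δ ^ 3 + 1 / δ ^ 4)
            * (h * ‖ζ‖ + h ^ 2 + h * ‖ζ‖ ^ 2 + ‖ζ‖ ^ 3 + ‖ζ‖ ^ 4))) := by
          apply add_le_add le_rfl
          apply mul_le_mul hVzV0 _ (by positivity) hV0p.le
          exact mul_le_mul_of_nonneg_left hE (by positivity)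
      _ ≤ _ := by
          apply add_le_add le_rfl
          have h1 : 0 ≤ cap / r₀ ^ 4
            + V0 * (2 * M / (δ * r₀ ^ 3) + 3 * M ^ 2 / (δ ^ 2 * r₀ ^ 2) + M / r₀ ^ 4) := by
            positivity
          have h2 : V0 * (168 * M ^ 3 * ((1 / δ ^ 3 + 1 / δ ^ 4)
            * (h * ‖ζ‖ + h ^ 2 + h * ‖ζ‖ ^ 2 + ‖ζ‖ ^ 3 + ‖ζ‖ ^ 4)))
            = (V0 * (168 * M ^ 3) * (1 / δ ^ 3 + 1 / δ ^ 4))
              * (h * ‖ζ‖ + h ^ 2 + h * ‖ζ‖ ^ 2 + ‖ζ‖ ^ 3 + ‖ζ‖ ^ 4) := by ring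
          rw [h2]
          apply mul_le_mul_of_nonneg_right _ hEE0
          linarith
  · -- large increments
    have hcase' : r₀ ≤ ‖ζ‖ := (not_le.1 hcase).le
    have hFcap : FF a s δ (z + 2 * h / z - ζ) ≤ cap := by
      rw [hcap]; exact min_le_right _ _
    have hlow := OneAAux.TT_lower (s := s) (D := D) ha ha1 hs hs1 hXY hD hpq ht0 hk0
    rw [← hM] at hlow
    have h4 : 1 ≤ ‖ζ‖ ^ 4 / r₀ ^ 4 := by
      rw [le_div_iff₀ (by positivity), one_mul]; exact pow_le_pow_left₀ hr₀p.le hcase' 4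
    have h3 : ‖ζ‖ ≤ ‖ζ‖ ^ 4 / r₀ ^ 3 := by
      rw [le_div_iff₀ (by positivity)]
      calc ‖ζ‖ * r₀ ^ 3 ≤ ‖ζ‖ * ‖ζ‖ ^ 3 :=
            mul_le_mul_of_nonneg_left (pow_le_pow_left₀ hr₀p.le hcase' 3) hζ0
        _ = ‖ζ‖ ^ 4 := by ring
    have h2 : ‖ζ‖ ^ 2 ≤ ‖ζ‖ ^ 4 / r₀ ^ 2 := by
      rw [le_div_iff₀ (by positivity)]
      calc ‖ζ‖ ^ 2 * r₀ ^ 2 ≤ ‖ζ‖ ^ 2 * ‖ζ‖ ^ 2 :=
            mul_le_mul_of_nonneg_left (pow_le_pow_left₀ hr₀p.le hcase' 2) (by positivity)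
        _ = ‖ζ‖ ^ 4 := by ring
    have hk1 : k ≤ 1 := by linarith
    have hlow2 : -((2 * M / (δ * r₀ ^ 3) + 3 * M ^ 2 / (δ ^ 2 * r₀ ^ 2) + M / r₀ ^ 4)
        * ‖ζ‖ ^ 4) ≤ OneAAux.TT a s D X Y p q k := by
      refine le_trans ?_ hlow
      apply neg_le_neg
      have g1 : 2 * M * t ≤ 2 * M / (δ * r₀ ^ 3) * ‖ζ‖ ^ 4 := by
        calc 2 * M * t ≤ 2 * M * (‖ζ‖ / δ) := mul_le_mul_of_nonneg_left htδ (by positivity)
          _ ≤ 2 * M * ((‖ζ‖ ^ 4 / r₀ ^ 3) / δ) := by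
              apply mul_le_mul_of_nonneg_left _ (by positivity)
              exact div_le_div_of_nonneg_right h3 hδ.le
          _ = 2 * M / (δ * r₀ ^ 3) * ‖ζ‖ ^ 4 := by field_simp
      have g2 : 3 * M ^ 2 * t ^ 2 ≤ 3 * M ^ 2 / (δ ^ 2 * r₀ ^ 2) * ‖ζ‖ ^ 4 := by
        calc 3 * M ^ 2 * t ^ 2 ≤ 3 * M ^ 2 * (‖ζ‖ / δ) ^ 2 := by
              apply mul_le_mul_of_nonneg_left _ (by positivity)
              exact pow_le_pow_left₀ ht0 htδ 2
          _ = 3 * M ^ 2 * (‖ζ‖ ^ 2 / δ ^ 2) := by rw [div_pow]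
          _ ≤ 3 * M ^ 2 * ((‖ζ‖ ^ 4 / r₀ ^ 2) / δ ^ 2) := by
              apply mul_le_mul_of_nonneg_left _ (by positivity)
              exact div_le_div_of_nonneg_right h2 (by positivity)
          _ = 3 * M ^ 2 / (δ ^ 2 * r₀ ^ 2) * ‖ζ‖ ^ 4 := by field_simp
      have g3 : M * k ≤ M / r₀ ^ 4 * ‖ζ‖ ^ 4 := by
        calc M * k ≤ M * 1 := mul_le_mul_of_nonneg_left hk1 hMp.le
          _ ≤ M * (‖ζ‖ ^ 4 / r₀ ^ 4) := mul_le_mul_of_nonneg_left h4 hMp.le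
          _ = M / r₀ ^ 4 * ‖ζ‖ ^ 4 := by ring
      linarith
    obtain ⟨Q, hQ⟩ : ∃ Q, Q = 2 * M / (δ * r₀ ^ 3) + 3 * M ^ 2 / (δ ^ 2 * r₀ ^ 2)
      + M / r₀ ^ 4 := ⟨_, rfl⟩
    have hQ0 : 0 ≤ Q := by rw [hQ]; positivity
    rw [← hQ] at hlow2 ⊢
    have hζ4 : 0 ≤ ‖ζ‖ ^ 4 := by positivity
    have i1 : -(V0 * (Q * ‖ζ‖ ^ 4)) ≤ VV a s z * (1 + OneAAux.TT a s D X Y p q k) := by
      have j1 : VV a s z * (-(Q * ‖ζ‖ ^ 4)) ≤ VV a s z * (1 + OneAAux.TT a s D X Y p q k) :=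
        mul_le_mul_of_nonneg_left (by linarith) hVz0.le
      have j2 : VV a s z * (Q * ‖ζ‖ ^ 4) ≤ V0 * (Q * ‖ζ‖ ^ 4) :=
        mul_le_mul_of_nonneg_right hVzV0 (by positivity)
      linarith
    have i2 : cap ≤ cap / r₀ ^ 4 * ‖ζ‖ ^ 4 := by
      calc cap = cap * 1 := (mul_one _).symm
        _ ≤ cap * (‖ζ‖ ^ 4 / r₀ ^ 4) := mul_le_mul_of_nonneg_left h4 hcapp.le
        _ = cap / r₀ ^ 4 * ‖ζ‖ ^ 4 := by ring
    have i3 : (cap / r₀ ^ 4 + V0 * Q) * ‖ζ‖ ^ 4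
        ≤ (V0 * (168 * M ^ 3) * (1 / δ ^ 3 + 1 / δ ^ 4) + cap / r₀ ^ 4 + V0 * Q)
          * (h * ‖ζ‖ + h ^ 2 + h * ‖ζ‖ ^ 2 + ‖ζ‖ ^ 3 + ‖ζ‖ ^ 4) := by
      have k0 : 0 ≤ V0 * (168 * M ^ 3) * (1 / δ ^ 3 + 1 / δ ^ 4) := by positivity
      apply mul_le_mul (by linarith) _ hζ4 (by positivity)
      have k1 : 0 ≤ h * ‖ζ‖ := by positivity
      have k2 : 0 ≤ h ^ 2 := by positivity
      have k3 : 0 ≤ h * ‖ζ‖ ^ 2 := by positivity
      have k4 : 0 ≤ ‖ζ‖ ^ 3 := by positivity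
      linarith
    calc FF a s δ (z + 2 * h / z - ζ) ≤ cap := hFcap
      _ ≤ cap / r₀ ^ 4 * ‖ζ‖ ^ 4 := i2
      _ = -(V0 * (Q * ‖ζ‖ ^ 4)) + (cap / r₀ ^ 4 + V0 * Q) * ‖ζ‖ ^ 4 := by ring
      _ ≤ _ := add_le_add i1 i3

end

end Pool.Agent.SLE
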