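import Pool.Agent.Lib.MP_c17912_pr.Defs
import Pool.Agent.Lib.MP_c17912_pr.Gen
import Pool.Agent.Lib.MP_c17912_pr.OneA

/-!
# MP_c17912_pr, module ONEB: the one step inequality of the discrete supermartingale
-/

set_option autoImplicit false

open MeasureTheory ProbabilityTheory Filter
open scoped NNReal ENNReal Topology

namespace Pool.Agent.SLE

noncomputable section

variable {Ω : Type*} [MeasurableSpace Ω] {μ : Measure Ω} {a b c K : ℝ} {W : ℝ → Ω → ℂ}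

namespace OneBAux

theorem VV_nonneg (ha : 0 < a) (s : ℝ) (z : ℂ) : 0 ≤ VV a s z := by
  unfold VV
  positivity

theorem FF_nonneg (ha : 0 < a) {s δ : ℝ} (hδ : 0 < δ) (z : ℂ) : 0 ≤ FF a s δ z := by
  unfold FF
  refine le_min (VV_nonneg ha s z) (by positivity)

theorem FF_le (s δ : ℝ) (z : ℂ) : FF a s δ z ≤ (δ / 2) ^ (2 * s - 2) / a := min_le_right _ _

theorem VV_meas (s : ℝ) : Measurable (VV a s) := by
  unfold VV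
  fun_prop

theorem FF_meas (s δ : ℝ) : Measurable (FF a s δ) := by
  unfold FF
  exact (VV_meas s).min measurable_const

/-- lower bound on the annulus -/
theorem FF_lower (ha : 0 < a) {s δ R : ℝ} (hs1 : s ≤ 1) (hδ : 0 < δ) {z : ℂ}
    (h1 : δ ≤ ‖z‖) (h2 : ‖z‖ ≤ R) :
    min ((R ^ 2) ^ (s - 1) / (1 + a)) ((δ / 2) ^ (2 * s - 2) / a) ≤ FF a s δ z := by
  unfold FF
  refine min_le_min ?_ le_rfl
  unfold VV
  have hz : 0 < ‖z‖ := lt_of_lt_of_le hδ h1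
  have hN : 0 < ‖z‖ ^ 2 := by positivity
  have hre : z.re ^ 2 ≤ ‖z‖ ^ 2 := by
    rw [← Complex.normSq_eq_norm_sq, Complex.normSq_apply]
    nlinarith [mul_self_nonneg z.im]
  have hP : z.re ^ 2 + a * ‖z‖ ^ 2 ≤ (1 + a) * ‖z‖ ^ 2 := by nlinarith
  have hP0 : 0 < z.re ^ 2 + a * ‖z‖ ^ 2 := by positivity
  have h3 : (R ^ 2) ^ (s - 1) ≤ (‖z‖ ^ 2) ^ (s - 1) :=
    Real.rpow_le_rpow_of_nonpos hN (pow_le_pow_left₀ hz.le h2 2) (by linarith)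
  have h4 : (‖z‖ ^ 2) ^ s = (‖z‖ ^ 2) ^ (s - 1) * ‖z‖ ^ 2 := by
    rw [Real.rpow_sub_one hN.ne']
    field_simp
  rw [h4, div_le_div_iff₀ (by positivity) hP0]
  have h5 : 0 ≤ (‖z‖ ^ 2) ^ (s - 1) := by positivity
  calc (R ^ 2) ^ (s - 1) * (z.re ^ 2 + a * ‖z‖ ^ 2)
      ≤ (‖z‖ ^ 2) ^ (s - 1) * (z.re ^ 2 + a * ‖z‖ ^ 2) := mul_le_mul_of_nonneg_right h3 hP0.le
    _ ≤ (‖z‖ ^ 2) ^ (s - 1) * ((1 + a) * ‖z‖ ^ 2) := mul_le_mul_of_nonneg_left hP h5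
    _ = (‖z‖ ^ 2) ^ (s - 1) * ‖z‖ ^ 2 * (1 + a) := by ring

/-- real part of the inverse square -/
theorem re_inv_sq (z : ℂ) :
    (1 / z ^ 2).re = (z.re ^ 2 - z.im ^ 2) / (‖z‖ ^ 2) ^ 2 := by
  have h1 : ‖z‖ ^ 2 = z.re * z.re + z.im * z.im := by
    rw [← Complex.normSq_eq_norm_sq, Complex.normSq_apply]
  rw [one_div, Complex.inv_re, map_pow, Complex.normSq_eq_norm_sq]
  congr 1
  rw [sq, Complex.mul_re]
  ring

theorem kk_bound {lam c₀ δ : ℝ} (hc00 : 0 ≤ c₀) (hδ : 0 < δ) {z : ℂ} (h1 : δ ≤ ‖z‖) :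
    |kk lam c₀ z| ≤ (2 * |lam| + c₀) / δ ^ 2 := by
  have hz : 0 < ‖z‖ := lt_of_lt_of_le hδ h1
  have h2 : |(1 / z ^ 2).re| ≤ 1 / ‖z‖ ^ 2 := by
    refine (Complex.abs_re_le_norm _).trans (le_of_eq ?_)
    rw [norm_div, norm_one, norm_pow]
  have h3 : 1 / ‖z‖ ^ 2 ≤ 1 / δ ^ 2 :=
    one_div_le_one_div_of_le (by positivity) (pow_le_pow_left₀ hδ.le h1 2)
  unfold kk
  calc |-2 * lam * (1 / z ^ 2).re + c₀ / ‖z‖ ^ 2|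
      ≤ |-2 * lam * (1 / z ^ 2).re| + |c₀ / ‖z‖ ^ 2| := abs_add_le _ _
    _ = 2 * |lam| * |(1 / z ^ 2).re| + c₀ * (1 / ‖z‖ ^ 2) := by
        rw [abs_mul, abs_mul, abs_div, abs_of_nonneg hc00, abs_of_nonneg (by positivity :
          0 ≤ ‖z‖ ^ 2)]
        norm_num
        ring
    _ ≤ 2 * |lam| * (1 / δ ^ 2) + c₀ * (1 / δ ^ 2) := by
        refine add_le_add (mul_le_mul_of_nonneg_left (h2.trans h3) (by positivity))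
          (mul_le_mul_of_nonneg_left h3 hc00)
    _ = _ := by ring

theorem quadT_eq (a s : ℝ) (z ζ : ℂ) : quadT a s z ζ =
    (s / ‖z‖ ^ 2 - (1 + a) / (z.re ^ 2 + a * ‖z‖ ^ 2)
      + 4 * (1 + a) ^ 2 * z.re ^ 2 / (z.re ^ 2 + a * ‖z‖ ^ 2) ^ 2
      - 4 * s * (1 + a) * z.re ^ 2 / (‖z‖ ^ 2 * (z.re ^ 2 + a * ‖z‖ ^ 2))) * ζ.re ^ 2
    + (8 * (1 + a) * a * z.re * z.im / (z.re ^ 2 + a * ‖z‖ ^ 2) ^ 2
      - 4 * s * (1 + 2 * a) * z.re * z.im / (‖z‖ ^ 2 * (z.re ^ 2 + a * ‖z‖ ^ 2)))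
        * (ζ.re * ζ.im)
    + (s / ‖z‖ ^ 2 - a / (z.re ^ 2 + a * ‖z‖ ^ 2)
      + 4 * a ^ 2 * z.im ^ 2 / (z.re ^ 2 + a * ‖z‖ ^ 2) ^ 2
      - 4 * s * a * z.im ^ 2 / (‖z‖ ^ 2 * (z.re ^ 2 + a * ‖z‖ ^ 2))) * ζ.im ^ 2 := by
  have h1 : ‖ζ‖ ^ 2 = ζ.re ^ 2 + ζ.im ^ 2 := by
    rw [← Complex.normSq_eq_norm_sq, Complex.normSq_apply]
    ring
  unfold quadT
  rw [h1]
  ring

theorem gen_le {s lam c₀ : ℝ} (ha : 0 < a) (hb : 0 ≤ b)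
    (hc : c ^ 2 ≤ a * b) (hab : a + b ≤ 1 / 1000) (hs : 3 / 4 ≤ s) (hs1 : s ≤ 1)
    (hl : 4 * s - 2 * lam = 7 / 2) (hc0 : c₀ ≤ 1 / 4) {z : ℂ} (hz : z ≠ 0) :
    (s / ‖z‖ ^ 2 - (1 + a) / (z.re ^ 2 + a * ‖z‖ ^ 2)
      + 4 * (1 + a) ^ 2 * z.re ^ 2 / (z.re ^ 2 + a * ‖z‖ ^ 2) ^ 2
      - 4 * s * (1 + a) * z.re ^ 2 / (‖z‖ ^ 2 * (z.re ^ 2 + a * ‖z‖ ^ 2))) * a
    + (8 * (1 + a) * a * z.re * z.im / (z.re ^ 2 + a * ‖z‖ ^ 2) ^ 2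
      - 4 * s * (1 + 2 * a) * z.re * z.im / (‖z‖ ^ 2 * (z.re ^ 2 + a * ‖z‖ ^ 2))) * c
    + (s / ‖z‖ ^ 2 - a / (z.re ^ 2 + a * ‖z‖ ^ 2)
      + 4 * a ^ 2 * z.im ^ 2 / (z.re ^ 2 + a * ‖z‖ ^ 2) ^ 2
      - 4 * s * a * z.im ^ 2 / (‖z‖ ^ 2 * (z.re ^ 2 + a * ‖z‖ ^ 2))) * b
    + driftT a s z ≤ -kk lam c₀ z := by
  have hn : 0 < ‖z‖ := norm_pos_iff.2 hz
  have h1 : ‖z‖ ^ 2 = z.re ^ 2 + z.im ^ 2 := by
    rw [← Complex.normSq_eq_norm_sq, Complex.normSq_apply]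
    ring
  unfold kk driftT
  rw [re_inv_sq z]
  generalize z.re = x at *
  generalize z.im = y at *
  generalize ‖z‖ = n at *
  obtain ⟨X, rfl⟩ : ∃ X, x = n * X := ⟨x / n, by field_simp⟩
  obtain ⟨Y, rfl⟩ : ∃ Y, y = n * Y := ⟨y / n, by field_simp⟩
  have hXY : X ^ 2 + Y ^ 2 = 1 := by
    have h2 : n ^ 2 * (X ^ 2 + Y ^ 2) = n ^ 2 * 1 := by nlinarith
    exact mul_left_cancel₀ (by positivity) h2
  have key := gen_ineq ha hb hc hab hs hs1 hl hc0 hXY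
  have hP : (n * X) ^ 2 + a * n ^ 2 = n ^ 2 * (X ^ 2 + a) := by ring
  have hP0 : 0 < X ^ 2 + a := by positivity
  rw [hP]
  have e : ((s / n ^ 2 - (1 + a) / (n ^ 2 * (X ^ 2 + a))
      + 4 * (1 + a) ^ 2 * (n * X) ^ 2 / (n ^ 2 * (X ^ 2 + a)) ^ 2
      - 4 * s * (1 + a) * (n * X) ^ 2 / (n ^ 2 * (n ^ 2 * (X ^ 2 + a)))) * a
    + (8 * (1 + a) * a * (n * X) * (n * Y) / (n ^ 2 * (X ^ 2 + a)) ^ 2
      - 4 * s * (1 + 2 * a) * (n * X) * (n * Y) / (n ^ 2 * (n ^ 2 * (X ^ 2 + a)))) * c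
    + (s / n ^ 2 - a / (n ^ 2 * (X ^ 2 + a))
      + 4 * a ^ 2 * (n * Y) ^ 2 / (n ^ 2 * (X ^ 2 + a)) ^ 2
      - 4 * s * a * (n * Y) ^ 2 / (n ^ 2 * (n ^ 2 * (X ^ 2 + a)))) * b
    + (4 * s * ((n * X) ^ 2 - (n * Y) ^ 2) / (n ^ 2) ^ 2
      - (4 * (n * X) ^ 2 + 4 * a * ((n * X) ^ 2 - (n * Y) ^ 2)) / (n ^ 2 * (n ^ 2 * (X ^ 2 + a)))))
    + (-2 * lam * (((n * X) ^ 2 - (n * Y) ^ 2) / (n ^ 2) ^ 2) + c₀ / n ^ 2)
    = (s * (4 * (X ^ 2 - Y ^ 2) + (a + b))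
      - (4 * X ^ 2 + a + 4 * a * (X ^ 2 - Y ^ 2) + a * (a + b)) / (X ^ 2 + a)
      + 4 * ((1 + a) ^ 2 * X ^ 2 * a + 2 * (1 + a) * a * X * Y * c + a ^ 2 * Y ^ 2 * b)
          / (X ^ 2 + a) ^ 2
      - 4 * s * ((1 + a) * X ^ 2 * a + (1 + 2 * a) * X * Y * c + a * Y ^ 2 * b) / (X ^ 2 + a)
      - 2 * lam * (X ^ 2 - Y ^ 2) + c₀) / n ^ 2 := by
    field_simp
    ring
  have h3 := div_nonpos_of_nonpos_of_nonneg key (by positivity : 0 ≤ n ^ 2)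
  linarith

/-- pointwise bound of the error terms -/
theorem err_bound {h t : ℝ} (hh : 0 < h) :
    h * t + h ^ 2 + h * t ^ 2 + t ^ 3 + t ^ 4 ≤
      (h * √h / 2 + h ^ 2) + (√h + h) * t ^ 2 + (1 / (2 * √h) + 1) * t ^ 4 := by
  obtain ⟨r, hr, hr2⟩ : ∃ r, r = √h ∧ 0 < r := ⟨_, rfl, Real.sqrt_pos.2 hh⟩
  have hr3 : h = r ^ 2 := by rw [hr, Real.sq_sqrt hh.le]
  rw [← hr, hr3]
  have h1 : t ≤ r / 2 + t ^ 2 / (2 * r) := by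
    rw [div_add_div _ _ (by norm_num) (by positivity), le_div_iff₀ (by positivity)]
    nlinarith [sq_nonneg (t - r)]
  have h2 : r ^ 2 * t ≤ r ^ 2 * (r / 2 + t ^ 2 / (2 * r)) :=
    mul_le_mul_of_nonneg_left h1 (by positivity)
  have h3 : t ^ 2 * t ≤ t ^ 2 * (r / 2 + t ^ 2 / (2 * r)) :=
    mul_le_mul_of_nonneg_left h1 (by positivity)
  have e1 : r ^ 2 * (r / 2 + t ^ 2 / (2 * r)) = r ^ 2 * r / 2 + r / 2 * t ^ 2 := by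
    field_simp
  have e2 : t ^ 2 * (r / 2 + t ^ 2 / (2 * r)) = r / 2 * t ^ 2 + 1 / (2 * r) * t ^ 4 := by
    field_simp
  rw [e1] at h2
  rw [e2] at h3
  nlinarith

/-- value of the expected error -/
theorem err_exp {h K a b : ℝ} (hh : 0 < h) (h1 : h ≤ 1) (hK : 0 ≤ K) (hab : a + b ≤ 1) {m2 m4 : ℝ}
    (hm2 : m2 = (a + b) * h) (hm4 : m4 ≤ K * h ^ 2) :
    (h * √h / 2 + h ^ 2) + (√h + h) * m2 + (1 / (2 * √h) + 1) * m4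
      ≤ (4 + 2 * K) * (h * √h) := by
  obtain ⟨r, hr, hr2⟩ : ∃ r, r = √h ∧ 0 < r := ⟨_, rfl, Real.sqrt_pos.2 hh⟩
  have hr3 : h = r ^ 2 := by rw [hr, Real.sq_sqrt hh.le]
  have hr1 : r ≤ 1 := by rw [hr]; exact Real.sqrt_le_one.2 h1
  rw [← hr]
  subst hr3
  have h2 : (r + r ^ 2) * m2 ≤ (r + r ^ 2) * r ^ 2 := by
    refine mul_le_mul_of_nonneg_left ?_ (by positivity)
    rw [hm2]
    nlinarith [sq_nonneg r]
  have h3 : (1 / (2 * r) + 1) * m4 ≤ (1 / (2 * r) + 1) * (K * (r ^ 2) ^ 2) :=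
    mul_le_mul_of_nonneg_left hm4 (by positivity)
  have e : (1 / (2 * r) + 1) * (K * (r ^ 2) ^ 2) = K * (r ^ 3) / 2 + K * r ^ 4 := by
    field_simp
  rw [e] at h3
  have h4 : r ^ 4 ≤ r ^ 3 := pow_le_pow_of_le_one hr2.le hr1 (by norm_num)
  have h5 : K * r ^ 4 ≤ K * r ^ 3 := mul_le_mul_of_nonneg_left h4 hK
  have h6 : 0 ≤ K * r ^ 3 := by positivity
  have h7 : 0 < r ^ 3 := by positivity
  nlinarith

theorem re_sq_le (z : ℂ) : z.re ^ 2 ≤ ‖z‖ ^ 2 := by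
  rw [← Complex.normSq_eq_norm_sq, Complex.normSq_apply]
  nlinarith [mul_self_nonneg z.im]

theorem im_sq_le (z : ℂ) : z.im ^ 2 ≤ ‖z‖ ^ 2 := by
  rw [← Complex.normSq_eq_norm_sq, Complex.normSq_apply]
  nlinarith [mul_self_nonneg z.re]

theorem norm_sq_eq (z : ℂ) : ‖z‖ ^ 2 = z.re ^ 2 + z.im ^ 2 := by
  rw [← Complex.normSq_eq_norm_sq, Complex.normSq_apply]
  ring

theorem t_le (t : ℝ) : t ≤ 1 + t ^ 4 := by
  rcases le_total t 1 with h | h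
  · have : 0 ≤ t ^ 4 := by positivity
    linarith
  · have : t ≤ t ^ 4 := le_self_pow₀ h (by norm_num)
    linarith

theorem t2_le (t : ℝ) : t ^ 2 ≤ 1 + t ^ 4 := by nlinarith [sq_nonneg (t ^ 2 - 1)]

end OneBAux

/-- D2b ONEB. The one step inequality. -/
theorem one_step [IsProbabilityMeasure μ] {s lam c₀ δ R : ℝ} (ha : 0 < a) (hb : 0 ≤ b)
    (hc : c ^ 2 ≤ a * b) (hK : 0 ≤ K) (hab : a + b ≤ 1 / 1000) (hs : 3 / 4 ≤ s) (hs1 : s ≤ 1)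
    (hl : 4 * s - 2 * lam = 7 / 2) (hc00 : 0 ≤ c₀) (hc0 : c₀ ≤ 1 / 4) (hδ : 0 < δ)
    (hδR : δ ≤ R) : ∃ C > 0, ∃ h₀ > 0, ∀ h : ℝ, 0 < h → h ≤ h₀ → ∀ z : ℂ, δ ≤ ‖z‖ → ‖z‖ ≤ R →
      ∀ ζ : Ω → ℂ, Measurable ζ → Integrable (fun ω => ‖ζ ω‖ ^ 4) μ →
        ∫ ω, (ζ ω).re ∂μ = 0 → ∫ ω, (ζ ω).im ∂μ = 0 → ∫ ω, (ζ ω).re ^ 2 ∂μ = a * h →
        ∫ ω, (ζ ω).im ^ 2 ∂μ = b * h → ∫ ω, (ζ ω).re * (ζ ω).im ∂μ = c * h →
        ∫ ω, ‖ζ ω‖ ^ 4 ∂μ ≤ K * h ^ 2 →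
        ∫⁻ ω, ENNReal.ofReal (FF a s δ (z + 2 * h / z - ζ ω)) ∂μ
          ≤ ENNReal.ofReal ((1 + C * (h * √h)) * Real.exp (-(h * kk lam c₀ z)) * FF a s δ z) := by
  have ha1 : a ≤ 1 := by linarith
  obtain ⟨C₁, hC₁, h₁, hh₁, H⟩ := one_point (s := s) ha ha1 (by linarith) hs1 hδ hδR
  obtain ⟨Fm, hFm⟩ : ∃ Fm, Fm = min ((R ^ 2) ^ (s - 1) / (1 + a)) ((δ / 2) ^ (2 * s - 2) / a) :=
    ⟨_, rfl⟩
  have hR : 0 < R := lt_of_lt_of_le hδ hδR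
  have hFm0 : 0 < Fm := by
    rw [hFm]
    refine lt_min (by positivity) (by positivity)
  obtain ⟨κ, hκ⟩ : ∃ κ, κ = (2 * |lam| + c₀) / δ ^ 2 := ⟨_, rfl⟩
  have hκ0 : 0 ≤ κ := by rw [hκ]; positivity
  refine ⟨C₁ * (4 + 2 * K) / (Real.exp (-κ) * Fm), by positivity, min h₁ 1,
    lt_min hh₁ one_pos, ?_⟩
  intro h hh hhle z hz1 hz2 ζ hζm hζ4 hx hy hxx hyy hxy h4
  have hhh₁ : h ≤ h₁ := hhle.trans (min_le_left _ _)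
  have hh1 : h ≤ 1 := hhle.trans (min_le_right _ _)
  have hz : z ≠ 0 := by
    intro h0
    rw [h0, norm_zero] at hz1
    linarith
  have hI1 : Integrable (fun ω => 1 + ‖ζ ω‖ ^ 4) μ := (integrable_const 1).add hζ4
  have hζre : Measurable fun ω => (ζ ω).re := Complex.measurable_re.comp hζm
  have hζim : Measurable fun ω => (ζ ω).im := Complex.measurable_im.comp hζm
  have hIx : Integrable (fun ω => (ζ ω).re) μ := by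
    refine hI1.mono' hζre.aestronglyMeasurable (Eventually.of_forall fun ω => ?_)
    exact (Complex.abs_re_le_norm _).trans (OneBAux.t_le _)
  have hIy : Integrable (fun ω => (ζ ω).im) μ := by
    refine hI1.mono' hζim.aestronglyMeasurable (Eventually.of_forall fun ω => ?_)
    exact (Complex.abs_im_le_norm _).trans (OneBAux.t_le _)
  have hIxx : Integrable (fun ω => (ζ ω).re ^ 2) μ := by
    refine hI1.mono' (hζre.pow_const 2).aestronglyMeasurable (Eventually.of_forall fun ω => ?_)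
    rw [Real.norm_eq_abs, abs_of_nonneg (sq_nonneg _)]
    exact (OneBAux.re_sq_le _).trans (OneBAux.t2_le _)
  have hIyy : Integrable (fun ω => (ζ ω).im ^ 2) μ := by
    refine hI1.mono' (hζim.pow_const 2).aestronglyMeasurable (Eventually.of_forall fun ω => ?_)
    rw [Real.norm_eq_abs, abs_of_nonneg (sq_nonneg _)]
    exact (OneBAux.im_sq_le _).trans (OneBAux.t2_le _)
  have hIxy : Integrable (fun ω => (ζ ω).re * (ζ ω).im) μ := by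
    refine hI1.mono' (hζre.mul hζim).aestronglyMeasurable (Eventually.of_forall fun ω => ?_)
    rw [Real.norm_eq_abs, abs_mul]
    refine le_trans ?_ (OneBAux.t2_le ‖ζ ω‖)
    rw [sq]
    exact mul_le_mul (Complex.abs_re_le_norm _) (Complex.abs_im_le_norm _) (abs_nonneg _)
      (norm_nonneg _)
  have hI2 : Integrable (fun ω => ‖ζ ω‖ ^ 2) μ := by
    have e : (fun ω => ‖ζ ω‖ ^ 2) = fun ω => (ζ ω).re ^ 2 + (ζ ω).im ^ 2 :=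
      funext fun ω => OneBAux.norm_sq_eq _
    rw [e]
    exact hIxx.add hIyy
  have hm2 : ∫ ω, ‖ζ ω‖ ^ 2 ∂μ = (a + b) * h := by
    have e : (fun ω => ‖ζ ω‖ ^ 2) = fun ω => (ζ ω).re ^ 2 + (ζ ω).im ^ 2 :=
      funext fun ω => OneBAux.norm_sq_eq _
    rw [e, integral_add hIxx hIyy, hxx, hyy]
    ring
  -- coefficients
  obtain ⟨l1, hl1⟩ : ∃ l1, l1 = -(2 * s * z.re / ‖z‖ ^ 2)
      + 2 * (1 + a) * z.re / (z.re ^ 2 + a * ‖z‖ ^ 2) := ⟨_, rfl⟩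
  obtain ⟨l2, hl2⟩ : ∃ l2, l2 = -(2 * s * z.im / ‖z‖ ^ 2)
      + 2 * a * z.im / (z.re ^ 2 + a * ‖z‖ ^ 2) := ⟨_, rfl⟩
  obtain ⟨q1, hq1⟩ : ∃ q1, q1 = s / ‖z‖ ^ 2 - (1 + a) / (z.re ^ 2 + a * ‖z‖ ^ 2)
      + 4 * (1 + a) ^ 2 * z.re ^ 2 / (z.re ^ 2 + a * ‖z‖ ^ 2) ^ 2
      - 4 * s * (1 + a) * z.re ^ 2 / (‖z‖ ^ 2 * (z.re ^ 2 + a * ‖z‖ ^ 2)) := ⟨_, rfl⟩
  obtain ⟨q2, hq2⟩ : ∃ q2, q2 = 8 * (1 + a) * a * z.re * z.im / (z.re ^ 2 + a * ‖z‖ ^ 2) ^ 2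
      - 4 * s * (1 + 2 * a) * z.re * z.im / (‖z‖ ^ 2 * (z.re ^ 2 + a * ‖z‖ ^ 2)) := ⟨_, rfl⟩
  obtain ⟨q3, hq3⟩ : ∃ q3, q3 = s / ‖z‖ ^ 2 - a / (z.re ^ 2 + a * ‖z‖ ^ 2)
      + 4 * a ^ 2 * z.im ^ 2 / (z.re ^ 2 + a * ‖z‖ ^ 2) ^ 2
      - 4 * s * a * z.im ^ 2 / (‖z‖ ^ 2 * (z.re ^ 2 + a * ‖z‖ ^ 2)) := ⟨_, rfl⟩
  have hgen : q1 * a + q2 * c + q3 * b + driftT a s z ≤ -kk lam c₀ z := by
    rw [hq1, hq2, hq3]
    exact OneBAux.gen_le ha hb hc hab hs hs1 hl hc0 hz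
  have hlin : ∀ ω, linT a s z (ζ ω) = l1 * (ζ ω).re + l2 * (ζ ω).im := by
    intro ω
    rw [hl1, hl2]
    unfold linT
    ring
  have hquad : ∀ ω, quadT a s z (ζ ω)
      = q1 * (ζ ω).re ^ 2 + q2 * ((ζ ω).re * (ζ ω).im) + q3 * (ζ ω).im ^ 2 := by
    intro ω
    rw [hq1, hq2, hq3]
    exact OneBAux.quadT_eq _ _ _ _
  obtain ⟨F0, hF0⟩ : ∃ F0, F0 = FF a s δ z := ⟨_, rfl⟩
  have hF0m : Fm ≤ F0 := by
    rw [hF0, hFm]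
    exact OneBAux.FF_lower ha hs1 hδ hz1 hz2
  have hF00 : 0 < F0 := lt_of_lt_of_le hFm0 hF0m
  -- the integrable upper bound
  have hpt : ∀ ω, FF a s δ (z + 2 * h / z - ζ ω)
      ≤ (F0 * (1 + h * driftT a s z) + C₁ * (h * √h / 2 + h ^ 2))
        + ((F0 * l1) * (ζ ω).re + ((F0 * l2) * (ζ ω).im + ((F0 * q1) * (ζ ω).re ^ 2
        + ((F0 * q2) * ((ζ ω).re * (ζ ω).im) + ((F0 * q3) * (ζ ω).im ^ 2
        + ((C₁ * (√h + h)) * ‖ζ ω‖ ^ 2 + (C₁ * (1 / (2 * √h) + 1)) * ‖ζ ω‖ ^ 4)))))) := by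
    intro ω
    refine (H h hh hhh₁ z hz1 hz2 (ζ ω)).trans ?_
    have e1 := OneBAux.err_bound (t := ‖ζ ω‖) hh
    have e2 := mul_le_mul_of_nonneg_left e1 hC₁.le
    rw [hlin, hquad, ← hF0]
    linarith
  have hFFm : Measurable fun ω => FF a s δ (z + 2 * h / z - ζ ω) :=
    (OneBAux.FF_meas s δ).comp (measurable_const.sub hζm)
  have hFF0 : ∀ ω, 0 ≤ FF a s δ (z + 2 * h / z - ζ ω) := fun ω => OneBAux.FF_nonneg ha hδ _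
  have hFFi : Integrable (fun ω => FF a s δ (z + 2 * h / z - ζ ω)) μ := by
    refine (integrable_const ((δ / 2) ^ (2 * s - 2) / a)).mono' hFFm.aestronglyMeasurable
      (Eventually.of_forall fun ω => ?_)
    rw [Real.norm_eq_abs, abs_of_nonneg (hFF0 ω)]
    exact OneBAux.FF_le _ _ _
  rw [← ofReal_integral_eq_lintegral_ofReal hFFi (Eventually.of_forall hFF0)]
  refine ENNReal.ofReal_le_ofReal ?_
  rw [← hF0]
  have i7 : Integrable (fun ω => (C₁ * (1 / (2 * √h) + 1)) * ‖ζ ω‖ ^ 4) μ := hζ4.const_mul _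
  have i6 : Integrable (fun ω => (C₁ * (√h + h)) * ‖ζ ω‖ ^ 2) μ := hI2.const_mul _
  have i5 : Integrable (fun ω => (F0 * q3) * (ζ ω).im ^ 2) μ := hIyy.const_mul _
  have i4 : Integrable (fun ω => (F0 * q2) * ((ζ ω).re * (ζ ω).im)) μ := hIxy.const_mul _
  have i3 : Integrable (fun ω => (F0 * q1) * (ζ ω).re ^ 2) μ := hIxx.const_mul _
  have i2 : Integrable (fun ω => (F0 * l2) * (ζ ω).im) μ := hIy.const_mul _
  have i1 : Integrable (fun ω => (F0 * l1) * (ζ ω).re) μ := hIx.const_mul _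
  have i67 : Integrable (fun ω => (C₁ * (√h + h)) * ‖ζ ω‖ ^ 2 + (C₁ * (1 / (2 * √h) + 1)) * ‖ζ
      ω‖ ^ 4) μ :=
    i6.add i7
  have i567 : Integrable (fun ω => (F0 * q3) * (ζ ω).im ^ 2 + ((C₁ * (√h + h)) * ‖ζ ω‖ ^ 2 +
      (C₁ * (1 / (2 * √h) + 1)) * ‖ζ ω‖ ^ 4)) μ :=
    i5.add i67
  have i4567 : Integrable (fun ω => (F0 * q2) * ((ζ ω).re * (ζ ω).im) + ((F0 * q3) * (ζ ω).im
      ^ 2 + ((C₁ * (√h + h)) * ‖ζ ω‖ ^ 2 + (C₁ * (1 / (2 * √h) + 1)) * ‖ζ ω‖ ^ 4))) μ :=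
    i4.add i567
  have i34567 : Integrable (fun ω => (F0 * q1) * (ζ ω).re ^ 2 + ((F0 * q2) * ((ζ ω).re * (ζ
      ω).im) + ((F0 * q3) * (ζ ω).im ^ 2 + ((C₁ * (√h + h)) * ‖ζ ω‖ ^ 2 + (C₁ * (1 / (2 * √h) +
      1)) * ‖ζ ω‖ ^ 4)))) μ :=
    i3.add i4567
  have i234567 : Integrable (fun ω => (F0 * l2) * (ζ ω).im + ((F0 * q1) * (ζ ω).re ^ 2 + ((F0
      * q2) * ((ζ ω).re * (ζ ω).im) + ((F0 * q3) * (ζ ω).im ^ 2 + ((C₁ * (√h + h)) * ‖ζ ω‖ ^ 2 +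
      (C₁ * (1 / (2 * √h) + 1)) * ‖ζ ω‖ ^ 4))))) μ :=
    i2.add i34567
  have i1234567 : Integrable (fun ω => (F0 * l1) * (ζ ω).re + ((F0 * l2) * (ζ ω).im + ((F0 *
      q1) * (ζ ω).re ^ 2 + ((F0 * q2) * ((ζ ω).re * (ζ ω).im) + ((F0 * q3) * (ζ ω).im ^ 2 + ((C₁ *
      (√h + h)) * ‖ζ ω‖ ^ 2 + (C₁ * (1 / (2 * √h) + 1)) * ‖ζ ω‖ ^ 4)))))) μ :=
    i1.add i234567
  have hle := integral_mono hFFi ((integrable_const _).add i1234567) hpt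
  simp only [Pi.add_apply] at hle
  have hval : ∫ ω, ((F0 * (1 + h * driftT a s z) + C₁ * (h * √h / 2 + h ^ 2))
        + ((F0 * l1) * (ζ ω).re + ((F0 * l2) * (ζ ω).im + ((F0 * q1) * (ζ ω).re ^ 2
        + ((F0 * q2) * ((ζ ω).re * (ζ ω).im) + ((F0 * q3) * (ζ ω).im ^ 2
        + ((C₁ * (√h + h)) * ‖ζ ω‖ ^ 2 + (C₁ * (1 / (2 * √h) + 1)) * ‖ζ ω‖ ^ 4))))))) ∂μ
      = (F0 * (1 + h * driftT a s z) + C₁ * (h * √h / 2 + h ^ 2))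
        + ((F0 * q1) * (a * h) + ((F0 * q2) * (c * h) + ((F0 * q3) * (b * h)
        + ((C₁ * (√h + h)) * ((a + b) * h)
          + (C₁ * (1 / (2 * √h) + 1)) * ∫ ω, ‖ζ ω‖ ^ 4 ∂μ)))) := by
    rw [integral_add (integrable_const _) i1234567, integral_add i1 i234567,
      integral_add i2 i34567, integral_add i3 i4567, integral_add i4 i567, integral_add i5 i67,
      integral_add i6 i7]
    simp only [integral_const_mul, hx, hy, hxx, hyy, hxy, hm2, integral_const, probReal_univ,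
      one_smul, mul_zero, zero_add]
  rw [hval] at hle
  have herr := OneBAux.err_exp (a := a) (b := b) hh hh1 hK (by linarith) rfl h4
  have herr2 := mul_le_mul_of_nonneg_left herr hC₁.le
  have hG : F0 * h * (q1 * a + q2 * c + q3 * b + driftT a s z) ≤ F0 * h * (-kk lam c₀ z) :=
    mul_le_mul_of_nonneg_left hgen (by positivity)
  have hmain : ∫ ω, FF a s δ (z + 2 * h / z - ζ ω) ∂μ
      ≤ F0 * (1 + -(h * kk lam c₀ z)) + C₁ * ((4 + 2 * K) * (h * √h)) := by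
    linarith
  refine hmain.trans ?_
  have hexp : 1 + -(h * kk lam c₀ z) ≤ Real.exp (-(h * kk lam c₀ z)) := by
    rw [add_comm]
    exact Real.add_one_le_exp _
  have hkk := OneBAux.kk_bound (lam := lam) hc00 hδ hz1
  rw [← hκ] at hkk
  have hlow : Real.exp (-κ) ≤ Real.exp (-(h * kk lam c₀ z)) := by
    refine Real.exp_le_exp.2 (neg_le_neg ?_)
    calc h * kk lam c₀ z ≤ h * κ := mul_le_mul_of_nonneg_left ((le_abs_self _).trans hkk) hh.le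
      _ ≤ 1 * κ := mul_le_mul_of_nonneg_right hh1 hκ0
      _ = κ := one_mul _
  obtain ⟨E, hE⟩ : ∃ E, E = Real.exp (-(h * kk lam c₀ z)) := ⟨_, rfl⟩
  rw [← hE] at hexp hlow ⊢
  have hprod : Real.exp (-κ) * Fm ≤ E * F0 :=
    mul_le_mul hlow hF0m hFm0.le (by rw [hE]; positivity)
  have hD : 0 < Real.exp (-κ) * Fm := by positivity
  have hsq : 0 ≤ h * √h := by positivity
  have h5 : C₁ * ((4 + 2 * K) * (h * √h))
      ≤ C₁ * (4 + 2 * K) / (Real.exp (-κ) * Fm) * (h * √h) * (E * F0) := by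
    have e : C₁ * ((4 + 2 * K) * (h * √h))
        = C₁ * (4 + 2 * K) / (Real.exp (-κ) * Fm) * (h * √h) * (Real.exp (-κ) * Fm) := by
      field_simp
    rw [e]
    exact mul_le_mul_of_nonneg_left hprod (by positivity)
  have h6 : F0 * (1 + -(h * kk lam c₀ z)) ≤ F0 * E := mul_le_mul_of_nonneg_left hexp hF00.le
  linarith


end

end Pool.Agent.SLE
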