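import Pool.Agent.Lib.MP_c17912_pr.Defs
import Pool.Agent.Lib.MP_c17912_pr.OneB
import Pool.Agent.Lib.MP_c17912_pr.Disc
import Pool.Agent.Lib.MP_c17912_pr.Euler
import Pool.Agent.Lib.MP_c17912_pr.DrvSub

/-!
# Module SMG: the maximal inequality along the Loewner flow (MP_c17912_pr)
-/

set_option autoImplicit false

open MeasureTheory ProbabilityTheory Filter
open scoped NNReal ENNReal Topology

namespace Pool.Agent.SLE

noncomputable section

variable {Ω : Type*} [MeasurableSpace Ω] {μ : Measure Ω} {a b c K : ℝ} {W : ℝ → Ω → ℂ}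

namespace SmgAux

theorem measure_liminf_le {A : ℕ → Set Ω} {u : ℕ → ℝ≥0∞} {v : ℝ≥0∞}
    (hu : Tendsto u atTop (𝓝 v)) (h : ∀ᶠ n in atTop, μ (A n) ≤ u n) :
    μ (⋃ N : ℕ, ⋂ n ≥ N, A n) ≤ v := by
  have hmono : Monotone (fun N : ℕ => ⋂ n ≥ N, A n) := by
    intro N M hNM x hx
    simp only [Set.mem_iInter] at hx ⊢
    intro n hn
    exact hx n (le_trans hNM hn)
  have h1 : ∀ N : ℕ, μ (⋂ n ≥ N, A n) ≤ v := by
    intro N
    refine ge_of_tendsto hu ?_
    filter_upwards [h, eventually_ge_atTop N] with n hn hNn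
    refine le_trans (measure_mono ?_) hn
    intro x hx
    simp only [Set.mem_iInter] at hx
    exact hx n hNn
  exact le_of_tendsto (tendsto_measure_iUnion_atTop hmono) (Eventually.of_forall h1)

theorem continuousOn_kk (lam c₀ : ℝ) : ContinuousOn (kk lam c₀) {0}ᶜ := by
  unfold kk
  refine ContinuousOn.add (ContinuousOn.mul continuousOn_const ?_) ?_
  · refine Complex.continuous_re.comp_continuousOn ?_
    refine ContinuousOn.div continuousOn_const (continuousOn_id.pow 2) ?_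
    intro z hz
    exact pow_ne_zero 2 hz
  · refine ContinuousOn.div continuousOn_const (continuous_norm.continuousOn.pow 2) ?_
    intro z hz
    exact pow_ne_zero 2 (norm_ne_zero_iff.2 hz)

theorem measurable_kk (lam c₀ : ℝ) : Measurable (kk lam c₀) := by
  unfold kk
  refine Measurable.add (Measurable.mul measurable_const ?_) ?_
  · exact Complex.measurable_re.comp (measurable_const.div (measurable_id.pow_const 2))
  · exact measurable_const.div (measurable_norm.pow_const 2)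

theorem continuousOn_VV {a s : ℝ} (ha : 0 < a) (hs : 0 ≤ s) : ContinuousOn (VV a s) {0}ᶜ := by
  unfold VV
  refine ContinuousOn.div ?_ ?_ ?_
  · refine ContinuousOn.rpow_const (continuous_norm.continuousOn.pow 2) ?_
    intro z _
    exact Or.inr hs
  · fun_prop
  · intro z hz
    have h1 : 0 < ‖z‖ := norm_pos_iff.2 hz
    positivity

theorem measurable_VV (a s : ℝ) : Measurable (VV a s) := by
  unfold VV
  refine Measurable.div ?_ ?_
  · exact (measurable_norm.pow_const 2).pow_const s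
  · exact (Complex.measurable_re.pow_const 2).add (measurable_const.mul (measurable_norm.pow_const 2))

theorem VV_nonneg {a s : ℝ} (ha : 0 < a) (z : ℂ) : 0 ≤ VV a s z := by
  unfold VV
  positivity

theorem continuousOn_FF {a s δ : ℝ} (ha : 0 < a) (hs : 0 ≤ s) : ContinuousOn (FF a s δ) {0}ᶜ := by
  unfold FF
  exact ContinuousOn.inf (continuousOn_VV ha hs) continuousOn_const

theorem measurable_FF (a s δ : ℝ) : Measurable (FF a s δ) := by
  unfold FF
  exact (measurable_VV a s).min measurable_const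

theorem FF_nonneg {a s δ : ℝ} (ha : 0 < a) (hδ : 0 < δ) (z : ℂ) : 0 ≤ FF a s δ z := by
  unfold FF
  refine le_min (VV_nonneg ha z) ?_
  positivity

theorem FF_eq_VV {a s δ : ℝ} (ha : 0 < a) (hs1 : s ≤ 1) (hδ : 0 < δ) {z : ℂ} (hz : δ ≤ ‖z‖) :
    FF a s δ z = VV a s z := by
  unfold FF
  refine min_eq_left ?_
  have hz0 : 0 < ‖z‖ := lt_of_lt_of_le hδ hz
  have h1 : VV a s z ≤ (‖z‖ ^ 2) ^ s / (a * ‖z‖ ^ 2) := by
    unfold VV
    refine div_le_div_of_nonneg_left (by positivity) (by positivity) ?_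
    have := sq_nonneg z.re
    linarith
  have h2 : (‖z‖ ^ 2) ^ s / (a * ‖z‖ ^ 2) = ‖z‖ ^ (2 * s - 2) / a := by
    have e1 : (‖z‖ ^ 2) ^ s = ‖z‖ ^ (2 * s) := by
      rw [Real.rpow_mul hz0.le]
      norm_num
    have e2 : ‖z‖ ^ (2 * s - 2) = ‖z‖ ^ (2 * s) / ‖z‖ ^ 2 := by
      rw [Real.rpow_sub hz0]
      norm_num
    rw [e1, e2]
    field_simp
  rw [h2] at h1
  refine h1.trans ?_
  refine div_le_div_of_nonneg_right ?_ ha.le
  refine Real.rpow_le_rpow_of_nonpos (by positivity) ?_ (by linarith)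
  linarith

theorem pow_le_exp {C h : ℝ} (hC : 0 ≤ C) (hh : 0 ≤ h) (N : ℕ) :
    (1 + C * (h * √h)) ^ N ≤ Real.exp (C * (N * h) * √h) := by
  have h1 : 1 + C * (h * √h) ≤ Real.exp (C * (h * √h)) := by
    have := Real.add_one_le_exp (C * (h * √h))
    linarith
  calc (1 + C * (h * √h)) ^ N ≤ Real.exp (C * (h * √h)) ^ N :=
        pow_le_pow_left₀ (by positivity) h1 N
    _ = Real.exp (C * (N * h) * √h) := by
        rw [← Real.exp_nat_mul]
        congr 1
        ring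

/-- the events for one annulus -/
theorem one_annulus [IsProbabilityMeasure μ] (hW : Drv a b c K W μ) {s lam c₀ m : ℝ} (ha : 0 < a)
    (hab : a + b ≤ 1 / 1000) (hs : 3 / 4 ≤ s) (hs1 : s ≤ 1) (hl : 4 * s - 2 * lam = 7 / 2)
    (hc00 : 0 ≤ c₀) (hc0 : c₀ ≤ 1 / 4) {z₀ : ℂ} (hm : 0 < m) (l : ℕ) :
    ∃ A : Set Ω, MeasurableSet[Fut W 0] A ∧ μ A ≤ ENNReal.ofReal (VV a s z₀ / m) ∧
      ∀ ω ∉ A, ∀ t g, 0 ≤ t → t ≤ 2 ^ l → Sol (fun t => W t ω) z₀ t g →
        (∀ u ∈ Set.Icc 0 t, (1 / 2) ^ l < ‖g u - W u ω‖ ∧ ‖g u - W u ω‖ < 2 ^ l) →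
        Real.exp (∫ u in (0 : ℝ)..t, kk lam c₀ (g u - W u ω)) * VV a s (g t - W t ω) ≤ m := by
  classical
  have hs0 : (0 : ℝ) ≤ s := by linarith
  set δ : ℝ := (1 / 2) ^ l with hδdef
  have hδ : 0 < δ := by positivity
  set R : ℝ := 2 ^ l with hRdef
  have hδR : δ ≤ R := by
    have h1 : δ ≤ 1 := pow_le_one₀ (by norm_num) (by norm_num)
    have h2 : (1 : ℝ) ≤ R := one_le_pow₀ (by norm_num)
    linarith
  obtain ⟨C, hC, h₀, hh₀, hone⟩ := one_step (μ := μ) (a := a) (b := b) (c := c) (K := K)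
    ha hW.b_nonneg hW.c_sq hW.K_nonneg hab hs hs1 hl hc00 hc0 hδ hδR
  have key : ∀ n : ℕ, ∃ A : Set Ω, MeasurableSet[Fut W 0] A ∧
      ((1 / 2 : ℝ) ^ n ≤ h₀ →
        μ A ≤ ENNReal.ofReal (Real.exp (C * 2 ^ l * √((1 / 2 : ℝ) ^ n)) * (VV a s z₀ / m)) ∧
        ∀ ω, ∀ j : ℕ, (j : ℝ) * (1 / 2) ^ n ≤ 2 ^ l →
        (∀ i ≤ j, δ ≤ ‖eul (fun t => W t ω) z₀ ((1 / 2) ^ n) i‖ ∧
          ‖eul (fun t => W t ω) z₀ ((1 / 2) ^ n) i‖ ≤ R) →
        m ≤ Real.exp (∑ i ∈ Finset.range j,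
              (1 / 2) ^ n * kk lam c₀ (eul (fun t => W t ω) z₀ ((1 / 2) ^ n) i))
          * FF a s δ (eul (fun t => W t ω) z₀ ((1 / 2) ^ n) j) → ω ∈ A) := by
    intro n
    by_cases hn : (1 / 2 : ℝ) ^ n ≤ h₀
    · set h : ℝ := (1 / 2) ^ n with hhdef
      have hh : 0 < h := by positivity
      have hq : 1 ≤ 1 + C * (h * √h) := by
        have : 0 ≤ C * (h * √h) := by positivity
        linarith
      obtain ⟨A, hA1, hA2, hA3⟩ := disc_max hW (h := h) (q := 1 + C * (h * √h)) (δ := δ) (R := R)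
        (m := m) hh hq hδ hm (k := kk lam c₀) (F := FF a s δ) (measurable_kk lam c₀)
        (measurable_FF a s δ) (FF_nonneg ha hδ) (by
          intro z s' hz1 hz2 hs'
          have hle : s' ≤ s' + h := by linarith
          have e : s' + h - s' = h := by ring
          refine hone h hh hn z hz1 hz2 (fun ω => W (s' + h) ω - W s' ω)
            ((hW.meas _).sub (hW.meas _)) (hW.int4 s' (s' + h) hs' hle)
            (hW.m1x s' (s' + h) hs' hle) (hW.m1y s' (s' + h) hs' hle) ?_ ?_ ?_ ?_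
          · have := hW.m2x s' (s' + h) hs' hle
            rwa [e] at this
          · have := hW.m2y s' (s' + h) hs' hle
            rwa [e] at this
          · have := hW.m2c s' (s' + h) hs' hle
            rwa [e] at this
          · have := hW.m4 s' (s' + h) hs' hle
            rwa [e] at this) z₀ (2 ^ (l + n))
      have hNh : (((2 ^ (l + n) : ℕ) : ℝ)) * h = 2 ^ l := by
        rw [hhdef]
        push_cast
        rw [pow_add, mul_assoc, ← mul_pow]
        norm_num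
      refine ⟨A, Blk_le_Fut 0 _ A hA1, fun _ => ⟨?_, ?_⟩⟩
      · refine hA2.trans (ENNReal.ofReal_le_ofReal ?_)
        have e1 := pow_le_exp hC.le hh.le (2 ^ (l + n))
        rw [hNh] at e1
        have e2 : FF a s δ z₀ ≤ VV a s z₀ := min_le_left _ _
        rw [mul_div_assoc]
        refine mul_le_mul e1 ?_ (div_nonneg (FF_nonneg ha hδ _) hm.le) (Real.exp_pos _).le
        exact div_le_div_of_nonneg_right e2 hm.le
      · intro ω j hj h1 h2
        refine hA3 ω j ?_ h1 h2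
        have h3 : (j : ℝ) * h ≤ ((2 ^ (l + n) : ℕ) : ℝ) * h := by
          rw [hNh]
          exact hj
        have h4 := le_of_mul_le_mul_right h3 hh
        exact_mod_cast h4
    · exact ⟨∅, @MeasurableSet.empty _ (Fut W 0), fun h => absurd h hn⟩
  choose A hA using key
  have hlim : Tendsto (fun n : ℕ => (1 / 2 : ℝ) ^ n) atTop (𝓝 0) :=
    tendsto_pow_atTop_nhds_zero_of_lt_one (by norm_num) (by norm_num)
  have hev : ∀ᶠ n : ℕ in atTop, (1 / 2 : ℝ) ^ n ≤ h₀ := hlim.eventually (ge_mem_nhds hh₀)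
  refine ⟨⋃ N : ℕ, ⋂ n ≥ N, A n, ?_, ?_, ?_⟩
  · refine @MeasurableSet.iUnion _ _ (Fut W 0) _ _ (fun N => ?_)
    refine @MeasurableSet.iInter _ _ (Fut W 0) _ _ (fun n => ?_)
    exact @MeasurableSet.iInter _ _ (Fut W 0) _ _ (fun _ => (hA n).1)
  · refine measure_liminf_le (u := fun n => ENNReal.ofReal
      (Real.exp (C * 2 ^ l * √((1 / 2 : ℝ) ^ n)) * (VV a s z₀ / m))) ?_ ?_
    · refine ENNReal.tendsto_ofReal ?_
      have h1 : Tendsto (fun n : ℕ => √((1 / 2 : ℝ) ^ n)) atTop (𝓝 0) := by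
        have h0 := (Real.continuous_sqrt.tendsto 0).comp hlim
        rw [Real.sqrt_zero] at h0
        exact h0
      have h2 : Tendsto (fun n : ℕ => Real.exp (C * 2 ^ l * √((1 / 2 : ℝ) ^ n))) atTop (𝓝 1) := by
        have h3 : Tendsto (fun n : ℕ => C * 2 ^ l * √((1 / 2 : ℝ) ^ n)) atTop (𝓝 0) := by
          have h4 := h1.const_mul (C * 2 ^ l)
          rw [mul_zero] at h4
          exact h4
        have h5 := (Real.continuous_exp.tendsto 0).comp h3
        rw [Real.exp_zero] at h5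
        exact h5
      have h6 := h2.mul_const (VV a s z₀ / m)
      rw [one_mul] at h6
      exact h6
    · filter_upwards [hev] with n hn
      exact ((hA n).2 hn).1
  · intro ω hω t g ht htT hsol hr
    by_contra hcon
    push Not at hcon
    apply hω
    have hFV : FF a s δ (g t - W t ω) = VV a s (g t - W t ω) :=
      FF_eq_VV ha hs1 hδ (hr t ⟨ht, le_rfl⟩).1.le
    rw [← hFV] at hcon
    have hE := euler_event (U := fun t => W t ω) (hW.cont ω) (hW.zero 0 le_rfl ω)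
      (k := kk lam c₀) (F := FF a s δ) (continuousOn_kk lam c₀) (continuousOn_FF ha hs0)
      (z := z₀) (g := g) (t := t) (T := 2 ^ l) (δ := δ) (R := R) (m := m) ht htT hδ hsol hr hcon
    obtain ⟨N, hN⟩ := eventually_atTop.1 (hE.and hev)
    refine Set.mem_iUnion.2 ⟨N, ?_⟩
    simp only [Set.mem_iInter]
    intro n hn
    obtain ⟨⟨j, hj1, hj2, hj3⟩, hn2⟩ := hN n hn
    exact ((hA n).2 hn2).2 ω j hj1 hj2 hj3

end SmgAux

open SmgAux in
/-- D4 SMG. The maximal inequality along the Loewner flow. -/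
theorem smg [IsProbabilityMeasure μ] (hW : Drv a b c K W μ) {s lam c₀ m : ℝ} (ha : 0 < a)
    (hab : a + b ≤ 1 / 1000) (hs : 3 / 4 ≤ s) (hs1 : s ≤ 1) (hl : 4 * s - 2 * lam = 7 / 2)
    (hc00 : 0 ≤ c₀) (hc0 : c₀ ≤ 1 / 4) {z₀ : ℂ} (hz : z₀ ≠ 0) (hm : 0 < m) :
    ∃ A, MeasurableSet[Fut W 0] A ∧ μ A ≤ ENNReal.ofReal (VV a s z₀ / m) ∧
      ∀ ω ∉ A, ∀ t g, 0 ≤ t → Sol (fun t => W t ω) z₀ t g →
        Real.exp (∫ u in (0 : ℝ)..t, kk lam c₀ (g u - W u ω)) * VV a s (g t - W t ω) ≤ m := by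
  have key := fun l : ℕ => one_annulus (z₀ := z₀) hW ha hab hs hs1 hl hc00 hc0 hm l
  choose A hA1 hA2 hA3 using key
  refine ⟨⋃ N : ℕ, ⋂ n ≥ N, A n, ?_, ?_, ?_⟩
  · refine @MeasurableSet.iUnion _ _ (Fut W 0) _ _ (fun N => ?_)
    refine @MeasurableSet.iInter _ _ (Fut W 0) _ _ (fun n => ?_)
    exact @MeasurableSet.iInter _ _ (Fut W 0) _ _ (fun _ => hA1 n)
  · exact measure_liminf_le tendsto_const_nhds (Eventually.of_forall hA2)
  · intro ω hω t g ht hsol
    by_contra hcon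
    apply hω
    have hg : ContinuousOn g (Set.Icc 0 t) := fun u hu => (hsol.2.2 u hu).continuousWithinAt
    have hcont : ContinuousOn (fun u => ‖g u - W u ω‖) (Set.Icc 0 t) :=
      (hg.sub (hW.cont ω).continuousOn).norm
    have hne : (Set.Icc 0 t).Nonempty := ⟨0, le_rfl, ht⟩
    obtain ⟨u₁, hu₁, hmin⟩ := isCompact_Icc.exists_isMinOn hne hcont
    obtain ⟨u₂, hu₂, hmax⟩ := isCompact_Icc.exists_isMaxOn hne hcont
    have hpos : 0 < ‖g u₁ - W u₁ ω‖ := norm_pos_iff.2 (sub_ne_zero.2 (hsol.2.1 u₁ hu₁))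
    have hlim : Tendsto (fun n : ℕ => (1 / 2 : ℝ) ^ n) atTop (𝓝 0) :=
      tendsto_pow_atTop_nhds_zero_of_lt_one (by norm_num) (by norm_num)
    have hlim2 : Tendsto (fun n : ℕ => (2 : ℝ) ^ n) atTop atTop :=
      tendsto_pow_atTop_atTop_of_one_lt (by norm_num)
    obtain ⟨N, hN⟩ := eventually_atTop.1 (((hlim.eventually (gt_mem_nhds hpos)).and
      (hlim2.eventually_gt_atTop ‖g u₂ - W u₂ ω‖)).and (hlim2.eventually_ge_atTop t))
    refine Set.mem_iUnion.2 ⟨N, ?_⟩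
    simp only [Set.mem_iInter]
    intro l hln
    obtain ⟨⟨h1, h2⟩, h3⟩ := hN l hln
    by_contra hωl
    exact hcon (hA3 l ω hωl t g ht h3 hsol (fun u hu =>
      ⟨lt_of_lt_of_le h1 (hmin hu), lt_of_le_of_lt (hmax hu) h2⟩))

end

end Pool.Agent.SLE
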