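import Pool.Agent.Lib.MP_c17912_pr.Reach
import Pool.Agent.Lib.MP_c17912_pr.Ball
import Pool.Agent.Lib.MP_c17912_pr.Smg

/-!
# SLE module HIT (MP_c17912_pr): a small ball around a real point is hardly ever hit
-/

set_option autoImplicit false

open MeasureTheory ProbabilityTheory Filter
open scoped NNReal ENNReal Topology

namespace Pool.Agent.SLE

noncomputable section

variable {Ω : Type*} [MeasurableSpace Ω] {μ : Measure Ω} {a b c K : ℝ} {W : ℝ → Ω → ℂ}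

namespace HitAux

/-- Continuity of the distance vector to the tip. -/
theorem cont_Z {U : ℝ → ℂ} (hU : Continuous U) {z : ℂ} {t : ℝ} {g : ℝ → ℂ} (h : Sol U z t g) :
    ContinuousOn (fun s => g s - U s) (Set.Icc 0 t) := fun s hs =>
  ((h.2.2 s hs).continuousWithinAt).sub hU.continuousWithinAt

/-- Lower bound for `VV`. -/
theorem VV_ge {a s : ℝ} (ha : 0 < a) {z : ℂ} (hz : z ≠ 0) :
    ‖z‖ ^ (2 * s - 2) / (1 + a) ≤ VV a s z := by
  have hn : 0 < ‖z‖ := norm_pos_iff.2 hz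
  have h1 : z.re ^ 2 ≤ ‖z‖ ^ 2 := by
    rw [← sq_abs z.re]; exact pow_le_pow_left₀ (abs_nonneg _) (Complex.abs_re_le_norm z) 2
  have h2 : (‖z‖ ^ 2) ^ s = ‖z‖ ^ (2 * s - 2) * ‖z‖ ^ 2 := by
    rw [← Real.rpow_natCast ‖z‖ 2, ← Real.rpow_mul hn.le, ← Real.rpow_add hn]; norm_num
  unfold VV
  rw [h2, div_le_div_iff₀ (by positivity) (by positivity), mul_assoc]
  have h3 : 0 < ‖z‖ ^ (2 * s - 2) := Real.rpow_pos_of_pos hn _
  refine mul_le_mul_of_nonneg_left ?_ h3.le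
  nlinarith

/-- `VV` at a real point. -/
theorem VV_real {a s x : ℝ} (ha : 0 < a) (hx : x ≠ 0) :
    VV a s (x : ℂ) = |x| ^ (2 * s - 2) / (1 + a) := by
  have hn : 0 < |x| := abs_pos.2 hx
  have h2 : (|x| ^ 2) ^ s = |x| ^ (2 * s - 2) * |x| ^ 2 := by
    rw [← Real.rpow_natCast |x| 2, ← Real.rpow_mul hn.le, ← Real.rpow_add hn]; norm_num
  unfold VV
  rw [Complex.norm_real, Real.norm_eq_abs, Complex.ofReal_re, h2, div_eq_div_iff
    (by positivity) (by positivity), ← sq_abs x]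
  ring

end HitAux

open HitAux in
/-- D5 HIT. -/
theorem hit [IsProbabilityMeasure μ] (hW : Drv a b c K W μ) (ha : 0 < a)
    (hab : a + b ≤ 1 / 1000) {x ρ : ℝ} (hx : x ≠ 0) (hρ : 0 < ρ) :
    ∃ A, MeasurableSet[Fut W 0] A ∧ μ A ≤ ENNReal.ofReal ((8 * ρ) ^ (1 / 8 : ℝ)) ∧
      ∀ ω ∉ A, ∀ w : ℂ, ‖w - x‖ ≤ ρ * |x| → ∀ t, 0 ≤ t → ∃ g, Sol (fun t => W t ω) w t g := by
  rcases le_or_gt 1 (8 * ρ) with h8 | h8
  · refine ⟨Set.univ, MeasurableSet.univ, ?_, fun ω hω => absurd (Set.mem_univ ω) hω⟩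
    rw [measure_univ]
    rw [← ENNReal.ofReal_one]
    exact ENNReal.ofReal_le_ofReal (Real.one_le_rpow h8 (by norm_num))
  have hn : 0 < |x| := abs_pos.2 hx
  have hxc : (x : ℂ) ≠ 0 := by exact_mod_cast hx
  have ha1 : 0 < 1 + a := by linarith
  set M : ℝ := 1 / (8 * ρ) with hM
  have hMp : 0 < M := by rw [hM]; positivity
  set m₁ : ℝ := (M / |x|) ^ (1 / 8 : ℝ) / (1 + a) with hm₁
  have hm₁p : 0 < m₁ := by rw [hm₁]; positivity
  obtain ⟨A₁, hA₁, hμ₁, hA₁'⟩ := smg (s := 15 / 16) (lam := 1 / 8) (c₀ := 1 / 4) hW ha hab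
    (by norm_num) (by norm_num) (by norm_num) (by norm_num) (by norm_num) hxc hm₁p
  have hex : ∀ n : ℕ, ∃ A, MeasurableSet[Fut W 0] A ∧
      μ A ≤ ENNReal.ofReal (VV a (7 / 8) (x : ℂ) / ((n : ℝ) + 1)) ∧
      ∀ ω ∉ A, ∀ t g, 0 ≤ t → Sol (fun t => W t ω) (x : ℂ) t g →
        Real.exp (∫ u in (0 : ℝ)..t, kk 0 0 (g u - W u ω)) * VV a (7 / 8) (g t - W t ω)
          ≤ (n : ℝ) + 1 := fun n =>
    smg (s := 7 / 8) (lam := 0) (c₀ := 0) hW ha hab
      (by norm_num) (by norm_num) (by norm_num) (by norm_num) (by norm_num) hxc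
      (by positivity)
  choose B hB hμB hB' using hex
  -- the null set
  have hnull : μ (⋂ n, B n) = 0 := by
    refine le_antisymm (le_of_forall_pos_le_add ?_) bot_le
    intro ε hε
    rw [zero_add]
    have hlim : Tendsto (fun n : ℕ => ENNReal.ofReal (VV a (7 / 8) (x : ℂ) / ((n : ℝ) + 1)))
        atTop (𝓝 0) := by
      rw [← ENNReal.ofReal_zero]
      refine ENNReal.tendsto_ofReal ?_
      exact tendsto_const_nhds.div_atTop (tendsto_natCast_atTop_atTop.atTop_add tendsto_const_nhds)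
    obtain ⟨n, hn'⟩ := (hlim.eventually (ge_mem_nhds hε)).exists
    exact ((measure_mono (Set.iInter_subset B n)).trans (hμB n)).trans hn'
  refine ⟨A₁ ∪ ⋂ n, B n, hA₁.union (MeasurableSet.iInter hB), ?_, ?_⟩
  · refine (measure_union_le _ _).trans ?_
    rw [hnull, add_zero]
    refine hμ₁.trans (le_of_eq ?_)
    congr 1
    rw [VV_real ha hx, hm₁, div_div_div_cancel_right₀ ha1.ne', hM]
    rw [Real.div_rpow (by positivity) hn.le, one_div (8 * ρ), Real.inv_rpow (by positivity)]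
    have e1 : |x| ^ (2 * (15 / 16 : ℝ) - 2) = (|x| ^ (1 / 8 : ℝ))⁻¹ := by
      rw [← Real.rpow_neg hn.le]; norm_num
    rw [e1]
    have h3 : 0 < |x| ^ (1 / 8 : ℝ) := Real.rpow_pos_of_pos hn _
    have h4 : 0 < (8 * ρ) ^ (1 / 8 : ℝ) := Real.rpow_pos_of_pos (by positivity) _
    field_simp
  intro ω hω w hw
  rw [Set.mem_union, not_or, Set.mem_iInter, not_forall] at hω
  obtain ⟨hω1, n, hωn⟩ := hω
  have hU : Continuous fun t => W t ω := hW.cont ω
  have hU0 : W 0 ω = 0 := hW.zero 0 le_rfl ω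
  -- lower bound for the distance
  have hZne : ∀ t g, 0 ≤ t → Sol (fun t => W t ω) (x : ℂ) t g → ∀ s ∈ Set.Icc 0 t,
      g s - W s ω ≠ 0 := fun t g _ h s hs => sub_ne_zero.2 (h.2.1 s hs)
  have hlow : ∀ t g, 0 ≤ t → Sol (fun t => W t ω) (x : ℂ) t g →
      (((1 + a) * ((n : ℝ) + 1)) ^ 4)⁻¹ ≤ ‖g t - W t ω‖ := by
    intro t g ht hg
    have h1 := hB' n ω hωn t g ht hg
    have hz := hZne t g ht hg t ⟨ht, le_rfl⟩
    have hzn : 0 < ‖g t - W t ω‖ := norm_pos_iff.2 hz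
    have hk : ∀ z : ℂ, kk 0 0 z = 0 := fun z => by simp [kk]
    simp only [hk, intervalIntegral.integral_zero, Real.exp_zero, one_mul] at h1
    have h2 := (VV_ge (s := 7 / 8) ha hz).trans h1
    rw [div_le_iff₀ ha1] at h2
    have e1 : ‖g t - W t ω‖ ^ (2 * (7 / 8 : ℝ) - 2) = (‖g t - W t ω‖ ^ (1 / 4 : ℝ))⁻¹ := by
      rw [← Real.rpow_neg hzn.le]; norm_num
    rw [e1] at h2
    have h3 : 0 < ‖g t - W t ω‖ ^ (1 / 4 : ℝ) := Real.rpow_pos_of_pos hzn _
    have h4 : ((1 + a) * ((n : ℝ) + 1))⁻¹ ≤ ‖g t - W t ω‖ ^ (1 / 4 : ℝ) := by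
      rw [inv_le_comm₀ (by positivity) h3]
      linarith
    have h5 := pow_le_pow_left₀ (by positivity) h4 4
    rw [inv_pow, ← Real.rpow_natCast (‖g t - W t ω‖ ^ (1 / 4 : ℝ)), ← Real.rpow_mul hzn.le] at h5
    have e2 : (1 / 4 : ℝ) * ((4 : ℕ) : ℝ) = 1 := by norm_num
    rwa [e2, Real.rpow_one] at h5
  -- the point `x` is never absorbed
  have hal : ∀ t, 0 ≤ t → ∃ g, Sol (fun t => W t ω) (x : ℂ) t g := by
    intro t ht
    by_contra hcon
    set δ : ℝ := min (|x| / 2) ((((1 + a) * ((n : ℝ) + 1)) ^ 4)⁻¹ / 2) with hδ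
    have hp : 0 < (((1 + a) * ((n : ℝ) + 1)) ^ 4)⁻¹ := by positivity
    have hδp : 0 < δ := lt_min (by positivity) (by positivity)
    have hδx : δ < ‖(x : ℂ) - W 0 ω‖ := by
      rw [hU0, sub_zero, Complex.norm_real, Real.norm_eq_abs]
      exact (min_le_left _ _).trans_lt (by linarith)
    obtain ⟨s, hs, g, hg, hgs⟩ := hull_reach hU ht hcon hδp hδx
    have h1 := hlow s g hs.1 hg
    have h2 : δ < (((1 + a) * ((n : ℝ) + 1)) ^ 4)⁻¹ :=
      (min_le_right _ _).trans_lt (by linarith)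
    linarith
  have hb : ∀ t g, 0 ≤ t → Sol (fun t => W t ω) (x : ℂ) t g →
      Real.exp (-∫ s in (0 : ℝ)..t, (2 / (g s - W s ω) ^ 2).re)
        ≤ M / ‖(x : ℂ)‖ * ‖g t - W t ω‖
          * Real.exp (-2 * ∫ s in (0 : ℝ)..t, 1 / ‖g s - W s ω‖ ^ 2) := by
    intro t g ht hg
    have hz := hZne t g ht hg t ⟨ht, le_rfl⟩
    have hzn : 0 < ‖g t - W t ω‖ := norm_pos_iff.2 hz
    have hc := cont_Z hU hg
    have hi1 : IntervalIntegrable (fun s => (1 / (g s - W s ω) ^ 2).re) volume 0 t := by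
      refine ContinuousOn.intervalIntegrable ?_
      rw [Set.uIcc_of_le ht]
      refine Complex.continuous_re.comp_continuousOn ?_
      exact continuousOn_const.div (hc.pow 2) fun s hs => pow_ne_zero 2 (hZne t g ht hg s hs)
    have hi2 : IntervalIntegrable (fun s => 1 / ‖g s - W s ω‖ ^ 2) volume 0 t := by
      refine ContinuousOn.intervalIntegrable ?_
      rw [Set.uIcc_of_le ht]
      exact continuousOn_const.div (hc.norm.pow 2) fun s hs =>
        pow_ne_zero 2 (norm_ne_zero_iff.2 (hZne t g ht hg s hs))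
    have h1 := hA₁' ω hω1 t g ht hg
    have hI : (∫ u in (0 : ℝ)..t, kk (1 / 8) (1 / 4) (g u - W u ω))
        = -(1 / 4) * (∫ s in (0 : ℝ)..t, (1 / (g s - W s ω) ^ 2).re)
          + (1 / 4) * ∫ s in (0 : ℝ)..t, 1 / ‖g s - W s ω‖ ^ 2 := by
      rw [← intervalIntegral.integral_const_mul, ← intervalIntegral.integral_const_mul,
        ← intervalIntegral.integral_add (hi1.const_mul _) (hi2.const_mul _)]
      refine intervalIntegral.integral_congr fun s _ => ?_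
      simp only [kk]
      ring
    have hJ : (∫ s in (0 : ℝ)..t, (2 / (g s - W s ω) ^ 2).re)
        = 2 * ∫ s in (0 : ℝ)..t, (1 / (g s - W s ω) ^ 2).re := by
      rw [← intervalIntegral.integral_const_mul]
      refine intervalIntegral.integral_congr fun s _ => ?_
      have : (2 / (g s - W s ω) ^ 2 : ℂ) = ((2 : ℝ) : ℂ) * (1 / (g s - W s ω) ^ 2) := by
        push_cast; ring
      rw [this, Complex.re_ofReal_mul]
    set I := ∫ s in (0 : ℝ)..t, (1 / (g s - W s ω) ^ 2).re with hIdef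
    set τ := ∫ s in (0 : ℝ)..t, 1 / ‖g s - W s ω‖ ^ 2 with hτdef
    rw [hI] at h1
    have h2 : Real.exp (-(1 / 4) * I + 1 / 4 * τ) * (‖g t - W t ω‖ ^ (1 / 8 : ℝ))⁻¹
        ≤ (M / |x|) ^ (1 / 8 : ℝ) := by
      have h3 := VV_ge (s := 15 / 16) ha hz
      have e1 : ‖g t - W t ω‖ ^ (2 * (15 / 16 : ℝ) - 2) = (‖g t - W t ω‖ ^ (1 / 8 : ℝ))⁻¹ := by
        rw [← Real.rpow_neg hzn.le]; norm_num
      rw [e1] at h3
      have h4 := (mul_le_mul_of_nonneg_left h3 (Real.exp_pos (-(1 / 4) * I + 1 / 4 * τ)).le).trans h1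
      rw [hm₁, ← mul_div_assoc, div_le_div_iff_of_pos_right ha1] at h4
      exact h4
    have h3 : Real.exp (-(1 / 4) * I + 1 / 4 * τ)
        ≤ (M / |x|) ^ (1 / 8 : ℝ) * ‖g t - W t ω‖ ^ (1 / 8 : ℝ) := by
      have h4 : 0 < ‖g t - W t ω‖ ^ (1 / 8 : ℝ) := Real.rpow_pos_of_pos hzn _
      rwa [← div_eq_mul_inv, div_le_iff₀ h4] at h2
    have h4 := pow_le_pow_left₀ (Real.exp_pos _).le h3 8
    rw [← Real.mul_rpow (by positivity) hzn.le, ← Real.exp_nat_mul,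
      ← Real.rpow_natCast (((M / |x|) * ‖g t - W t ω‖) ^ (1 / 8 : ℝ)),
      ← Real.rpow_mul (by positivity)] at h4
    norm_num at h4
    rw [hJ, Complex.norm_real, Real.norm_eq_abs]
    have h5 : Real.exp (-(2 * I)) = Real.exp (8 * (-(1 / 4) * I + 1 / 4 * τ))
        * Real.exp (-2 * τ) := by
      rw [← Real.exp_add]; congr 1; ring
    rw [h5]
    refine mul_le_mul_of_nonneg_right ?_ (Real.exp_pos _).le
    convert h4 using 2
    norm_num
  refine ball_alive hU hU0 hxc hρ.le ?_ hal hb ?_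
  · rw [hM, mul_one_div_cancel (by positivity)]
  · rw [Complex.norm_real, Real.norm_eq_abs]
    exact hw

end

end Pool.Agent.SLE
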