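import Pool.Agent.Lib.MP_c17912_pr.Maxi
import Pool.Agent.Lib.MP_c17912_pr.DrvSub
import Pool.Agent.Lib.MP_c17912_pr.Flow
import Pool.Agent.Lib.MP_c17912_pr.BadSmall
import Pool.Agent.Lib.MP_c17912_pr.Clus
import Pool.Agent.Lib.MP_c17912_pr.Hit
import Pool.Agent.Lib.MP_c17912_pr.Azero

/-!
# MP_c17912_pr: the main event (module MAIN)

Outside an event of probability at most `1 / 2` every point of the unit disc which is alive at
time `T₀` is alive for ever, if the trace of the covariance matrix is small.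
-/

set_option autoImplicit false

open MeasureTheory ProbabilityTheory Filter
open scoped NNReal ENNReal Topology

namespace Pool.Agent.SLE

noncomputable section

variable {Ω : Type*} [MeasurableSpace Ω] {μ : Measure Ω} {a b c K : ℝ} {W : ℝ → Ω → ℂ}

namespace MainAux

/-- HIT and AZERO together. -/
theorem hit_all [IsProbabilityMeasure μ] (hW : Drv a b c K W μ)
    (hab : a + b ≤ 1 / 1000) {x ρ : ℝ} (hx : x ≠ 0) (hρ : 0 < ρ) (hρ1 : ρ < 1) :
    ∃ A, MeasurableSet[Fut W 0] A ∧ μ A ≤ ENNReal.ofReal ((8 * ρ) ^ (1 / 8 : ℝ)) ∧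
      ∀ ω ∉ A, ∀ w : ℂ, ‖w - x‖ ≤ ρ * |x| → ∀ t, 0 ≤ t → ∃ g, Sol (fun t => W t ω) w t g := by
  rcases hW.a_nonneg.eq_or_lt with ha | ha
  · subst ha
    obtain ⟨A, hA, hA0, hA1⟩ := hit_zero hW
    refine ⟨A, hA, by rw [hA0]; exact bot_le, fun ω hω w hw t ht => hA1 ω hω w ?_ t ht⟩
    intro h0
    have h1 : |(w - x).re| ≤ ‖w - x‖ := Complex.abs_re_le_norm _
    have h2 : (w - x).re = -x := by simp [h0]
    rw [h2, abs_neg] at h1
    have h3 : 0 < |x| := abs_pos.mpr hx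
    nlinarith
  · exact hit hW ha hab hx hρ

/-- The number `56 * 8 ^ 8`, the square root of the time `T₀`. -/
def SS : ℝ := 56 * 8 ^ 8

theorem SS_pos : 0 < SS := by unfold SS; positivity

theorem SS_ge : 56 ≤ SS := by unfold SS; norm_num

theorem rho_pow : (8 * (7 / SS)) ^ (1 / 8 : ℝ) = 1 / 8 := by
  have h : 8 * (7 / SS) = (1 / 8 : ℝ) ^ (8 : ℝ) := by
    rw [show (8 : ℝ) = ((8 : ℕ) : ℝ) by norm_num, Real.rpow_natCast]
    unfold SS
    norm_num
  rw [h, ← Real.rpow_mul (by norm_num)]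
  norm_num

end MainAux

open MainAux in
/-- E1 MAIN. -/
theorem main_event : ∃ κ₀ > 0, ∃ T₀ > 0, ∀ (Ω : Type*) [MeasurableSpace Ω] (μ : Measure Ω)
    [IsProbabilityMeasure μ] (a b c K : ℝ) (W : ℝ → Ω → ℂ), Drv a b c K W μ → a + b ≤ κ₀ →
      ∃ A, MeasurableSet[Fut W 0] A ∧ μ A ≤ ENNReal.ofReal (1 / 2) ∧
        ∀ ω ∉ A, ∀ z : ℂ, ‖z‖ < 1 → (∃ g, Sol (fun t => W t ω) z T₀ g) →
          ∀ t, 0 ≤ t → ∃ g, Sol (fun t => W t ω) z t g := by
  have hS := SS_pos
  have hS56 := SS_ge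
  refine ⟨1 / (3200 * SS ^ 2), by positivity, SS ^ 2, by positivity, ?_⟩
  intro Ω _ μ _ a b c K W hW hab
  have hS2 : 56 ≤ SS ^ 2 := by nlinarith
  have hκ : 1 / (3200 * SS ^ 2) ≤ 1 / 12800 :=
    one_div_le_one_div_of_le (by norm_num) (by nlinarith)
  have hab1 : a + b ≤ 1 / 12800 := hab.trans hκ
  have hab2 : a + b ≤ 1 / 1000 := hab1.trans (by norm_num)
  have hsq : √(SS ^ 2) = SS := Real.sqrt_sq hS.le
  obtain ⟨A1, hA1m, hA1, hA1'⟩ := maximal hW (T := SS ^ 2) (l := 1 / 20) (by positivity)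
    (by norm_num)
  obtain ⟨A2, hA2m, hA2, hA2'⟩ := bad_small hab1 hW
  have hV : Drv a b c K (subP W (SS ^ 2) 1) μ := hW.sub (by positivity) one_pos
  have hρ : 0 < 7 / SS := by positivity
  have hρ1 : 7 / SS < 1 := by rw [div_lt_one hS]; linarith
  obtain ⟨A3, hA3m, hA3, hA3'⟩ := hit_all hV hab2 (x := 2 * SS) (by positivity) hρ hρ1
  obtain ⟨A4, hA4m, hA4, hA4'⟩ := hit_all hV hab2 (x := -(2 * SS))
    (neg_ne_zero.mpr (by positivity)) hρ hρ1
  rw [rho_pow] at hA3 hA4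
  have hF : Fut (subP W (SS ^ 2) 1) 0 ≤ Fut W 0 :=
    (Fut_sub_le (by positivity) one_pos).trans (Fut_anti (by positivity))
  have hB : ∀ t : ℝ, Blk W 0 t ≤ Fut W 0 := fun t => Blk_le_Fut 0 t
  refine ⟨A1 ∪ A2 ∪ A3 ∪ A4, ?_, ?_, ?_⟩
  · exact (((hB _ _ hA1m).union (hB _ _ hA2m)).union (hF _ hA3m)).union (hF _ hA4m)
  · have hA1e : μ A1 ≤ ENNReal.ofReal (1 / 8) := by
      refine hA1.trans (ENNReal.ofReal_le_ofReal ?_)
      have h1 : (a + b) * (3200 * SS ^ 2) ≤ 1 := by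
        have := (le_div_iff₀ (by positivity)).mp hab
        linarith
      have h2 : (a + b) * SS ^ 2 / (1 / 20) ^ 2 = (a + b) * (3200 * SS ^ 2) / 8 := by ring
      rw [h2]
      linarith
    calc μ (A1 ∪ A2 ∪ A3 ∪ A4)
        ≤ μ A1 + μ A2 + μ A3 + μ A4 :=
          (measure_union_le _ _).trans (add_le_add_left ((measure_union_le _ _).trans
            (add_le_add_left (measure_union_le _ _) _)) _)
      _ ≤ ENNReal.ofReal (1 / 8) + ENNReal.ofReal (1 / 8) + ENNReal.ofReal (1 / 8)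
          + ENNReal.ofReal (1 / 8) := by gcongr
      _ = ENNReal.ofReal (1 / 2) := by
          rw [← ENNReal.ofReal_add (by norm_num) (by norm_num),
            ← ENNReal.ofReal_add (by norm_num) (by norm_num),
            ← ENNReal.ofReal_add (by norm_num) (by norm_num)]
          norm_num
  · intro ω hω z hz hg t ht
    simp only [Set.mem_union, not_or] at hω
    obtain ⟨⟨⟨hω1, hω2⟩, hω3⟩, hω4⟩ := hω
    obtain ⟨g, hg⟩ := hg
    rcases le_total t (SS ^ 2) with htT | htT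
    · exact ⟨g, Sol.restrict hg htT⟩
    have h2 : 1 ≤ ‖g 2 - W 2 ω‖ :=
      hA2' ω hω2 z g hz (Sol.restrict hg (by linarith))
    have hcl := cluster (hW.cont ω) (hW.zero 0 le_rfl ω) (T := SS ^ 2) (by linarith)
      (hA1' ω hω1) hz hg h2
    rw [hsq] at hcl
    have halive : ∃ g', Sol (psub (fun t => W t ω) (SS ^ 2) 1)
        ((1 : ℝ)⁻¹ • (g (SS ^ 2) - W (SS ^ 2) ω)) (t - SS ^ 2) g' := by
      rcases hcl with hcl | hcl
      · refine hA3' ω hω3 _ ?_ (t - SS ^ 2) (by linarith)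
        rw [inv_one, one_smul]
        refine hcl.trans (le_of_eq ?_)
        rw [abs_of_pos (by positivity)]
        field_simp
        norm_num
      · refine hA4' ω hω4 _ ?_ (t - SS ^ 2) (by linarith)
        rw [inv_one, one_smul]
        refine hcl.trans (le_of_eq ?_)
        rw [abs_neg, abs_of_pos (by positivity)]
        field_simp
        norm_num
    obtain ⟨g', hg'⟩ := halive
    obtain ⟨g'', hg''⟩ := Sol.concat hg (by positivity) one_pos (by linarith) hg'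
    exact ⟨g'', Sol.restrict hg'' (by linarith)⟩

end

end Pool.Agent.SLE
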