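import Mathlib
import Pool.Agent.Lib.MP_c17912_pr.Defs2

/-!
# SLE driven by complex Brownian motion (MP_c17912_pr): quadrants of a centred planar Gaussian
-/

set_option autoImplicit false

open MeasureTheory ProbabilityTheory
open scoped NNReal ENNReal ComplexConjugate

namespace Pool.Agent.SLE

noncomputable section

variable {Ω : Type*} [MeasurableSpace Ω]

namespace QuadAux

/-- the quadratic form of the covariance -/
def QF (a b c : ℝ) (w : ℂ) : ℝ := a * w.re ^ 2 + 2 * c * w.re * w.im + b * w.im ^ 2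

/-- reflection at the axis determined by `e` -/
def refl (e z : ℂ) : ℂ := conj (e ^ 2 * z)

lemma QF_refl {a b c : ℝ} {e : ℂ} (he : ‖e‖ = 1)
    (hre : (e ^ 2 * ((a - b : ℝ) + (2 * c : ℝ) * Complex.I)).im = 0) (w : ℂ) :
    QF a b c (refl e w) = QF a b c w := by
  set p := (e ^ 2).re with hp
  set q := (e ^ 2).im with hq
  have h1 : p ^ 2 + q ^ 2 = 1 := by
    have h2 : ‖e ^ 2‖ = 1 := by rw [norm_pow, he, one_pow]
    have h3 := Complex.sq_norm (e ^ 2)
    rw [h2, Complex.normSq_apply] at h3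
    nlinarith
  have h4 : p * (2 * c) + q * (a - b) = 0 := by
    have := hre
    rw [Complex.mul_im] at this
    simp only [Complex.add_im, Complex.add_re, Complex.ofReal_re, Complex.ofReal_im,
      Complex.mul_re, Complex.mul_im, Complex.I_re, Complex.I_im] at this
    rw [← hp, ← hq] at this
    linarith
  have hr : (refl e w).re = p * w.re - q * w.im := by
    unfold refl
    rw [Complex.conj_re, Complex.mul_re]
  have hi : (refl e w).im = -(p * w.im + q * w.re) := by
    unfold refl
    rw [Complex.conj_im, Complex.mul_im]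
  unfold QF
  rw [hr, hi]
  linear_combination (a * w.re ^ 2 + b * w.im ^ 2 + 2 * c * w.re * w.im) * h1 +
    (-q * w.re ^ 2 + q * w.im ^ 2 - 2 * p * w.re * w.im) * h4

lemma exists_axis (a b c : ℝ) : ∃ e : ℂ, ‖e‖ = 1 ∧
    (e ^ 2 * ((a - b : ℝ) + (2 * c : ℝ) * Complex.I)).im = 0 := by
  set k : ℂ := (a - b : ℝ) + (2 * c : ℝ) * Complex.I
  refine ⟨Complex.exp ((-(Complex.arg k / 2) : ℝ) * Complex.I), Complex.norm_exp_ofReal_mul_I _, ?_⟩
  have h1 : Complex.exp ((-(Complex.arg k / 2) : ℝ) * Complex.I) ^ 2 * k = (‖k‖ : ℂ) := by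
    rw [← Complex.exp_nat_mul]
    nth_rewrite 2 [← Complex.norm_mul_exp_arg_mul_I k]
    rw [mul_left_comm, ← Complex.exp_add]
    have h2 : ((2 : ℕ) : ℂ) * ((-(Complex.arg k / 2) : ℝ) * Complex.I) + Complex.arg k * Complex.I
        = 0 := by
      push_cast
      ring
    rw [h2, Complex.exp_zero, mul_one]
  rw [h1, Complex.ofReal_im]

lemma inner_refl (e z w : ℂ) : inner ℝ (refl e z) w = inner ℝ z (refl e w) := by
  unfold refl
  simp only [Complex.inner, map_mul, Complex.conj_conj, map_pow]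
  simp only [Complex.mul_re, Complex.mul_im, Complex.conj_re, Complex.conj_im, pow_two]
  ring

lemma continuous_refl (e : ℂ) : Continuous (refl e) := by
  unfold refl
  fun_prop

/-- the characteristic function of an increment -/
lemma charFun_eq {a b c s t : ℝ} {μ : Measure Ω} [IsProbabilityMeasure μ] {D : Ω → ℂ}
    (hD : Measurable D)
    (hg : ∀ u v : ℝ, HasLaw (fun ω => u * (D ω).re + v * (D ω).im)
      (gaussianReal 0 (Real.toNNReal ((t - s) * (a * u ^ 2 + 2 * c * u * v + b * v ^ 2)))) μ)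
    (w : ℂ) : charFun (μ.map D) w =
      charFun (gaussianReal 0 (Real.toNNReal ((t - s) * QF a b c w))) 1 := by
  have h1 := (hg w.re w.im).map_eq
  have h2 : QF a b c w = a * w.re ^ 2 + 2 * c * w.re * w.im + b * w.im ^ 2 := rfl
  rw [h2, ← h1, charFun_apply, charFun_apply, integral_map hD.aemeasurable, integral_map]
  · apply integral_congr_ae
    filter_upwards with ω
    congr 2
    rw [Complex.inner]
    simp [Complex.mul_re]
  · exact (by fun_prop : Measurable fun ω => w.re * (D ω).re + w.im * (D ω).im).aemeasurable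
  · fun_prop
  · fun_prop

lemma law_refl {a b c s t : ℝ} {μ : Measure Ω} [IsProbabilityMeasure μ] {D : Ω → ℂ}
    (hD : Measurable D)
    (hg : ∀ u v : ℝ, HasLaw (fun ω => u * (D ω).re + v * (D ω).im)
      (gaussianReal 0 (Real.toNNReal ((t - s) * (a * u ^ 2 + 2 * c * u * v + b * v ^ 2)))) μ)
    {e : ℂ} (he : ‖e‖ = 1)
    (hre : (e ^ 2 * ((a - b : ℝ) + (2 * c : ℝ) * Complex.I)).im = 0) :
    (μ.map D).map (refl e) = μ.map D := by
  have hr := continuous_refl e
  have : IsProbabilityMeasure (μ.map D) := Measure.isProbabilityMeasure_map hD.aemeasurable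
  have : IsProbabilityMeasure ((μ.map D).map (refl e)) :=
    Measure.isProbabilityMeasure_map hr.measurable.aemeasurable
  apply Measure.ext_of_charFun
  ext w
  have h1 : charFun ((μ.map D).map (refl e)) w = charFun (μ.map D) (refl e w) := by
    rw [charFun_apply, charFun_apply, integral_map hr.measurable.aemeasurable]
    · apply integral_congr_ae
      filter_upwards with z
      rw [inner_refl]
    · fun_prop
  rw [h1, charFun_eq hD hg, charFun_eq hD hg, QF_refl he hre]

lemma law_neg {a b c s t : ℝ} {μ : Measure Ω} [IsProbabilityMeasure μ] {D : Ω → ℂ}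
    (hD : Measurable D)
    (hg : ∀ u v : ℝ, HasLaw (fun ω => u * (D ω).re + v * (D ω).im)
      (gaussianReal 0 (Real.toNNReal ((t - s) * (a * u ^ 2 + 2 * c * u * v + b * v ^ 2)))) μ) :
    (μ.map D).map (fun z => -z) = μ.map D := by
  have : IsProbabilityMeasure (μ.map D) := Measure.isProbabilityMeasure_map hD.aemeasurable
  have : IsProbabilityMeasure ((μ.map D).map (fun z => -z)) :=
    Measure.isProbabilityMeasure_map measurable_neg.aemeasurable
  apply Measure.ext_of_charFun
  ext w
  have h1 : charFun ((μ.map D).map (fun z => -z)) w = charFun (μ.map D) (-w) := by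
    rw [charFun_apply, charFun_apply, integral_map measurable_neg.aemeasurable]
    · apply integral_congr_ae
      filter_upwards with z
      rw [inner_neg_left, inner_neg_right]
    · fun_prop
  have h2 : QF a b c (-w) = QF a b c w := by
    unfold QF
    simp only [Complex.neg_re, Complex.neg_im]
    ring
  rw [h1, charFun_eq hD hg, charFun_eq hD hg, h2]

/-- quadrants in rotated coordinates -/
def Qd (e : ℂ) (ε₁ ε₂ : ℝ) : Set ℂ := {z | 0 ≤ ε₁ * (e * z).re ∧ 0 ≤ ε₂ * (e * z).im}

lemma meas_Qd (e : ℂ) (ε₁ ε₂ : ℝ) : MeasurableSet (Qd e ε₁ ε₂) := by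
  have h1 : Measurable fun z : ℂ => ε₁ * (e * z).re := by
    have : Continuous fun z : ℂ => ε₁ * (e * z).re := by fun_prop
    exact this.measurable
  have h2 : Measurable fun z : ℂ => ε₂ * (e * z).im := by
    have : Continuous fun z : ℂ => ε₂ * (e * z).im := by fun_prop
    exact this.measurable
  exact (measurableSet_le measurable_const h1).inter (measurableSet_le measurable_const h2)

lemma mul_refl {e : ℂ} (he : ‖e‖ = 1) (z : ℂ) : e * refl e z = conj (e * z) := by
  unfold refl
  have h1 : e * conj e = 1 := by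
    rw [Complex.mul_conj, Complex.normSq_eq_norm_sq, he]
    simp
  simp only [map_mul, map_pow]
  linear_combination (conj e * conj z) * h1

end QuadAux

open QuadAux in
/-- G2 QUAD. In the principal axes of the covariance every quadrant has probability at least
`1/4`. -/
theorem quadrant (a b c : ℝ) : ∃ e : ℂ, ‖e‖ = 1 ∧ ∀ (K : ℝ) (μ : Measure Ω)
    [IsProbabilityMeasure μ] (W : ℝ → Ω → ℂ), Gau a b c K W μ → ∀ s t, 0 ≤ s → s ≤ t →
      ∀ ε₁ ε₂ : ℝ, (ε₁ = 1 ∨ ε₁ = -1) → (ε₂ = 1 ∨ ε₂ = -1) →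
        ENNReal.ofReal (1 / 4) ≤ μ {ω | 0 ≤ ε₁ * (e * (W t ω - W s ω)).re ∧
          0 ≤ ε₂ * (e * (W t ω - W s ω)).im} := by
  obtain ⟨e, he, hre⟩ := exists_axis a b c
  refine ⟨e, he, fun K μ _ W hW s t hs hst ε₁ ε₂ h₁ h₂ => ?_⟩
  set D : Ω → ℂ := fun ω => W t ω - W s ω with hDdef
  have hD : Measurable D := (hW.meas t).sub (hW.meas s)
  have hg := hW.gauss s t hs hst
  set ν := μ.map D with hν
  have : IsProbabilityMeasure ν := Measure.isProbabilityMeasure_map hD.aemeasurable
  have hset : μ {ω | 0 ≤ ε₁ * (e * (W t ω - W s ω)).re ∧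
      0 ≤ ε₂ * (e * (W t ω - W s ω)).im} = ν (Qd e ε₁ ε₂) := by
    rw [hν, Measure.map_apply hD (meas_Qd e ε₁ ε₂)]
    rfl
  rw [hset]
  have r1 : ∀ x y : ℝ, ν (Qd e x y) = ν (Qd e x (-y)) := by
    intro x y
    have h := law_refl hD hg he hre
    rw [← hν] at h
    nth_rewrite 1 [← h]
    rw [Measure.map_apply (continuous_refl e).measurable (meas_Qd e x y)]
    congr 1
    ext z
    simp only [Set.mem_preimage, Qd, Set.mem_ofPred_eq, mul_refl he, Complex.conj_re,
      Complex.conj_im]
    constructor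
    · rintro ⟨h3, h4⟩; exact ⟨h3, by linarith⟩
    · rintro ⟨h3, h4⟩; exact ⟨h3, by linarith⟩
  have r2 : ∀ x y : ℝ, ν (Qd e x y) = ν (Qd e (-x) (-y)) := by
    intro x y
    have h := law_neg hD hg
    rw [← hν] at h
    nth_rewrite 1 [← h]
    rw [Measure.map_apply measurable_neg (meas_Qd e x y)]
    congr 1
    ext z
    simp only [Set.mem_preimage, Qd, Set.mem_ofPred_eq, mul_neg, Complex.neg_re, Complex.neg_im]
    constructor
    · rintro ⟨h3, h4⟩; exact ⟨by linarith, by linarith⟩
    · rintro ⟨h3, h4⟩; exact ⟨by linarith, by linarith⟩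
  have e1 : ν (Qd e 1 (-1)) = ν (Qd e 1 1) := (r1 1 1).symm
  have e2 : ν (Qd e (-1) (-1)) = ν (Qd e 1 1) := (r2 1 1).symm
  have e3 : ν (Qd e (-1) 1) = ν (Qd e 1 1) := by
    rw [r1 (-1) 1, e2]
  have hcov : (1 : ℝ≥0∞) ≤ 4 * ν (Qd e 1 1) := by
    have hsub : (Set.univ : Set ℂ) ⊆ (Qd e 1 1 ∪ Qd e 1 (-1)) ∪ (Qd e (-1) 1 ∪ Qd e (-1) (-1)) := by
      intro z _
      rcases le_total 0 (e * z).re with h3 | h3
      · rcases le_total 0 (e * z).im with h4 | h4
        · left; left; exact ⟨by linarith, by linarith⟩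
        · left; right; exact ⟨by linarith, by linarith⟩
      · rcases le_total 0 (e * z).im with h4 | h4
        · right; left; exact ⟨by linarith, by linarith⟩
        · right; right; exact ⟨by linarith, by linarith⟩
    calc (1 : ℝ≥0∞) = ν Set.univ := measure_univ.symm
      _ ≤ _ := measure_mono hsub
      _ ≤ (ν (Qd e 1 1) + ν (Qd e 1 (-1))) + (ν (Qd e (-1) 1) + ν (Qd e (-1) (-1))) :=
          (measure_union_le _ _).trans (add_le_add (measure_union_le _ _) (measure_union_le _ _))
      _ = 4 * ν (Qd e 1 1) := by rw [e1, e2, e3]; ring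
  have hall : ν (Qd e ε₁ ε₂) = ν (Qd e 1 1) := by
    rcases h₁ with rfl | rfl <;> rcases h₂ with rfl | rfl
    · rfl
    · exact e1
    · exact e3
    · exact e2
  rw [hall]
  have h5 : ENNReal.ofReal (1 / 4) = 1 / 4 := by
    rw [ENNReal.ofReal_div_of_pos (by norm_num)]
    norm_num
  rw [h5]
  apply ENNReal.div_le_of_le_mul
  rw [mul_comm]
  exact hcov

end

end Pool.Agent.SLE
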