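import Pool.Agent.Lib.MP_c17912_pr.Defs2
import Pool.Agent.Lib.MP_c17912_pr.DrvSub
import Pool.Agent.Lib.MP_c17912_pr.Markov
import Pool.Agent.Lib.MP_c17912_pr.Maxi
import Pool.Agent.Lib.MP_c17912_pr.Quad

set_option autoImplicit false

open MeasureTheory ProbabilityTheory Filter
open scoped NNReal ENNReal Topology

namespace Pool.Agent.SLE

noncomputable section

variable {Ω : Type*} [MeasurableSpace Ω] {μ : Measure Ω} {a b c K : ℝ} {W : ℝ → Ω → ℂ}

namespace SmallBallAux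

/-- Splitting a set of the past by two signs and requiring an independent event on each piece. -/
lemma split (hW : Drv a b c K W μ) [IsProbabilityMeasure μ] {s : ℝ} (hs : 0 ≤ s) {S S' : Set Ω}
    {T₁ T₂ : Set Ω} (hS : MeasurableSet[Blk W 0 s] S) (hT₁ : MeasurableSet[Blk W 0 s] T₁)
    (hT₂ : MeasurableSet[Blk W 0 s] T₂) {E₁ E₂ E₃ E₄ : Set Ω}
    (hE₁ : MeasurableSet[Fut W s] E₁) (hE₂ : MeasurableSet[Fut W s] E₂)
    (hE₃ : MeasurableSet[Fut W s] E₃) (hE₄ : MeasurableSet[Fut W s] E₄) {x : ℝ≥0∞}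
    (h₁ : x ≤ μ E₁) (h₂ : x ≤ μ E₂) (h₃ : x ≤ μ E₃) (h₄ : x ≤ μ E₄)
    (k₁ : (S ∩ T₁ ∩ T₂) ∩ E₁ ⊆ S') (k₂ : ((S ∩ T₁) \ T₂) ∩ E₂ ⊆ S')
    (k₃ : ((S \ T₁) ∩ T₂) ∩ E₃ ⊆ S') (k₄ : ((S \ T₁) \ T₂) ∩ E₄ ⊆ S') : μ S * x ≤ μ S' := by
  have hle := Blk_le hW 0 s
  have hind := (Indep_iff _ _ _).1 (indep_Blk_Fut hW hs)
  have e0 : μ S = μ (S ∩ T₁ ∩ T₂) + μ ((S ∩ T₁) \ T₂) + (μ ((S \ T₁) ∩ T₂) + μ ((S \ T₁) \ T₂)) := by
    rw [measure_inter_add_sdiff _ (hle _ hT₂), measure_inter_add_sdiff _ (hle _ hT₂),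
      measure_inter_add_sdiff _ (hle _ hT₁)]
  have e1 : μ S' = μ (S' ∩ T₁ ∩ T₂) + μ ((S' ∩ T₁) \ T₂) +
      (μ ((S' \ T₁) ∩ T₂) + μ ((S' \ T₁) \ T₂)) := by
    rw [measure_inter_add_sdiff _ (hle _ hT₂), measure_inter_add_sdiff _ (hle _ hT₂),
      measure_inter_add_sdiff _ (hle _ hT₁)]
  have g1 : μ (S ∩ T₁ ∩ T₂) * x ≤ μ (S' ∩ T₁ ∩ T₂) := by
    calc μ (S ∩ T₁ ∩ T₂) * x ≤ μ (S ∩ T₁ ∩ T₂) * μ E₁ := by gcongr
      _ = μ ((S ∩ T₁ ∩ T₂) ∩ E₁) := (hind _ _ ((hS.inter hT₁).inter hT₂) hE₁).symm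
      _ ≤ μ (S' ∩ T₁ ∩ T₂) := by
          apply measure_mono
          intro ω hω
          exact ⟨⟨k₁ hω, hω.1.1.2⟩, hω.1.2⟩
  have g2 : μ ((S ∩ T₁) \ T₂) * x ≤ μ ((S' ∩ T₁) \ T₂) := by
    calc μ ((S ∩ T₁) \ T₂) * x ≤ μ ((S ∩ T₁) \ T₂) * μ E₂ := by gcongr
      _ = μ (((S ∩ T₁) \ T₂) ∩ E₂) := (hind _ _ ((hS.inter hT₁).diff hT₂) hE₂).symm
      _ ≤ μ ((S' ∩ T₁) \ T₂) := by
          apply measure_mono
          intro ω hω
          exact ⟨⟨k₂ hω, hω.1.1.2⟩, hω.1.2⟩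
  have g3 : μ ((S \ T₁) ∩ T₂) * x ≤ μ ((S' \ T₁) ∩ T₂) := by
    calc μ ((S \ T₁) ∩ T₂) * x ≤ μ ((S \ T₁) ∩ T₂) * μ E₃ := by gcongr
      _ = μ (((S \ T₁) ∩ T₂) ∩ E₃) := (hind _ _ ((hS.diff hT₁).inter hT₂) hE₃).symm
      _ ≤ μ ((S' \ T₁) ∩ T₂) := by
          apply measure_mono
          intro ω hω
          exact ⟨⟨k₃ hω, hω.1.1.2⟩, hω.1.2⟩
  have g4 : μ ((S \ T₁) \ T₂) * x ≤ μ ((S' \ T₁) \ T₂) := by
    calc μ ((S \ T₁) \ T₂) * x ≤ μ ((S \ T₁) \ T₂) * μ E₄ := by gcongr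
      _ = μ (((S \ T₁) \ T₂) ∩ E₄) := (hind _ _ ((hS.diff hT₁).diff hT₂) hE₄).symm
      _ ≤ μ ((S' \ T₁) \ T₂) := by
          apply measure_mono
          intro ω hω
          exact ⟨⟨k₄ hω, hω.1.1.2⟩, hω.1.2⟩
  rw [e0, e1, add_mul, add_mul, add_mul]
  gcongr

omit [MeasurableSpace Ω] in
lemma meas_Fut {s t : ℝ} (hst : s ≤ t) : Measurable[Fut W s] fun ω => W t ω - W s ω := by
  rw [measurable_iff_comap_le]
  exact le_iSup (fun r : Set.Ici s =>
    MeasurableSpace.comap (fun ω => W r ω - W s ω) inferInstance) ⟨t, hst⟩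

omit [MeasurableSpace Ω] in
lemma meas_Blk {s t u : ℝ} (hs : 0 ≤ s) (hsu : s ≤ u) (ht : 0 ≤ t) (htu : t ≤ u) :
    Measurable[Blk W 0 u] (fun ω => W t ω - W s ω) := by
  have h1 : ∀ r ∈ Set.Icc (0 : ℝ) u, Measurable[Blk W 0 u] (fun ω => W r ω - W 0 ω) := by
    intro r hr
    rw [measurable_iff_comap_le]
    exact le_iSup (fun r : Set.Icc (0 : ℝ) u =>
      MeasurableSpace.comap (fun ω => W r ω - W 0 ω) inferInstance) ⟨r, hr⟩
  have h2 := (h1 t ⟨ht, htu⟩).sub (h1 s ⟨hs, hsu⟩)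
  have h3 : (fun ω => W t ω - W s ω) = (fun ω => W t ω - W 0 ω) - (fun ω => W s ω - W 0 ω) := by
    funext ω; simp
  rw [h3]; exact h2

/-- Real and imaginary part in the principal axes. -/
def pr (e : ℂ) (i : Bool) (z : ℂ) : ℝ := if i then (e * z).re else (e * z).im

lemma pr_meas (e : ℂ) (i : Bool) : Measurable (pr e i) := by
  unfold pr
  cases i
  · simp only [Bool.false_eq_true, if_false]
    exact Complex.measurable_im.comp (measurable_const.mul measurable_id)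
  · simp only [if_true]
    exact Complex.measurable_re.comp (measurable_const.mul measurable_id)

lemma pr_add (e : ℂ) (i : Bool) (z w : ℂ) : pr e i (z + w) = pr e i z + pr e i w := by
  unfold pr
  cases i <;> simp [mul_add]

lemma pr_le {e : ℂ} (he : ‖e‖ = 1) (i : Bool) (z : ℂ) : |pr e i z| ≤ ‖z‖ := by
  unfold pr
  have h : ‖e * z‖ = ‖z‖ := by rw [norm_mul, he, one_mul]
  cases i
  · simp only [Bool.false_eq_true, if_false]
    rw [← h]; exact Complex.abs_im_le_norm _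
  · simp only [if_true]
    rw [← h]; exact Complex.abs_re_le_norm _

lemma norm_le_pr {e : ℂ} (he : ‖e‖ = 1) {z : ℂ} {r : ℝ} (h1 : |pr e true z| ≤ r)
    (h2 : |pr e false z| ≤ r) : ‖z‖ ≤ 2 * r := by
  have h : ‖e * z‖ = ‖z‖ := by rw [norm_mul, he, one_mul]
  rw [← h]
  refine (Complex.norm_le_abs_re_add_abs_im _).trans ?_
  unfold pr at h1 h2
  simp only [if_true, Bool.false_eq_true, if_false] at h1 h2
  linarith

/-- The event of one step: the increment does not go away from the axes. -/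
def back (e : ℂ) (X Y : ℂ) : Prop :=
  ∀ i, (0 ≤ pr e i X → pr e i Y ≤ 0) ∧ (pr e i X < 0 → 0 ≤ pr e i Y)

/-- The good sets. -/
def Sg (W : ℝ → Ω → ℂ) (e : ℂ) (h : ℝ) (A : ℕ → Set Ω) : ℕ → Set Ω
  | 0 => Set.univ
  | j + 1 => Sg W e h A j ∩ (A j)ᶜ ∩
      {ω | back e (W (j * h) ω - W 0 ω) (W (j * h + h) ω - W (j * h) ω)}

end SmallBallAux

open SmallBallAux in
/-- G3 SB. Small ball probability. -/
theorem small_ball [IsProbabilityMeasure μ] (a b c K : ℝ) {T η : ℝ} (hT : 0 < T) (hη : 0 < η) :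
    ∃ p > 0, ∀ W : ℝ → Ω → ℂ, Gau a b c K W μ → ∃ G, MeasurableSet[Blk W 0 T] G ∧
      ENNReal.ofReal p ≤ μ G ∧ ∀ ω ∈ G, ∀ t ∈ Set.Icc 0 T, ‖W t ω‖ ≤ η := by
  obtain ⟨e, he, hquad⟩ := quadrant (Ω := Ω) a b c
  obtain ⟨n₀, hn₀⟩ := exists_nat_gt (128 * |a + b| * T / η ^ 2)
  obtain ⟨n, hn, hn0⟩ : ∃ n : ℕ, 128 * |a + b| * T / η ^ 2 < n ∧ 0 < n :=
    ⟨n₀ + 1, by push_cast; linarith, by omega⟩
  have hnr : (0 : ℝ) < n := by exact_mod_cast hn0
  obtain ⟨h, hh⟩ : ∃ h : ℝ, h = T / n := ⟨_, rfl⟩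
  have hh0 : 0 < h := by rw [hh]; positivity
  have hnh : (n : ℝ) * h = T := by rw [hh]; field_simp
  have hvar : (a + b) * h / (η / 4) ^ 2 ≤ 1 / 8 := by
    have h1 : 128 * |a + b| * T < n * η ^ 2 := by rwa [div_lt_iff₀ (by positivity)] at hn
    rw [div_le_iff₀ (by positivity)]
    have h2 : (a + b) * h ≤ |a + b| * h := mul_le_mul_of_nonneg_right (le_abs_self _) hh0.le
    have h3 : |a + b| * h * n = |a + b| * T := by rw [← hnh]; ring
    have h4 : (|a + b| * h) * n ≤ (1 / 8 * (η / 4) ^ 2) * n := by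
      rw [h3]; nlinarith
    have h5 := le_of_mul_le_mul_right h4 hnr
    linarith
  refine ⟨(1 / 8) ^ n, by positivity, ?_⟩
  intro W hG
  have hW : Drv a b c K W μ := hG.toDrv
  have hjh : ∀ j : ℕ, (0 : ℝ) ≤ j * h := fun j => by positivity
  -- the oscillation events
  have hosc : ∀ j : ℕ, ∃ A, MeasurableSet[Blk W (j * h) (j * h + h)] A ∧
      μ A ≤ ENNReal.ofReal (1 / 8) ∧
      ∀ ω ∉ A, ∀ t ∈ Set.Icc 0 h, ‖W (j * h + t) ω - W (j * h) ω‖ ≤ η / 4 := by
    intro j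
    obtain ⟨A, hA1, hA2, hA3⟩ := maximal (hW.sub (hjh j) one_pos) hh0
      (by positivity : (0 : ℝ) < η / 4)
    refine ⟨A, ?_, hA2.trans (ENNReal.ofReal_le_ofReal hvar), ?_⟩
    · have h1 := Blk_sub_le (W := W) (hjh j) one_pos h
      rw [one_pow, one_mul] at h1
      exact h1 _ hA1
    · intro ω hω t ht
      have h1 := hA3 ω hω t ht
      simp only [subP, psub, inv_one, one_smul, one_pow, one_mul, max_eq_left ht.1] at h1
      exact h1
  choose A hA1 hA2 hA3 using hosc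
  -- measurability
  have hSm : ∀ j : ℕ, MeasurableSet[Blk W 0 (j * h)] (Sg W e h A j) := by
    intro j
    induction j with
    | zero => exact @MeasurableSet.univ Ω (Blk W 0 _)
    | succ j ih =>
      have hle : (j : ℝ) * h ≤ ((j + 1 : ℕ) : ℝ) * h := by push_cast; nlinarith
      have hle2 : (j : ℝ) * h + h ≤ ((j + 1 : ℕ) : ℝ) * h := by push_cast; linarith
      have h1 : MeasurableSet[Blk W 0 (((j + 1 : ℕ) : ℝ) * h)] (Sg W e h A j) :=
        Blk_le_Blk le_rfl hle _ ih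
      have h2 : MeasurableSet[Blk W 0 (((j + 1 : ℕ) : ℝ) * h)] (A j) :=
        Blk_le_Blk (hjh j) hle2 _ (hA1 j)
      have h3 : MeasurableSet[Blk W 0 (((j + 1 : ℕ) : ℝ) * h)]
          {ω | back e (W (j * h) ω - W 0 ω) (W (j * h + h) ω - W (j * h) ω)} := by
        have hX := meas_Blk (W := W) le_rfl (by positivity) (hjh j) hle
        have hY := meas_Blk (W := W) (hjh j) hle (by positivity) hle2
        have e1 : {ω | back e (W (j * h) ω - W 0 ω) (W (j * h + h) ω - W (j * h) ω)} =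
            ⋂ i : Bool, (({ω | 0 ≤ pr e i (W (j * h) ω - W 0 ω)}ᶜ ∪
              {ω | pr e i (W (j * h + h) ω - W (j * h) ω) ≤ 0}) ∩
              ({ω | pr e i (W (j * h) ω - W 0 ω) < 0}ᶜ ∪
              {ω | 0 ≤ pr e i (W (j * h + h) ω - W (j * h) ω)})) := by
          ext ω
          simp only [back, Set.mem_ofPred_eq, Set.mem_iInter, Set.mem_inter_iff, Set.mem_union,
            Set.mem_compl_iff, imp_iff_not_or]
        rw [e1]
        refine MeasurableSet.iInter fun i => ?_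
        have p1 := (pr_meas e i).comp hX
        have p2 := (pr_meas e i).comp hY
        exact ((p1 measurableSet_Ici).compl.union (p2 measurableSet_Iic)).inter
          ((p1 measurableSet_Iio).compl.union (p2 measurableSet_Ici))
      exact (h1.inter h2.compl).inter h3
  -- the probabilities
  have hprob : ∀ j : ℕ, ENNReal.ofReal ((1 / 8) ^ j) ≤ μ (Sg W e h A j) := by
    intro j
    induction j with
    | zero => simp [Sg]
    | succ j ih =>
      have hqm : ∀ (ε₁ ε₂ : ℝ), MeasurableSet[Fut W (j * h)]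
          ({ω | 0 ≤ ε₁ * (e * (W (j * h + h) ω - W (j * h) ω)).re ∧
          0 ≤ ε₂ * (e * (W (j * h + h) ω - W (j * h) ω)).im} ∩ (A j)ᶜ) := by
        intro ε₁ ε₂
        have hY := meas_Fut (W := W) (s := j * h) (t := j * h + h) (by linarith)
        have hA' : MeasurableSet[Fut W (j * h)] (A j) := Blk_le_Fut _ _ _ (hA1 j)
        have p1 : Measurable[Fut W (j * h)]
            (fun ω => ε₁ * (e * (W (j * h + h) ω - W (j * h) ω)).re) :=
          (Complex.measurable_re.comp ((measurable_const.mul measurable_id : Measurable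
            (fun z : ℂ => e * z)).comp hY)).const_mul ε₁
        have p2 : Measurable[Fut W (j * h)]
            (fun ω => ε₂ * (e * (W (j * h + h) ω - W (j * h) ω)).im) :=
          (Complex.measurable_im.comp ((measurable_const.mul measurable_id : Measurable
            (fun z : ℂ => e * z)).comp hY)).const_mul ε₂
        exact ((p1 measurableSet_Ici).inter (p2 measurableSet_Ici)).inter hA'.compl
      have hqp : ∀ (ε₁ ε₂ : ℝ), (ε₁ = 1 ∨ ε₁ = -1) → (ε₂ = 1 ∨ ε₂ = -1) →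
          ENNReal.ofReal (1 / 8) ≤ μ
          ({ω | 0 ≤ ε₁ * (e * (W (j * h + h) ω - W (j * h) ω)).re ∧
          0 ≤ ε₂ * (e * (W (j * h + h) ω - W (j * h) ω)).im} ∩ (A j)ᶜ) := by
        intro ε₁ ε₂ h1 h2
        have h3 := hquad K μ W hG (j * h) (j * h + h) (hjh j) (by linarith) ε₁ ε₂ h1 h2
        have h4 : μ {ω | 0 ≤ ε₁ * (e * (W (j * h + h) ω - W (j * h) ω)).re ∧
          0 ≤ ε₂ * (e * (W (j * h + h) ω - W (j * h) ω)).im} ≤ μ
          ({ω | 0 ≤ ε₁ * (e * (W (j * h + h) ω - W (j * h) ω)).re ∧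
          0 ≤ ε₂ * (e * (W (j * h + h) ω - W (j * h) ω)).im} ∩ (A j)ᶜ) +
          ENNReal.ofReal (1 / 8) := by
          refine (measure_mono (t := ({ω | 0 ≤ ε₁ * (e * (W (j * h + h) ω - W (j * h) ω)).re ∧
            0 ≤ ε₂ * (e * (W (j * h + h) ω - W (j * h) ω)).im} ∩ (A j)ᶜ) ∪ A j) ?_).trans
            ((measure_union_le _ _).trans (add_le_add le_rfl (hA2 j)))
          intro ω hω
          by_cases hA : ω ∈ A j
          · exact Or.inr hA
          · exact Or.inl ⟨hω, hA⟩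
        have h5 : ENNReal.ofReal (1 / 4) = ENNReal.ofReal (1 / 8) + ENNReal.ofReal (1 / 8) := by
          rw [← ENNReal.ofReal_add (by norm_num) (by norm_num)]; norm_num
        rw [h5] at h3
        exact (ENNReal.add_le_add_iff_right ENNReal.ofReal_ne_top).1 (h3.trans h4)
      have hX := meas_Blk (W := W) le_rfl (hjh j) (hjh j) (le_refl ((j : ℝ) * h))
      have hT₁ : MeasurableSet[Blk W 0 (j * h)] {ω | 0 ≤ pr e true (W (j * h) ω - W 0 ω)} :=
        ((pr_meas e true).comp hX) measurableSet_Ici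
      have hT₂ : MeasurableSet[Blk W 0 (j * h)] {ω | 0 ≤ pr e false (W (j * h) ω - W 0 ω)} :=
        ((pr_meas e false).comp hX) measurableSet_Ici
      have key : μ (Sg W e h A j) * ENNReal.ofReal (1 / 8) ≤ μ (Sg W e h A (j + 1)) := by
        refine split hW (hjh j) (hSm j) hT₁ hT₂ (hqm (-1) (-1)) (hqm (-1) 1) (hqm 1 (-1)) (hqm 1 1)
          (hqp _ _ (Or.inr rfl) (Or.inr rfl)) (hqp _ _ (Or.inr rfl) (Or.inl rfl))
          (hqp _ _ (Or.inl rfl) (Or.inr rfl)) (hqp _ _ (Or.inl rfl) (Or.inl rfl)) ?_ ?_ ?_ ?_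
        all_goals
          rintro ω ⟨h1, h2, h3⟩
          simp only [Set.mem_inter_iff, Set.mem_sdiff, Set.mem_ofPred_eq] at h1 h2
          refine ⟨⟨by tauto, h3⟩, ?_⟩
          intro i
          cases i
          · refine ⟨fun h4 => ?_, fun h4 => ?_⟩
            all_goals
              simp only [pr, Bool.false_eq_true, if_false, if_true] at h1 h2 h4 ⊢
              linarith [h2.1, h2.2]
          · refine ⟨fun h4 => ?_, fun h4 => ?_⟩
            all_goals
              simp only [pr, Bool.false_eq_true, if_false, if_true] at h1 h2 h4 ⊢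
              linarith [h2.1, h2.2]
      refine le_trans (le_of_eq ?_) ((mul_le_mul_left ih _).trans key)
      rw [pow_succ, ENNReal.ofReal_mul (by positivity)]
  -- the values
  have hval : ∀ j : ℕ, ∀ ω ∈ Sg W e h A j, (∀ i, |pr e i (W (j * h) ω - W 0 ω)| ≤ η / 4) ∧
      ∀ t ∈ Set.Icc 0 (j * h), ‖W t ω‖ ≤ η := by
    intro j
    induction j with
    | zero =>
      intro ω _
      have h0 := hW.zero 0 le_rfl ω
      refine ⟨?_, ?_⟩
      · intro i
        simp only [Nat.cast_zero, zero_mul, sub_self]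
        have : pr e i 0 = 0 := by unfold pr; cases i <;> simp
        rw [this, abs_zero]; positivity
      · intro t ht
        simp only [Nat.cast_zero, zero_mul, Set.Icc_self, Set.mem_singleton_iff] at ht
        rw [ht, h0, norm_zero]; exact hη.le
    | succ j ih =>
      rintro ω ⟨⟨h1, h2⟩, h3⟩
      obtain ⟨i1, i2⟩ := ih ω h1
      have h0 := hW.zero 0 le_rfl ω
      have hc : ((j + 1 : ℕ) : ℝ) * h = j * h + h := by push_cast; ring
      rw [hc]
      have hinc := hA3 j ω h2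
      refine ⟨?_, ?_⟩
      · intro i
        have e1 : W (j * h + h) ω - W 0 ω = (W (j * h) ω - W 0 ω) +
            (W (j * h + h) ω - W (j * h) ω) := by ring
        rw [e1, pr_add]
        have h4 := i1 i
        have h5 := (pr_le he i _).trans (hinc h ⟨hh0.le, le_rfl⟩)
        obtain ⟨h6, h7⟩ := h3 i
        rw [abs_le] at h4 h5 ⊢
        rcases le_or_gt 0 (pr e i (W (j * h) ω - W 0 ω)) with h8 | h8
        · have h9 := h6 h8
          constructor <;> linarith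
        · have h9 := h7 h8
          constructor <;> linarith
      · intro t ht
        rcases le_or_gt t (j * h) with h4 | h4
        · exact i2 t ⟨ht.1, h4⟩
        · have h5 := hinc (t - j * h) ⟨by linarith, by linarith [ht.2]⟩
          rw [show (j : ℝ) * h + (t - j * h) = t by ring] at h5
          have h6 := norm_le_pr he (i1 true) (i1 false)
          rw [h0, sub_zero] at h6
          calc ‖W t ω‖ = ‖(W t ω - W (j * h) ω) + W (j * h) ω‖ := by rw [sub_add_cancel]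
            _ ≤ ‖W t ω - W (j * h) ω‖ + ‖W (j * h) ω‖ := norm_add_le _ _
            _ ≤ η / 4 + 2 * (η / 4) := add_le_add h5 h6
            _ ≤ η := by linarith
  refine ⟨Sg W e h A n, ?_, hprob n, ?_⟩
  · have := hSm n
    rwa [hnh] at this
  · intro ω hω t ht
    exact (hval n ω hω).2 t (by rwa [hnh])

end

end Pool.Agent.SLE
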