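import Pool.Agent.Lib.MP_c17912_pr.Gau
import Pool.Agent.Lib.MP_c17912_pr.SmallBall
import Pool.Agent.Lib.MP_c17912_pr.Markov
import Pool.Agent.Lib.MP_c17912_pr.DrvSub
import Pool.Agent.Lib.MP_c17912_pr.Flow
import Pool.Agent.Lib.MP_c17912_pr.Azero
import Pool.Agent.Lib.MP_c17912_pr.Hit
import Pool.Agent.Lib.MP_c17912_pr.Bad2
import Pool.Agent.Lib.MP_c17912_pr.Clus2

/-!
# MP_c17912_pr: the main event, phase 2 (module MAIN2)

With probability at least `p > 0` every point of the unit disc which is alive at time `T₀` is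
alive for ever, if the trace of the covariance matrix is at most `1 / 1000`.
-/

set_option autoImplicit false

open MeasureTheory ProbabilityTheory Filter
open scoped NNReal ENNReal Topology

namespace Pool.Agent.SLE

noncomputable section

variable {Ω : Type*} [MeasurableSpace Ω] {μ : Measure Ω} {a b c K : ℝ} {W : ℝ → Ω → ℂ}

namespace MainEvent2Aux

/-- HIT and AZERO together. -/
theorem hit_all [IsProbabilityMeasure μ] (hW : Drv a b c K W μ)
    (hab : a + b ≤ 1 / 1000) {x ρ : ℝ} (hx : x ≠ 0) (hρ : 0 < ρ) (hρ1 : ρ < 1) :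
    ∃ A, MeasurableSet[Fut W 0] A ∧ μ A ≤ ENNReal.ofReal ((8 * ρ) ^ (1 / 8 : ℝ)) ∧
      ∀ ω ∉ A, ∀ w : ℂ, ‖w - x‖ ≤ ρ * |x| → ∀ t, 0 ≤ t → ∃ g, Sol (fun t => W t ω) w t g := by
  rcases hW.a_nonneg.eq_or_lt with ha | ha
  · subst ha
    obtain ⟨A, hA, hA0, hA1⟩ := hit_zero hW
    refine ⟨A, hA, by rw [hA0]; exact bot_le, fun ω hω w hw t ht => hA1 ω hω w ?_ t ht⟩
    intro h0
    have h1 : |(w - x).re| ≤ ‖w - x‖ := Complex.abs_re_le_norm _
    have h2 : (w - x).re = -x := by simp [h0]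
    rw [h2, abs_neg] at h1
    have h3 : 0 < |x| := abs_pos.mpr hx
    nlinarith
  · exact hit hW ha hab hx hρ

/-- The number `56 * 8 ^ 8`, the square root of the time `T₀`. -/
def SS : ℝ := 56 * 8 ^ 8

theorem SS_pos : 0 < SS := by unfold SS; positivity

theorem SS_ge : 56 ≤ SS := by unfold SS; norm_num

theorem rho_pow : (8 * (7 / SS)) ^ (1 / 8 : ℝ) = 1 / 8 := by
  have h : 8 * (7 / SS) = (1 / 8 : ℝ) ^ (8 : ℝ) := by
    rw [show (8 : ℝ) = ((8 : ℕ) : ℝ) by norm_num, Real.rpow_natCast]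
    unfold SS
    norm_num
  rw [h, ← Real.rpow_mul (by norm_num)]
  norm_num

/-- The event which depends only on the increments after time `T₀ = SS ^ 2`. -/
theorem future_event [IsProbabilityMeasure μ] (hW : Drv a b c K W μ) (hab : a + b ≤ 1 / 1000) :
    ∃ G, MeasurableSet[Fut W (SS ^ 2)] G ∧ ENNReal.ofReal (3 / 4) ≤ μ G ∧
      ∀ ω ∈ G, ∀ w : ℂ, (‖w - (2 * SS : ℝ)‖ ≤ 14 ∨ ‖w - (-(2 * SS) : ℝ)‖ ≤ 14) →
        ∀ t, 0 ≤ t → ∃ g, Sol (psub (fun t => W t ω) (SS ^ 2) 1) w t g := by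
  have hS := SS_pos
  have hS56 := SS_ge
  have hV : Drv a b c K (subP W (SS ^ 2) 1) μ := hW.sub (by positivity) one_pos
  have hρ : 0 < 7 / SS := by positivity
  have hρ1 : 7 / SS < 1 := by rw [div_lt_one hS]; linarith
  obtain ⟨A3, hA3m, hA3, hA3'⟩ := hit_all hV hab (x := 2 * SS) (by positivity) hρ hρ1
  obtain ⟨A4, hA4m, hA4, hA4'⟩ := hit_all hV hab (x := -(2 * SS))
    (neg_ne_zero.mpr (by positivity)) hρ hρ1
  rw [rho_pow] at hA3 hA4
  have hF : Fut (subP W (SS ^ 2) 1) 0 ≤ Fut W (SS ^ 2) := Fut_sub_le (by positivity) one_pos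
  have hm : MeasurableSet[Fut W (SS ^ 2)] (A3 ∪ A4) := (hF _ hA3m).union (hF _ hA4m)
  refine ⟨(A3 ∪ A4)ᶜ, hm.compl, ?_, ?_⟩
  · rw [prob_compl_eq_one_sub (Fut_le hW _ _ hm)]
    have h1 : μ (A3 ∪ A4) ≤ ENNReal.ofReal (1 / 4) := by
      refine (measure_union_le _ _).trans ((add_le_add hA3 hA4).trans (le_of_eq ?_))
      rw [← ENNReal.ofReal_add (by norm_num) (by norm_num)]
      norm_num
    calc ENNReal.ofReal (3 / 4) = 1 - ENNReal.ofReal (1 / 4) := by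
          rw [← ENNReal.ofReal_one, ← ENNReal.ofReal_sub _ (by norm_num)]
          norm_num
      _ ≤ 1 - μ (A3 ∪ A4) := tsub_le_tsub_left h1 _
  · intro ω hω w hw t ht
    rw [Set.mem_compl_iff, Set.mem_union, not_or] at hω
    rcases hw with hw | hw
    · refine hA3' ω hω.1 w ?_ t ht
      refine hw.trans (le_of_eq ?_)
      rw [abs_of_pos (by positivity)]
      field_simp
      norm_num
    · refine hA4' ω hω.2 w ?_ t ht
      refine hw.trans (le_of_eq ?_)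
      rw [abs_neg, abs_of_pos (by positivity)]
      field_simp
      norm_num

end MainEvent2Aux

open MainEvent2Aux in
/-- H1 MAIN2. -/
theorem main_event2 [IsProbabilityMeasure μ] (hab : a + b ≤ 1 / 1000) :
    ∃ T₀ > 0, ∃ p > 0, ∀ W : ℝ → Ω → ℂ, Gau a b c K W μ →
      ∃ A, MeasurableSet[Fut W 0] A ∧ μ A ≤ ENNReal.ofReal (1 - p) ∧
        ∀ ω ∉ A, ∀ z : ℂ, ‖z‖ < 1 → (∃ g, Sol (fun t => W t ω) z T₀ g) →
          ∀ t, 0 ≤ t → ∃ g, Sol (fun t => W t ω) z t g := by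
  have hS := SS_pos
  have hS56 := SS_ge
  have hS2 : 56 ≤ SS ^ 2 := by nlinarith
  have hsq : √(SS ^ 2) = SS := Real.sqrt_sq hS.le
  obtain ⟨p₂, hp₂, hsb⟩ := small_ball (μ := μ) a b c K (T := SS ^ 2 - 2) (η := 1 / 11)
    (by linarith) (by norm_num)
  refine ⟨SS ^ 2, by positivity, 11 / 20 * p₂ * (3 / 4), by positivity, fun W hW => ?_⟩
  have hD : Drv a b c K W μ := hW.toDrv
  obtain ⟨A1, hA1m, hA1, hA1'⟩ := bad_small2 hab hD
  obtain ⟨G2, hG2m, hG2, hG2'⟩ := hsb _ (hW.subP (s := 2) (r := 1) (by norm_num) one_pos)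
  obtain ⟨G3, hG3m, hG3, hG3'⟩ := future_event hD hab
  have hG2B : MeasurableSet[Blk W 2 (SS ^ 2)] G2 := by
    have h1 := Blk_sub_le (W := W) (s := 2) (r := 1) (by norm_num) one_pos (SS ^ 2 - 2)
    rw [show (2 : ℝ) + 1 ^ 2 * (SS ^ 2 - 2) = SS ^ 2 by ring] at h1
    exact h1 _ hG2m
  have hG2F : MeasurableSet[Fut W 2] G2 := Blk_le_Fut 2 _ _ hG2B
  have hG20 : MeasurableSet[Blk W 0 (SS ^ 2)] G2 :=
    Blk_le_Blk (by norm_num) le_rfl _ hG2B
  have hA10 : MeasurableSet[Blk W 0 (SS ^ 2)] A1 :=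
    Blk_le_Blk le_rfl (by linarith) _ hA1m
  have hG12 : MeasurableSet[Blk W 0 (SS ^ 2)] (A1ᶜ ∩ G2) := hA10.compl.inter hG20
  have hi1 : μ (A1ᶜ ∩ G2) = μ A1ᶜ * μ G2 :=
    (ProbabilityTheory.Indep_iff _ _ μ).mp (indep_Blk_Fut hD (s := 2) (by norm_num)) _ _
      hA1m.compl hG2F
  have hi2 : μ (A1ᶜ ∩ G2 ∩ G3) = μ (A1ᶜ ∩ G2) * μ G3 :=
    (ProbabilityTheory.Indep_iff _ _ μ).mp (indep_Blk_Fut hD (s := SS ^ 2) (by positivity)) _ _
      hG12 hG3m
  have hA1c : ENNReal.ofReal (11 / 20) ≤ μ A1ᶜ := by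
    rw [prob_compl_eq_one_sub (Blk_le hD _ _ _ hA1m)]
    calc ENNReal.ofReal (11 / 20) = 1 - ENNReal.ofReal (9 / 20) := by
          rw [← ENNReal.ofReal_one, ← ENNReal.ofReal_sub _ (by norm_num)]
          norm_num
      _ ≤ 1 - μ A1 := tsub_le_tsub_left hA1 _
  have hF0 : Fut W (SS ^ 2) ≤ Fut W 0 := Fut_anti (by positivity)
  have hmG : MeasurableSet[Fut W 0] (A1ᶜ ∩ G2 ∩ G3) :=
    MeasurableSet.inter (Blk_le_Fut 0 _ _ hG12) (hF0 _ hG3m)
  refine ⟨(A1ᶜ ∩ G2 ∩ G3)ᶜ, hmG.compl, ?_, ?_⟩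
  · rw [prob_compl_eq_one_sub (Fut_le hD _ _ hmG), ENNReal.ofReal_sub _ (by positivity),
      ENNReal.ofReal_one]
    refine tsub_le_tsub_left ?_ _
    rw [hi2, hi1, ENNReal.ofReal_mul (by positivity), ENNReal.ofReal_mul (by positivity)]
    gcongr
  · intro ω hω z hz hg t ht
    rw [Set.mem_compl_iff, not_not] at hω
    obtain ⟨⟨hω1, hω2⟩, hω3⟩ := hω
    obtain ⟨g, hg⟩ := hg
    rcases le_total t (SS ^ 2) with htT | htT
    · exact ⟨g, Sol.restrict hg htT⟩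
    obtain ⟨htube, hbad⟩ := hA1' ω hω1
    have h2 : 1 ≤ ‖g 2 - W 2 ω‖ := hbad z g hz (Sol.restrict hg (by linarith))
    have htube2 : ∀ t ∈ Set.Icc 2 (SS ^ 2), ‖W t ω‖ ≤ 2 / 11 := by
      intro s hs
      have h3 := hG2' ω hω2 (s - 2) ⟨by linarith [hs.1], by linarith [hs.2]⟩
      have h4 : subP W 2 1 (s - 2) ω = W s ω - W 2 ω := by
        have hm : max (s - 2) 0 = s - 2 := max_eq_left (by linarith [hs.1])
        simp only [subP, psub, hm, inv_one, one_smul, one_pow, one_mul, add_sub_cancel]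
      rw [h4] at h3
      have h5 := htube 2 ⟨by norm_num, le_rfl⟩
      have h6 : ‖W s ω‖ ≤ ‖W s ω - W 2 ω‖ + ‖W 2 ω‖ := by
        have := norm_add_le (W s ω - W 2 ω) (W 2 ω)
        rwa [sub_add_cancel] at this
      linarith
    have hcl := cluster2 (hD.cont ω) (hD.zero 0 le_rfl ω) (T := SS ^ 2) (by linarith)
      htube htube2 hz hg h2
    rw [hsq] at hcl
    obtain ⟨g', hg'⟩ := hG3' ω hω3 (g (SS ^ 2) - W (SS ^ 2) ω) hcl (t - SS ^ 2) (by linarith)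
    have hg'' : Sol (psub (fun t => W t ω) (SS ^ 2) 1)
        ((1 : ℝ)⁻¹ • (g (SS ^ 2) - W (SS ^ 2) ω)) (t - SS ^ 2) g' := by
      rw [inv_one, one_smul]
      exact hg'
    obtain ⟨g'', hg3⟩ := Sol.concat hg (by positivity) one_pos (by linarith) hg''
    exact ⟨g'', Sol.restrict hg3 (by linarith)⟩

end

end Pool.Agent.SLE
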