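import Pool.Agent.Lib.MP_c17912_pr.Defs

/-!
# The square of a solution of the Loewner equation (module SQ of MP_c17912_pr)

`sq_deriv`: estimates for the derivative of `g ^ 2` while `‖g‖` is at least twice the tube width.
`SqAux.inc`: the integrated form on an interval. `SqAux.first_hit`, `SqAux.last_hit`: first and
last time at which a continuous function takes a level.
-/

set_option autoImplicit false

open MeasureTheory ProbabilityTheory Filter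
open scoped NNReal ENNReal Topology

namespace Pool.Agent.SLE

noncomputable section

variable {Ω : Type*} [MeasurableSpace Ω] {μ : Measure Ω} {a b c K : ℝ} {W : ℝ → Ω → ℂ}

/-- A4 SQ. The basic estimates for `φ = g ^ 2` while `|g|` is at least twice the tube width. -/
theorem sq_deriv {U : ℝ → ℂ} {z : ℂ} {t : ℝ} {g : ℝ → ℂ} (h : Sol U z t g) {s : ℝ}
    (hs : s ∈ Set.Icc 0 t) (hUs : ‖U s‖ ≤ 1 / 20) (hg : 1 / 10 ≤ ‖g s‖) :
    ∃ d : ℂ, HasDerivWithinAt (fun τ => g τ ^ 2) d (Set.Icc 0 t) s ∧ ‖d‖ ≤ 8 ∧ 8 / 3 ≤ d.re ∧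
      ‖d - 4‖ ≤ 2 / (5 * ‖g s‖) := by
  obtain ⟨_, hne, hd⟩ := h
  have hD : g s - U s ≠ 0 := sub_ne_zero.mpr (hne s hs)
  have hgpos : 0 < ‖g s‖ := by linarith
  have hg0 : g s ≠ 0 := norm_pos_iff.mp hgpos
  obtain ⟨w, hw⟩ : ∃ w, w = U s / g s := ⟨_, rfl⟩
  have hUw : U s = w * g s := by rw [hw]; field_simp
  have hwn : ‖w‖ = ‖U s‖ / ‖g s‖ := by rw [hw, norm_div]
  have hwg : ‖w‖ * ‖g s‖ ≤ 1 / 20 := by
    rw [hwn, div_mul_cancel₀ _ hgpos.ne']; exact hUs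
  have hw2 : ‖w‖ ≤ 1 / 2 := by
    by_contra hcon
    push Not at hcon
    nlinarith
  have hw1 : (1 : ℂ) - w ≠ 0 := by
    intro h0
    apply hD
    rw [hUw]
    linear_combination g s * h0
  have h1w : 1 / 2 ≤ ‖(1 : ℂ) - w‖ := by
    have := norm_sub_norm_le (1 : ℂ) w
    rw [norm_one] at this
    linarith
  have h1pos : 0 < ‖(1 : ℂ) - w‖ := by linarith
  refine ⟨4 / (1 - w), ?_, ?_, ?_, ?_⟩
  · have h2 := (hd s hs).pow 2
    refine h2.congr_deriv ?_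
    have h3 : g s - U s = g s * (1 - w) := by rw [hUw]; ring
    rw [h3]
    field_simp
    norm_num
    ring
  · rw [norm_div, Complex.norm_ofNat, div_le_iff₀ h1pos]
    linarith
  · have h4 : (4 / (1 - w)).re = 4 * (1 - w.re) / ‖(1 : ℂ) - w‖ ^ 2 := by
      rw [Complex.div_re, Complex.sq_norm]
      simp
    have h5 : ‖(1 : ℂ) - w‖ ^ 2 = 1 - 2 * w.re + ‖w‖ ^ 2 := by
      rw [Complex.sq_norm, Complex.sq_norm, Complex.normSq_apply, Complex.normSq_apply]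
      simp
      ring
    have h6 : |w.re| ≤ ‖w‖ := Complex.abs_re_le_norm w
    have h7 := neg_abs_le w.re
    have h8 : 0 ≤ ‖w‖ := norm_nonneg w
    rw [h4, le_div_iff₀ (by positivity), h5]
    nlinarith
  · have h4 : 4 / (1 - w) - 4 = 4 * w / (1 - w) := by
      field_simp
      ring
    rw [h4, norm_div, norm_mul, Complex.norm_ofNat, div_le_div_iff₀ h1pos (by positivity)]
    nlinarith

namespace SqAux

/-- Integrated form of `sq_deriv` on an interval. -/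
theorem inc {U : ℝ → ℂ} {z : ℂ} {t : ℝ} {g : ℝ → ℂ} (h : Sol U z t g) {u v : ℝ} (hu : 0 ≤ u)
    (huv : u ≤ v) (hvt : v ≤ t) (hU : ∀ s ∈ Set.Icc u v, ‖U s‖ ≤ 1 / 20)
    (hg : ∀ s ∈ Set.Icc u v, 1 / 10 ≤ ‖g s‖) :
    ‖g v ^ 2 - g u ^ 2‖ ≤ 8 * (v - u) ∧ 8 / 3 * (v - u) ≤ (g v ^ 2).re - (g u ^ 2).re := by
  have hsub : Set.Icc u v ⊆ Set.Icc 0 t := Set.Icc_subset_Icc hu hvt
  have key : ∀ s ∈ Set.Icc u v, ∃ d : ℂ,
      HasDerivWithinAt (fun τ => g τ ^ 2) d (Set.Icc u v) s ∧ ‖d‖ ≤ 8 ∧ 8 / 3 ≤ d.re := by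
    intro s hs
    obtain ⟨d, h1, h2, h3, _⟩ := sq_deriv h (hsub hs) (hU s hs) (hg s hs)
    exact ⟨d, h1.mono hsub, h2, h3⟩
  choose! d hd1 hd2 hd3 using key
  have hu' : u ∈ Set.Icc u v := ⟨le_rfl, huv⟩
  have hv' : v ∈ Set.Icc u v := ⟨huv, le_rfl⟩
  constructor
  · have h1 := (convex_Icc u v).norm_image_sub_le_of_norm_hasDerivWithin_le hd1 hd2 hu' hv'
    rwa [Real.norm_of_nonneg (by linarith)] at h1
  · have hre : ∀ s ∈ Set.Icc u v,
        HasDerivWithinAt (fun τ => (g τ ^ 2).re) (d s).re (Set.Icc u v) s := by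
      intro s hs
      have := Complex.reCLM.hasFDerivAt.comp_hasDerivWithinAt s (hd1 s hs)
      exact this
    have hint : ∀ s ∈ interior (Set.Icc u v), HasDerivAt (fun τ => (g τ ^ 2).re) (d s).re s := by
      intro s hs
      exact (hre s (interior_subset hs)).hasDerivAt (mem_interior_iff_mem_nhds.mp hs)
    exact (convex_Icc u v).mul_sub_le_image_sub_of_le_deriv
      (fun s hs => (hre s hs).continuousWithinAt)
      (fun s hs => (hint s hs).differentiableAt.differentiableWithinAt)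
      (fun s hs => by rw [(hint s hs).deriv]; exact hd3 s (interior_subset hs)) u hu' v hv' huv

/-- First time at which a continuous function takes a level. -/
theorem first_hit {f : ℝ → ℝ} {u v r : ℝ} (hf : ContinuousOn f (Set.Icc u v)) (hu : r < f u)
    (hv : ∃ s ∈ Set.Icc u v, f s ≤ r) :
    ∃ s₁ ∈ Set.Icc u v, f s₁ = r ∧ ∀ s ∈ Set.Icc u s₁, r ≤ f s := by
  have hclosed : IsCompact (Set.Icc u v ∩ f ⁻¹' Set.Iic r) :=
    isCompact_Icc.of_isClosed_subset (hf.preimage_isClosed_of_isClosed isClosed_Icc isClosed_Iic)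
      Set.inter_subset_left
  obtain ⟨s₀, hs₀, hs₀'⟩ := hv
  obtain ⟨s₁, ⟨hs₁, hs₁'⟩, hl⟩ := hclosed.exists_isLeast ⟨s₀, hs₀, hs₀'⟩
  have hcont : ContinuousOn f (Set.Icc u s₁) := hf.mono (Set.Icc_subset_Icc le_rfl hs₁.2)
  have hr : r ∈ Set.Icc (f s₁) (f u) := ⟨hs₁', hu.le⟩
  obtain ⟨s₂, hs₂, hs₂'⟩ := intermediate_value_Icc' hs₁.1 hcont hr
  have h12 : s₁ ≤ s₂ := hl ⟨⟨hs₂.1, hs₂.2.trans hs₁.2⟩, hs₂'.le⟩
  have h12' : s₂ = s₁ := le_antisymm hs₂.2 h12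
  refine ⟨s₁, hs₁, h12' ▸ hs₂', fun s hs => ?_⟩
  by_contra hcon
  push Not at hcon
  have h3 : s₁ ≤ s := hl ⟨⟨hs.1, hs.2.trans hs₁.2⟩, hcon.le⟩
  have h4 : s = s₁ := le_antisymm hs.2 h3
  rw [h4, ← h12', hs₂'] at hcon
  exact lt_irrefl _ hcon

/-- Last time at which a continuous function takes a level. -/
theorem last_hit {f : ℝ → ℝ} {u v r : ℝ} (hf : ContinuousOn f (Set.Icc u v)) (hu : r < f v)
    (hv : ∃ s ∈ Set.Icc u v, f s ≤ r) :
    ∃ s₁ ∈ Set.Icc u v, f s₁ = r ∧ ∀ s ∈ Set.Icc s₁ v, r ≤ f s := by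
  have hclosed : IsCompact (Set.Icc u v ∩ f ⁻¹' Set.Iic r) :=
    isCompact_Icc.of_isClosed_subset (hf.preimage_isClosed_of_isClosed isClosed_Icc isClosed_Iic)
      Set.inter_subset_left
  obtain ⟨s₀, hs₀, hs₀'⟩ := hv
  obtain ⟨s₁, ⟨hs₁, hs₁'⟩, hl⟩ := hclosed.exists_isGreatest ⟨s₀, hs₀, hs₀'⟩
  have hcont : ContinuousOn f (Set.Icc s₁ v) := hf.mono (Set.Icc_subset_Icc hs₁.1 le_rfl)
  have hr : r ∈ Set.Icc (f s₁) (f v) := ⟨hs₁', hu.le⟩
  obtain ⟨s₂, hs₂, hs₂'⟩ := intermediate_value_Icc hs₁.2 hcont hr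
  have h12 : s₂ ≤ s₁ := hl ⟨⟨hs₁.1.trans hs₂.1, hs₂.2⟩, hs₂'.le⟩
  have h12' : s₂ = s₁ := le_antisymm h12 hs₂.1
  refine ⟨s₁, hs₁, h12' ▸ hs₂', fun s hs => ?_⟩
  by_contra hcon
  push Not at hcon
  have h3 : s ≤ s₁ := hl ⟨⟨hs₁.1.trans hs.1, hs.2⟩, hcon.le⟩
  have h4 : s = s₁ := le_antisymm h3 hs.1
  rw [h4, ← h12', hs₂'] at hcon
  exact lt_irrefl _ hcon

end SqAux

end

end Pool.Agent.SLE
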