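import Pool.Agent.Lib.MP_c17912_pr.Defs
import Pool.Agent.Lib.MP_c17912_pr.Flow
import Pool.Agent.Lib.MP_c17912_pr.Grow
import Pool.Agent.Lib.MP_c17912_pr.DrvSub
import Pool.Agent.Lib.MP_c17912_pr.Markov
import Pool.Agent.Lib.MP_c17912_pr.Maxi

set_option autoImplicit false

open MeasureTheory ProbabilityTheory Filter
open scoped NNReal ENNReal Topology

namespace Pool.Agent.SLE

noncomputable section

variable {Ω : Type*} [MeasurableSpace Ω] {μ : Measure Ω} {a b c K : ℝ} {W : ℝ → Ω → ℂ}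

namespace ZeroOneAux

/-- A point alive at time `k + r² T₀` is alive forever, if this is so for the path after
time `k` at scale `r`. -/
theorem alive_forever {U : ℝ → ℂ} (hU : Continuous U) {R m k r T₀ : ℝ} (hk : 0 ≤ k)
    (hr : 0 < r) (hT : 0 < T₀) (hm : ∀ s ∈ Set.Icc 0 k, ‖U s‖ ≤ m)
    (hR : R + 2 * m + 3 * √k ≤ r)
    (H : ∀ z : ℂ, ‖z‖ < 1 → (∃ g, Sol (psub U k r) z T₀ g) →
      ∀ t, 0 ≤ t → ∃ g, Sol (psub U k r) z t g) {z : ℂ} (hz : ‖z‖ < R)
    (hs : ∃ g, Sol U z (k + r ^ 2 * T₀) g) : ∀ t, 0 ≤ t → ∃ g, Sol U z t g := by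
  obtain ⟨g, hg⟩ := hs
  have hr2 : 0 < r ^ 2 := by positivity
  have hle : k ≤ k + r ^ 2 * T₀ := le_add_of_nonneg_right (by positivity)
  have h1 : Sol U z k g := hg.restrict hle
  have h2 := growth hU hk h1 hm
  have h3 : ‖r⁻¹ • (g k - U k)‖ < 1 := by
    rw [norm_smul, Real.norm_eq_abs, abs_of_pos (inv_pos.2 hr), inv_mul_lt_iff₀ hr, mul_one]
    linarith
  have h4 := hg.shift hk hle hr
  have h5 : (k + r ^ 2 * T₀ - k) / r ^ 2 = T₀ := by
    field_simp
    ring
  rw [h5] at h4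
  intro t ht
  obtain ⟨g', hg'⟩ := H _ h3 ⟨_, h4⟩ (t / r ^ 2) (by positivity)
  obtain ⟨g'', hg''⟩ := h1.concat hk hr (by positivity) hg'
  refine ⟨g'', hg''.restrict ?_⟩
  have h6 : r ^ 2 * (t / r ^ 2) = t := by field_simp
  rw [h6]
  linarith

/-- Points of the ball which are alive at time `T` are alive forever, hence the hulls agree
in the ball. -/
theorem hull_eq {U : ℝ → ℂ} {R T : ℝ}
    (H : ∀ z : ℂ, ‖z‖ < R → (∃ g, Sol U z T g) → ∀ t, 0 ≤ t → ∃ g, Sol U z t g)
    (hT : 0 < T) : ∀ t ≥ T, hull U t ∩ Metric.ball 0 R = hull U T ∩ Metric.ball 0 R := by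
  intro t ht
  ext z
  simp only [Set.mem_inter_iff, Metric.mem_ball, dist_zero_right]
  constructor
  · rintro ⟨h1, h2⟩
    refine ⟨fun h3 => h1 (H z h2 h3 t (hT.le.trans ht)), h2⟩
  · rintro ⟨h1, h2⟩
    refine ⟨fun h3 => h1 ?_, h2⟩
    obtain ⟨g, hg⟩ := h3
    exact ⟨g, hg.restrict ht⟩

/-- A set of the tail type: if `μ (B ∩ N) ≤ μ B / 2` on all the sigma-algebras of a filtration
which generates `N`, then `N` is a null set. -/
theorem null_of_half {Ω : Type*} {m0 : MeasurableSpace Ω} {μ : Measure Ω}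
    [IsProbabilityMeasure μ] (F : Filtration ℕ m0) {N : Set Ω}
    (hN : MeasurableSet[⨆ n, F n] N)
    (h : ∀ (j : ℕ) (B : Set Ω), MeasurableSet[F j] B → μ (B ∩ N) ≤ μ B / 2) : μ N = 0 := by
  have hle : ⨆ n, F n ≤ m0 := iSup_le fun n => F.le n
  have hN0 : MeasurableSet N := hle _ hN
  set g : Ω → ℝ := N.indicator 1 with hg
  have hint : Integrable g μ := (integrable_const (1 : ℝ)).indicator hN0
  have hgm : StronglyMeasurable[⨆ n, F n] g :=
    StronglyMeasurable.indicator (@stronglyMeasurable_one _ _ (⨆ n, F n) _ _) hN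
  have hc := hint.tendsto_ae_condExp (ℱ := F) hgm
  have hhalf : ∀ n : ℕ, ∀ᵐ x ∂μ, (μ[g | F n]) x ≤ 1 / 2 := by
    intro n
    have h1 : μ[g | F n] ≤ᵐ[μ.trim (F.le n)] fun _ => (1 / 2 : ℝ) := by
      refine ae_le_of_forall_setIntegral_le (integrable_condExp.trim _ stronglyMeasurable_condExp)
        (integrable_const _) fun s hs _ => ?_
      rw [← setIntegral_trim (F.le n) stronglyMeasurable_condExp hs,
        setIntegral_condExp (F.le n) hint hs, setIntegral_const, hg,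
        integral_indicator_one hN0, smul_eq_mul]
      have h2 := h n s hs
      rw [measureReal_def, measureReal_def, Measure.restrict_apply hN0, trim_measurableSet_eq _ hs,
        Set.inter_comm]
      have h3 := ENNReal.toReal_mono (ENNReal.div_ne_top (measure_ne_top μ s) (by norm_num)) h2
      rw [ENNReal.toReal_div] at h3
      simpa [div_eq_mul_inv] using h3
    exact ae_le_of_ae_le_trim h1
  have hfin : ∀ᵐ x ∂μ, g x ≤ 1 / 2 := by
    filter_upwards [hc, ae_all_iff.2 hhalf] with x hx1 hx2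
    exact le_of_tendsto' hx1 hx2
  rw [ae_iff] at hfin
  refine measure_mono_null (fun x hx => ?_) hfin
  simp only [hg, Set.mem_ofPred_eq, Set.indicator_of_mem hx, Pi.one_apply]
  norm_num

/-- The decay of the exceptional probabilities. -/
theorem tendsto_small (x : ℝ) :
    Tendsto (fun k : ℕ => ENNReal.ofReal (x * ((k : ℝ) + 1) / ((k : ℝ) + 2) ^ 2)) atTop (𝓝 0) := by
  rw [← ENNReal.ofReal_zero]
  refine (ENNReal.continuous_ofReal.tendsto 0).comp ?_
  have h1 : Tendsto (fun k : ℕ => |x| * (1 / ((k : ℝ) + 1))) atTop (𝓝 (|x| * 0)) :=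
    tendsto_one_div_add_atTop_nhds_zero_nat.const_mul _
  rw [mul_zero] at h1
  refine squeeze_zero_norm (fun k => ?_) h1
  have hk : (0 : ℝ) ≤ k := Nat.cast_nonneg k
  rw [norm_div, norm_mul, Real.norm_eq_abs, Real.norm_of_nonneg (by positivity : (0:ℝ) ≤ k + 1),
    Real.norm_of_nonneg (by positivity : (0:ℝ) ≤ ((k : ℝ) + 2) ^ 2), mul_one_div,
    div_le_div_iff₀ (by positivity) (by positivity)]
  have := abs_nonneg x
  have h2 : ((k : ℝ) + 1) * (k + 1) ≤ (k + 2) ^ 2 := by nlinarith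
  calc |x| * (k + 1) * (k + 1) = |x| * ((k + 1) * (k + 1)) := by ring
    _ ≤ |x| * (k + 2) ^ 2 := mul_le_mul_of_nonneg_left h2 this

end ZeroOneAux

/-- E2 ZERO-ONE. -/
theorem ae_transient [IsProbabilityMeasure μ] (hW : Drv a b c K W μ) {T₀ : ℝ} (hT : 0 < T₀)
    (H : ∀ W' : ℝ → Ω → ℂ, Drv a b c K W' μ →
      ∃ A, MeasurableSet[Fut W' 0] A ∧ μ A ≤ ENNReal.ofReal (1 / 2) ∧
        ∀ ω ∉ A, ∀ z : ℂ, ‖z‖ < 1 → (∃ g, Sol (fun t => W' t ω) z T₀ g) →
          ∀ t, 0 ≤ t → ∃ g, Sol (fun t => W' t ω) z t g) :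
    ∀ᵐ ω ∂μ, Transient (fun t => W t ω) := by
  have key : ∀ n : ℕ, ∀ᵐ ω ∂μ, ∃ T > 0, ∀ z : ℂ, ‖z‖ < n →
      (∃ g, Sol (fun t => W t ω) z T g) → ∀ t, 0 ≤ t → ∃ g, Sol (fun t => W t ω) z t g := by
    intro n
    set s : ℕ → ℝ := fun k => n + 2 * ((k : ℝ) + 2) + 3 * √((k : ℝ) + 1) with hs
    have hs0 : ∀ k, 0 < s k := fun k => by positivity
    have hk0 : ∀ k : ℕ, (0 : ℝ) < (k : ℝ) + 1 := fun k => by positivity
    have h1 := fun k : ℕ => H (subP W ((k : ℝ) + 1) (s k)) (hW.sub (hk0 k).le (hs0 k))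
    have h2 := fun k : ℕ => maximal hW (hk0 k) (l := (k : ℝ) + 2) (by positivity)
    choose A hA1 hA2 hA3 using h1
    choose A' hA1' hA2' hA3' using h2
    set N : Set Ω := ⋂ k, (A k ∪ A' k) with hN
    have hNnull : μ N = 0 := by
      refine ZeroOneAux.null_of_half
        ({ seq := fun j : ℕ => Blk W 0 j
           mono' := fun i j hij => Blk_le_Blk le_rfl (Nat.cast_le.2 hij)
           le' := fun j => Blk_le hW 0 j } : Filtration ℕ inferInstance) (N := N) ?_ ?_
      · refine Fut_le_iSup _ ?_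
        refine MeasurableSet.iInter fun k => MeasurableSet.union ?_ ?_
        · exact Fut_anti (hk0 k).le _ (Fut_sub_le (hk0 k).le (hs0 k) _ (hA1 k))
        · exact Blk_le_Fut _ _ _ (hA1' k)
      · intro j B hB
        have hB' : MeasurableSet[Blk W 0 j] B := hB
        have hlim : Tendsto (fun k : ℕ => μ B / 2 +
            ENNReal.ofReal ((a + b) * ((k : ℝ) + 1) / ((k : ℝ) + 2) ^ 2)) atTop
            (𝓝 (μ B / 2 + 0)) := tendsto_const_nhds.add (ZeroOneAux.tendsto_small _)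
        rw [add_zero] at hlim
        refine ge_of_tendsto hlim ?_
        filter_upwards [eventually_ge_atTop j] with k hk
        have hjk : (j : ℝ) ≤ (k : ℝ) + 1 := by
          have : (j : ℝ) ≤ k := Nat.cast_le.2 hk
          linarith
        have hBk : MeasurableSet[Blk W 0 ((k : ℝ) + 1)] B := Blk_le_Blk le_rfl hjk _ hB'
        have hAk : MeasurableSet[Fut W ((k : ℝ) + 1)] (A k) :=
          Fut_sub_le (hk0 k).le (hs0 k) _ (hA1 k)
        have hind := (Indep_iff _ _ _).1 (indep_Blk_Fut hW (hk0 k).le) B (A k) hBk hAk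
        calc μ (B ∩ N) ≤ μ ((B ∩ A k) ∪ A' k) := by
              refine measure_mono fun x hx => ?_
              rcases Set.mem_iInter.1 hx.2 k with h | h
              · exact Or.inl ⟨hx.1, h⟩
              · exact Or.inr h
          _ ≤ μ (B ∩ A k) + μ (A' k) := measure_union_le _ _
          _ ≤ μ B / 2 + ENNReal.ofReal ((a + b) * ((k : ℝ) + 1) / ((k : ℝ) + 2) ^ 2) := by
              refine add_le_add ?_ (hA2' k)
              rw [hind, div_eq_mul_inv]
              refine mul_le_mul_right ((hA2 k).trans ?_) _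
              rw [one_div, ENNReal.ofReal_inv_of_pos (by norm_num)]
              simp
    have hae : ∀ᵐ ω ∂μ, ω ∉ N := measure_eq_zero_iff_ae_notMem.1 hNnull
    filter_upwards [hae] with ω hω
    simp only [hN, Set.mem_iInter, not_forall, Set.mem_union, not_or] at hω
    obtain ⟨k, hk1, hk2⟩ := hω
    refine ⟨(k : ℝ) + 1 + s k ^ 2 * T₀, by have := hk0 k; positivity, fun z hz hzs => ?_⟩
    exact ZeroOneAux.alive_forever (hW.cont ω) (hk0 k).le (hs0 k) hT (hA3' k ω hk2) (by rw [hs])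
      (fun z' hz' hzs' => hA3 k ω hk1 z' hz' hzs') hz hzs
  filter_upwards [ae_all_iff.2 key] with ω hω R hR
  obtain ⟨T, hT0, hT1⟩ := hω ⌈R⌉₊
  refine ⟨T, hT0, ZeroOneAux.hull_eq (fun z hz => hT1 z (hz.trans_le (Nat.le_ceil R))) hT0⟩

end

end Pool.Agent.SLE
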